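import Pool.Agent.Helper95.CFBasic

/-!
MP_717b2e_co, upper bound: the weight of a matching with respect to the line through `0` and `n`,
and the predicate `Val`.
-/

namespace Pool.Agent.Helper95.CF

open Finset

variable {n : ℕ}

/-- weight of the chord `x < y` with respect to the line through `0` and `n`:
the needle `0, n` has weight 0, other chords at `0` or `n` weight 1, chords crossing the line
weight 1, chords on one side weight 2 if the smaller offset is even, else 0. -/
def uw (n x y : ℕ) : ℕ :=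
  if x = 0 then (if y = n then 0 else 1)
  else if x = n ∨ y = n then 1
  else if x < n then (if n < y then 1 else if x % 2 = 0 then 2 else 0)
  else (if (x - n) % 2 = 0 then 2 else 0)

/-- symmetric weight -/
def ws (n x y : ℕ) : ℕ := if x < y then uw n x y else uw n y x

lemma ws_comm (n x y : ℕ) : ws n x y = ws n y x := by
  unfold ws
  rcases lt_trichotomy x y with h | h | h
  · rw [if_pos h, if_neg (by omega)]
  · subst h; rfl
  · rw [if_neg (by omega), if_pos h]

/-- total weight; every edge is counted twice -/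
def U (M : NCM n) : ℤ := ∑ x ∈ range (2 * n), (ws n x (M.p x) : ℤ)

/-- `Val M v`: the line through `0` and `n` can be aligned from `M` at cost at most
`ideal + v` -/
def Val (M : NCM n) (v : ℤ) : Prop :=
  ∃ (R : NCM n) (k : ℕ), R.p 0 = n ∧ DistLe M R k ∧ 2 * (k : ℤ) + U R ≤ U M - 2 + 2 * v

lemma Val.mono {M : NCM n} {v w : ℤ} (h : Val M v) (hvw : v ≤ w) : Val M w := by
  obtain ⟨R, k, h1, h2, h3⟩ := h
  exact ⟨R, k, h1, h2, by omega⟩

lemma Val.aligned {M : NCM n} (h : M.p 0 = n) : Val M 1 :=
  ⟨M, 0, h, DistLe.refl M 0, by push_cast; omega⟩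

lemma Val.step {M N : NCM n} {k : ℕ} {v w : ℤ} (h : DistLe M N k) (hv : Val N v)
    (hw : 2 * (k : ℤ) + (U N - U M) + 2 * v ≤ 2 * w) : Val M w := by
  obtain ⟨R, l, h1, h2, h3⟩ := hv
  exact ⟨R, k + l, h1, h.trans h2, by push_cast; omega⟩

lemma U_nonneg (M : NCM n) : 0 ≤ U M := Finset.sum_nonneg fun _ _ => by positivity

section Ins

variable {k : ℕ} {P : Fin k → ℕ} {pr : Fin k → Bool} {f : ℕ → ℕ} {σ τ : Fin k → Fin k}

/-- weight of the background -/
noncomputable def Ubg (n : ℕ) {k : ℕ} (P : Fin k → ℕ) (pr : Fin k → Bool) (f : ℕ → ℕ) : ℤ :=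
  ∑ x ∈ (range (2 * n)) \ ((univ.filter fun i => pr i = true).image P), (ws n x (f x) : ℤ)

lemma U_ins (B : Bg n k P pr f) (S : Sym k pr σ) :
    U (ins B S) = Ubg n P pr f +
      ∑ i : Fin k, (if pr i = true then (ws n (P i) (P (σ i)) : ℤ) else 0) := by
  have hsub : ((univ.filter fun i => pr i = true).image P) ⊆ range (2 * n) := by
    intro x hx
    simp only [mem_image, mem_filter, mem_univ, true_and] at hx
    obtain ⟨i, hi, rfl⟩ := hx
    exact mem_range.2 (B.lt i hi)
  unfold U
  rw [← Finset.sum_sdiff hsub]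
  congr 1
  · apply Finset.sum_congr rfl
    intro x hx
    rw [mem_sdiff, mem_range] at hx
    rw [ins_unnamed B S hx.1]
    intro i hi he
    apply hx.2
    simp only [mem_image, mem_filter, mem_univ, true_and]
    exact ⟨i, hi, he⟩
  · rw [Finset.sum_image]
    · rw [Finset.sum_filter]
      apply Finset.sum_congr rfl
      intro i _
      by_cases hi : pr i = true
      · rw [if_pos hi, if_pos hi, ins_named B S hi]
      · rw [if_neg hi, if_neg hi]
    · intro i hi j hj hij
      simp only [coe_filter, mem_univ, true_and, Set.mem_setOf_eq] at hi hj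
      exact B.inj hi hj hij

/-- difference of the weights of two inserted matchings -/
lemma U_ins_sub (B : Bg n k P pr f) (S : Sym k pr σ) (S' : Sym k pr τ) :
    U (ins B S') - U (ins B S) =
      ∑ i : Fin k, (if pr i = true then (ws n (P i) (P (τ i)) : ℤ) - ws n (P i) (P (σ i)) else 0) := by
  rw [U_ins, U_ins, add_sub_add_left_eq_sub, ← Finset.sum_sub_distrib]
  apply Finset.sum_congr rfl
  intro i _
  split_ifs <;> simp

end Ins

/-! weights in the various cases -/

lemma ws_needle {n : ℕ} (h : 0 < n) : ws n 0 n = 0 := by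
  unfold ws uw; simp [h]

lemma ws_zero {n y : ℕ} (h0 : 0 < y) (h : y ≠ n) : ws n 0 y = 1 := by
  unfold ws uw; simp [h0, h]

lemma ws_n {n y : ℕ} (h0 : 0 < y) (h : y ≠ n) (hn : 0 < n) : ws n n y = 1 := by
  unfold ws uw
  split_ifs <;> omega

lemma ws_cross {n x y : ℕ} (h0 : 0 < x) (h1 : x < n) (h2 : n < y) : ws n x y = 1 := by
  unfold ws uw
  split_ifs <;> omega

/-- weight of a chord on the A side -/
lemma ws_A {n x y : ℕ} (h0 : 0 < x) (h1 : x < y) (h2 : y < n) :
    ws n x y = if x % 2 = 0 then 2 else 0 := by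
  unfold ws uw
  split_ifs <;> omega

/-- weight of a chord on the B side -/
lemma ws_B {n x y : ℕ} (h0 : n < x) (h1 : x < y) :
    ws n x y = if (x - n) % 2 = 0 then 2 else 0 := by
  unfold ws uw
  split_ifs <;> omega

/-- weight of a chord from `[0, n-1]` to `[n, 2n-1]` which is not the needle -/
lemma ws_X {n x y : ℕ} (h1 : x < n) (h2 : n ≤ y) (h : x ≠ 0 ∨ y ≠ n) : ws n x y = 1 := by
  unfold ws uw
  split_ifs <;> omega

lemma ws_A_le {n x y : ℕ} (h1 : x < y) (h2 : y < n) :
    ws n x y ≤ if x % 2 = 0 then 2 else 0 := by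
  unfold ws uw
  split_ifs <;> omega

lemma ws_B_le {n x y : ℕ} (h0 : n ≤ x) (h1 : x < y) :
    ws n x y ≤ if (x - n) % 2 = 0 then 2 else 0 := by
  unfold ws uw
  split_ifs <;> omega

end Pool.Agent.Helper95.CF
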