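import Pool.Agent.Helper55.TM.Links

/-!
# MP_fc8395_an, module LS2 : the level curve seen from time `N`
-/

set_option autoImplicit false

open scoped ContDiff Topology
open Filter Set

namespace TM

namespace LS2

lemma Amp_pos (e ζ : ℝ) : 0 < Amp e ζ := by
  unfold Amp
  apply Real.sqrt_pos.2
  positivity

lemma Amp_sq (e ζ : ℝ) : Amp e ζ ^ 2 = 1 + e ^ 2 / Real.sin ζ ^ 2 := by
  unfold Amp
  exact Real.sq_sqrt (by positivity)

lemma contDiffOn_Amp (e : ℝ) : ContDiffOn ℝ ∞ (Amp e) (Ioo 0 Real.pi) := by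
  unfold Amp
  apply ContDiffOn.sqrt
  · apply ContDiffOn.add contDiffOn_const
    apply ContDiffOn.div contDiffOn_const
    · exact (Real.contDiff_sin.pow 2).contDiffOn
    · intro x hx
      exact pow_ne_zero 2 (Real.sin_pos_of_mem_Ioo hx).ne'
  · intro x hx
    positivity

lemma D_Psi (e ζ τ : ℝ) : D (Psi e ζ τ) = Amp e ζ * Real.sin ζ * Real.sin τ := by
  unfold D Psi
  simp only
  rw [Real.cos_add]
  ring

/-- a point of the surface with `z = cos ζ` and prescribed `y`, `D` -/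
lemma Psi_eq {e ζ τ : ℝ} {p : Pt} (hz : p.2.2 = Real.cos ζ)
    (hy : p.2.1 = Amp e ζ * Real.cos τ) (hD : D p = Amp e ζ * Real.sin ζ * Real.sin τ) :
    Psi e ζ τ = p := by
  have hx := x_eq p
  obtain ⟨x, y, z⟩ := p
  simp only at hz hy hx
  unfold Psi
  rw [hx, hD, hy, hz, Real.cos_add]
  ext
  · simp only
    ring
  · rfl
  · rfl

lemma contDiff_Psi_vert (e θ : ℝ) : ContDiff ℝ ∞ (fun t : ℝ => Psi e θ t) := by
  unfold Psi
  fun_prop

lemma cos_mem {x : ℝ} (hx : x ∈ Ioo 0 Real.pi) : Real.cos x ∈ Ioo (-1 : ℝ) 1 := by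
  constructor
  · have := Real.cos_lt_cos_of_nonneg_of_le_pi hx.1.le le_rfl hx.2
    rwa [Real.cos_pi] at this
  · have := Real.cos_lt_cos_of_nonneg_of_le_pi le_rfl hx.2.le hx.1
    rwa [Real.cos_zero] at this

end LS2

open LS2

theorem level_curve {e : ℝ} (he : 0 < e) : ∃ C : ℕ → ℝ, ∀ (k : ℕ → ℕ), (∀ i, 1 ≤ k i) →
    ∀ (N0 N : ℕ), N0 < N → ∀ q1 ∈ Dom, |F e k N q1| < 1 →
      ∃ w g : ℝ → ℝ, ContDiffOn ℝ ∞ w (Ioo (-1) 1) ∧ ContDiffOn ℝ ∞ g (Ioo 0 Real.pi) ∧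
        g q1.1 = q1.2 ∧
        (∀ x ∈ Ioo 0 Real.pi, F e k N (x, g x) = F e k N q1) ∧
        (∀ x ∈ Ioo 0 Real.pi, F e k N0 (x, g x) = w (Real.cos x)) ∧
        (∀ c ∈ Ioo (-1 : ℝ) 1, |w c| < B e → ∀ j, |iteratedDeriv j w c| ≤ C j) := by
  obtain ⟨Cg, hCg1, hCg⟩ := growth_coord he
  have hB0 : 0 ≤ B e := Real.sqrt_nonneg _
  have h1B := one_lt_B he
  have hBV := B_lt_V he
  have h1V := one_lt_V he
  choose C1 hC1 hRT using fun n => RT_all (a := B e) (c := V e) hB0 hBV n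
  choose C hC using fun n => tame_closure C1 (fun j => C1 j * Cg ^ j) n
  refine ⟨C, ?_⟩
  intro k hk N0 N hN q1 hq1 hF
  have hp0 : Psi e q1.1 q1.2 ∈ Surf e := Psi_mem hq1
  set p0 := Psi e q1.1 q1.2 with hp0def
  have hpN : sg (orb k N p0) ∈ Surf e := sg_mem (orb_mem hp0 k N)
  obtain ⟨q2, hq2, hPsi2⟩ := Psi_surj hpN (show |(orb k N p0).2.1| < 1 from hF)
  set θ := q2.1 with hθ
  set τs := q2.2 with hτs
  have hkr : ∀ i, 1 ≤ rev k N i := fun i => hk _
  have hθD : ∀ t : ℝ, ((θ, t) : ℝ × ℝ) ∈ Dom := fun t => hq2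
  have hcosθ : Real.cos θ = F e k N q1 := by
    have := congrArg (fun p : Pt => p.2.2) hPsi2
    exact this
  set G1 : ℝ → ℝ := fun t => F e (rev k N) N (θ, t) with hG1
  set G2 : ℝ → ℝ := fun t => F e (rev k N) (N - N0 - 1) (θ, t) with hG2
  have hG1τ : G1 τs = Real.cos q1.1 := by
    show (orb (rev k N) N (Psi e θ τs)).2.1 = Real.cos q1.1
    rw [hPsi2, orb_rev k N p0 N le_rfl, Nat.sub_self]
    rfl
  have RT1 : RT (V e) (dg (rev k N) N).1 G1 := RT_F he hkr hq2.1 hq2.2 N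
  have RT2 : RT (V e) (dg (rev k N) (N - N0 - 1)).1 G2 := RT_F he hkr hq2.1 hq2.2 _
  have d1 := dg_pos hkr N
  have d2 := dg_pos hkr (N - N0 - 1)
  have hd1 : ∀ t, deriv G1 t = dt (F e (rev k N) N) (θ, t) := fun t =>
    (dt_eq ((contDiffAt_F (hθD t)).differentiableAt (by simp))).symm
  have hd2 : ∀ t, deriv G2 t = dt (F e (rev k N) (N - N0 - 1)) (θ, t) := fun t =>
    (dt_eq ((contDiffAt_F (hθD t)).differentiableAt (by simp))).symm
  have hne : ∀ t, |G1 t| < V e → deriv G1 t ≠ 0 := fun t ht => by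
    rw [hd1]; exact F_ne he hkr (hθD t) ht
  have hcos1 := cos_mem (x := q1.1) ⟨hq1.1, hq1.2⟩
  obtain ⟨b, hb, hb0, hb1⟩ := branch (lt_trans one_pos h1V) (RT_contDiff RT1) (RT_periodic RT1) hne
    (τ0 := τs) (by rw [hG1τ, abs_lt]; exact ⟨by linarith [hcos1.1], by linarith [hcos1.2]⟩)
  have hsub : Ioo (-1 : ℝ) 1 ⊆ Ioo (-V e) (V e) := fun x hx =>
    ⟨by linarith [hx.1], by linarith [hx.2]⟩
  have hbs : ContDiffOn ℝ ∞ b (Ioo (-1) 1) := hb.mono hsub
  have hG2s : ContDiff ℝ ∞ G2 := RT_contDiff RT2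
  have hws : ContDiffOn ℝ ∞ (fun c => G2 (b c)) (Ioo (-1) 1) := hG2s.comp_contDiffOn hbs
  -- the curve
  set Pc : ℝ → Pt := fun x => sg (orb (rev k N) N (Psi e θ (b (Real.cos x)))) with hPc
  have hPmem : ∀ x, Pc x ∈ Surf e := fun x =>
    sg_mem (orb_mem (Psi_mem (hθD (b (Real.cos x)))) _ _)
  have hPz : ∀ x ∈ Ioo 0 Real.pi, (Pc x).2.2 = Real.cos x := fun x hx =>
    hb1 (Real.cos x) (hsub (cos_mem hx))
  have hPinv : ∀ x, Pc x = orbInv k N (sg (Psi e θ (b (Real.cos x)))) := fun x => by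
    show sg _ = sg _
    rw [sg_sg]
  have hPN : ∀ x, orb k N (Pc x) = sg (Psi e θ (b (Real.cos x))) := fun x => by
    rw [hPinv, orb_orbInv]
  have hPN0 : ∀ x, (orb k N0 (Pc x)).2.1 = G2 (b (Real.cos x)) := fun x => by
    have h := orb_rev k N (Pc x) (N - N0 - 1) (by omega)
    rw [hPN, sg_sg] at h
    have e1 : N - (N - N0 - 1) = N0 + 1 := by omega
    rw [e1] at h
    have h2 := congrArg (fun p : Pt => p.2.1) h
    show _ = (orb (rev k N) (N - N0 - 1) (Psi e θ (b (Real.cos x)))).2.1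
    rw [← orb_succ_z]
    exact h2.symm
  have hPsm : ContDiffOn ℝ ∞ Pc (Ioo 0 Real.pi) := by
    have h1 : ContDiffOn ℝ ∞ (fun x => b (Real.cos x)) (Ioo 0 Real.pi) :=
      hbs.comp Real.contDiff_cos.contDiffOn (fun x hx => cos_mem hx)
    exact (contDiff_sg.comp ((contDiff_orb _ _).comp (contDiff_Psi_vert e θ))).comp_contDiffOn h1
  have hP0 : Pc q1.1 = p0 := by
    show sg (orb (rev k N) N (Psi e θ (b (Real.cos q1.1)))) = p0
    rw [← hG1τ, hb0, hPsi2, orb_rev k N p0 N le_rfl, Nat.sub_self, sg_sg]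
    rfl
  have hsin : ∀ x ∈ Ioo 0 Real.pi, Real.sin x ≠ 0 := fun x hx => (Real.sin_pos_of_mem_Ioo hx).ne'
  have hAs : ∀ x ∈ Ioo 0 Real.pi, Amp e x * Real.sin x ≠ 0 := fun x hx =>
    mul_ne_zero (Amp_pos e x).ne' (hsin x hx)
  have hDsm : ContDiff ℝ ∞ D := by unfold D; fun_prop
  have hysm : ContDiff ℝ ∞ (fun p : Pt => p.2.1) := by fun_prop
  obtain ⟨g, hg1, hg2, hg3⟩ := circle_lift (a := 0) (b := Real.pi)
    (c := fun x => (Pc x).2.1 / Amp e x) (s := fun x => D (Pc x) / (Amp e x * Real.sin x))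
    ((hysm.comp_contDiffOn hPsm).div (contDiffOn_Amp e) (fun x _ => (Amp_pos e x).ne'))
    ((hDsm.comp_contDiffOn hPsm).div ((contDiffOn_Amp e).mul Real.contDiff_sin.contDiffOn)
      hAs)
    (by
      intro x hx
      have h1 := D_sq (hPmem x)
      rw [hPz x hx] at h1
      have h2 := hsin x hx
      have h3 := (Amp_pos e x).ne'
      have h4 := Amp_sq e x
      have h5 : Real.cos x ^ 2 = 1 - Real.sin x ^ 2 := by
        have := Real.sin_sq_add_cos_sq x; linarith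
      rw [h5] at h1
      have h6 : Amp e x ^ 2 * Real.sin x ^ 2 = Real.sin x ^ 2 + e ^ 2 := by
        rw [h4]; field_simp
      rw [div_pow, div_pow, mul_pow, h1]
      field_simp
      linear_combination -h6)
    (x0 := q1.1) (τ0 := q1.2) ⟨hq1.1, hq1.2⟩
    (by
      rw [hP0]
      show Amp e q1.1 * Real.cos q1.2 / Amp e q1.1 = Real.cos q1.2
      have h3 := (Amp_pos e q1.1).ne'
      field_simp)
    (by
      rw [hP0, hp0def, D_Psi]
      have h3 := (Amp_pos e q1.1).ne'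
      have h2 := hsin q1.1 ⟨hq1.1, hq1.2⟩
      field_simp)
  have hgP : ∀ x ∈ Ioo 0 Real.pi, Psi e x (g x) = Pc x := by
    intro x hx
    obtain ⟨h1, h2⟩ := hg3 x hx
    have h3 := (Amp_pos e x).ne'
    have h4 := hAs x hx
    apply Psi_eq (hPz x hx)
    · rw [← h1]; field_simp
    · rw [← h2]
      exact (mul_div_cancel₀ _ h4).symm
  refine ⟨fun c => G2 (b c), g, hws, hg1, hg2, ?_, ?_, ?_⟩
  · intro x hx
    show (orb k N (Psi e x (g x))).2.1 = _
    rw [hgP x hx, hPN, ← hcosθ]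
    rfl
  · intro x hx
    show (orb k N0 (Psi e x (g x))).2.1 = _
    rw [hgP x hx, hPN0]
  · intro c hc hwc j
    refine hC j G1 G2 b (Ioo (-1 : ℝ) 1 ∩ {c | |G2 (b c)| < B e}) ?_ (RT_contDiff RT1) hG2s
      (hbs.mono inter_subset_left) (fun x hx => hb1 x (hsub hx.1)) ?_ ?_ ?_ c ⟨hc, hwc⟩
    · exact hws.continuousOn.abs.isOpen_inter_preimage isOpen_Ioo isOpen_Iio
    · intro x hx
      apply hne
      rw [hb1 x (hsub hx.1), abs_lt]
      exact hsub hx.1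
    · intro x hx i
      apply hRT i _ _ d1 RT1
      rw [hb1 x (hsub hx.1), abs_le]
      exact ⟨by linarith [hx.1.1], by linarith [hx.1.2]⟩
    · intro x hx i
      have h1 := hRT i _ _ d2 RT2 (b x) (le_of_lt hx.2)
      have hF1 : |F e (rev k N) N (θ, b x)| ≤ B e := by
        have : F e (rev k N) N (θ, b x) = x := hb1 x (hsub hx.1)
        rw [this, abs_le]
        exact ⟨by linarith [hx.1.1], by linarith [hx.1.2]⟩
      have h2 := hCg (rev k N) hkr (θ, b x) (hθD _) (N - N0 - 1) N (by omega) (le_of_lt hx.2) hF1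
      rw [← hd1, ← hd2] at h2
      refine h1.trans ?_
      rw [mul_assoc, ← mul_pow]
      exact mul_le_mul_of_nonneg_left (pow_le_pow_left₀ (abs_nonneg _) h2 i) (hC1 i)

end TM
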