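import Mathlib

/-!
MP_717b2e_co, upper bound: properties of the sequences of the game.
-/

namespace Pool.Agent.Helper95.CF

/-- the properties of the two sequences -/
structure Good (S K : ℕ) (A : ℕ → ℕ) : Prop where
  z : A 0 = 0
  t : A (K + 1) = S
  inc : ∀ i, i ≤ K → A i < A (i + 1)
  par : ∀ i, i ≤ K + 1 → A i % 2 = i % 2

lemma Good.mono {S K : ℕ} {A : ℕ → ℕ} (h : Good S K A) {i j : ℕ} (hij : i < j) (hj : j ≤ K + 1) :
    A i < A j := by
  induction j with
  | zero => omega
  | succ j ih =>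
    have h1 := h.inc j (by omega)
    rcases Nat.lt_succ_iff_lt_or_eq.1 hij with h2 | h2
    · have := ih h2 (by omega)
      omega
    · subst h2; exact h1

lemma Good.mono' {S K : ℕ} {A : ℕ → ℕ} (h : Good S K A) {i j : ℕ} (hij : i ≤ j) (hj : j ≤ K + 1) :
    A i ≤ A j := by
  rcases Nat.lt_or_eq_of_le hij with h1 | h1
  · exact (h.mono h1 hj).le
  · subst h1; exact le_rfl

end Pool.Agent.Helper95.CF
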