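import Pool.Agent.Helper95.CFRot
import Pool.Agent.Helper95.CFGood

/-!
MP_717b2e_co, upper bound: chords crossing the gap line, states of the game.
-/

namespace Pool.Agent.Helper95.CF

open Finset

variable {n : ℕ}

/-- the chords of `M` with one end in `[0, n-1]` and the other one in `[n, 2n-1]`: the `i`-th one
(`1 ≤ i ≤ K`) joins `a i - 1` and `2 n - b i`. -/
structure Chords (M : NCM n) (K : ℕ) (a b : ℕ → ℕ) : Prop where
  hK : K % 2 = 1
  ga : Good (n + 1) K a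
  gb : Good (n + 1) K b
  ch : ∀ i, 1 ≤ i → i ≤ K → M.p (a i - 1) = 2 * n - b i
  gapA : ∀ i, i ≤ K → ∀ z, a i ≤ z → z + 1 < a (i + 1) → a i ≤ M.p z ∧ M.p z + 1 < a (i + 1)
  gapB : ∀ i, i ≤ K → ∀ z, 2 * n < z + b (i + 1) → z + b i < 2 * n →
    2 * n < M.p z + b (i + 1) ∧ M.p z + b i < 2 * n

/-- `N` is in the state `(i, j)` with respect to `M` -/
structure St (M N : NCM n) (a b : ℕ → ℕ) (i j : ℕ) : Prop where
  inA : ∀ z, a i ≤ z → z + 1 < a j → a i ≤ N.p z ∧ N.p z + 1 < a j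
  inB : ∀ z, 2 * n < z + b j → z + b i < 2 * n → 2 * n < N.p z + b j ∧ N.p z + b i < 2 * n
  out : ∀ z, z < 2 * n → ¬ (a i ≤ z ∧ z + 1 < a j) → ¬ (2 * n < z + b j ∧ z + b i < 2 * n) →
    N.p z = M.p z

/-- the list of bad pockets is nonempty -/
def NeBad (a b : ℕ → ℕ) (i j : ℕ) : Prop :=
  (i % 2 = 1 → b i + 1 < b j) ∧ (i % 2 = 0 → a i + 1 < a j)

lemma Chords.a_pos {M : NCM n} {K : ℕ} {a b : ℕ → ℕ} (C : Chords M K a b) {i : ℕ} (h1 : 1 ≤ i)
    (h2 : i ≤ K + 1) : 1 ≤ a i := by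
  have := C.ga.mono (i := 0) (j := i) (by omega) h2
  omega

lemma Chords.b_pos {M : NCM n} {K : ℕ} {a b : ℕ → ℕ} (C : Chords M K a b) {i : ℕ} (h1 : 1 ≤ i)
    (h2 : i ≤ K + 1) : 1 ≤ b i := by
  have := C.gb.mono (i := 0) (j := i) (by omega) h2
  omega

lemma Chords.a_le {M : NCM n} {K : ℕ} {a b : ℕ → ℕ} (C : Chords M K a b) {i : ℕ} 
    (h2 : i ≤ K) : a i ≤ n := by
  have := C.ga.mono (i := i) (j := K + 1) (by omega) le_rfl
  have := C.ga.t
  omega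

lemma Chords.b_le {M : NCM n} {K : ℕ} {a b : ℕ → ℕ} (C : Chords M K a b) {i : ℕ} 
    (h2 : i ≤ K) : b i ≤ n := by
  have := C.gb.mono (i := i) (j := K + 1) (by omega) le_rfl
  have := C.gb.t
  omega

lemma Chords.ch' {M : NCM n} {K : ℕ} {a b : ℕ → ℕ} (C : Chords M K a b) {i : ℕ} (h1 : 1 ≤ i)
    (h2 : i ≤ K) : M.p (2 * n - b i) = a i - 1 := by
  have h3 := C.a_le h2
  have h4 := C.a_pos h1 (by omega)
  have h5 := C.b_le h2
  exact M.p_symm (by omega) (C.ch i h1 h2)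

end Pool.Agent.Helper95.CF
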