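import Mathlib

set_option autoImplicit false

/-!
Definitions of hypergroups (Dunkl, Jewett, Spector), of continuous association schemes and of
property (T2), as in problem MP_466bd8_al.
-/

namespace Pool.Agent.Helper95.CAS

open MeasureTheory TopologicalSpace

/-- A Dunkl-Jewett-Spector hypergroup structure on the space `D`. `conv x y` is the probability
measure `δ_x * δ_y`; the convolution of bounded measures is its bilinear extension. -/
structure Hypergroup (D : Type) [TopologicalSpace D] [MeasurableSpace D] [BorelSpace D] where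
  /-- `conv x y` is `δ_x * δ_y`. -/
  conv : D → D → ProbabilityMeasure D
  conv_continuous : Continuous fun p : D × D => conv p.1 p.2
  conv_assoc : ∀ (x y z : D) (A : Set D), MeasurableSet A →
    ∫⁻ w, (conv w z : Measure D) A ∂(conv x y : Measure D) =
      ∫⁻ w, (conv x w : Measure D) A ∂(conv y z : Measure D)
  isCompact_support : ∀ x y, IsCompact (conv x y : Measure D).support
  support_continuous : Continuous fun p : D × D =>
    (⟨(conv p.1 p.2 : Measure D).support, isCompact_support p.1 p.2⟩ : Compacts D)
  /-- The neutral element. -/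
  e : D
  e_conv : ∀ x, (conv e x : Measure D) = Measure.dirac x
  conv_e : ∀ x, (conv x e : Measure D) = Measure.dirac x
  /-- The involution. -/
  inv : D → D
  inv_continuous : Continuous inv
  inv_inv : ∀ x, inv (inv x) = x
  e_mem_support : ∀ x y, e ∈ (conv x y : Measure D).support ↔ y = inv x
  map_inv_conv : ∀ x y, (conv x y : Measure D).map inv = (conv (inv y) (inv x) : Measure D)

/-- A hypergroup is commutative if `δ_x * δ_y = δ_y * δ_x`. -/
def Hypergroup.IsCommutative {D : Type} [TopologicalSpace D] [MeasurableSpace D] [BorelSpace D]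
    (H : Hypergroup D) : Prop :=
  ∀ x y, H.conv x y = H.conv y x

/-- `ω` is a left Haar measure of the hypergroup: a nonzero Radon measure with
`δ_x * ω = ω` for all `x`. -/
def Hypergroup.IsLeftHaar {D : Type} [TopologicalSpace D] [MeasurableSpace D] [BorelSpace D]
    (H : Hypergroup D) (ω : Measure D) : Prop :=
  ω.Regular ∧ ω ≠ 0 ∧ ∀ (x : D) (f : D → ℝ), Continuous f → HasCompactSupport f →
    ∫ y, (∫ z, f z ∂(H.conv x y : Measure D)) ∂ω = ∫ y, f y ∂ω

/-- The data and the first three axioms of a continuous association scheme `(X, D, K)` whose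
hypergroup structure on `D` is `H`. -/
structure PreCAS (X D : Type) [TopologicalSpace X] [MeasurableSpace X] [BorelSpace X]
    [TopologicalSpace D] [MeasurableSpace D] [BorelSpace D] (H : Hypergroup D) where
  /-- `K x h` is the probability measure `K(x, h; ·)`. -/
  K : X → D → ProbabilityMeasure X
  K_continuous : Continuous fun p : X × D => K p.1 p.2
  isCompact_support : ∀ x h, IsCompact (K x h : Measure X).support
  support_continuous : Continuous fun p : X × D =>
    (⟨(K p.1 p.2 : Measure X).support, isCompact_support p.1 p.2⟩ : Compacts X)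
  /-- The partition map. -/
  part : X → X → D
  mem_support_iff : ∀ x y h, y ∈ (K x h : Measure X).support ↔ part x y = h
  part_continuous : Continuous fun p : X × X => part p.1 p.2
  comp : ∀ (x : X) (h₁ h₂ : D) (A : Set X), MeasurableSet A →
    ∫⁻ w, (K w h₂ : Measure X) A ∂(K x h₁ : Measure X) =
      ∫⁻ h, (K x h : Measure X) A ∂(H.conv h₁ h₂ : Measure D)
  K_e : ∀ x, (K x H.e : Measure X) = Measure.dirac x

section

variable {X D : Type} [TopologicalSpace X] [MeasurableSpace X] [BorelSpace X]
  [TopologicalSpace D] [MeasurableSpace D] [BorelSpace D] {H : Hypergroup D}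

/-- `T_h f(x) = ∫ f(y) K(x, h; dy)`. -/
noncomputable def PreCAS.T (C : PreCAS X D H) (h : D) (f : X → ℝ) (x : X) : ℝ :=
  ∫ y, f y ∂(C.K x h : Measure X)

/-- Axiom 4 of a continuous association scheme for the measure `ω`: it is a positive Radon measure
with full support and `∫ T_{h̄} f · g dω = ∫ f · T_h g dω`. -/
def PreCAS.IsAdjointMeasure (C : PreCAS X D H) (ω : Measure X) : Prop :=
  ω.Regular ∧ ω.support = Set.univ ∧
    ∀ (h : D) (f g : X → ℝ), Continuous f → HasCompactSupport f →
      Continuous g → HasCompactSupport g →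
      ∫ x, C.T (H.inv h) f x * g x ∂ω = ∫ x, f x * C.T h g x ∂ω

/-- `(X, D, K)` is a continuous association scheme (all four axioms). -/
def PreCAS.IsCAS (C : PreCAS X D H) : Prop :=
  ∃ ω : Measure X, C.IsAdjointMeasure ω

/-- Property (T2): for suitable normalisations of `ω_X` (a measure as in axiom 4) and of the left
Haar measure `ω_D`, one has `T_f = T^{f ∘ π}` for all `f` in `C_c(D)`. -/
def PreCAS.T2 (C : PreCAS X D H) : Prop :=
  ∃ (ωX : Measure X) (ωD : Measure D), C.IsAdjointMeasure ωX ∧ H.IsLeftHaar ωD ∧
    ∀ (f : D → ℝ) (g : X → ℝ), Continuous f → HasCompactSupport f →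
      Continuous g → HasCompactSupport g → ∀ x : X,
      ∫ h, C.T h g x * f h ∂ωD = ∫ y, f (C.part x y) * g y ∂ωX

end

end Pool.Agent.Helper95.CAS
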