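import Pool.Agent.Helper95.CFLower

/-!
MP_717b2e_co, upper bound: basic tools.
`M.p : ℕ → ℕ` is the partner function of a matching; `NC N f` says that `f` is a non-crossing
perfect matching of `0, ..., N-1`; `ofNC` makes an `NCM n` of it; `adj_of_four` is the flip lemma.
-/

namespace Pool.Agent.Helper95.CF

variable {n : ℕ}

/-- the partner function on natural numbers -/
def NCM.p (M : NCM n) (x : ℕ) : ℕ := if h : x < 2 * n then (M.m ⟨x, h⟩).val else x

lemma NCM.p_eq (M : NCM n) {x : ℕ} (h : x < 2 * n) : M.p x = (M.m ⟨x, h⟩).val := by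
  simp [NCM.p, h]

lemma NCM.p_val (M : NCM n) (i : Fin (2 * n)) : M.p i.val = (M.m i).val := by
  rw [M.p_eq i.isLt]

/-- `f` is a non-crossing perfect matching of `0, ..., N-1` -/
structure NC (N : ℕ) (f : ℕ → ℕ) : Prop where
  lt : ∀ x, x < N → f x < N
  inv : ∀ x, x < N → f (f x) = x
  ne : ∀ x, x < N → f x ≠ x
  nc : ∀ x y, x < y → y < f x → x < N → x < f y ∧ f y < f x

lemma NCM.nc (M : NCM n) : NC (2 * n) M.p where
  lt x h := by rw [M.p_eq h]; exact (M.m ⟨x, h⟩).isLt
  inv x h := by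
    rw [M.p_eq h, M.p_val, M.invol]
  ne x h := by
    rw [M.p_eq h]
    intro he
    exact M.ne ⟨x, h⟩ (Fin.ext he)
  nc x y h1 h2 h := by
    have h3 : M.p x < 2 * n := by rw [M.p_eq h]; exact (M.m ⟨x, h⟩).isLt
    have hy : y < 2 * n := h2.trans h3
    rw [M.p_eq h] at h2 ⊢
    rw [M.p_eq hy]
    exact M.noncross ⟨x, h⟩ ⟨y, hy⟩ h1 h2

lemma NCM.p_lt (M : NCM n) {x : ℕ} (h : x < 2 * n) : M.p x < 2 * n := M.nc.lt x h
lemma NCM.p_p (M : NCM n) {x : ℕ} (h : x < 2 * n) : M.p (M.p x) = x := M.nc.inv x h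
lemma NCM.p_ne (M : NCM n) {x : ℕ} (h : x < 2 * n) : M.p x ≠ x := M.nc.ne x h

/-- partner function equation, reversed -/
lemma NCM.p_symm (M : NCM n) {x y : ℕ} (h : x < 2 * n) (e : M.p x = y) : M.p y = x := by
  rw [← e, M.p_p h]

/-- the matching of a non-crossing partner function -/
def ofNC (n : ℕ) (f : ℕ → ℕ) (h : NC (2 * n) f) : NCM n where
  m i := ⟨f i.val, h.lt _ i.isLt⟩
  invol i := Fin.ext (h.inv _ i.isLt)
  ne i := fun he => h.ne _ i.isLt (congrArg Fin.val he)
  noncross i j h1 h2 := h.nc i.val j.val h1 h2 i.isLt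

lemma ofNC_p {f : ℕ → ℕ} (h : NC (2 * n) f) {x : ℕ} (hx : x < 2 * n) :
    (ofNC n f h).p x = f x := by
  rw [NCM.p_eq _ hx]; rfl

lemma NCM.ext_p {M N : NCM n} (h : ∀ x, x < 2 * n → M.p x = N.p x) : M = N := by
  apply NCM.ext
  funext i
  apply Fin.ext
  rw [← M.p_val, ← N.p_val]
  exact h i.val i.isLt

/-- partners have opposite parity -/
lemma NCM.p_parity (M : NCM n) {x : ℕ} (hx : x < 2 * n) : (x + M.p x) % 2 = 1 := by
  have h1 := M.p_lt hx
  have h2 := M.p_ne hx
  rcases lt_or_gt_of_ne h2 with h | h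
  · have h3 := M.parity (i := ⟨M.p x, h1⟩) (by
      rw [Fin.lt_def, ← M.p_val]; simpa [M.p_p hx] using h)
    rw [← M.p_val] at h3
    simp only [M.p_p hx] at h3
    omega
  · have h3 := M.parity (i := ⟨x, hx⟩) (by rw [Fin.lt_def, ← M.p_val]; exact h)
    rw [← M.p_val] at h3
    simp only at h3
    omega

/-- non-crossing, symmetric form: `y` is inside the chord `x, p x` iff its partner is -/
lemma NCM.sep (M : NCM n) {x y : ℕ} (hx : x < 2 * n) (hxy : x < M.p x) (hy : y < 2 * n)
    (h1 : y ≠ x) (h2 : y ≠ M.p x) :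
    (x < y ∧ y < M.p x) ↔ (x < M.p y ∧ M.p y < M.p x) := by
  constructor
  · rintro ⟨h3, h4⟩
    exact M.nc.nc x y h3 h4 hx
  · rintro ⟨h3, h4⟩
    have h5 := M.nc.nc x (M.p y) h3 h4 hx
    rw [M.p_p hy] at h5
    exact h5

/-- **flip lemma**: two matchings which agree off four points `a < b < c < d`, the one containing
`ab, cd` and the other `ad, bc`, are adjacent if the four arcs are at most `n`. -/
lemma adj_of_four (hn : n % 2 = 1) {M N : NCM n} {a b c d : ℕ} (hab : a < b) (hbc : b < c)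
    (hcd : c < d) (hd : d < 2 * n) (hMa : M.p a = b) (hMc : M.p c = d) (hNa : N.p a = d)
    (hNb : N.p b = c)
    (hag : ∀ x, x < 2 * n → x ≠ a → x ≠ b → x ≠ c → x ≠ d → M.p x = N.p x)
    (g1 : b ≤ a + n) (g2 : c ≤ b + n) (g3 : d ≤ c + n) (g4 : a + n ≤ d) :
    (H n).Adj M N := by
  have ha' : a < 2 * n := by omega
  have hb' : b < 2 * n := by omega
  have hc' : c < 2 * n := by omega
  have q1 := M.p_parity ha'
  have q2 := M.p_parity hc'
  have q3 := N.p_parity hb'
  rw [hMa] at q1
  rw [hMc] at q2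
  rw [hNb] at q3
  rw [H, SimpleGraph.fromRel_adj]
  refine ⟨?_, Or.inl ⟨⟨a, ha'⟩, ⟨b, hb'⟩, ⟨c, hc'⟩, ⟨d, hd⟩, hab, hbc, hcd, ?_, ?_, ?_, ?_, ?_, ?_⟩⟩
  · rintro rfl
    rw [hMa] at hNa
    omega
  · apply Fin.ext; rw [← M.p_val]; exact hMa
  · apply Fin.ext; rw [← M.p_val]; exact hMc
  · apply Fin.ext; rw [← N.p_val]; exact hNb
  · apply Fin.ext; rw [← N.p_val]; exact hNa
  · intro i h1 h2 h3 h4
    apply Fin.ext
    rw [← M.p_val, ← N.p_val]
    apply hag _ i.isLt
    · intro h; exact h1 (Fin.ext h)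
    · intro h; exact h2 (Fin.ext h)
    · intro h; exact h3 (Fin.ext h)
    · intro h; exact h4 (Fin.ext h)
  · simp only [len]
    omega

/-! ### Insertion of small symbolic matchings -/

/-- `P` lists `k` slots (those with `pr i = true` are present), `f` is a matching of
`0, ..., 2n-1` all of whose edges between unnamed points stay in one gap between named points. -/
structure Bg (n k : ℕ) (P : Fin k → ℕ) (pr : Fin k → Bool) (f : ℕ → ℕ) : Prop where
  mono : ∀ i j, pr i = true → pr j = true → i < j → P i < P j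
  lt : ∀ i, pr i = true → P i < 2 * n
  nc : NC (2 * n) f
  unn : ∀ x, x < 2 * n → (∀ i, pr i = true → P i ≠ x) → ∀ i, pr i = true → P i ≠ f x
  gap : ∀ x, x < 2 * n → (∀ i, pr i = true → P i ≠ x) → ∀ i j, pr i = true → pr j = true → i < j →
    P i < x → x < P j → P i < f x ∧ f x < P j

/-- `σ` is a non-crossing matching of the present slots. -/
structure Sym (k : ℕ) (pr : Fin k → Bool) (σ : Fin k → Fin k) : Prop where
  pr' : ∀ i, pr i = true → pr (σ i) = true
  inv : ∀ i, pr i = true → σ (σ i) = i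
  ne : ∀ i, pr i = true → σ i ≠ i
  nc : ∀ i j, pr i = true → pr j = true → i < j → j < σ i → i < σ j ∧ σ j < σ i

open Classical in
/-- the matching `σ` on the named points, `f` elsewhere -/
noncomputable def insf {k : ℕ} (P : Fin k → ℕ) (pr : Fin k → Bool) (σ : Fin k → Fin k) (f : ℕ → ℕ)
    (x : ℕ) : ℕ :=
  if h : ∃ i, pr i = true ∧ P i = x then P (σ (Classical.choose h)) else f x

/-- all slots present -/
abbrev allp (k : ℕ) : Fin k → Bool := fun _ => true

/-- criterion for a background with all slots present -/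
lemma Bg.mk' {k : ℕ} {P : Fin (k + 1) → ℕ} {f : ℕ → ℕ} (h1 : ∀ i : Fin k, P i.castSucc < P i.succ)
    (h2 : P (Fin.last k) < 2 * n) (h3 : NC (2 * n) f) (h4 : ∀ i, ∃ j, f (P i) = P j)
    (h5 : ∀ i : Fin k, ∀ x, P i.castSucc < x → x < P i.succ →
      P i.castSucc < f x ∧ f x < P i.succ) : Bg n (k + 1) P (allp (k + 1)) f := by
  have hm : StrictMono P := Fin.strictMono_iff_lt_succ.2 h1
  refine ⟨fun i j _ _ h => hm h, fun i _ => lt_of_le_of_lt (hm.monotone (Fin.le_last i)) h2, h3,
    ?_, ?_⟩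
  · intro x hx hu i _ he
    obtain ⟨j, hj⟩ := h4 i
    apply hu j rfl
    rw [← hj, he, h3.inv x hx]
  · intro x hx hu i j _ _ hij h6 h7
    -- find the consecutive gap
    obtain ⟨l, hl1, hl2, hl3⟩ : ∃ l : Fin k, i ≤ l.castSucc ∧ P l.castSucc < x ∧ x < P l.succ ∧
        l.succ ≤ j := by
      have key : ∀ m : ℕ, ∀ (hm' : i.val + m < k + 1), x < P ⟨i.val + m, hm'⟩ →
          ∃ l : Fin k, i ≤ l.castSucc ∧ P l.castSucc < x ∧ x < P l.succ ∧
            l.succ ≤ (⟨i.val + m, hm'⟩ : Fin (k + 1)) := by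
        intro m
        induction m with
        | zero => intro hm' hx'; exfalso; simp only [Nat.add_zero, Fin.eta] at hx'; omega
        | succ m ih =>
          intro hm' hx'
          by_cases hc : x < P ⟨i.val + m, by omega⟩
          · obtain ⟨l, e1, e2, e3, e4⟩ := ih (by omega) hc
            exact ⟨l, e1, e2, e3, e4.trans (by rw [Fin.le_def]; simp)⟩
          · have hne := hu ⟨i.val + m, by omega⟩ rfl
            refine ⟨⟨i.val + m, by omega⟩, ?_, ?_, ?_, ?_⟩
            · rw [Fin.le_def]; simp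
            · simp only [Fin.castSucc_mk]; omega
            · simpa [Fin.succ_mk, Nat.add_assoc] using hx'
            · rw [Fin.le_def]; simp [Nat.add_assoc]
      have := key (j.val - i.val) (by have := j.isLt; rw [Fin.lt_def] at hij; omega) (by
        have e : (⟨i.val + (j.val - i.val), by have := j.isLt; rw [Fin.lt_def] at hij; omega⟩ :
          Fin (k + 1)) = j := by
          apply Fin.ext; rw [Fin.lt_def] at hij; simp only; omega
        rw [e]; exact h7)
      obtain ⟨l, e1, e2, e3, e4⟩ := this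
      refine ⟨l, e1, e2, e3, ?_⟩
      rw [Fin.le_def] at e4 ⊢
      rw [Fin.lt_def] at hij
      simp only at e4
      omega
    have h8 := h5 l x hl2 hl3.1
    have h9 := hm.monotone hl1
    have h10 := hm.monotone hl3.2
    omega

section Ins

variable {k : ℕ} {P : Fin k → ℕ} {pr : Fin k → Bool} {f : ℕ → ℕ} {σ τ : Fin k → Fin k}

lemma Bg.inj (B : Bg n k P pr f) {i j : Fin k} (hi : pr i = true) (hj : pr j = true)
    (h : P i = P j) : i = j := by
  rcases lt_trichotomy i j with h1 | h1 | h1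
  · have := B.mono i j hi hj h1; omega
  · exact h1
  · have := B.mono j i hj hi h1; omega

lemma Bg.lt_iff (B : Bg n k P pr f) {i j : Fin k} (hi : pr i = true) (hj : pr j = true) :
    P i < P j ↔ i < j := by
  constructor
  · intro h
    rcases lt_trichotomy i j with h1 | h1 | h1
    · exact h1
    · subst h1; omega
    · have := B.mono j i hj hi h1; omega
  · exact B.mono i j hi hj

lemma insf_named (B : Bg n k P pr f) (σ : Fin k → Fin k) {i : Fin k} (hi : pr i = true) :
    insf P pr σ f (P i) = P (σ i) := by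
  have h : ∃ j, pr j = true ∧ P j = P i := ⟨i, hi, rfl⟩
  unfold insf
  rw [dif_pos h]
  have := Classical.choose_spec h
  rw [B.inj this.1 hi this.2]

lemma insf_unnamed (σ : Fin k → Fin k) {x : ℕ} (hx : ∀ i, pr i = true → P i ≠ x) :
    insf P pr σ f x = f x := by
  unfold insf
  rw [dif_neg]
  rintro ⟨i, hi, he⟩
  exact hx i hi he

/-- inserting a symbolic matching gives a matching -/
theorem ins_nc (B : Bg n k P pr f) (S : Sym k pr σ) : NC (2 * n) (insf P pr σ f) where
  lt x hx := by
    by_cases h : ∃ i, pr i = true ∧ P i = x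
    · obtain ⟨i, hi, rfl⟩ := h
      rw [insf_named B σ hi]
      exact B.lt _ (S.pr' i hi)
    · push Not at h
      rw [insf_unnamed σ h]
      exact B.nc.lt x hx
  inv x hx := by
    by_cases h : ∃ i, pr i = true ∧ P i = x
    · obtain ⟨i, hi, rfl⟩ := h
      rw [insf_named B σ hi, insf_named B σ (S.pr' i hi), S.inv i hi]
    · push Not at h
      rw [insf_unnamed σ h, insf_unnamed σ (B.unn x hx h)]
      exact B.nc.inv x hx
  ne x hx := by
    by_cases h : ∃ i, pr i = true ∧ P i = x
    · obtain ⟨i, hi, rfl⟩ := h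
      rw [insf_named B σ hi]
      intro he
      exact S.ne i hi (B.inj (S.pr' i hi) hi he)
    · push Not at h
      rw [insf_unnamed σ h]
      exact B.nc.ne x hx
  nc x y hxy hy hx := by
    by_cases h : ∃ i, pr i = true ∧ P i = x
    · obtain ⟨i, hi, rfl⟩ := h
      rw [insf_named B σ hi] at hy ⊢
      have hσ := S.pr' i hi
      have hPσ := B.lt _ hσ
      by_cases h' : ∃ j, pr j = true ∧ P j = y
      · obtain ⟨j, hj, rfl⟩ := h'
        rw [insf_named B σ hj]
        rw [B.lt_iff hi hj] at hxy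
        rw [B.lt_iff hj hσ] at hy
        have := S.nc i j hi hj hxy hy
        exact ⟨B.mono _ _ hi (S.pr' j hj) this.1, B.mono _ _ (S.pr' j hj) hσ this.2⟩
      · push Not at h'
        rw [insf_unnamed σ h']
        have hy2 : y < 2 * n := by omega
        exact B.gap y hy2 h' i (σ i) hi hσ ((B.lt_iff hi hσ).1 (by omega)) hxy hy
    · push Not at h
      rw [insf_unnamed σ h] at hy ⊢
      have hfx := B.nc.lt x hx
      by_cases h' : ∃ j, pr j = true ∧ P j = y
      · obtain ⟨j, hj, rfl⟩ := h'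
        rw [insf_named B σ hj]
        have hσ := S.pr' j hj
        have u1 := B.unn x hx h
        have ffx := B.nc.inv x hx
        have hne := h _ hσ
        have hne' := u1 _ hσ
        rcases lt_trichotomy j (σ j) with h1 | h1 | h1
        · have h2 := B.mono _ _ hj hσ h1
          refine ⟨by omega, ?_⟩
          by_contra hc
          have g1 := B.gap (f x) hfx u1 j (σ j) hj hσ h1 hy (by omega)
          rw [ffx] at g1
          omega
        · exact absurd h1.symm (S.ne j hj)
        · have h2 := B.mono _ _ hσ hj h1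
          refine ⟨?_, by omega⟩
          by_contra hc
          have g1 := B.gap x hx h (σ j) j hσ hj h1 (by omega) hxy
          omega
      · push Not at h'
        rw [insf_unnamed σ h']
        exact B.nc.nc x y hxy hy hx

/-- the inserted matching -/
noncomputable def ins (B : Bg n k P pr f) (S : Sym k pr σ) : NCM n := ofNC n _ (ins_nc B S)

lemma ins_named (B : Bg n k P pr f) (S : Sym k pr σ) {i : Fin k} (hi : pr i = true) :
    (ins B S).p (P i) = P (σ i) := by
  rw [ins, ofNC_p _ (B.lt i hi), insf_named B σ hi]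

lemma ins_unnamed (B : Bg n k P pr f) (S : Sym k pr σ) {x : ℕ} (hx : x < 2 * n)
    (h : ∀ i, pr i = true → P i ≠ x) : (ins B S).p x = f x := by
  rw [ins, ofNC_p _ hx, insf_unnamed σ h]

/-- `M` is the inserted matching as soon as it does the right thing at the named points and agrees
with `f` at the unnamed ones -/
lemma eq_ins (B : Bg n k P pr f) (S : Sym k pr σ) {M : NCM n}
    (h1 : ∀ i, pr i = true → M.p (P i) = P (σ i))
    (h2 : ∀ x, x < 2 * n → (∀ i, pr i = true → P i ≠ x) → M.p x = f x) : M = ins B S := by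
  apply NCM.ext_p
  intro x hx
  by_cases h : ∃ i, pr i = true ∧ P i = x
  · obtain ⟨i, hi, rfl⟩ := h
    rw [ins_named B S hi, h1 i hi]
  · push Not at h
    rw [ins_unnamed B S hx h, h2 x hx h]

/-- symbolic flip at the slots `a < b < c < d`: `σ` contains `ab, cd`, `τ` contains `ad, bc` -/
structure SymFlip (k : ℕ) (pr : Fin k → Bool) (σ τ : Fin k → Fin k) (a b c d : Fin k) : Prop where
  pa : pr a = true
  pb : pr b = true
  pc : pr c = true
  pd : pr d = true
  ab : a < b
  bc : b < c
  cd : c < d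
  σa : σ a = b
  σc : σ c = d
  τa : τ a = d
  τb : τ b = c
  ag : ∀ i, pr i = true → i ≠ a → i ≠ b → i ≠ c → i ≠ d → σ i = τ i

/-- a symbolic flip gives a centered flip if the four arcs are at most `n` -/
theorem ins_adj (hn : n % 2 = 1) (B : Bg n k P pr f) (S : Sym k pr σ) (S' : Sym k pr τ)
    {a b c d : Fin k} (F : SymFlip k pr σ τ a b c d)
    (g1 : P b ≤ P a + n) (g2 : P c ≤ P b + n) (g3 : P d ≤ P c + n) (g4 : P a + n ≤ P d) :
    (H n).Adj (ins B S) (ins B S') := by
  apply adj_of_four hn (B.mono _ _ F.pa F.pb F.ab) (B.mono _ _ F.pb F.pc F.bc)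
    (B.mono _ _ F.pc F.pd F.cd) (B.lt _ F.pd)
  · rw [ins_named B S F.pa, F.σa]
  · rw [ins_named B S F.pc, F.σc]
  · rw [ins_named B S' F.pa, F.τa]
  · rw [ins_named B S' F.pb, F.τb]
  · intro x hx h1 h2 h3 h4
    by_cases h : ∃ i, pr i = true ∧ P i = x
    · obtain ⟨i, hi, rfl⟩ := h
      rw [ins_named B S hi, ins_named B S' hi]
      congr 1
      apply F.ag i hi
      · rintro rfl; exact h1 rfl
      · rintro rfl; exact h2 rfl
      · rintro rfl; exact h3 rfl
      · rintro rfl; exact h4 rfl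
    · push Not at h
      rw [ins_unnamed B S hx h, ins_unnamed B S' hx h]
  · exact g1
  · exact g2
  · exact g3
  · exact g4

end Ins

/-! ### Distances -/

/-- there is a walk from `M` to `N` of length at most `k` -/
def DistLe (M N : NCM n) (k : ℕ) : Prop := ∃ w : (H n).Walk M N, w.length ≤ k

lemma DistLe.refl (M : NCM n) (k : ℕ) : DistLe M M k := ⟨SimpleGraph.Walk.nil, by simp⟩

lemma DistLe.mono {M N : NCM n} {k l : ℕ} (h : DistLe M N k) (hkl : k ≤ l) : DistLe M N l := by
  obtain ⟨w, hw⟩ := h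
  exact ⟨w, hw.trans hkl⟩

lemma DistLe.trans {M N K : NCM n} {k l : ℕ} (h : DistLe M N k) (h' : DistLe N K l) :
    DistLe M K (k + l) := by
  obtain ⟨w, hw⟩ := h
  obtain ⟨w', hw'⟩ := h'
  exact ⟨w.append w', by rw [SimpleGraph.Walk.length_append]; omega⟩

lemma DistLe.symm {M N : NCM n} {k : ℕ} (h : DistLe M N k) : DistLe N M k := by
  obtain ⟨w, hw⟩ := h
  exact ⟨w.reverse, by rwa [SimpleGraph.Walk.length_reverse]⟩

lemma DistLe.of_adj {M N : NCM n} (h : (H n).Adj M N) : DistLe M N 1 :=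
  ⟨SimpleGraph.Walk.cons h SimpleGraph.Walk.nil, by simp⟩

lemma DistLe.step {M N K : NCM n} {k : ℕ} (h : (H n).Adj M N) (h' : DistLe N K k) :
    DistLe M K (k + 1) := by
  have := (DistLe.of_adj h).trans h'
  exact this.mono (by omega)

lemma DistLe.of_eq {M N : NCM n} (h : M = N) (k : ℕ) : DistLe M N k := by
  subst h; exact DistLe.refl _ _

end Pool.Agent.Helper95.CF
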