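import Pool.Agent.Helper95.CFBasic

/-!
MP_717b2e_co, upper bound: backgrounds with absent slots.
-/

namespace Pool.Agent.Helper95.CF

variable {n : ℕ}

/-- criterion for a background; an absent slot repeats the position of the previous slot -/
lemma Bg.mk2 {k : ℕ} {P : Fin (k + 1) → ℕ} {pr : Fin (k + 1) → Bool} {f : ℕ → ℕ}
    (h0 : pr 0 = true)
    (h1 : ∀ i : Fin k, (pr i.succ = true ∧ P i.castSucc < P i.succ) ∨
      (pr i.succ = false ∧ P i.castSucc = P i.succ))
    (h2 : P (Fin.last k) < 2 * n) (h3 : NC (2 * n) f)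
    (h4 : ∀ i, pr i = true → ∃ j, pr j = true ∧ f (P i) = P j)
    (h5 : ∀ i : Fin k, ∀ x, P i.castSucc < x → x < P i.succ →
      P i.castSucc < f x ∧ f x < P i.succ) : Bg n (k + 1) P pr f := by
  have hm : Monotone P := by
    apply Fin.monotone_iff_le_succ.2
    intro i
    rcases h1 i with h | h <;> omega
  have hs : ∀ i j, pr j = true → i < j → P i < P j := by
    intro i j hj hij
    have hj0 : j ≠ 0 := by
      rintro rfl
      exact absurd hij (Fin.not_lt_zero i)
    obtain ⟨l, rfl⟩ := Fin.exists_succ_eq.2 hj0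
    have h6 : i ≤ l.castSucc := by
      rw [Fin.le_def]
      rw [Fin.lt_def] at hij
      simp at hij ⊢
      omega
    have h7 := hm h6
    rcases h1 l with h | h
    · omega
    · rw [hj] at h
      exact absurd h.1 (by simp)
  -- every slot has the position of a present one
  have hp : ∀ i, ∃ j, pr j = true ∧ P j = P i := by
    intro i
    induction i using Fin.induction with
    | zero => exact ⟨0, h0, rfl⟩
    | succ i ih =>
      rcases h1 i with h | h
      · exact ⟨i.succ, h.1, rfl⟩
      · obtain ⟨j, hj, hj'⟩ := ih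
        exact ⟨j, hj, by rw [hj', h.2]⟩
  refine ⟨fun i j _ hj h => hs i j hj h, fun i _ => lt_of_le_of_lt (hm (Fin.le_last i)) h2, h3,
    ?_, ?_⟩
  · intro x hx hu i hi he
    obtain ⟨j, hj, hj'⟩ := h4 i hi
    apply hu j hj
    rw [← hj', he, h3.inv x hx]
  · intro x hx hu' i j _ _ hij h6 h7
    have hu : ∀ i, P i ≠ x := by
      intro i
      obtain ⟨j, hj, hj'⟩ := hp i
      rw [← hj']
      exact hu' j hj
    obtain ⟨l, hl1, hl2, hl3⟩ : ∃ l : Fin k, i ≤ l.castSucc ∧ P l.castSucc < x ∧ x < P l.succ ∧
        l.succ ≤ j := by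
      have key : ∀ m : ℕ, ∀ (hm' : i.val + m < k + 1), x < P ⟨i.val + m, hm'⟩ →
          ∃ l : Fin k, i ≤ l.castSucc ∧ P l.castSucc < x ∧ x < P l.succ ∧
            l.succ ≤ (⟨i.val + m, hm'⟩ : Fin (k + 1)) := by
        intro m
        induction m with
        | zero => intro hm' hx'; exfalso; simp only [Nat.add_zero, Fin.eta] at hx'; omega
        | succ m ih =>
          intro hm' hx'
          by_cases hc : x < P ⟨i.val + m, by omega⟩
          · obtain ⟨l, e1, e2, e3, e4⟩ := ih (by omega) hc
            exact ⟨l, e1, e2, e3, e4.trans (by rw [Fin.le_def]; simp)⟩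
          · have hne := hu ⟨i.val + m, by omega⟩
            refine ⟨⟨i.val + m, by omega⟩, ?_, ?_, ?_, ?_⟩
            · rw [Fin.le_def]; simp
            · simp only [Fin.castSucc_mk]; omega
            · simpa [Fin.succ_mk, Nat.add_assoc] using hx'
            · rw [Fin.le_def]; simp [Nat.add_assoc]
      have := key (j.val - i.val) (by have := j.isLt; rw [Fin.lt_def] at hij; omega) (by
        have e : (⟨i.val + (j.val - i.val), by have := j.isLt; rw [Fin.lt_def] at hij; omega⟩ :
          Fin (k + 1)) = j := by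
          apply Fin.ext; rw [Fin.lt_def] at hij; simp only; omega
        rw [e]; exact h7)
      obtain ⟨l, e1, e2, e3, e4⟩ := this
      refine ⟨l, e1, e2, e3, ?_⟩
      rw [Fin.le_def] at e4 ⊢
      rw [Fin.lt_def] at hij
      simp only at e4
      omega
    have h8 := h5 l x hl2 hl3.1
    have h9 := hm hl1
    have h10 := hm hl3.2
    omega

end Pool.Agent.Helper95.CF
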