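import Pool.Agent.Helper95.CFMoves
import Pool.Agent.Helper65.CFTail

/-!
MP_717b2e_co, upper bound: the special start c2, the two flips.
-/

namespace Pool.Agent.Helper95.CF

open Finset

variable {n : ℕ}

theorem C2_flips (hn : n % 2 = 1) {M : NCM n} {p0 p1 p2 p3 p4 p5 : ℕ} (l01 : p1 = p0 + 1)
    (l12 : p1 < p2) (l2n : p2 < n) (l34 : p4 = p3 + 1) (l45 : p4 < p5)
    (l5 : p5 < 2 * n) (kd : p4 = p1 + n) (m1 : p1 % 2 = 1) (m4 : (p4 - n) % 2 = 1)
    (e1 : M.p p0 = p5) (e2 : M.p p1 = p4) (e3 : M.p p2 = p3)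
    (q1 : ∀ x, p1 < x → x < p2 → p1 < M.p x ∧ M.p x < p2) :
    ∃ N' : NCM n, DistLe M N' 2 ∧ U N' - U M ≤ 2 * (ws n p0 p3 : ℤ) - 6 ∧ N'.p p0 = p3 ∧
      N'.p p1 = p2 ∧ N'.p p2 = p1 ∧
      ∀ x, x < n → ¬ (x = p0 ∨ x = p1 ∨ x = p2) → N'.p x = M.p x := by
  obtain ⟨N, n1, n2, n3, n4, nu, nadj, nU⟩ := flip_NS hn (M := M) (a := p1) (b := p2) (c := p3)
    (d := p4) (by omega) (by omega) (by omega) (by omega) e2 e3 q1 (by omega) (by omega)
    (by omega) (by omega)
  have e1N : N.p p0 = p5 := by rw [nu _ (by omega) (by omega) (by omega) (by omega) (by omega), e1]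
  have q : ∀ x, p0 < x → x < p3 → p0 < N.p x ∧ N.p x < p3 := by
    intro x h3 h4
    by_cases h5 : x = p1
    · subst h5; rw [n1]; omega
    by_cases h6 : x = p2
    · subst h6; rw [n2]; omega
    rw [nu _ (by omega) (by omega) (by omega) (by omega) (by omega)]
    rcases lt_or_ge x p2 with h7 | h7
    · have := q1 x (by omega) (by omega)
      omega
    · have := M.nc.nc p2 x (by omega) (by omega) (by omega)
      omega
  clear q1 e1 e2 e3
  -- second flip
  obtain ⟨N', m1', m2, m3, m4', mu, madj, mU⟩ := flip_NS hn (M := N) (a := p0) (b := p3) (c := p4)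
    (d := p5) (by omega) (by omega) (by omega) (by omega) e1N n3 q (by omega) (by omega)
    (by omega) (by omega)
  clear q
  rw [ws_X (x := p1) (y := p4) (by omega) (by omega) (by omega),
    ws_X (x := p2) (y := p3) (by omega) (by omega) (by omega)] at nU
  rw [ws_X (x := p0) (y := p5) (by omega) (by omega) (by omega)] at mU
  have w1 := ws_A_le (n := n) (x := p1) (y := p2) (by omega) (by omega)
  have w2 := ws_B_le (n := n) (x := p4) (y := p5) (by omega) (by omega)
  rw [if_neg (by omega)] at w1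
  rw [if_neg (by omega)] at w2
  refine ⟨N', (DistLe.of_adj nadj).trans (DistLe.of_adj madj), ?_, m1', ?_, ?_, ?_⟩
  · clear nu mu n1 n2 n3 n4 m1' m2 m3 m4' e1N m1 m4 kd
    push_cast at *
    omega
  · rw [mu p1 (by omega) (by omega) (by omega) (by omega) (by omega), n1]
  · rw [mu p2 (by omega) (by omega) (by omega) (by omega) (by omega), n2]
  · intro x h1 h2
    rw [mu x (by omega) (by omega) (by omega) (by omega) (by omega),
      nu x (by omega) (by omega) (by omega) (by omega) (by omega)]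

theorem C2_core (hn : n % 2 = 1) {M : NCM n} {p0 p1 p2 p3 p4 p5 : ℕ} (l01 : p1 = p0 + 1)
    (l12 : p1 < p2) (l2n : p2 < n) (ln3 : n ≤ p3) (l34 : p4 = p3 + 1) (l45 : p4 < p5)
    (l5 : p5 < 2 * n) (kd : p4 = p1 + n) (m1 : p1 % 2 = 1) (m4 : (p4 - n) % 2 = 1)
    (e1 : M.p p0 = p5) (e2 : M.p p1 = p4) (e3 : M.p p2 = p3)
    (q0 : ∀ x, x < p0 → M.p x < n)
    (q1 : ∀ x, p1 < x → x < p2 → p1 < M.p x ∧ M.p x < p2)
    (q2 : ∀ x, p2 < x → x < n → M.p x < n) : Val M 0 := by
  obtain ⟨N', hdist, hU, f0, f1, f2, fu⟩ := C2_flips hn l01 l12 l2n l34 l45 l5 kd m1 m4 e1 e2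
    e3 q1
  clear e1 e2 e3 m1 m4
  by_cases hal : p0 = 0 ∧ p3 = n
  · have hw : ws n p0 p3 = 0 := by
      rw [hal.1, hal.2]; exact ws_needle (by omega)
    have hv : Val N' 1 := Val.aligned (by rw [← hal.1, f0, hal.2])
    exact hv.step hdist (by push_cast; omega)
  · have hw : ws n p0 p3 = 1 := ws_X (by omega) (by omega) (by omega)
    have hv : Val N' 0 := by
      have key : ∀ x, x < n → ¬ (x = p0 ∨ x = p1 ∨ x = p2) → N'.p x < n := by
        intro x hx h
        rw [fu x hx h]
        rcases lt_trichotomy x p0 with h1 | h1 | h1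
        · exact q0 x h1
        · omega
        · rcases lt_trichotomy x p2 with h3 | h3 | h3
          · have := q1 x (by omega) h3
            omega
          · omega
          · exact q2 x h3 hx
      apply tail_up hn N'
      · by_cases h0 : p0 = 0
        · rw [← h0, f0]
          omega
        · have := key 0 (by omega) (by omega)
          omega
      · intro x h1 h2 h3
        by_cases h4 : x = p0
        · subst h4; omega
        by_cases h5 : x = p1
        · rw [h5, f1] at h3
          omega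
        by_cases h6 : x = p2
        · rw [h6, f2] at h3
          omega
        have := key x h2 (by omega)
        omega
    exact hv.step hdist (by push_cast; omega)

end Pool.Agent.Helper95.CF
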