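import Pool.Agent.Helper95.CFC1core
import Pool.Agent.Helper95.CFC2core

/-!
MP_717b2e_co, upper bound: the boundary move c1 and the special start c2.
-/

namespace Pool.Agent.Helper95.CF

open Finset

variable {n : ℕ}

set_option maxRecDepth 20000

/-- boundary move c1 -/
theorem move_c1 (hn : n % 2 = 1) {M N : NCM n} {K : ℕ} {a b : ℕ → ℕ} (C : Chords M K a b)
    (hK : 3 ≤ K) (S : St M N a b 1 (K - 1)) (hne : b 1 + 1 < b (K - 1))
    (hl : a 1 + b 1 ≤ n + 1) (hu : n + 1 ≤ a (K - 1) + b (K - 1))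
    (hc : a (K - 1) + b 1 < n + 1) (hc' : n + 1 ≤ a 1 + b K) :
    Val N (-1) := by
  have hKp := C.hK
  obtain ⟨e1, e2⟩ := St.ends C (i := 1) (j := K - 1) le_rfl (by omega) (by omega) S
  have a1 := C.a_pos (i := 1) le_rfl (by omega)
  have b1 := C.b_pos (i := 1) le_rfl (by omega)
  have a2 := C.ga.mono (i := 1) (j := K - 1) (by omega) (by omega)
  have b2 := C.gb.mono (i := 1) (j := K - 1) (by omega) (by omega)
  have a3 := C.ga.mono (i := K - 1) (j := K) (by omega) (by omega)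
  have b3 := C.gb.mono (i := K - 1) (j := K) (by omega) (by omega)
  have aKn := C.a_le (i := K) le_rfl
  have bKn := C.b_le (i := K) le_rfl
  have pa2 : (a (K - 1) - 1) % 2 = 1 := by
    have := C.ga.par (K - 1) (by omega)
    omega
  have pb1 : (2 * n - b 1 - 1 - n) % 2 = 1 := by
    have := C.gb.par 1 (by omega)
    omega
  have pb2 : (2 * n - b (K - 1) - n) % 2 = 1 := by
    have := C.gb.par (K - 1) (by omega)
    omega
  have e3 : N.p (a K - 1) = 2 * n - b K := by
    rw [S.out _ (by omega) (by omega) (by omega)]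
    exact C.ch K (by omega) le_rfl
  obtain ⟨p0, hp0⟩ : ∃ p0, p0 = a 1 - 1 := ⟨_, rfl⟩
  obtain ⟨p1, hp1⟩ : ∃ p1, p1 = a (K - 1) - 1 := ⟨_, rfl⟩
  obtain ⟨p2, hp2⟩ : ∃ p2, p2 = a K - 1 := ⟨_, rfl⟩
  obtain ⟨p3, hp3⟩ : ∃ p3, p3 = 2 * n - b K := ⟨_, rfl⟩
  obtain ⟨p4, hp4⟩ : ∃ p4, p4 = 2 * n - b (K - 1) := ⟨_, rfl⟩
  obtain ⟨p6, hp6⟩ : ∃ p6, p6 = 2 * n - b 1 - 1 := ⟨_, rfl⟩
  obtain ⟨p5, hp5⟩ : ∃ p5, p5 = N.p p6 := ⟨_, rfl⟩
  obtain ⟨p7, hp7⟩ : ∃ p7, p7 = 2 * n - b 1 := ⟨_, rfl⟩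
  rw [← hp0, ← hp7] at e1
  rw [← hp1, ← hp4] at e2
  rw [← hp2, ← hp3] at e3
  rw [← hp1] at pa2
  rw [← hp6] at pb1
  rw [← hp4] at pb2
  have e4 := hp5.symm
  have eK : K - 1 + 1 = K := by omega
  have gA : ∀ z, a (K - 1) ≤ z → z + 1 < a K → a (K - 1) ≤ M.p z ∧ M.p z + 1 < a K := by
    have := C.gapA (K - 1) (by omega)
    rwa [eK] at this
  have gB : ∀ z, 2 * n < z + b K → z + b (K - 1) < 2 * n →
      2 * n < M.p z + b K ∧ M.p z + b (K - 1) < 2 * n := by
    have := C.gapB (K - 1) (by omega)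
    rwa [eK] at this
  have q0 : ∀ x, p0 < x → x < p1 → p0 < N.p x ∧ N.p x < p1 := by
    intro x h1 h2
    have := S.inA x (by omega) (by omega)
    omega
  have q1 : ∀ x, p1 < x → x < p2 → p1 < N.p x ∧ N.p x < p2 := by
    intro x h1 h2
    rw [S.out x (by omega) (by omega) (by omega)]
    have := gA x (by omega) (by omega)
    omega
  have q3 : ∀ x, p3 < x → x < p4 → p3 < N.p x ∧ N.p x < p4 := by
    intro x h1 h2
    rw [S.out x (by omega) (by omega) (by omega)]
    have := gB x (by omega) (by omega)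
    omega
  have q4 : ∀ x, p4 < x → x ≤ p6 → p4 < N.p x ∧ N.p x ≤ p6 := by
    intro x h1 h2
    have h3 := S.inB x (by omega) (by omega)
    omega
  clear gA gB
  have hin := q4 p6 (by omega) (by omega)
  have hne2 := N.p_ne (x := p6) (by omega)
  rw [e4] at hin hne2
  have par2 := N.p_parity (x := p6) (by omega)
  rw [e4] at par2
  have m5 : (p5 - n) % 2 = 0 := by omega
  have l01 : p0 < p1 := by omega
  have l12 : p1 < p2 := by omega
  have l2n : p2 < n := by omega
  have ln3 : n ≤ p3 := by omega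
  have l34 : p3 < p4 := by omega
  have l45 : p4 < p5 := hin.1
  have l56 : p5 < p6 := by omega
  have l67 : p7 = p6 + 1 := by omega
  have l7 : p7 < 2 * n := by omega
  have k1 : p0 + n ≤ p7 := by omega
  have k2 : p4 ≤ n + p1 := by omega
  have k3 : p1 + n < p7 := by omega
  have k4 : p3 ≤ n + p0 := by omega
  clear par2 hne2 hin
  have hq2 : ∀ x, p2 < x → x < n → M.p x < n ∧ ¬ (a 1 ≤ x ∧ x + 1 < a (K - 1)) ∧
      ¬ (2 * n < x + b (K - 1) ∧ x + b 1 < 2 * n) := by
    intro x h1 h2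
    have aT := C.ga.t
    have := C.gapA K (by omega) x (by omega) (by omega)
    omega
  have hq0 : ∀ x, x < p0 → M.p x < n ∧ ¬ (a 1 ≤ x ∧ x + 1 < a (K - 1)) ∧
      ¬ (2 * n < x + b (K - 1) ∧ x + b 1 < 2 * n) := by
    intro x h1
    have a0 := C.ga.z
    have gA0 : ∀ z, a 0 ≤ z → z + 1 < a 1 → a 0 ≤ M.p z ∧ M.p z + 1 < a 1 :=
      C.gapA 0 (by omega)
    have := gA0 x (by omega) (by omega)
    omega
  have hq0' : ∀ x, x < p0 → N.p x < n := by
    intro x h1
    have h2 := hq0 x h1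
    rw [S.out x (by omega) h2.2.1 h2.2.2]
    exact h2.1
  have hq2' : ∀ x, p2 < x → x < n → N.p x < n := by
    intro x h1 h3
    have h2 := hq2 x h1 h3
    rw [S.out x (by omega) h2.2.1 h2.2.2]
    exact h2.1
  clear hq0 hq2
  clear hl hu hc hc' hne a1 a2 a3 b1 b2 b3 aKn bKn hp0 hp1 hp2 hp3 hp4 hp5 hp6 hp7 eK hKp hK C S
  obtain ⟨N', ⟨f0, f1, f2, fu⟩, hd, hU⟩ := C1_core hn (N := N) l01 l12 l2n ln3 l34 l45 l56 l67 l7
    k1 k2 k3 k4 pa2 pb2 m5 pb1 e1 e2 e3 e4 q0 q1 q3 q4
  clear e1 e2 e3 e4 q3 q4 pa2 pb2 m5 pb1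
  by_cases hal : p0 = 0 ∧ p3 = n
  · -- the needle
    have hw : ws n p0 p3 = 0 := by
      rw [hal.1, hal.2]; exact ws_needle (by omega)
    have hv : Val N' 1 := Val.aligned (by rw [← hal.1, f0, hal.2])
    exact hv.step hd (by push_cast; omega)
  · have hw : ws n p0 p3 = 1 := ws_X (by omega) (by omega) (by omega)
    have hv : Val N' 0 := by
      have key : ∀ x, x < n → ¬ (x = p0 ∨ x = p1 ∨ x = p2) → N'.p x < n := by
        intro x hx h
        rw [fu x (by omega) (by omega)]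
        rcases lt_trichotomy x p0 with h1 | h1 | h1
        · exact hq0' x h1
        · omega
        · rcases lt_trichotomy x p1 with h2 | h2 | h2
          · have := q0 x h1 h2
            omega
          · omega
          · rcases lt_trichotomy x p2 with h3 | h3 | h3
            · have := q1 x h2 h3
              omega
            · omega
            · exact hq2' x h3 hx
      apply tail_up hn N'
      · by_cases h0 : p0 = 0
        · rw [← h0, f0]
          omega
        · have := key 0 (by omega) (by omega)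
          omega
      · intro x h1 h2 h3
        by_cases h4 : x = p0
        · subst h4; omega
        by_cases h5 : x = p1
        · subst h5; omega
        by_cases h6 : x = p2
        · subst h6; omega
        have := key x h2 (by omega)
        omega
    exact hv.step hd (by push_cast; omega)

/-- start with a diameter, special case of three chords -/
theorem move_c2 (hn : n % 2 = 1) {M : NCM n} {a b : ℕ → ℕ} (C : Chords M 3 a b)
    (hd : a 2 + b 2 = n + 1) (h1 : a 1 + 1 = a 2) (h2 : b 2 + 1 = b 3) : Val M 0 := by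
  have a1 := C.a_pos (i := 1) le_rfl (by omega)
  have b1 := C.b_pos (i := 1) le_rfl (by omega)
  have b2 := C.gb.mono (i := 1) (j := 2) (by omega) (by omega)
  have a3 := C.ga.mono (i := 2) (j := 3) (by omega) (by omega)
  have aKn := C.a_le (i := 3) le_rfl
  have bKn := C.b_le (i := 3) le_rfl
  have pa2 : (a 2 - 1) % 2 = 1 := by
    have := C.ga.par 2 (by omega)
    omega
  have pb2 : (2 * n - b 2 - n) % 2 = 1 := by
    have := C.gb.par 2 (by omega)
    omega
  have aT := C.ga.t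
  have a0 := C.ga.z
  simp only [Nat.reduceMod, Nat.reduceAdd] at *
  have e1 := C.ch 1 (by omega) (by omega)
  have e2 := C.ch 2 (by omega) (by omega)
  have e3 := C.ch 3 (by omega) (by omega)
  have gA0 : ∀ z, a 0 ≤ z → z + 1 < a 1 → a 0 ≤ M.p z ∧ M.p z + 1 < a 1 := C.gapA 0 (by omega)
  have gA2 : ∀ z, a 2 ≤ z → z + 1 < a 3 → a 2 ≤ M.p z ∧ M.p z + 1 < a 3 := C.gapA 2 (by omega)
  have gA3 : ∀ z, a 3 ≤ z → z + 1 < a 4 → a 3 ≤ M.p z ∧ M.p z + 1 < a 4 := C.gapA 3 (by omega)
  refine C2_core hn (p0 := a 1 - 1) (p1 := a 2 - 1) (p2 := a 3 - 1) (p3 := 2 * n - b 3)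
    (p4 := 2 * n - b 2) (p5 := 2 * n - b 1) (by omega) (by omega) (by omega) (by omega) (by omega)
    (by omega) (by omega) (by omega) pa2 pb2 e1 e2 e3 ?_ ?_ ?_
  · intro x h3
    have := gA0 x (by omega) (by omega)
    omega
  · intro x h3 h4
    have := gA2 x (by omega) (by omega)
    omega
  · intro x h3 h4
    have := gA3 x (by omega) (by omega)
    omega

end Pool.Agent.Helper95.CF
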