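import Pool.Agent.Helper95.CFMoves

/-!
MP_717b2e_co, upper bound: the boundary move c1, the three flips.
-/

namespace Pool.Agent.Helper95.CF

open Finset

variable {n : ℕ}

/-- the background of the eight points -/
theorem C1_bg {N : NCM n} {p0 p1 p2 p3 p4 p5 p6 p7 : ℕ} (l01 : p0 < p1) (l12 : p1 < p2)
    (l23 : p2 < p3) (l34 : p3 < p4) (l45 : p4 < p5) (l56 : p5 < p6)
    (l67 : p7 = p6 + 1) (l7 : p7 < 2 * n)
    (e1 : N.p p0 = p7) (e2 : N.p p1 = p4) (e3 : N.p p2 = p3) (e4 : N.p p6 = p5)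
    (q0 : ∀ x, p0 < x → x < p1 → p0 < N.p x ∧ N.p x < p1)
    (q1 : ∀ x, p1 < x → x < p2 → p1 < N.p x ∧ N.p x < p2)
    (q3 : ∀ x, p3 < x → x < p4 → p3 < N.p x ∧ N.p x < p4)
    (q4 : ∀ x, p4 < x → x ≤ p6 → p4 < N.p x ∧ N.p x ≤ p6) :
    Bg n 8 ![p0, p1, p2, p3, p4, p5, p6, p7] (allp 8) N.p := by
  have e1' := N.p_symm (by omega) e1
  have e2' := N.p_symm (by omega) e2
  have e3' := N.p_symm (by omega) e3
  have e4' := N.p_symm (by omega) e4
  apply Bg.mk'
  · simp [Fin.forall_fin_succ]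
    omega
  · simp
    omega
  · exact N.nc
  · simp [Fin.forall_fin_succ, Fin.exists_fin_succ, e1, e1', e2, e2', e3, e3', e4, e4']
  · simp [Fin.forall_fin_succ]
    refine ⟨?_, ?_, ?_, ?_, ?_, ?_, ?_⟩
    · intro x h1 h2
      exact q0 x h1 h2
    · intro x h1 h2
      exact q1 x h1 h2
    · intro x h1 h2
      have := N.nc.nc p2 x h1 (by omega) (by omega)
      omega
    · intro x h1 h2
      exact q3 x h1 h2
    · intro x h1 h2
      have h3 := q4 x (by omega) (by omega)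
      refine ⟨by omega, ?_⟩
      by_contra h4
      have h5 : N.p (N.p x) = x := N.p_p (by omega)
      have h6 : N.p x ≠ p5 := by
        intro h; rw [h] at h5; omega
      have h7 : N.p x ≠ p6 := by
        intro h; rw [h] at h5; omega
      have h8 := N.nc.nc p5 (N.p x) (by omega) (by omega) (by omega)
      rw [h5] at h8
      omega
    · intro x h1 h2
      have := N.nc.nc p5 x h1 (by omega) (by omega)
      omega
    · intro x h1 h2
      omega

theorem C1_core (hn : n % 2 = 1) {N : NCM n} {p0 p1 p2 p3 p4 p5 p6 p7 : ℕ} (l01 : p0 < p1)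
    (l12 : p1 < p2) (l2n : p2 < n) (ln3 : n ≤ p3) (l34 : p3 < p4) (l45 : p4 < p5) (l56 : p5 < p6)
    (l67 : p7 = p6 + 1) (l7 : p7 < 2 * n)
    (k1 : p0 + n ≤ p7) (k2 : p4 ≤ n + p1) (k3 : p1 + n < p7) (k4 : p3 ≤ n + p0)
    (m1 : p1 % 2 = 1) (m4 : (p4 - n) % 2 = 1) (m5 : (p5 - n) % 2 = 0) (m6 : (p6 - n) % 2 = 1)
    (e1 : N.p p0 = p7) (e2 : N.p p1 = p4) (e3 : N.p p2 = p3) (e4 : N.p p6 = p5)
    (q0 : ∀ x, p0 < x → x < p1 → p0 < N.p x ∧ N.p x < p1)
    (q1 : ∀ x, p1 < x → x < p2 → p1 < N.p x ∧ N.p x < p2)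
    (q3 : ∀ x, p3 < x → x < p4 → p3 < N.p x ∧ N.p x < p4)
    (q4 : ∀ x, p4 < x → x ≤ p6 → p4 < N.p x ∧ N.p x ≤ p6) :
    ∃ N' : NCM n, (N'.p p0 = p3 ∧ N'.p p1 = p2 ∧ N'.p p2 = p1 ∧
      (∀ z, z < 2 * n → ¬ (z = p0 ∨ z = p1 ∨ z = p2 ∨ z = p3 ∨ z = p4 ∨ z = p5 ∨ z = p6 ∨
      z = p7) → N'.p z = N.p z)) ∧ DistLe N N' 3 ∧
      U N' - U N ≤ 2 * (ws n p0 p3 : ℤ) - 10 := by
  have B := C1_bg l01 l12 (by omega) l34 l45 l56 l67 l7 e1 e2 e3 e4 q0 q1 q3 q4
  clear q0 q1 q3 q4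
  have e1' := N.p_symm (by omega) e1
  have e2' := N.p_symm (by omega) e2
  have e3' := N.p_symm (by omega) e3
  have e4' := N.p_symm (by omega) e4
  have S0 : Sym 8 (allp 8) ![7, 4, 3, 2, 1, 6, 5, 0] := by constructor <;> decide
  have S1 : Sym 8 (allp 8) ![7, 6, 3, 2, 5, 4, 1, 0] := by constructor <;> decide
  have S2 : Sym 8 (allp 8) ![7, 2, 1, 6, 5, 4, 3, 0] := by constructor <;> decide
  have S3 : Sym 8 (allp 8) ![3, 2, 1, 0, 5, 4, 7, 6] := by constructor <;> decide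
  have hN : N = ins B S0 := by
    apply eq_ins
    · simp [Fin.forall_fin_succ, e1, e1', e2, e2', e3, e3', e4, e4']
    · intro x hx h; rfl
  clear e1 e1' e2 e2' e3 e3' e4 e4'
  have hadj1 : (H n).Adj (ins B S0) (ins B S1) := by
    clear m1 m4 m5 m6
    apply ins_adj hn B S0 S1 (a := 1) (b := 4) (c := 5) (d := 6)
    · exact ⟨rfl, rfl, rfl, rfl, by decide, by decide, by decide, rfl, rfl, rfl, rfl, by decide⟩
    · simp; omega
    · simp; omega
    · simp; omega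
    · simp; omega
  have hadj2 : (H n).Adj (ins B S2) (ins B S1) := by
    clear m1 m4 m5 m6
    apply ins_adj hn B S2 S1 (a := 1) (b := 2) (c := 3) (d := 6)
    · exact ⟨rfl, rfl, rfl, rfl, by decide, by decide, by decide, rfl, rfl, rfl, rfl, by decide⟩
    · simp; omega
    · simp; omega
    · simp; omega
    · simp; omega
  have hadj3 : (H n).Adj (ins B S3) (ins B S2) := by
    clear m1 m4 m5 m6
    apply ins_adj hn B S3 S2 (a := 0) (b := 3) (c := 6) (d := 7)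
    · exact ⟨rfl, rfl, rfl, rfl, by decide, by decide, by decide, rfl, rfl, rfl, rfl, by decide⟩
    · simp; omega
    · simp; omega
    · simp; omega
    · simp; omega
  have f0 : (ins B S3).p p0 = p3 := ins_named B S3 (i := 0) rfl
  have f1 : (ins B S3).p p1 = p2 := ins_named B S3 (i := 1) rfl
  have f2 : (ins B S3).p p2 = p1 := ins_named B S3 (i := 2) rfl
  have fu : ∀ z, z < 2 * n → ¬ (z = p0 ∨ z = p1 ∨ z = p2 ∨ z = p3 ∨ z = p4 ∨ z = p5 ∨ z = p6 ∨
      z = p7) → (ins B S3).p z = N.p z := by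
    clear m1 m4 m5 m6 k1 k2 k3 k4 hN hadj1 hadj2 hadj3 f0 f1 f2
    clear l01 l12 l2n ln3 l34 l45 l56 l67 l7
    intro z hz h0
    apply ins_unnamed B S3 hz
    simp [Fin.forall_fin_succ]
    omega
  have hU := U_ins_sub B S0 S3
  simp [Fin.sum_univ_eight] at hU
  have hd : DistLe (ins B S0) (ins B S3) 3 :=
    ((DistLe.of_adj hadj1).trans (DistLe.of_adj hadj2.symm)).trans (DistLe.of_adj hadj3.symm)
  rw [← hN] at hU hd
  refine ⟨ins B S3, ⟨f0, f1, f2, fu⟩, hd, ?_⟩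
  clear f0 f1 f2 fu hd
  generalize ins B S3 = N' at *
  rw [ws_comm n p7 p0, ws_comm n p4 p1, ws_comm n p3 p2, ws_comm n p6 p5, ws_comm n p3 p0,
    ws_comm n p2 p1, ws_comm n p5 p4, ws_comm n p7 p6] at hU
  rw [ws_X (x := p0) (y := p7) (by omega) (by omega) (by omega),
    ws_X (x := p1) (y := p4) (by omega) (by omega) (by omega),
    ws_X (x := p2) (y := p3) (by omega) (by omega) (by omega)] at hU
  have w1 := ws_A_le (n := n) (x := p1) (y := p2) (by omega) (by omega)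
  have w2 := ws_B_le (n := n) (x := p4) (y := p5) (by omega) (by omega)
  have w3 := ws_B_le (n := n) (x := p6) (y := p7) (by omega) (by omega)
  have w4 := ws_B (n := n) (x := p5) (y := p6) (by omega) (by omega)
  rw [if_neg (by omega)] at w1
  rw [if_neg (by omega)] at w2
  rw [if_neg (by omega)] at w3
  rw [if_pos (by omega)] at w4
  clear m1 m4 m5 m6 k1 k2 k3 k4
  omega

end Pool.Agent.Helper95.CF
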