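import Mathlib

/-!
Definitions for MP_717b2e_co: non-crossing perfect matchings of 2n points on a circle
(labelled 0, ..., 2n-1 in cyclic order), centered flips, and the graph of centered flips.
-/

namespace Pool.Agent.Helper95.CF

/-- A non-crossing perfect matching of the points `0, ..., 2n-1` of a circle:
`m i` is the partner of `i`. -/
@[ext]
structure NCM (n : ℕ) where
  /-- the partner map -/
  m : Fin (2 * n) → Fin (2 * n)
  invol : ∀ i, m (m i) = i
  ne : ∀ i, m i ≠ i
  noncross : ∀ i j, i < j → j < m i → i < m j ∧ m j < m i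

/-- The length of a chord `{x, y}` with `x < y`: a chord that is an edge of a non-crossing perfect
matching has `(y - x - 1) / 2` of the other `n - 1` edges on one side and the rest on the other
side; the length is the smaller of the two numbers. -/
def len (n x y : ℕ) : ℕ := min ((y - x - 1) / 2) (n - 1 - (y - x - 1) / 2)

/-- `N` arises from `M` by a centered flip in the quadrilateral `p₀ < p₁ < p₂ < p₃`: the edges
`p₀p₁`, `p₂p₃` of `M` are replaced by the edges `p₁p₂`, `p₀p₃`, and the lengths of the four sides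
sum to `n - 2`. -/
def CenteredFlip {n : ℕ} (M N : NCM n) : Prop :=
  ∃ p₀ p₁ p₂ p₃ : Fin (2 * n), p₀ < p₁ ∧ p₁ < p₂ ∧ p₂ < p₃ ∧
    M.m p₀ = p₁ ∧ M.m p₂ = p₃ ∧ N.m p₁ = p₂ ∧ N.m p₀ = p₃ ∧
    (∀ i, i ≠ p₀ → i ≠ p₁ → i ≠ p₂ → i ≠ p₃ → M.m i = N.m i) ∧
    len n p₀ p₁ + len n p₁ p₂ + len n p₂ p₃ + len n p₀ p₃ = n - 2

/-- The graph of centered flips on non-crossing perfect matchings. -/
def H (n : ℕ) : SimpleGraph (NCM n) := SimpleGraph.fromRel CenteredFlip

end Pool.Agent.Helper95.CF
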