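import Pool.Agent.Helper95.CFGood

/-!
MP_717b2e_co, upper bound: the abstract game.
`G S K A B i j v`: from the state `(i, j)` (of type B with respect to `(A, B)`) the value `v` can be
reached.
-/

namespace Pool.Agent.Helper95.CF

/-- derivable values of the game -/
inductive G (S K : ℕ) : (ℕ → ℕ) → (ℕ → ℕ) → ℕ → ℕ → ℤ → Prop
  | base0 (A B : ℕ → ℕ) (j : ℕ) : 2 ≤ j → j ≤ K → G S K A B 0 j 0
  | baseK (A B : ℕ → ℕ) (i : ℕ) : 1 ≤ i → i + 1 ≤ K → G S K A B i (K + 1) 0
  | c1 (A B : ℕ → ℕ) : 3 ≤ K → A (K - 1) + B 1 < S → S ≤ A 1 + B K → G S K A B 1 (K - 1) (-1)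
  | b1 (A B : ℕ → ℕ) (j : ℕ) : j ≤ K → S < A 1 + B j → G S K A B 1 j (-1)
  | b4 (A B : ℕ → ℕ) (i : ℕ) : 1 ≤ i → A K + B i < S → G S K A B i K (-1)
  | N1 (A B : ℕ → ℕ) (i j : ℕ) (v : ℤ) : j ≤ K → S < A (i + 2) + B j → G S K A B i j v →
      G S K A B (i + 2) j v
  | N2 (A B : ℕ → ℕ) (i j : ℕ) (v : ℤ) : 1 ≤ i → j + 1 ≤ K → A j + B i < S →
      G S K A B i (j + 2) v → G S K A B i j v
  | N3 (A B : ℕ → ℕ) (i j : ℕ) (v : ℤ) : j ≤ K → G S K B A i (j + 1) v →
      G S K A B (i + 1) j (v + 1)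
  | N3a (A B : ℕ → ℕ) (i j : ℕ) (v : ℤ) : 1 ≤ i → j ≤ K → S < A (i + 1) + B j → A i + B j < S →
      G S K B A i (j + 1) v → G S K A B (i + 1) j (v - 1)
  | N3b (A B : ℕ → ℕ) (i j : ℕ) (v : ℤ) : j + 1 ≤ K → A j + B (i + 1) < S →
      S < A (j + 1) + B (i + 1) → G S K B A i (j + 1) v → G S K A B (i + 1) j (v - 1)

section

variable {S K : ℕ}

/-- two processes at the same state -/
def P1 (S K : ℕ) (A B : ℕ → ℕ) (i j : ℕ) : Prop :=
  ∃ v v' : ℤ, G S K A B i j v ∧ G S K B A i j v' ∧ v + v' ≤ 0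

/-- the first process free, the second has made the move N3 -/
def P3 (S K : ℕ) (A B : ℕ → ℕ) (i j : ℕ) : Prop :=
  ∃ v v' : ℤ, G S K A B i j v ∧ G S K A B (i - 1) (j + 1) v' ∧ v + v' ≤ -1

/-- one process at `(i, j)`, the other one at `(i - 1, j - 1)` -/
def P4 (S K : ℕ) (A B : ℕ → ℕ) (i j : ℕ) : Prop :=
  ∃ v v' : ℤ, G S K A B i j v ∧ G S K A B (i - 1) (j - 1) v' ∧ v + v' ≤ -1

lemma P1.swap {A B : ℕ → ℕ} {i j : ℕ} (h : P1 S K A B i j) : P1 S K B A i j := by
  obtain ⟨v, v', h1, h2, h3⟩ := h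
  exact ⟨v', v, h2, h1, by omega⟩

/-- the induction statement -/
def Ind (S K N : ℕ) : Prop :=
  (∀ A B : ℕ → ℕ, Good S K A → Good S K B → ∀ i j, i < j → j ≤ K + 1 → (i + j) % 2 = 1 →
    (i = 0 → 2 ≤ j ∧ j ≤ K) → (j = K + 1 → 1 ≤ i ∧ i + 1 ≤ K) →
    A i + B i < S → S < A j + B j → i + (K + 1) ≤ j + N → P1 S K A B i j) ∧
  (∀ A B : ℕ → ℕ, Good S K A → Good S K B → ∀ i j, 1 ≤ i → i < j → j ≤ K → (i + j) % 2 = 1 →
    A i + B i < S → S < A (j - 1) + B (j - 1) → S < A i + B j → A (j - 1) + B (i - 1) < S →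
    i + (K + 1) ≤ j + N → P4 S K A B i j)

/-- P3 from P4 -/
lemma P3_of_ind {N : ℕ} (hI : Ind S K N) {A B : ℕ → ℕ} (hA : Good S K A) (hB : Good S K B)
    {i j : ℕ} (hi : 1 ≤ i) (hij : i < j) (hj : j ≤ K) (hp : (i + j) % 2 = 1)
    (hl : A i + B i < S) (hu : S < A j + B j) (h1 : S < A i + B j) (h2 : A j + B i < S)
    (h3 : S < A (i - 1) + B (j + 1)) (h4 : A (j + 1) + B (i - 1) < S)
    (hN : i + (K + 1) ≤ j + N + 2) : P3 S K A B i j := by
  have hi2 : 2 ≤ i := by
    by_contra h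
    have : i = 1 := by omega
    subst this
    have e1 := hA.z
    have e2 := hB.mono' (i := j + 1) (j := K + 1) (by omega) le_rfl
    have e3 := hB.t
    simp only [Nat.sub_self, e1] at h3
    omega
  have hjK : j + 1 ≤ K := by
    by_contra h
    have : j = K := by omega
    subst this
    have e1 := hA.t
    omega
  have e1 := hB.mono (i := i - 2) (j := i) (by omega) (by omega)
  have e2 := hA.mono (i := i - 1) (j := i) (by omega) (by omega)
  have e3 := hB.mono (i := i - 1) (j := i) (by omega) (by omega)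
  obtain ⟨v, v', g1, g2, g3⟩ := hI.2 A B hA hB (i - 1) (j + 1) (by omega) (by omega) hjK (by omega)
    (by omega) (by simpa using hu) h3
    (by
      have : i - 1 - 1 = i - 2 := by omega
      rw [this, Nat.add_sub_cancel]
      omega) (by omega)
  refine ⟨v', v, ?_, g1, by omega⟩
  obtain ⟨i, rfl⟩ : ∃ i', i = i' + 2 := ⟨i - 2, by omega⟩
  have : i + 2 - 1 - 1 = i := by omega
  rw [this, Nat.add_sub_cancel] at g2
  exact G.N1 A B i j v' hj h1 g2

/-- the pattern `(+, -)` -/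
lemma Ppm_of_ind {N : ℕ} (hS : S % 2 = 0) (hK : K % 2 = 1) (hI : Ind S K N) {A B : ℕ → ℕ}
    (hA : Good S K A) (hB : Good S K B)
    {i j : ℕ} (hi : 1 ≤ i) (hij : i < j) (hj : j ≤ K) (hp : (i + j) % 2 = 1)
    (hl : A i + B i < S) (hu : S < A j + B j) (h1 : S < A i + B j) (h2 : A j + B i < S)
    (hN : i + (K + 1) ≤ j + N + 2) : P3 S K A B i j := by
  have m1 := hA.mono (i := i - 1) (j := i) (by omega) (by omega)
  have m2 := hB.mono (i := i - 1) (j := i) (by omega) (by omega)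
  have m3 := hA.mono (i := j) (j := j + 1) (by omega) (by omega)
  have m4 := hB.mono (i := j) (j := j + 1) (by omega) (by omega)
  by_cases c1 : A (i - 1) + B j < S
  · by_cases hi1 : i = 1
    · subst hi1
      by_cases hjK : j = K
      · subst hjK; omega
      · refine ⟨-1, 0, G.b1 A B j hj h1, ?_, by norm_num⟩
        exact G.base0 A B (j + 1) (by omega) (by omega)
    · -- N3a
      obtain ⟨v, v', g1, g2, g3⟩ := hI.1 B A hB hA (i - 1) (j + 1) (by omega) (by omega) (by omega)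
        (by omega) (by omega) (by omega) (by omega) (by omega)
      refine ⟨v - 1, v', ?_, g2, by omega⟩
      obtain ⟨i, rfl⟩ : ∃ i', i = i' + 1 := ⟨i - 1, by omega⟩
      rw [Nat.add_sub_cancel] at g1 c1
      exact G.N3a A B i j v (by omega) hj h1 c1 g1
  · by_cases c2 : S < A (j + 1) + B i
    · by_cases hjK : j = K
      · subst hjK
        by_cases hi1 : i = 1
        · subst hi1; omega
        · exact ⟨-1, 0, G.b4 A B i hi h2, G.baseK A B (i - 1) (by omega) (by omega), by norm_num⟩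
      · by_cases hi1 : i = 1
        · subst hi1
          have e1 := hA.z
          have e2 := hB.mono (i := j) (j := K + 1) (by omega) le_rfl
          have e3 := hB.t
          simp only [Nat.sub_self, e1] at c1
          omega
        · obtain ⟨v, v', g1, g2, g3⟩ := hI.1 B A hB hA (i - 1) (j + 1) (by omega) (by omega)
            (by omega) (by omega) (by omega) (by omega) (by omega) (by omega)
          refine ⟨v - 1, v', ?_, g2, by omega⟩
          obtain ⟨i, rfl⟩ : ∃ i', i = i' + 1 := ⟨i - 1, by omega⟩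
          rw [Nat.add_sub_cancel] at g1
          exact G.N3b A B i j v (by omega) h2 c2 g1
    · exact P3_of_ind hI hA hB hi hij hj hp hl hu h1 h2 (by omega) (by omega) hN

/-- parity: the sums `A i + B j` with `i + j` odd are different from `S` -/
lemma sum_ne (hS : S % 2 = 0) {A B : ℕ → ℕ} (hA : Good S K A) (hB : Good S K B) {i j : ℕ}
    (hi : i ≤ K + 1) (hj : j ≤ K + 1) (hp : (i + j) % 2 = 1) : A i + B j ≠ S := by
  have h1 := hA.par i hi
  have h2 := hB.par j hj
  omega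

lemma P1_of_ind {N : ℕ} (hS : S % 2 = 0) (hK : K % 2 = 1) (hI : Ind S K N) {A B : ℕ → ℕ}
    (hA : Good S K A) (hB : Good S K B)
    {i j : ℕ} (hij : i < j) (hj : j ≤ K + 1) (hp : (i + j) % 2 = 1)
    (hi0 : i = 0 → 2 ≤ j ∧ j ≤ K) (hjK : j = K + 1 → 1 ≤ i ∧ i + 1 ≤ K)
    (hl : A i + B i < S) (hu : S < A j + B j)
    (hN : i + (K + 1) ≤ j + N + 2) : P1 S K A B i j := by
  by_cases hi : i = 0
  · subst hi
    obtain ⟨h1, h2⟩ := hi0 rfl
    exact ⟨0, 0, G.base0 A B j h1 h2, G.base0 B A j h1 h2, by norm_num⟩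
  by_cases hj1 : j = K + 1
  · subst hj1
    obtain ⟨h1, h2⟩ := hjK rfl
    exact ⟨0, 0, G.baseK A B i h1 h2, G.baseK B A i h1 h2, by norm_num⟩
  clear hi0 hjK
  have hj' : j ≤ K := by omega
  have n1 := sum_ne hS hA hB (i := i) (j := j) (by omega) (by omega) hp
  have n2 := sum_ne hS hA hB (i := j) (j := i) (by omega) (by omega) (by omega)
  by_cases c1 : S < A i + B j
  · by_cases c2 : S < A j + B i
    · -- (+,+)
      by_cases hi1 : i = 1
      · subst hi1
        exact ⟨-1, -1, G.b1 A B j hj' c1, G.b1 B A j hj' (by omega), by norm_num⟩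
      · have m1 := hA.mono (i := i - 2) (j := i) (by omega) (by omega)
        have m2 := hB.mono (i := i - 2) (j := i) (by omega) (by omega)
        obtain ⟨v, v', g1, g2, g3⟩ := hI.1 A B hA hB (i - 2) j (by omega) (by omega) (by omega)
          (by omega) (by omega) (by omega) (by omega) (by omega)
        obtain ⟨i, rfl⟩ : ∃ i', i = i' + 2 := ⟨i - 2, by omega⟩
        rw [Nat.add_sub_cancel] at g1 g2
        exact ⟨v, v', G.N1 A B i j v hj' c1 g1, G.N1 B A i j v' hj' (by omega) g2, g3⟩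
    · -- (+,-)
      obtain ⟨v, v', g1, g2, g3⟩ := Ppm_of_ind hS hK hI hA hB (by omega) hij hj' hp hl hu c1
        (by omega) (by omega)
      obtain ⟨i, rfl⟩ : ∃ i', i = i' + 1 := ⟨i - 1, by omega⟩
      rw [Nat.add_sub_cancel] at g2
      exact ⟨v, v' + 1, g1, G.N3 B A i j v' hj' g2, by omega⟩
  · by_cases c2 : S < A j + B i
    · -- (-,+)
      obtain ⟨v, v', g1, g2, g3⟩ := Ppm_of_ind hS hK hI hB hA (by omega) hij hj' hp (by omega)
        (by omega) (by omega : S < B i + A j) (by omega) (by omega)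
      obtain ⟨i, rfl⟩ : ∃ i', i = i' + 1 := ⟨i - 1, by omega⟩
      rw [Nat.add_sub_cancel] at g2
      exact ⟨v' + 1, v, G.N3 A B i j v' hj' g2, g1, by omega⟩
    · -- (-,-)
      by_cases hj2 : j = K
      · subst hj2
        exact ⟨-1, -1, G.b4 A B i (by omega) (by omega), G.b4 B A i (by omega) (by omega),
          by norm_num⟩
      · have m1 := hA.mono (i := j) (j := j + 2) (by omega) (by omega)
        have m2 := hB.mono (i := j) (j := j + 2) (by omega) (by omega)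
        obtain ⟨v, v', g1, g2, g3⟩ := hI.1 A B hA hB i (j + 2) (by omega) (by omega) (by omega)
          (by omega) (by omega) (by omega) (by omega) (by omega)
        exact ⟨v, v', G.N2 A B i j v (by omega) (by omega) (by omega) g1,
          G.N2 B A i j v' (by omega) (by omega) (by omega) g2, g3⟩

/-- the moves used in `P4` -/
lemma P4_R {A B : ℕ → ℕ} {i j : ℕ} (hi : 2 ≤ i) (hj : j ≤ K) (h1 : S < A i + B j) (v : ℤ)
    (hv : G S K A B (i - 2) j v) : G S K A B i j v := by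
  obtain ⟨i, rfl⟩ : ∃ i', i = i' + 2 := ⟨i - 2, by omega⟩
  rw [Nat.add_sub_cancel] at hv
  exact G.N1 A B i j v hj h1 hv

lemma P4_Q2 {A B : ℕ → ℕ} {i j : ℕ} (hi : 2 ≤ i) (hj1 : 1 ≤ j) (hj : j ≤ K)
    (h2 : A (j - 1) + B (i - 1) < S) (v : ℤ)
    (hv : G S K A B (i - 1) (j + 1) v) : G S K A B (i - 1) (j - 1) v := by
  obtain ⟨j, rfl⟩ : ∃ j', j = j' + 1 := ⟨j - 1, by omega⟩
  rw [Nat.add_sub_cancel] at h2 ⊢
  exact G.N2 A B (i - 1) j v (by omega) (by omega) h2 hv

lemma P4_R3a {A B : ℕ → ℕ} {i j : ℕ} (hi : 2 ≤ i) (hj : j ≤ K) (h1 : S < A i + B j)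
    (c : A (i - 1) + B j < S) (v : ℤ)
    (hv : G S K B A (i - 1) (j + 1) v) : G S K A B i j (v - 1) := by
  obtain ⟨i, rfl⟩ : ∃ i', i = i' + 1 := ⟨i - 1, by omega⟩
  rw [Nat.add_sub_cancel] at c hv
  exact G.N3a A B i j v (by omega) hj h1 c hv

lemma P4_R3b {A B : ℕ → ℕ} {i j : ℕ} (hi : 2 ≤ i) (hj : j + 1 ≤ K) (h1 : A j + B i < S)
    (c : S < A (j + 1) + B i) (v : ℤ)
    (hv : G S K B A (i - 1) (j + 1) v) : G S K A B i j (v - 1) := by
  obtain ⟨i, rfl⟩ : ∃ i', i = i' + 1 := ⟨i - 1, by omega⟩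
  rw [Nat.add_sub_cancel] at hv
  exact G.N3b A B i j v hj h1 c hv

lemma P4_Q3a {A B : ℕ → ℕ} {i j : ℕ} (hi : 3 ≤ i) (hj1 : 1 ≤ j) (hj : j ≤ K + 1)
    (h1 : S < A (i - 1) + B (j - 1)) (c : A (i - 2) + B (j - 1) < S) (v : ℤ)
    (hv : G S K B A (i - 2) j v) : G S K A B (i - 1) (j - 1) (v - 1) := by
  obtain ⟨i, rfl⟩ : ∃ i', i = i' + 2 := ⟨i - 2, by omega⟩
  obtain ⟨j, rfl⟩ : ∃ j', j = j' + 1 := ⟨j - 1, by omega⟩
  have e1 : i + 2 - 1 = i + 1 := by omega
  rw [Nat.add_sub_cancel] at *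
  rw [e1] at *
  exact G.N3a A B i j v (by omega) (by omega) h1 c hv

lemma P4_Q3b {A B : ℕ → ℕ} {i j : ℕ} (hi : 2 ≤ i) (hj1 : 1 ≤ j) (hj : j ≤ K)
    (h1 : A (j - 1) + B (i - 1) < S) (c : S < A j + B (i - 1)) (v : ℤ)
    (hv : G S K B A (i - 2) j v) : G S K A B (i - 1) (j - 1) (v - 1) := by
  obtain ⟨i, rfl⟩ : ∃ i', i = i' + 2 := ⟨i - 2, by omega⟩
  obtain ⟨j, rfl⟩ : ∃ j', j = j' + 1 := ⟨j - 1, by omega⟩
  have e1 : i + 2 - 1 = i + 1 := by omega
  rw [Nat.add_sub_cancel] at *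
  rw [e1] at *
  exact G.N3b A B i j v (by omega) h1 c hv

lemma P4_band {N : ℕ} (hS : S % 2 = 0) (hI : Ind S K N) {A B : ℕ → ℕ}
    (hA : Good S K A) (hB : Good S K B)
    {i j : ℕ} (hi : 2 ≤ i) (hij : i < j) (hj : j ≤ K) (hp : (i + j) % 2 = 1)
    (hl : A i + B i < S) (hu : S < A (j - 1) + B (j - 1)) (h1 : S < A i + B j)
    (h2 : A (j - 1) + B (i - 1) < S) (hN : i + (K + 1) ≤ j + N + 2)
    (cU : S < A (i - 1) + B (j - 1)) (c3 : A j + B (i - 2) < S) : P4 S K A B i j := by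
  have m1 := hA.mono (i := i - 1) (j := i) (by omega) (by omega)
  have m2 := hB.mono (i := i - 1) (j := i) (by omega) (by omega)
  have e1 : i - 1 - 1 = i - 2 := by omega
  have e2 : j - 1 + 1 = j := by omega
  by_cases c : S < A (i - 2) + B j
  · obtain ⟨v, v', g1, g2, g3⟩ : P3 S K A B (i - 1) (j - 1) :=
      P3_of_ind hI hA hB (by omega) (by omega) (by omega) (by omega) (by omega) hu
          cU h2 (by rw [e1, e2]; exact c) (by rw [e1, e2]; exact c3) (by omega)
    rw [e1, e2] at g2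
    exact ⟨v', v, P4_R hi hj h1 v' g2, g1, by omega⟩
  · by_cases hi2 : i = 2
    · subst hi2
      refine ⟨0, -1, P4_R hi hj h1 0 ?_, ?_, by norm_num⟩
      · exact G.base0 A B j (by omega) hj
      · exact G.b1 A B (j - 1) (by omega) cU
    · have m3 := hA.mono (i := i - 2) (j := i) (by omega) (by omega)
      have m4 := hB.mono (i := i - 2) (j := i) (by omega) (by omega)
      have m5 := hA.mono (i := j - 1) (j := j) (by omega) (by omega)
      have m6 := hB.mono (i := j - 1) (j := j) (by omega) (by omega)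
      have n1 := sum_ne hS hA hB (i := i - 2) (j := j) (by omega) (by omega) (by omega)
      obtain ⟨v, v', g1, g2, g3⟩ := hI.1 A B hA hB (i - 2) j (by omega) (by omega) (by omega)
        (by omega) (by omega) (by omega) (by omega) (by omega)
      exact ⟨v, v' - 1, P4_R hi hj h1 v g1,
        P4_Q3a (by omega) (by omega) (by omega) cU (by omega) v' g2, by omega⟩

lemma P4_low {N : ℕ} (hS : S % 2 = 0) (hK : K % 2 = 1) (hI : Ind S K N) {A B : ℕ → ℕ}
    (hA : Good S K A) (hB : Good S K B)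
    {i j : ℕ} (hi : 2 ≤ i) (hij : i < j) (hj : j ≤ K) (hp : (i + j) % 2 = 1)
    (hl : A i + B i < S) (hu : S < A (j - 1) + B (j - 1)) (h1 : S < A i + B j)
    (h2 : A (j - 1) + B (i - 1) < S) (hN : i + (K + 1) ≤ j + N + 2)
    (cU : A (i - 1) + B (j - 1) < S) (cL : A j + B i < S) : P4 S K A B i j := by
  have m1 := hA.mono (i := i - 1) (j := i) (by omega) (by omega)
  have m2 := hB.mono (i := i - 1) (j := i) (by omega) (by omega)
  have m5 := hA.mono (i := j - 1) (j := j) (by omega) (by omega)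
  have m6 := hB.mono (i := j - 1) (j := j) (by omega) (by omega)
  by_cases hjK : j = K
  · subst hjK
    refine ⟨-1, 0, G.b4 A B i (by omega) cL, P4_Q2 hi (by omega) hj h2 0 ?_, by norm_num⟩
    exact G.baseK A B (i - 1) (by omega) (by omega)
  · have m7 := hA.mono (i := j) (j := j + 1) (by omega) (by omega)
    have m8 := hB.mono (i := j) (j := j + 1) (by omega) (by omega)
    by_cases c3 : A (i - 1) + B j < S
    · obtain ⟨v, v', g1, g2, g3⟩ := hI.1 A B hA hB (i - 1) (j + 1) (by omega) (by omega)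
        (by omega) (by omega) (by omega) (by omega) (by omega) (by omega)
      exact ⟨v' - 1, v, P4_R3a hi hj h1 c3 v' g2, P4_Q2 hi (by omega) hj h2 v g1, by omega⟩
    · by_cases c4 : A (j + 1) + B (i - 1) < S
      · obtain ⟨v, v', g1, g2, g3⟩ := P3_of_ind hI hA hB (by omega) hij hj hp hl (by omega) h1 cL
          (by omega) c4 (by omega)
        exact ⟨v, v', g1, P4_Q2 hi (by omega) hj h2 v' g2, g3⟩
      · obtain ⟨v, v', g1, g2, g3⟩ := hI.1 A B hA hB (i - 1) (j + 1) (by omega) (by omega)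
          (by omega) (by omega) (by omega) (by omega) (by omega) (by omega)
        exact ⟨v' - 1, v, P4_R3b hi (by omega) cL (by omega) v' g2,
          P4_Q2 hi (by omega) hj h2 v g1, by omega⟩

lemma P4_mid {N : ℕ} (hS : S % 2 = 0) (hK : K % 2 = 1) (hI : Ind S K N) {A B : ℕ → ℕ}
    (hA : Good S K A) (hB : Good S K B)
    {i j : ℕ} (hi : 2 ≤ i) (hij : i < j) (hj : j ≤ K) (hp : (i + j) % 2 = 1)
    (hl : A i + B i < S) (hu : S < A (j - 1) + B (j - 1)) (h1 : S < A i + B j)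
    (h2 : A (j - 1) + B (i - 1) < S) (hN : i + (K + 1) ≤ j + N + 2)
    (cU : A (i - 1) + B (j - 1) < S) (c1 : A j + B (i - 1) ≤ S) : P4 S K A B i j := by
  have m1 := hA.mono (i := i - 1) (j := i) (by omega) (by omega)
  have m2 := hB.mono (i := i - 1) (j := i) (by omega) (by omega)
  have m3 := hA.mono (i := i - 2) (j := i - 1) (by omega) (by omega)
  have m4 := hB.mono (i := i - 2) (j := i - 1) (by omega) (by omega)
  have m5 := hA.mono (i := j - 1) (j := j) (by omega) (by omega)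
  have m6 := hB.mono (i := j - 1) (j := j) (by omega) (by omega)
  by_cases hjK : j = K
  · subst hjK
    by_cases hi2 : i = 2
    · subst hi2
      by_cases c5 : S ≤ A 1 + B j
      · refine ⟨0, -1, P4_R hi hj h1 0 ?_, ?_, by norm_num⟩
        · exact G.base0 A B j (by omega) hj
        · exact G.c1 A B (by omega) (by simpa using h2) c5
      · refine ⟨0 - 1, 0, P4_R3a hi hj h1 (by simpa using c5) 0 ?_,
          P4_Q2 hi (by omega) hj h2 0 ?_, by norm_num⟩
        · exact G.baseK B A 1 (by omega) (by omega)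
        · exact G.baseK A B 1 (by omega) (by omega)
    · refine ⟨-1, 0, P4_R hi hj h1 (-1) ?_, P4_Q2 hi (by omega) hj h2 0 ?_, by norm_num⟩
      · exact G.b4 A B (i - 2) (by omega) (by omega)
      · exact G.baseK A B (i - 1) (by omega) (by omega)
  · have m7 := hA.mono (i := j) (j := j + 1) (by omega) (by omega)
    have m8 := hB.mono (i := j) (j := j + 1) (by omega) (by omega)
    have n1 := sum_ne hS hA hB (i := i - 1) (j := j + 1) (by omega) (by omega) (by omega)
    by_cases c3 : S < A (i - 1) + B (j + 1)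
    · have e1 : i - 1 - 1 = i - 2 := by omega
      obtain ⟨v, v', g1, g2, g3⟩ := hI.2 A B hA hB (i - 1) (j + 1) (by omega) (by omega)
        (by omega) (by omega) (by omega) (by rw [Nat.add_sub_cancel]; omega) c3
        (by rw [e1, Nat.add_sub_cancel]; omega) (by omega)
      rw [e1, Nat.add_sub_cancel] at g2
      exact ⟨v', v, P4_R hi hj h1 v' g2, P4_Q2 hi (by omega) hj h2 v g1, by omega⟩
    · obtain ⟨v, v', g1, g2, g3⟩ := hI.1 A B hA hB (i - 1) (j + 1) (by omega) (by omega)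
        (by omega) (by omega) (by omega) (by omega) (by omega) (by omega)
      exact ⟨v' - 1, v, P4_R3a hi hj h1 (by omega) v' g2,
        P4_Q2 hi (by omega) hj h2 v g1, by omega⟩

lemma P4_of_ind {N : ℕ} (hS : S % 2 = 0) (hK : K % 2 = 1) (hI : Ind S K N) {A B : ℕ → ℕ}
    (hA : Good S K A) (hB : Good S K B)
    {i j : ℕ} (hi : 1 ≤ i) (hij : i < j) (hj : j ≤ K) (hp : (i + j) % 2 = 1)
    (hl : A i + B i < S) (hu : S < A (j - 1) + B (j - 1)) (h1 : S < A i + B j)
    (h2 : A (j - 1) + B (i - 1) < S) (hN : i + (K + 1) ≤ j + N + 2) : P4 S K A B i j := by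
  by_cases hi1 : i = 1
  · subst hi1
    have hj3 : j ≠ 2 := by
      rintro rfl
      simp only [Nat.reduceSub] at hu
      omega
    exact ⟨-1, 0, G.b1 A B j hj h1, G.base0 A B (j - 1) (by omega) (by omega), by norm_num⟩
  have hi2 : 2 ≤ i := by omega
  have m1 := hA.mono (i := i - 1) (j := i) (by omega) (by omega)
  have m2 := hB.mono (i := i - 1) (j := i) (by omega) (by omega)
  have m3 := hA.mono (i := i - 2) (j := i - 1) (by omega) (by omega)
  have m4 := hB.mono (i := i - 2) (j := i - 1) (by omega) (by omega)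
  have m5 := hA.mono (i := j - 1) (j := j) (by omega) (by omega)
  have m6 := hB.mono (i := j - 1) (j := j) (by omega) (by omega)
  have n1 := sum_ne hS hA hB (i := i - 1) (j := j - 1) (by omega) (by omega) (by omega)
  by_cases cL : A j + B i < S
  · by_cases cU : S < A (i - 1) + B (j - 1)
    · exact P4_band hS hI hA hB hi2 hij hj hp hl hu h1 h2 hN cU (by omega)
    · exact P4_low hS hK hI hA hB hi2 hij hj hp hl hu h1 h2 hN (by omega) cL
  · by_cases c1 : S < A j + B (i - 1)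
    · obtain ⟨v, v', g1, g2, g3⟩ := hI.1 A B hA hB (i - 2) j (by omega) (by omega) (by omega)
        (by omega) (by omega) (by omega) (by omega) (by omega)
      exact ⟨v, v' - 1, P4_R hi2 hj h1 v g1,
        P4_Q3b hi2 (by omega) hj h2 c1 v' g2, by omega⟩
    · by_cases cU : S < A (i - 1) + B (j - 1)
      · exact P4_band hS hI hA hB hi2 hij hj hp hl hu h1 h2 hN cU (by omega)
      · exact P4_mid hS hK hI hA hB hi2 hij hj hp hl hu h1 h2 hN (by omega) (by omega)

theorem ind_all (hS : S % 2 = 0) (hK : K % 2 = 1) : ∀ N, Ind S K N := by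
  have h0 : ∀ N, N < 2 → Ind S K N := by
    intro N hN
    constructor
    · intro A B hA hB i j hij hj hp hi0 hjK hl hu hN'
      rcases Nat.eq_zero_or_pos i with h | h
      · subst h
        obtain ⟨h1, h2⟩ := hi0 rfl
        exact ⟨0, 0, G.base0 A B j h1 h2, G.base0 B A j h1 h2, by norm_num⟩
      · have hj2 : j = K + 1 := by omega
        obtain ⟨h1, h2⟩ := hjK hj2
        subst hj2
        exact ⟨0, 0, G.baseK A B i h1 h2, G.baseK B A i h1 h2, by norm_num⟩
    · intro A B hA hB i j hi hij hj hp hl hu h1 h2 hN'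
      omega
  have h1 : ∀ N, Ind S K N ∧ Ind S K (N + 1) := by
    intro N
    induction N with
    | zero => exact ⟨h0 0 (by omega), h0 1 (by omega)⟩
    | succ N ih =>
      refine ⟨ih.2, ?_, ?_⟩
      · intro A B hA hB i j hij hj hp hi0 hjK hl hu hN
        exact P1_of_ind hS hK ih.1 hA hB hij hj hp hi0 hjK hl hu (by omega)
      · intro A B hA hB i j hi hij hj hp hl hu h1 h2 hN
        exact P4_of_ind hS hK ih.1 hA hB hi hij hj hp hl hu h1 h2 (by omega)
  exact fun N => (h1 N).1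

/-- **P1**: both processes start at the same state -/
theorem game_P1 (hS : S % 2 = 0) (hK : K % 2 = 1) {A B : ℕ → ℕ} (hA : Good S K A)
    (hB : Good S K B) {i j : ℕ} (hij : i < j) (hj : j ≤ K + 1) (hp : (i + j) % 2 = 1)
    (hi0 : i = 0 → 2 ≤ j ∧ j ≤ K) (hjK : j = K + 1 → 1 ≤ i ∧ i + 1 ≤ K)
    (hl : A i + B i < S) (hu : S < A j + B j) :
    ∃ v v' : ℤ, G S K A B i j v ∧ G S K B A i j v' ∧ v + v' ≤ 0 :=
  (ind_all hS hK (i + (K + 1))).1 A B hA hB i j hij hj hp hi0 hjK hl hu (by omega)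

/-- the pattern `(+, -)`: the first process is free, the second one makes the move N3 -/
theorem game_Ppm (hS : S % 2 = 0) (hK : K % 2 = 1) {A B : ℕ → ℕ} (hA : Good S K A)
    (hB : Good S K B) {i j : ℕ} (hi : 1 ≤ i) (hij : i < j) (hj : j ≤ K) (hp : (i + j) % 2 = 1)
    (hl : A i + B i < S) (hu : S < A j + B j) (h1 : S < A i + B j) (h2 : A j + B i < S) :
    ∃ v v' : ℤ, G S K A B i j v ∧ G S K A B (i - 1) (j + 1) v' ∧ v + v' ≤ -1 :=
  Ppm_of_ind hS hK (ind_all hS hK (i + (K + 1))) hA hB hi hij hj hp hl hu h1 h2 (by omega)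

/-- **P4** -/
theorem game_P4 (hS : S % 2 = 0) (hK : K % 2 = 1) {A B : ℕ → ℕ} (hA : Good S K A)
    (hB : Good S K B) {i j : ℕ} (hi : 1 ≤ i) (hij : i < j) (hj : j ≤ K) (hp : (i + j) % 2 = 1)
    (hl : A i + B i < S) (hu : S < A (j - 1) + B (j - 1)) (h1 : S < A i + B j)
    (h2 : A (j - 1) + B (i - 1) < S) :
    ∃ v v' : ℤ, G S K A B i j v ∧ G S K A B (i - 1) (j - 1) v' ∧ v + v' ≤ -1 :=
  (ind_all hS hK (i + (K + 1))).2 A B hA hB i j hi hij hj hp hl hu h1 h2 (by omega)

end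

end Pool.Agent.Helper95.CF
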