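import Pool.Agent.Helper95.CFReal

/-!
MP_717b2e_co, upper bound: the local lemma.
-/

namespace Pool.Agent.Helper95.CF

open Finset

variable {n : ℕ}

lemma St.self {M : NCM n} {K : ℕ} {a b : ℕ → ℕ} (C : Chords M K a b) {i : ℕ} (hi : i ≤ K) :
    St M M a b i (i + 1) :=
  ⟨C.gapA i hi, C.gapB i hi, fun _ _ _ _ => rfl⟩

/-- all chords weakly below the center -/
lemma start_down (hn : n % 2 = 1) {M : NCM n} {K : ℕ} {a b : ℕ → ℕ} (C : Chords M K a b)
    (h0 : ¬ (a 1 = 1 ∧ b 1 = n)) (h : ∀ i, 1 ≤ i → i ≤ K → a i + b i ≤ n + 1) : Val M 0 := by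
  apply tail_down hn M
  · intro he
    obtain ⟨k, k1, k2, k3, k4⟩ := C.cross (x := 0) (by omega) he.ge
    have e3 := C.a_pos (i := k) k1 (by omega)
    have e4 : k = 1 := by
      by_contra hk
      have := C.ga.mono (i := 1) (j := k) (by omega) (by omega)
      have := C.a_pos (i := 1) (by omega) (by omega)
      omega
    subst e4
    have := C.b_le k2
    exact h0 ⟨by omega, by omega⟩
  · intro x hx0 hxn hN
    obtain ⟨k, k1, k2, k3, k4⟩ := C.cross hxn hN.le
    have := h k k1 k2
    omega

/-- all chords weakly above the center -/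
lemma start_up (hn : n % 2 = 1) {M : NCM n} {K : ℕ} {a b : ℕ → ℕ} (C : Chords M K a b)
    (h0 : ¬ (a 1 = 1 ∧ b 1 = n)) (h : ∀ i, 1 ≤ i → i ≤ K → n + 1 ≤ a i + b i) : Val M 0 := by
  apply tail_up hn M
  · intro he
    obtain ⟨k, k1, k2, k3, k4⟩ := C.cross (x := 0) (by omega) he.ge
    have e3 := C.a_pos (i := k) k1 (by omega)
    have e4 : k = 1 := by
      by_contra hk
      have := C.ga.mono (i := 1) (j := k) (by omega) (by omega)
      have := C.a_pos (i := 1) (by omega) (by omega)
      omega
    subst e4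
    have := C.b_le k2
    exact h0 ⟨by omega, by omega⟩
  · intro x hx0 hxn hN
    obtain ⟨k, k1, k2, k3, k4⟩ := C.cross hxn hN.le
    have := h k k1 k2
    omega

/-- all chords weakly above the center, upper bound 1 -/
lemma start_up1 (hn : n % 2 = 1) {M : NCM n} {K : ℕ} {a b : ℕ → ℕ} (C : Chords M K a b)
    (h : ∀ i, 1 ≤ i → i ≤ K → n + 1 ≤ a i + b i) : Val M 1 := by
  by_cases h0 : a 1 = 1 ∧ b 1 = n
  · apply Val.aligned
    have hK := C.hK
    have := C.ch 1 le_rfl (by omega)
    rw [h0.1, h0.2] at this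
    simp only [Nat.sub_self] at this
    omega
  · exact (start_up hn C h0 h).mono (by norm_num)

/-- one gap empty -/
lemma start_empty (hn : n % 2 = 1) {M : NCM n} {K : ℕ} {a b : ℕ → ℕ} (C : Chords M K a b)
    {i : ℕ} (hi : 1 ≤ i) (hiK : i + 1 ≤ K) (hl : a i + b i < n + 1)
    (hu : n + 1 < a (i + 1) + b (i + 1)) (he : a (i + 1) = a i + 1) :
    ∃ v v' : ℤ, Val M v ∧ Val (rev M) v' ∧ v + v' ≤ 0 := by
  have hK := C.hK
  have p1 := C.ga.par i (by omega)
  have p2 := C.gb.par i (by omega)
  have p3 := C.ga.par (i + 1) (by omega)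
  have p4 := C.gb.par (i + 1) (by omega)
  have m1 := C.gb.mono (i := i) (j := i + 1) (by omega) (by omega)
  have q1 := C.ga.mono (i := i - 1) (j := i) (by omega) (by omega)
  have q2 := C.gb.mono (i := i - 1) (j := i) (by omega) (by omega)
  have q3 := C.ga.mono (i := i + 1) (j := i + 2) (by omega) (by omega)
  have q4 := C.gb.mono (i := i + 1) (j := i + 2) (by omega) (by omega)
  have C' := C.rev
  obtain ⟨v, v', g1, g2, g3⟩ := game_Ppm (S := n + 1) (K := K) (by omega) hK C.ga C.gb
    (i := i) (j := i + 1) hi (by omega) hiK (by omega) hl hu (by omega) (by omega)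
  rcases Nat.mod_two_eq_zero_or_one i with h | h
  · -- rev M is the free process
    refine ⟨v' + 1, v, ?_, ?_, by omega⟩
    · obtain ⟨N', S', hd, hU⟩ := move_N3 hn C hi (by omega) hiK (by omega)
        (St.self C (by omega)) hl.le hu.le
      have := realize hn C g2 (fun _ => ⟨rfl, rfl⟩) (fun h' => by omega) (by omega) (by omega)
        (by omega) (by omega) (by show n + 1 ≤ a (i + 2) + b (i + 2); omega) N' S'
        ⟨fun _ => by show b (i - 1) + 1 < b (i + 2); omega, fun _ => by omega⟩
      exact this.step hd (by push_cast; omega)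
    · exact realize hn C' g1 (fun h' => by omega) (fun _ => ⟨rfl, rfl⟩) (by omega) (by omega)
        (by omega) hl.le hu.le (CF.rev M) (St.self C' (by omega)) ⟨fun h' => by omega, fun _ => by omega⟩
  · refine ⟨v, v' + 1, ?_, ?_, by omega⟩
    · exact realize hn C g1 (fun _ => ⟨rfl, rfl⟩) (fun h' => by omega) (by omega) (by omega)
        (by omega) hl.le hu.le M (St.self C (by omega)) ⟨fun _ => by omega, fun h' => by omega⟩
    · obtain ⟨N', S', hd, hU⟩ := move_N3 hn C' hi (by omega) hiK (by omega)
        (St.self C' (by omega)) (by omega) (by omega)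
      have := realize hn C' g2 (fun h' => by omega) (fun _ => ⟨rfl, rfl⟩) (by omega) (by omega)
        (by omega) (by omega) (by show n + 1 ≤ a (i + 2) + b (i + 2); omega) N' S'
        ⟨fun _ => by omega, fun _ => by show b (i - 1) + 1 < b (i + 2); omega⟩
      exact this.step hd (by push_cast; omega)

/-- no diameter, both gaps nonempty -/
lemma start_full (hn : n % 2 = 1) {M : NCM n} {K : ℕ} {a b : ℕ → ℕ} (C : Chords M K a b)
    {i : ℕ} (hi : 1 ≤ i) (hiK : i + 1 ≤ K) (hl : a i + b i < n + 1)
    (hu : n + 1 < a (i + 1) + b (i + 1)) (he : a i + 1 < a (i + 1)) (he' : b i + 1 < b (i + 1)) :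
    ∃ v v' : ℤ, Val M v ∧ Val (rev M) v' ∧ v + v' ≤ 0 := by
  have hK := C.hK
  have C' := C.rev
  obtain ⟨v, v', g1, g2, g3⟩ := game_P1 (S := n + 1) (K := K) (by omega) hK C.ga C.gb
    (i := i) (j := i + 1) (by omega) (by omega) (by omega) (by omega) (by omega) hl hu
  rcases Nat.mod_two_eq_zero_or_one i with h | h
  · refine ⟨v', v, ?_, ?_, by omega⟩
    · exact realize hn C g2 (fun h' => by omega) (fun _ => ⟨rfl, rfl⟩) (by omega) (by omega)
        (by omega) (by omega) (by omega) M (St.self C (by omega)) ⟨fun _ => he', fun _ => he⟩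
    · exact realize hn C' g1 (fun h' => by omega) (fun _ => ⟨rfl, rfl⟩) (by omega) (by omega)
        (by omega) hl.le hu.le (CF.rev M) (St.self C' (by omega)) ⟨fun _ => he, fun _ => he'⟩
  · refine ⟨v, v', ?_, ?_, by omega⟩
    · exact realize hn C g1 (fun _ => ⟨rfl, rfl⟩) (fun h' => by omega) (by omega) (by omega)
        (by omega) hl.le hu.le M (St.self C (by omega)) ⟨fun _ => he', fun _ => he⟩
    · exact realize hn C' g2 (fun _ => ⟨rfl, rfl⟩) (fun h' => by omega) (by omega) (by omega)
        (by omega) (by omega) (by omega) (CF.rev M) (St.self C' (by omega))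
        ⟨fun _ => he, fun _ => he'⟩

/-- the diameter chord hops down -/
lemma diamX (hn : n % 2 = 1) {M : NCM n} {K : ℕ} {a b : ℕ → ℕ} (C : Chords M K a b)
    {d : ℕ} (hd2 : 2 ≤ d) (hdK : d + 1 ≤ K) (hd : a d + b d = n + 1)
    (hne : NeBad a b (d - 1) d) :
    ∃ N' : NCM n, St M N' a b (d - 1) (d + 2) ∧ DistLe M N' 2 ∧ U N' - U M ≤ -4 := by
  have m1 := C.ga.mono (i := d - 1) (j := d) (by omega) (by omega)
  have m2 := C.gb.mono (i := d - 1) (j := d) (by omega) (by omega)
  have S : St M M a b (d - 1) d := by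
    have := St.self C (i := d - 1) (by omega)
    have e : d - 1 + 1 = d := by omega
    rwa [e] at this
  rcases Nat.mod_two_eq_zero_or_one (d - 1) with h | h
  · exact move_N2A hn C (by omega) (by omega) hdK (by omega) h S (hne.2 h) (by omega) (by omega)
      (by omega)
  · exact move_N2B hn C (by omega) (by omega) hdK (by omega) h S (hne.1 h) (by omega) (by omega)
      (by omega)

/-- the diameter chord hops up -/
lemma diamX' (hn : n % 2 = 1) {M : NCM n} {K : ℕ} {a b : ℕ → ℕ} (C : Chords M K a b)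
    {d : ℕ} (hd2 : 2 ≤ d) (hdK : d + 1 ≤ K) (hd : a d + b d = n + 1)
    (hne : NeBad a b d (d + 1)) :
    ∃ N' : NCM n, St M N' a b (d - 2) (d + 1) ∧ DistLe M N' 2 ∧ U N' - U M ≤ -4 := by
  have m1 := C.ga.mono (i := d) (j := d + 1) (by omega) (by omega)
  have m2 := C.gb.mono (i := d) (j := d + 1) (by omega) (by omega)
  have S : St M M a b d (d + 1) := St.self C (by omega)
  rcases Nat.mod_two_eq_zero_or_one d with h | h
  · exact move_N1A hn C hd2 (by omega) hdK (by omega) h S (hne.2 h) (by omega) (by omega)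
      (by omega)
  · exact move_N1B hn C hd2 (by omega) hdK (by omega) h S (hne.1 h) (by omega) (by omega)
      (by omega)

/-- the diameter chord is annihilated with the next one -/
lemma diamY (hn : n % 2 = 1) {M : NCM n} {K : ℕ} {a b : ℕ → ℕ} (C : Chords M K a b)
    {d : ℕ} (hd2 : 2 ≤ d) (hdK : d + 1 ≤ K) (hd : a d + b d = n + 1) :
    ∃ N' : NCM n, St M N' a b (d - 1) (d + 2) ∧ DistLe M N' 1 ∧ U N' - U M ≤ 0 := by
  have m1 := C.ga.mono (i := d) (j := d + 1) (by omega) (by omega)
  have m2 := C.gb.mono (i := d) (j := d + 1) (by omega) (by omega)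
  exact move_N3 hn C (by omega) (by omega) hdK (by omega) (St.self C (by omega)) (by omega)
    (by omega)

/-- the diameter chord is annihilated with the previous one -/
lemma diamY' (hn : n % 2 = 1) {M : NCM n} {K : ℕ} {a b : ℕ → ℕ} (C : Chords M K a b)
    {d : ℕ} (hd2 : 2 ≤ d) (hdK : d + 1 ≤ K) (hd : a d + b d = n + 1) :
    ∃ N' : NCM n, St M N' a b (d - 2) (d + 1) ∧ DistLe M N' 1 ∧ U N' - U M ≤ 0 := by
  have m1 := C.ga.mono (i := d - 1) (j := d) (by omega) (by omega)
  have m2 := C.gb.mono (i := d - 1) (j := d) (by omega) (by omega)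
  have S : St M M a b (d - 1) d := by
    have := St.self C (i := d - 1) (by omega)
    have e : d - 1 + 1 = d := by omega
    rwa [e] at this
  have := move_N3 hn C (i := d - 1) (j := d) (by omega) (by omega) (by omega) (by omega) S
    (by omega) (by omega)
  have e : d - 1 - 1 = d - 2 := by omega
  rwa [e] at this

/-- realization for both processes from a common state -/
lemma both (hn : n % 2 = 1) {M : NCM n} {K : ℕ} {a b : ℕ → ℕ} (C : Chords M K a b)
    {i j : ℕ} (hij : i < j) (hj : j ≤ K + 1) (hp : (i + j) % 2 = 1)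
    (hi0 : i = 0 → 2 ≤ j ∧ j ≤ K) (hjK : j = K + 1 → 1 ≤ i ∧ i + 1 ≤ K)
    (hl : a i + b i < n + 1) (hu : n + 1 < a j + b j) (ha : a i + 1 < a j) (hb : b i + 1 < b j)
    {N N' : NCM n} (S : St M N a b i j) (S' : St (rev M) N' b a i j) :
    ∃ v v' : ℤ, Val N v ∧ Val N' v' ∧ v + v' ≤ 0 := by
  have hK := C.hK
  have C' := C.rev
  obtain ⟨v, v', g1, g2, g3⟩ := game_P1 (S := n + 1) (K := K) (by omega) hK C.ga C.gb
    hij hj hp hi0 hjK hl hu
  rcases Nat.mod_two_eq_zero_or_one i with h | h
  · refine ⟨v', v, ?_, ?_, by omega⟩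
    · exact realize hn C g2 (fun h' => by omega) (fun _ => ⟨rfl, rfl⟩) hij hj
        hp (by omega) (by omega) N S ⟨fun _ => hb, fun _ => ha⟩
    · exact realize hn C' g1 (fun h' => by omega) (fun _ => ⟨rfl, rfl⟩) hij hj
        hp hl.le hu.le N' S' ⟨fun _ => ha, fun _ => hb⟩
  · refine ⟨v, v', ?_, ?_, by omega⟩
    · exact realize hn C g1 (fun _ => ⟨rfl, rfl⟩) (fun h' => by omega) hij hj
        hp hl.le hu.le N S ⟨fun _ => hb, fun _ => ha⟩
    · exact realize hn C' g2 (fun _ => ⟨rfl, rfl⟩) (fun h' => by omega) hij hj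
        hp (by omega) (by omega) N' S' ⟨fun _ => ha, fun _ => hb⟩

/-- a diameter, `NeBad` at the lower side for `M` -/
lemma diam_lower (hn : n % 2 = 1) {M : NCM n} {K : ℕ} {a b : ℕ → ℕ} (C : Chords M K a b)
    {d : ℕ} (hd2 : 2 ≤ d) (hdK : d + 1 ≤ K) (hd : a d + b d = n + 1)
    (hne : NeBad a b (d - 1) d) :
    ∃ v v' : ℤ, Val M v ∧ Val (rev M) v' ∧ v + v' ≤ 1 := by
  have m1 := C.ga.mono (i := d - 1) (j := d) (by omega) (by omega)
  have m2 := C.gb.mono (i := d - 1) (j := d) (by omega) (by omega)
  have m3 := C.ga.mono (i := d) (j := d + 2) (by omega) (by omega)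
  have m4 := C.gb.mono (i := d) (j := d + 2) (by omega) (by omega)
  obtain ⟨N, S, h1, h2⟩ := diamX hn C hd2 hdK hd hne
  obtain ⟨N', S', h1', h2'⟩ := diamY hn C.rev hd2 hdK (by omega)
  obtain ⟨v, v', g1, g2, g3⟩ := both hn C (by omega) (by omega) (by omega) (by omega) (by omega)
    (by omega) (by omega) (by omega) (by omega) S S'
  exact ⟨v, v' + 1, g1.step h1 (by push_cast; omega), g2.step h1' (by push_cast; omega), by omega⟩

/-- a diameter, `NeBad` at the upper side for `M` -/
lemma diam_upper (hn : n % 2 = 1) {M : NCM n} {K : ℕ} {a b : ℕ → ℕ} (C : Chords M K a b)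
    {d : ℕ} (hd2 : 2 ≤ d) (hdK : d + 1 ≤ K) (hd : a d + b d = n + 1)
    (hne : NeBad a b d (d + 1)) :
    ∃ v v' : ℤ, Val M v ∧ Val (rev M) v' ∧ v + v' ≤ 1 := by
  have m1 := C.ga.mono (i := d - 2) (j := d) (by omega) (by omega)
  have m2 := C.gb.mono (i := d - 2) (j := d) (by omega) (by omega)
  have m3 := C.ga.mono (i := d) (j := d + 1) (by omega) (by omega)
  have m4 := C.gb.mono (i := d) (j := d + 1) (by omega) (by omega)
  obtain ⟨N, S, h1, h2⟩ := diamX' hn C hd2 hdK hd hne
  obtain ⟨N', S', h1', h2'⟩ := diamY' hn C.rev hd2 hdK (by omega)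
  obtain ⟨v, v', g1, g2, g3⟩ := both hn C (by omega) (by omega) (by omega) (by omega) (by omega)
    (by omega) (by omega) (by omega) (by omega) S S'
  exact ⟨v, v' + 1, g1.step h1 (by push_cast; omega), g2.step h1' (by push_cast; omega), by omega⟩

/-- a diameter, all four gaps empty -/
lemma diam_tight (hn : n % 2 = 1) {M : NCM n} {K : ℕ} {a b : ℕ → ℕ} (C : Chords M K a b)
    {d : ℕ} (hd2 : 2 ≤ d) (hdK : d + 1 ≤ K) (hd : a d + b d = n + 1)
    (h1 : a (d - 1) + 1 = a d) (h2 : b (d - 1) + 1 = b d) (h3 : a d + 1 = a (d + 1))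
    (h4 : b d + 1 = b (d + 1)) :
    ∃ v v' : ℤ, Val M v ∧ Val (rev M) v' ∧ v + v' ≤ 1 := by
  have hK := C.hK
  have C' := C.rev
  have m1 := C.ga.mono (i := d - 2) (j := d - 1) (by omega) (by omega)
  have m2 := C.gb.mono (i := d - 2) (j := d - 1) (by omega) (by omega)
  have m3 := C.ga.mono (i := d + 1) (j := d + 2) (by omega) (by omega)
  have m4 := C.gb.mono (i := d + 1) (j := d + 2) (by omega) (by omega)
  by_cases hs : K = 3
  · subst hs
    have : d = 2 := by omega
    subst this
    obtain ⟨N', S', e1, e2⟩ := diamY' hn C' hd2 hdK (by omega)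
    refine ⟨0, 1, move_c2 hn C hd h1 h4, ?_, by norm_num⟩
    have := real_base0 hn C' (j := 3) (by omega) le_rfl S' (by simp only [Nat.reduceAdd] at *; omega)
    exact this.step e1 (by push_cast; omega)
  -- the value of the two states
  obtain ⟨v, v', g1, g2, g3⟩ : ∃ v v' : ℤ, G (n + 1) K a b (d - 1) (d + 2) v ∧
      G (n + 1) K a b (d - 2) (d + 1) v' ∧ v + v' ≤ -1 := by
    by_cases hdK' : d + 2 ≤ K
    · have e1 : d - 1 - 1 = d - 2 := by omega
      have e2 : d + 2 - 1 = d + 1 := by omega
      have := game_P4 (S := n + 1) (K := K) (by omega) hK C.ga C.gb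
        (i := d - 1) (j := d + 2) (by omega) (by omega) hdK' (by omega) (by omega)
        (by rw [e2]; omega) (by omega) (by rw [e1, e2]; omega)
      rwa [e1, e2] at this
    · have e : K = d + 1 := by omega
      subst e
      exact ⟨0, -1, G.baseK a b (d - 1) (by omega) (by omega),
        G.b4 a b (d - 2) (by omega) (by omega), by norm_num⟩
  rcases Nat.mod_two_eq_zero_or_one d with h | h
  · -- `d - 1` odd : `R` is the process of `M`
    obtain ⟨N, S, e1, e2⟩ := diamY hn C hd2 hdK hd
    obtain ⟨N', S', e1', e2'⟩ := diamY' hn C' hd2 hdK (by omega)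
    refine ⟨v + 1, v' + 1, ?_, ?_, by omega⟩
    · have := realize hn C g1 (fun _ => ⟨rfl, rfl⟩) (fun h' => by omega) (by omega) (by omega)
        (by omega) (by omega) (by omega) N S ⟨fun _ => by omega, fun _ => by omega⟩
      exact this.step e1 (by push_cast; omega)
    · have := realize hn C' g2 (fun h' => by omega) (fun _ => ⟨rfl, rfl⟩) (by omega) (by omega)
        (by omega) (by omega) (by omega) N' S' ⟨fun _ => by omega, fun _ => by omega⟩
      exact this.step e1' (by push_cast; omega)
  · obtain ⟨N, S, e1, e2⟩ := diamY' hn C hd2 hdK hd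
    obtain ⟨N', S', e1', e2'⟩ := diamY hn C' hd2 hdK (by omega)
    refine ⟨v' + 1, v + 1, ?_, ?_, by omega⟩
    · have := realize hn C g2 (fun _ => ⟨rfl, rfl⟩) (fun h' => by omega) (by omega) (by omega)
        (by omega) (by omega) (by omega) N S ⟨fun _ => by omega, fun _ => by omega⟩
      exact this.step e1 (by push_cast; omega)
    · have := realize hn C' g1 (fun h' => by omega) (fun _ => ⟨rfl, rfl⟩) (by omega) (by omega)
        (by omega) (by omega) (by omega) N' S' ⟨fun _ => by omega, fun _ => by omega⟩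
      exact this.step e1' (by push_cast; omega)

/-- **the local lemma** -/
theorem local_lemma (hn : n % 2 = 1) (h3 : 3 ≤ n) (M : NCM n) :
    ∃ v v' : ℤ, Val M v ∧ Val (rev M) v' ∧ v + v' ≤ 1 := by
  obtain ⟨K, a, b, C⟩ := exists_chords hn M
  have hK := C.hK
  have C' := C.rev
  have mono : ∀ i j, i ≤ j → j ≤ K → a i + b i ≤ a j + b j := by
    intro i j h1 h2
    have := C.ga.mono' h1 (by omega)
    have := C.gb.mono' h1 (by omega)
    omega
  by_cases hall : ∀ i, 1 ≤ i → i ≤ K → a i + b i < n + 1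
  · have h1 := hall 1 le_rfl (by omega)
    have h2 := C.a_pos (i := 1) le_rfl (by omega)
    have h3' := C.b_pos (i := 1) le_rfl (by omega)
    refine ⟨0, 0, start_down hn C (by omega) fun i h4 h5 => (hall i h4 h5).le,
      start_down hn C' (by omega) fun i h4 h5 => ?_, by norm_num⟩
    have := hall i h4 h5
    omega
  · push Not at hall
    -- the first chord which is not below the center
    obtain ⟨c, ⟨hc1, hc2, hc3⟩, hmin⟩ : ∃ c, (1 ≤ c ∧ c ≤ K ∧ n + 1 ≤ a c + b c) ∧
        ∀ m, m < c → ¬ (1 ≤ m ∧ m ≤ K ∧ n + 1 ≤ a m + b m) := by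
      have hex : ∃ c, 1 ≤ c ∧ c ≤ K ∧ n + 1 ≤ a c + b c := hall
      classical
      exact ⟨Nat.find hex, Nat.find_spec hex, fun m hm => Nat.find_min hex hm⟩
    by_cases hc : c = 1
    · subst hc
      have up : ∀ i, 1 ≤ i → i ≤ K → n + 1 ≤ a i + b i := by
        intro i h1 h2
        have := mono 1 i h1 h2
        omega
      have up' : ∀ i, 1 ≤ i → i ≤ K → n + 1 ≤ b i + a i := by
        intro i h1 h2
        have := up i h1 h2
        omega
      by_cases h0 : a 1 = 1 ∧ b 1 = n
      · exact ⟨1, 0, start_up1 hn C up, start_up hn C' (by omega) up', by norm_num⟩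
      · exact ⟨0, 1, start_up hn C h0 up, start_up1 hn C' up', by norm_num⟩
    · have hlow : a (c - 1) + b (c - 1) < n + 1 := by
        by_contra h
        exact hmin (c - 1) (by omega) ⟨by omega, by omega, by omega⟩
      rcases Nat.lt_or_eq_of_le hc3 with h4 | h4
      · -- no diameter
        obtain ⟨i, rfl⟩ : ∃ i, c = i + 1 := ⟨c - 1, by omega⟩
        rw [Nat.add_sub_cancel] at hlow
        have m1 := C.ga.mono (i := i) (j := i + 1) (by omega) (by omega)
        have m2 := C.gb.mono (i := i) (j := i + 1) (by omega) (by omega)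
        by_cases e1 : a (i + 1) = a i + 1
        · obtain ⟨v, v', g1, g2, g3⟩ := start_empty hn C (by omega) hc2 hlow h4 e1
          exact ⟨v, v', g1, g2, by omega⟩
        · by_cases e2 : b (i + 1) = b i + 1
          · obtain ⟨v, v', g1, g2, g3⟩ := start_empty hn C' (by omega) hc2 (by omega) (by omega) e2
            rw [rev_rev] at g2
            exact ⟨v', v, g2, g1, by omega⟩
          · obtain ⟨v, v', g1, g2, g3⟩ := start_full hn C (by omega) hc2 hlow h4 (by omega)
              (by omega)
            exact ⟨v, v', g1, g2, by omega⟩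
      · -- diameter
        by_cases hcK : c = K
        · subst hcK
          have m1 := C.ga.mono (i := 1) (j := c) (by omega) (by omega)
          have m2 := C.gb.mono (i := 1) (j := c) (by omega) (by omega)
          have m3 := C.a_le (i := c) le_rfl
          have m4 := C.b_le (i := c) le_rfl
          refine ⟨0, 0, start_down hn C (by omega) fun i h5 h6 => ?_,
            start_down hn C' (by omega) fun i h5 h6 => ?_, by norm_num⟩
          · have := mono i c h6 le_rfl
            omega
          · have := mono i c h6 le_rfl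
            omega
        · have hd : a c + b c = n + 1 := h4.symm
          have m1 := C.ga.mono (i := c - 1) (j := c) (by omega) (by omega)
          have m2 := C.gb.mono (i := c - 1) (j := c) (by omega) (by omega)
          have m3 := C.ga.mono (i := c) (j := c + 1) (by omega) (by omega)
          have m4 := C.gb.mono (i := c) (j := c + 1) (by omega) (by omega)
          by_cases n1 : NeBad a b (c - 1) c
          · exact diam_lower hn C (by omega) (by omega) hd n1
          by_cases n2 : NeBad b a (c - 1) c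
          · obtain ⟨v, v', g1, g2, g3⟩ := diam_lower hn C' (by omega) (by omega) (by omega) n2
            rw [rev_rev] at g2
            exact ⟨v', v, g2, g1, by omega⟩
          by_cases n3 : NeBad a b c (c + 1)
          · exact diam_upper hn C (by omega) (by omega) hd n3
          by_cases n4 : NeBad b a c (c + 1)
          · obtain ⟨v, v', g1, g2, g3⟩ := diam_upper hn C' (by omega) (by omega) (by omega) n4
            rw [rev_rev] at g2
            exact ⟨v', v, g2, g1, by omega⟩
          unfold NeBad at n1 n2 n3 n4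
          exact diam_tight hn C (by omega) (by omega) hd (by omega) (by omega) (by omega)
            (by omega)

end Pool.Agent.Helper95.CF
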