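import Pool.Agent.Helper95.CFDefs

namespace Pool.Agent.Helper95.CF

open Finset

variable {n : ℕ}

lemma NCM.m_inj (M : NCM n) {i j : Fin (2 * n)} (h : M.m i = M.m j) : i = j := by
  rw [← M.invol i, ← M.invol j, h]

/-- the partner of a point strictly inside an edge is strictly inside -/
lemma NCM.inside (M : NCM n) {i j : Fin (2 * n)} (h1 : i < j) (h2 : j < M.m i) :
    i < M.m j ∧ M.m j < M.m i := M.noncross i j h1 h2

/-- even cardinality of a finite set invariant under a fixed point free involution -/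
lemma NCM.even_card (M : NCM n) (s : Finset (Fin (2 * n))) (hs : ∀ i ∈ s, M.m i ∈ s) :
    Even s.card := by
  have h : (∑ _i ∈ s, (1 : ZMod 2)) = 0 := by
    refine Finset.sum_involution (fun i _ => M.m i) ?_ ?_ ?_ ?_
    · intro a ha; decide
    · intro a ha _; exact M.ne a
    · intro a ha; exact hs a ha
    · intro a ha; exact M.invol a
  rw [Finset.sum_const, nsmul_eq_mul, mul_one] at h
  exact (ZMod.natCast_eq_zero_iff_even).1 h

/-- partners have opposite parity -/
lemma NCM.parity (M : NCM n) {i : Fin (2 * n)} (h : i < M.m i) :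
    ((M.m i).val - i.val) % 2 = 1 := by
  have h1 : Even (Finset.Ioo i (M.m i)).card := by
    apply M.even_card
    intro j hj
    rw [Finset.mem_Ioo] at hj ⊢
    exact M.noncross i j hj.1 hj.2
  rw [Fin.card_Ioo] at h1
  have h2 : i.val < (M.m i).val := h
  rcases h1 with ⟨k, hk⟩
  omega

/-- `i` is the start of the short side of its edge -/
def IsStart (n : ℕ) (i j : ℕ) : Prop := (i < j ∧ j - i < n) ∨ (j < i ∧ n < i - j)

instance (n i j : ℕ) : Decidable (IsStart n i j) := by unfold IsStart; infer_instance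

/-- contribution of `i` with partner `j` to the number of odd starts -/
def cP (n : ℕ) (i j : ℕ) : ℕ := if i % 2 = 1 ∧ IsStart n i j then 1 else 0

/-- contribution of `i` with partner `j` to the number of long intervals -/
def cH (n : ℕ) (i j : ℕ) : ℕ := if i + n < j then 1 else 0

/-- contribution of `i` with partner `j` to the number of diameters -/
def cE (n : ℕ) (i j : ℕ) : ℕ := if i + n = j then 1 else 0

/-- sum of a local contribution -/
def tot (c : ℕ → ℕ → ℕ → ℕ) (M : NCM n) : ℕ := ∑ i : Fin (2 * n), c n i.val (M.m i).val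

/-- the potential -/
def phi (M : NCM n) : ℤ :=
  if 0 < tot cE M then 3 * (tot cP M : ℤ) - 2
  else if tot cH M % 2 = 0 then 3 * (tot cP M : ℤ) else 3 * (tot cP M : ℤ) - 7

section Flip

variable {M N : NCM n} {p₀ p₁ p₂ p₃ : Fin (2 * n)}

/-- the data of a centered flip, in arithmetic form -/
structure FlipData (M N : NCM n) (p₀ p₁ p₂ p₃ : Fin (2 * n)) : Prop where
  h01 : p₀ < p₁
  h12 : p₁ < p₂
  h23 : p₂ < p₃
  m0 : M.m p₀ = p₁
  m2 : M.m p₂ = p₃
  n1 : N.m p₁ = p₂
  n0 : N.m p₀ = p₃
  eq : ∀ i, i ≠ p₀ → i ≠ p₁ → i ≠ p₂ → i ≠ p₃ → M.m i = N.m i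
  g0 : p₁.val - p₀.val ≤ n
  g1 : p₂.val - p₁.val ≤ n
  g2 : p₃.val - p₂.val ≤ n
  g3 : 2 * n - (p₃.val - p₀.val) ≤ n
  o0 : (p₁.val - p₀.val) % 2 = 1
  o1 : (p₂.val - p₁.val) % 2 = 1
  o2 : (p₃.val - p₂.val) % 2 = 1

lemma CenteredFlip.data (h : CenteredFlip M N) : ∃ p₀ p₁ p₂ p₃, FlipData M N p₀ p₁ p₂ p₃ := by
  obtain ⟨p₀, p₁, p₂, p₃, h01, h12, h23, m0, m2, n1, n0, heq, hl⟩ := h
  have o0 := M.parity (i := p₀) (by rw [m0]; exact h01)
  have o2 := M.parity (i := p₂) (by rw [m2]; exact h23)
  have o1 := N.parity (i := p₁) (by rw [n1]; exact h12)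
  rw [m0] at o0; rw [m2] at o2; rw [n1] at o1
  have a0 : p₀.val < p₁.val := h01
  have a1 : p₁.val < p₂.val := h12
  have a2 : p₂.val < p₃.val := h23
  have a3 := p₃.isLt
  simp only [len] at hl
  refine ⟨p₀, p₁, p₂, p₃, h01, h12, h23, m0, m2, n1, n0, heq, ?_, ?_, ?_, ?_, o0, o1, o2⟩
  all_goals omega

/-- the four corners -/
def corners (p₀ p₁ p₂ p₃ : Fin (2 * n)) : Finset (Fin (2 * n)) := {p₀, p₁, p₂, p₃}

lemma mem_corners {i : Fin (2 * n)} :
    i ∈ corners p₀ p₁ p₂ p₃ ↔ i = p₀ ∨ i = p₁ ∨ i = p₂ ∨ i = p₃ := by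
  simp [corners]

lemma FlipData.tot_split (D : FlipData M N p₀ p₁ p₂ p₃) (c : ℕ → ℕ → ℕ → ℕ) (K : NCM n) :
    tot c K = (∑ i ∈ (corners p₀ p₁ p₂ p₃)ᶜ, c n i.val (K.m i).val) +
      (c n p₀.val (K.m p₀).val + (c n p₁.val (K.m p₁).val +
      (c n p₂.val (K.m p₂).val + c n p₃.val (K.m p₃).val))) := by
  have h01 := D.h01
  have h12 := D.h12
  have h23 := D.h23
  have h02 := h01.trans h12
  have h13 := h12.trans h23
  have h03 := h02.trans h23
  unfold tot
  rw [← Finset.sum_compl_add_sum (corners p₀ p₁ p₂ p₃)]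
  congr 1
  unfold corners
  rw [Finset.sum_insert, Finset.sum_insert, Finset.sum_insert, Finset.sum_singleton]
  · simp [h23.ne]
  · simp [h12.ne, h13.ne]
  · simp [h01.ne, h02.ne, h03.ne]

lemma FlipData.rest_eq (D : FlipData M N p₀ p₁ p₂ p₃) (c : ℕ → ℕ → ℕ → ℕ) :
    (∑ i ∈ (corners p₀ p₁ p₂ p₃)ᶜ, c n i.val (M.m i).val) =
      ∑ i ∈ (corners p₀ p₁ p₂ p₃)ᶜ, c n i.val (N.m i).val := by
  apply Finset.sum_congr rfl
  intro i hi
  rw [Finset.mem_compl, mem_corners] at hi
  push Not at hi
  rw [D.eq i hi.1 hi.2.1 hi.2.2.1 hi.2.2.2]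

lemma FlipData.m1 (D : FlipData M N p₀ p₁ p₂ p₃) : M.m p₁ = p₀ := by
  rw [← D.m0, M.invol]

lemma FlipData.m3 (D : FlipData M N p₀ p₁ p₂ p₃) : M.m p₃ = p₂ := by
  rw [← D.m2, M.invol]

lemma FlipData.n2 (D : FlipData M N p₀ p₁ p₂ p₃) : N.m p₂ = p₁ := by
  rw [← D.n1, N.invol]

lemma FlipData.n3 (D : FlipData M N p₀ p₁ p₂ p₃) : N.m p₃ = p₀ := by
  rw [← D.n0, N.invol]

/-- the partner of a non-corner is a non-corner -/
lemma FlipData.partner (D : FlipData M N p₀ p₁ p₂ p₃) {i : Fin (2 * n)}
    (hi : i ∉ corners p₀ p₁ p₂ p₃) : M.m i ∉ corners p₀ p₁ p₂ p₃ := by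
  rw [mem_corners] at hi ⊢
  push Not at hi ⊢
  refine ⟨?_, ?_, ?_, ?_⟩ <;> intro h
  · exact hi.2.1 (by rw [← M.invol i, h, D.m0])
  · exact hi.1 (by rw [← M.invol i, h, D.m1])
  · exact hi.2.2.2 (by rw [← M.invol i, h, D.m2])
  · exact hi.2.2.1 (by rw [← M.invol i, h, D.m3])

/-- position of the other edges -/
lemma FlipData.pos (D : FlipData M N p₀ p₁ p₂ p₃) {i : Fin (2 * n)}
    (hi : i ∉ corners p₀ p₁ p₂ p₃) (hlt : i < M.m i) :
    (i < p₀ ∧ M.m i < p₀) ∨ (i < p₀ ∧ p₃ < M.m i) ∨ (p₀ < i ∧ M.m i < p₁) ∨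
    (p₁ < i ∧ M.m i < p₂) ∨ (p₂ < i ∧ M.m i < p₃) ∨ (p₃ < i) := by
  have hj := D.partner hi
  rw [mem_corners] at hi hj
  push Not at hi hj
  have hN : M.m i = N.m i := D.eq i hi.1 hi.2.1 hi.2.2.1 hi.2.2.2
  have h01 := D.h01
  have h12 := D.h12
  have h23 := D.h23
  rcases lt_trichotomy i p₀ with h | h | h
  · by_cases h' : M.m i < p₀
    · left; exact ⟨h, h'⟩
    · right; left
      refine ⟨h, ?_⟩
      have h2 : p₀ < M.m i := lt_of_le_of_ne (not_lt.1 h') (Ne.symm hj.1)
      have := N.noncross i p₀ h (by rw [← hN]; exact h2)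
      rw [D.n0, ← hN] at this
      exact this.2
  · exact absurd h hi.1
  · rcases lt_trichotomy i p₁ with h' | h' | h'
    · right; right; left
      refine ⟨h, ?_⟩
      have := M.noncross p₀ i h (by rw [D.m0]; exact h')
      rw [D.m0] at this
      exact this.2
    · exact absurd h' hi.2.1
    · rcases lt_trichotomy i p₂ with h'' | h'' | h''
      · right; right; right; left
        refine ⟨h', ?_⟩
        have := N.noncross p₁ i h' (by rw [D.n1]; exact h'')
        rw [D.n1, ← hN] at this
        exact this.2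
      · exact absurd h'' hi.2.2.1
      · rcases lt_trichotomy i p₃ with h3 | h3 | h3
        · right; right; right; right; left
          refine ⟨h'', ?_⟩
          have := M.noncross p₂ i h'' (by rw [D.m2]; exact h3)
          rw [D.m2] at this
          exact this.2
        · exact absurd h3 hi.2.2.2
        · right; right; right; right; right; exact h3

lemma FlipData.rest_cE (D : FlipData M N p₀ p₁ p₂ p₃) :
    (∑ i ∈ (corners p₀ p₁ p₂ p₃)ᶜ, cE n i.val (M.m i).val) = 0 := by
  apply Finset.sum_eq_zero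
  intro i hi
  rw [Finset.mem_compl] at hi
  unfold cE
  rw [if_neg]
  intro he
  have h01 : p₀.val < p₁.val := D.h01
  have h12 : p₁.val < p₂.val := D.h12
  have h23 : p₂.val < p₃.val := D.h23
  have hlt : i < M.m i := by
    rw [Fin.lt_def]
    have := i.isLt
    omega
  have hp := D.pos hi hlt
  simp only [Fin.lt_def] at hp hlt
  have g0 := D.g0
  have g1 := D.g1
  have g2 := D.g2
  have g3 := D.g3
  have a3 := p₃.isLt
  have a4 := (M.m i).isLt
  omega

lemma FlipData.rest_cH (D : FlipData M N p₀ p₁ p₂ p₃) :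
    (∑ i ∈ (corners p₀ p₁ p₂ p₃)ᶜ, cH n i.val (M.m i).val) % 2 = p₀.val % 2 := by
  have h01 : p₀.val < p₁.val := D.h01
  have h12 : p₁.val < p₂.val := D.h12
  have h23 : p₂.val < p₃.val := D.h23
  have g0 := D.g0
  have g1 := D.g1
  have g2 := D.g2
  have g3 := D.g3
  have a3 := p₃.isLt
  have key : (∑ i ∈ (corners p₀ p₁ p₂ p₃)ᶜ, cH n i.val (M.m i).val) =
      ((Finset.Iio p₀).filter (fun i => ¬ M.m i < p₀)).card := by
    unfold cH
    rw [← Finset.card_filter]
    congr 1
    ext i
    simp only [Finset.mem_filter, Finset.mem_compl, Finset.mem_Iio]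
    constructor
    · rintro ⟨hi, hl⟩
      have hlt : i < M.m i := by
        rw [Fin.lt_def]
        omega
      have hp := D.pos hi hlt
      simp only [Fin.lt_def] at hp hlt ⊢
      have a4 := (M.m i).isLt
      omega
    · rintro ⟨h1, h2⟩
      have hi : i ∉ corners p₀ p₁ p₂ p₃ := by
        rw [mem_corners]
        simp only [Fin.lt_def] at h1
        simp only [Fin.ext_iff]
        omega
      refine ⟨hi, ?_⟩
      have hlt : i < M.m i := by
        rw [Fin.lt_def] at h1 ⊢
        rw [Fin.lt_def] at h2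
        omega
      have hp := D.pos hi hlt
      simp only [Fin.lt_def] at hp hlt h1 h2
      omega
  rw [key]
  have h1 : ((Finset.Iio p₀).filter (fun i => M.m i < p₀)).card +
      ((Finset.Iio p₀).filter (fun i => ¬ M.m i < p₀)).card = p₀.val := by
    rw [Finset.card_filter_add_card_filter_not, Fin.card_Iio]
  have h2 : Even ((Finset.Iio p₀).filter (fun i => M.m i < p₀)).card := by
    apply M.even_card
    intro i hi
    rw [Finset.mem_filter, Finset.mem_Iio] at hi ⊢
    exact ⟨hi.2, by rw [M.invol]; exact hi.1⟩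
  rcases h2 with ⟨k, hk⟩
  omega

set_option maxHeartbeats 2000000 in
/-- every centered flip changes the potential by exactly one -/
lemma FlipData.phi_step (D : FlipData M N p₀ p₁ p₂ p₃) : |phi M - phi N| = 1 := by
  have eP := D.tot_split cP M
  have eP' := D.tot_split cP N
  have eH := D.tot_split cH M
  have eH' := D.tot_split cH N
  have eE := D.tot_split cE M
  have eE' := D.tot_split cE N
  rw [← D.rest_eq cP] at eP'
  rw [← D.rest_eq cH] at eH'
  rw [← D.rest_eq cE, D.rest_cE] at eE'
  rw [D.rest_cE] at eE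
  have hH := D.rest_cH
  rw [D.m0, D.m1, D.m2, D.m3] at eP eH eE
  rw [D.n0, D.n1, D.n2, D.n3] at eP' eH' eE'
  generalize (∑ i ∈ (corners p₀ p₁ p₂ p₃)ᶜ, cP n i.val (M.m i).val) = A at *
  generalize (∑ i ∈ (corners p₀ p₁ p₂ p₃)ᶜ, cH n i.val (M.m i).val) = B at *
  have h01 : p₀.val < p₁.val := D.h01
  have h12 : p₁.val < p₂.val := D.h12
  have h23 : p₂.val < p₃.val := D.h23
  have g0 := D.g0
  have g1 := D.g1
  have g2 := D.g2
  have g3 := D.g3
  have o0 := D.o0
  have o1 := D.o1
  have o2 := D.o2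
  have a3 := p₃.isLt
  have b10 : cP n p₁.val p₀.val = 0 := by unfold cP IsStart; rw [if_neg]; omega
  have b32 : cP n p₃.val p₂.val = 0 := by unfold cP IsStart; rw [if_neg]; omega
  have b21 : cP n p₂.val p₁.val = 0 := by unfold cP IsStart; rw [if_neg]; omega
  have b03 : cP n p₀.val p₃.val = 0 := by unfold cP IsStart; rw [if_neg]; omega
  have b01 : cP n p₀.val p₁.val = if p₀.val % 2 = 1 ∧ p₁.val - p₀.val < n then 1 else 0 := by
    unfold cP IsStart; congr 1; apply propext; constructor <;> intro h <;> omega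
  have b23 : cP n p₂.val p₃.val = if p₀.val % 2 = 1 ∧ p₃.val - p₂.val < n then 1 else 0 := by
    unfold cP IsStart; congr 1; apply propext; constructor <;> intro h <;> omega
  have b12 : cP n p₁.val p₂.val = if p₀.val % 2 = 0 ∧ p₂.val - p₁.val < n then 1 else 0 := by
    unfold cP IsStart; congr 1; apply propext; constructor <;> intro h <;> omega
  have b30 : cP n p₃.val p₀.val = if p₀.val % 2 = 0 ∧ n < p₃.val - p₀.val then 1 else 0 := by
    unfold cP IsStart; congr 1; apply propext; constructor <;> intro h <;> omega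
  have c10 : cH n p₁.val p₀.val = 0 := by unfold cH; rw [if_neg]; omega
  have c01 : cH n p₀.val p₁.val = 0 := by unfold cH; rw [if_neg]; omega
  have c32 : cH n p₃.val p₂.val = 0 := by unfold cH; rw [if_neg]; omega
  have c23 : cH n p₂.val p₃.val = 0 := by unfold cH; rw [if_neg]; omega
  have c21 : cH n p₂.val p₁.val = 0 := by unfold cH; rw [if_neg]; omega
  have c12 : cH n p₁.val p₂.val = 0 := by unfold cH; rw [if_neg]; omega
  have c30 : cH n p₃.val p₀.val = 0 := by unfold cH; rw [if_neg]; omega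
  have c03 : cH n p₀.val p₃.val = if n < p₃.val - p₀.val then 1 else 0 := by
    unfold cH; congr 1; apply propext; constructor <;> intro h <;> omega
  have d10 : cE n p₁.val p₀.val = 0 := by unfold cE; rw [if_neg]; omega
  have d01 : cE n p₀.val p₁.val = if p₁.val - p₀.val = n then 1 else 0 := by
    unfold cE; congr 1; apply propext; constructor <;> intro h <;> omega
  have d32 : cE n p₃.val p₂.val = 0 := by unfold cE; rw [if_neg]; omega
  have d23 : cE n p₂.val p₃.val = if p₃.val - p₂.val = n then 1 else 0 := by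
    unfold cE; congr 1; apply propext; constructor <;> intro h <;> omega
  have d21 : cE n p₂.val p₁.val = 0 := by unfold cE; rw [if_neg]; omega
  have d12 : cE n p₁.val p₂.val = if p₂.val - p₁.val = n then 1 else 0 := by
    unfold cE; congr 1; apply propext; constructor <;> intro h <;> omega
  have d30 : cE n p₃.val p₀.val = 0 := by unfold cE; rw [if_neg]; omega
  have d03 : cE n p₀.val p₃.val = if p₃.val - p₀.val = n then 1 else 0 := by
    unfold cE; congr 1; apply propext; constructor <;> intro h <;> omega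
  rw [b01, b10, b23, b32] at eP
  rw [b03, b12, b21, b30] at eP'
  rw [c01, c10, c23, c32] at eH
  rw [c03, c12, c21, c30] at eH'
  rw [d01, d10, d23, d32] at eE
  rw [d03, d12, d21, d30] at eE'
  clear b01 b10 b23 b32 b03 b12 b21 b30 c01 c10 c23 c32 c03 c12 c21 c30 d01 d10 d23 d32 d03 d12
    d21 d30
  unfold phi
  generalize tot cP M = P at *
  generalize tot cP N = P' at *
  generalize tot cH M = Q at *
  generalize tot cH N = Q' at *
  generalize tot cE M = E at *
  generalize tot cE N = E' at *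
  generalize p₀.val = q₀ at *
  generalize p₁.val = q₁ at *
  generalize p₂.val = q₂ at *
  generalize p₃.val = q₃ at *
  clear D
  have I1 : ∀ (p : Prop) [Decidable p], (p ∧ (if p then 1 else 0 : ℕ) = 1) ∨
      (¬ p ∧ (if p then 1 else 0 : ℕ) = 0) := by
    intro p _
    by_cases h : p <;> simp [h]
  have f1 := I1 (q₀ % 2 = 1 ∧ q₁ - q₀ < n)
  have f2 := I1 (q₀ % 2 = 1 ∧ q₃ - q₂ < n)
  have f3 := I1 (q₀ % 2 = 0 ∧ q₂ - q₁ < n)
  have f4 := I1 (q₀ % 2 = 0 ∧ n < q₃ - q₀)
  have f5 := I1 (n < q₃ - q₀)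
  have f6 := I1 (q₁ - q₀ = n)
  have f7 := I1 (q₃ - q₂ = n)
  have f8 := I1 (q₂ - q₁ = n)
  have f9 := I1 (q₃ - q₀ = n)
  generalize (if q₀ % 2 = 1 ∧ q₁ - q₀ < n then 1 else 0 : ℕ) = u1 at *
  generalize (if q₀ % 2 = 1 ∧ q₃ - q₂ < n then 1 else 0 : ℕ) = u2 at *
  generalize (if q₀ % 2 = 0 ∧ q₂ - q₁ < n then 1 else 0 : ℕ) = u3 at *
  generalize (if q₀ % 2 = 0 ∧ n < q₃ - q₀ then 1 else 0 : ℕ) = u4 at *
  generalize (if n < q₃ - q₀ then 1 else 0 : ℕ) = u5 at *
  generalize (if q₁ - q₀ = n then 1 else 0 : ℕ) = u6 at *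
  generalize (if q₃ - q₂ = n then 1 else 0 : ℕ) = u7 at *
  generalize (if q₂ - q₁ = n then 1 else 0 : ℕ) = u8 at *
  generalize (if q₃ - q₀ = n then 1 else 0 : ℕ) = u9 at *
  clear I1
  rw [abs_eq (by norm_num)]
  rcases Nat.mod_two_eq_zero_or_one q₀ with hq | hq
  all_goals
    rcases eq_or_lt_of_le g0 with k | k
    · have v6 : u6 = 1 := by omega
      have v7 : u7 = 0 := by omega
      have v8 : u8 = 0 := by omega
      have v9 : u9 = 0 := by omega
      have v5 : u5 = 1 := by omega
      clear f6 f7 f8 f9 f5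
      rw [if_pos (by omega : 0 < E), if_neg (by omega : ¬ 0 < E')]
      split_ifs <;> omega
    rcases eq_or_lt_of_le g1 with k1 | k1
    · have v6 : u6 = 0 := by omega
      have v7 : u7 = 0 := by omega
      have v8 : u8 = 1 := by omega
      have v9 : u9 = 0 := by omega
      have v5 : u5 = 1 := by omega
      clear f6 f7 f8 f9 f5
      rw [if_neg (by omega : ¬ 0 < E), if_pos (by omega : 0 < E')]
      split_ifs <;> omega
    rcases eq_or_lt_of_le g2 with k2 | k2
    · have v6 : u6 = 0 := by omega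
      have v7 : u7 = 1 := by omega
      have v8 : u8 = 0 := by omega
      have v9 : u9 = 0 := by omega
      have v5 : u5 = 1 := by omega
      clear f6 f7 f8 f9 f5
      rw [if_pos (by omega : 0 < E), if_neg (by omega : ¬ 0 < E')]
      split_ifs <;> omega
    rcases eq_or_lt_of_le g3 with k3 | k3
    · have v6 : u6 = 0 := by omega
      have v7 : u7 = 0 := by omega
      have v8 : u8 = 0 := by omega
      have v9 : u9 = 1 := by omega
      have v5 : u5 = 0 := by omega
      clear f6 f7 f8 f9 f5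
      rw [if_neg (by omega : ¬ 0 < E), if_pos (by omega : 0 < E')]
      split_ifs <;> omega
    · have v6 : u6 = 0 := by omega
      have v7 : u7 = 0 := by omega
      have v8 : u8 = 0 := by omega
      have v9 : u9 = 0 := by omega
      have v5 : u5 = 1 := by omega
      clear f6 f7 f8 f9 f5
      rw [if_neg (by omega : ¬ 0 < E), if_neg (by omega : ¬ 0 < E')]
      split_ifs <;> omega

end Flip

/-- the matching `{0,1}, {2,3}, ...` -/
def star0 (n : ℕ) : NCM n where
  m i := ⟨if i.val % 2 = 0 then i.val + 1 else i.val - 1, by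
    have := i.isLt
    split_ifs <;> omega⟩
  invol i := by
    apply Fin.ext
    have := i.isLt
    simp only
    split_ifs <;> omega
  ne i := by
    intro h
    have h2 := congrArg Fin.val h
    simp only at h2
    split_ifs at h2 <;> omega
  noncross i j hij hj := by
    simp only [Fin.lt_def] at hij hj ⊢
    split_ifs at hj ⊢ <;> omega

/-- the matching `{1,2}, {3,4}, ..., {2n-1,0}` -/
def star1 (n : ℕ) (hn : 1 < n) : NCM n where
  m i := ⟨if i.val % 2 = 1 then (if i.val = 2 * n - 1 then 0 else i.val + 1)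
      else (if i.val = 0 then 2 * n - 1 else i.val - 1), by
    have := i.isLt
    split_ifs <;> omega⟩
  invol i := by
    apply Fin.ext
    have hi := i.isLt
    simp only
    by_cases h1 : i.val % 2 = 1
    · rw [if_pos h1]
      by_cases h2 : i.val = 2 * n - 1
      · rw [if_pos h2, if_neg (by omega), if_pos rfl]
        exact h2.symm
      · rw [if_neg h2, if_neg (by omega), if_neg (by omega)]
        omega
    · rw [if_neg h1]
      by_cases h2 : i.val = 0
      · rw [if_pos h2, if_pos (by omega), if_pos rfl]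
        exact h2.symm
      · rw [if_neg h2, if_pos (by omega), if_neg (by omega)]
        omega
  ne i := by
    intro h
    have h2 := congrArg Fin.val h
    simp only at h2
    split_ifs at h2 <;> omega
  noncross i j hij hj := by
    have hi := i.isLt
    have hj' := j.isLt
    simp only [Fin.lt_def] at hij hj ⊢
    by_cases h1 : i.val % 2 = 1
    · rw [if_pos h1] at hj
      split_ifs at hj <;> omega
    · rw [if_neg h1] at hj ⊢
      by_cases h2 : i.val = 0
      · rw [if_pos h2] at hj ⊢
        split_ifs <;> omega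
      · rw [if_neg h2] at hj
        omega

lemma star0_val (i : Fin (2 * n)) :
    ((star0 n).m i).val = if i.val % 2 = 0 then i.val + 1 else i.val - 1 := rfl

lemma star1_val (hn : 1 < n) (i : Fin (2 * n)) :
    ((star1 n hn).m i).val = if i.val % 2 = 1 then (if i.val = 2 * n - 1 then 0 else i.val + 1)
      else (if i.val = 0 then 2 * n - 1 else i.val - 1) := rfl

lemma tot_eq_zero {c : ℕ → ℕ → ℕ → ℕ} {M : NCM n} (h : ∀ i, c n i.val (M.m i).val = 0) :
    tot c M = 0 := by
  unfold tot
  exact Finset.sum_eq_zero fun i _ => h i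

lemma phi_star0 (hn : 1 < n) : phi (star0 n) = 0 := by
  have hP : tot cP (star0 n) = 0 := by
    apply tot_eq_zero
    intro i
    have := i.isLt
    unfold cP IsStart
    rw [if_neg]
    rw [star0_val]
    split_ifs <;> omega
  have hH : tot cH (star0 n) = 0 := by
    apply tot_eq_zero
    intro i
    have := i.isLt
    unfold cH
    rw [if_neg]
    rw [star0_val]
    split_ifs <;> omega
  have hE : tot cE (star0 n) = 0 := by
    apply tot_eq_zero
    intro i
    have := i.isLt
    unfold cE
    rw [if_neg]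
    rw [star0_val]
    split_ifs <;> omega
  unfold phi
  rw [hP, hH, hE]
  norm_num

lemma sum_odd (k : ℕ) : (∑ i ∈ Finset.range (2 * k), if i % 2 = 1 then 1 else 0) = k := by
  induction k with
  | zero => simp
  | succ k ih =>
    rw [show 2 * (k + 1) = 2 * k + 1 + 1 by ring, Finset.sum_range_succ, Finset.sum_range_succ, ih]
    rw [if_neg (by omega), if_pos (by omega)]

lemma phi_star1 (hn : 2 < n) : phi (star1 n (by omega)) = 3 * (n : ℤ) - 7 := by
  have hP : tot cP (star1 n (by omega)) = n := by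
    unfold tot
    have : ∀ i : Fin (2 * n), cP n i.val ((star1 n (by omega)).m i).val =
        if i.val % 2 = 1 then 1 else 0 := by
      intro i
      have := i.isLt
      unfold cP IsStart
      congr 1
      apply propext
      constructor
      · rintro ⟨h, -⟩; exact h
      · intro h
        refine ⟨h, ?_⟩
        rw [star1_val, if_pos h]
        split_ifs <;> omega
    rw [Finset.sum_congr rfl fun i _ => this i]
    rw [Fin.sum_univ_eq_sum_range (fun i => if i % 2 = 1 then 1 else 0) (2 * n)]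
    exact sum_odd n
  have hH : tot cH (star1 n (by omega)) = 1 := by
    unfold tot
    rw [Finset.sum_eq_single (⟨0, by omega⟩ : Fin (2 * n))]
    · unfold cH
      rw [star1_val, if_pos]
      norm_num
      omega
    · intro i _ hi
      have h1 := i.isLt
      have h2 : i.val ≠ 0 := fun h => hi (Fin.ext h)
      unfold cH
      rw [if_neg]
      rw [star1_val]
      split_ifs <;> omega
    · intro h
      exact absurd (Finset.mem_univ _) h
  have hE : tot cE (star1 n (by omega)) = 0 := by
    apply tot_eq_zero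
    intro i
    have := i.isLt
    unfold cE
    rw [if_neg]
    rw [star1_val]
    split_ifs <;> omega
  unfold phi
  rw [hP, hH, hE]
  norm_num

lemma phi_adj {M N : NCM n} (h : (H n).Adj M N) : |phi M - phi N| = 1 := by
  rw [H, SimpleGraph.fromRel_adj] at h
  rcases h.2 with h | h
  · obtain ⟨p₀, p₁, p₂, p₃, D⟩ := h.data
    exact D.phi_step
  · obtain ⟨p₀, p₁, p₂, p₃, D⟩ := h.data
    rw [abs_sub_comm]
    exact D.phi_step

lemma phi_walk {M N : NCM n} (w : (H n).Walk M N) : |phi M - phi N| ≤ w.length := by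
  induction w with
  | nil => simp
  | @cons a b c h w ih =>
    rw [SimpleGraph.Walk.length_cons]
    have h1 := phi_adj h
    calc |phi a - phi c| = |(phi a - phi b) + (phi b - phi c)| := by ring_nf
      _ ≤ |phi a - phi b| + |phi b - phi c| := abs_add_le _ _
      _ ≤ 1 + w.length := by rw [h1]; omega
      _ = ((w.length + 1 : ℕ) : ℤ) := by push_cast; ring

/-- every walk between the two extremal matchings has length at least 3n - 7 -/
theorem lower (hn : 2 < n) (w : (H n).Walk (star0 n) (star1 n (by omega))) :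
    3 * n - 7 ≤ w.length := by
  have h := phi_walk w
  rw [phi_star0 (by omega), phi_star1 hn, zero_sub, abs_neg] at h
  have := le_trans (le_abs_self _) h
  omega

end Pool.Agent.Helper95.CF
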