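import Pool.Agent.Helper95.CFState

/-!
MP_717b2e_co, upper bound: realization of the moves of the game, tools and the move N3.
-/

namespace Pool.Agent.Helper95.CF

open Finset

variable {n : ℕ}

/-- location of a point in the gaps of an increasing sequence -/
lemma Good.locate {S K : ℕ} {a : ℕ → ℕ} (h : Good S K a) {i j z : ℕ} (hij : i ≤ j)
    (hj : j ≤ K + 1) (h1 : a i ≤ z) (h2 : z + 1 < a j) :
    ∃ k, i ≤ k ∧ k < j ∧ a k ≤ z ∧ z < a (k + 1) := by
  induction j with
  | zero =>
    have : i = 0 := by omega
    subst this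
    omega
  | succ j ih =>
    by_cases hij' : i = j + 1
    · subst hij'; omega
    by_cases h3 : z < a j
    · by_cases h4 : z + 1 < a j
      · obtain ⟨k, k1, k2, k3, k4⟩ := ih (by omega) (by omega) h4
        exact ⟨k, k1, by omega, k3, k4⟩
      · by_cases h5 : i = j
        · subst h5; omega
        · obtain ⟨j, rfl⟩ : ∃ j', j = j' + 1 := ⟨j - 1, by omega⟩
          by_cases h6 : a j ≤ z
          · exact ⟨j, by omega, by omega, h6, by omega⟩
          · have := h.inc j (by omega)
            omega
    · exact ⟨j, by omega, by omega, by omega, by omega⟩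

/-- gluing lemma: how to show that a matching is in a state -/
lemma St.glue {M N N' : NCM n} {K : ℕ} {a b : ℕ → ℕ} (C : Chords M K a b) {i j i' j' : ℕ}
    (S : St M N a b i j) (hi' : i' ≤ i) (hij : i < j) (hj' : j ≤ j') (hjK : j' ≤ K + 1)
    (named : ℕ → Prop)
    (hu : ∀ z, z < 2 * n → ¬ named z → N'.p z = N.p z)
    (hA : ∀ z, named z → z < n → a i' ≤ z ∧ z + 1 < a j' ∧ a i' ≤ N'.p z ∧ N'.p z + 1 < a j')
    (hB : ∀ z, named z → n ≤ z → 2 * n < z + b j' ∧ z + b i' < 2 * n ∧ 2 * n < N'.p z + b j' ∧
      N'.p z + b i' < 2 * n)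
    (hc : ∀ k, i' < k → k < j' → ¬ (i < k ∧ k < j) → named (a k - 1) ∧ named (2 * n - b k)) :
    St M N' a b i' j' := by
  have aT := C.ga.t
  have bT := C.gb.t
  have mA := fun {x y : ℕ} => C.ga.mono' (i := x) (j := y)
  have mB := fun {x y : ℕ} => C.gb.mono' (i := x) (j := y)
  have a1 := mA hi' (by omega)
  have a2 := mA hj' hjK
  have b1 := mB hi' (by omega)
  have b2 := mB hj' hjK
  have a3 := mA hjK le_rfl
  have b3 := mB hjK le_rfl
  constructor
  · intro z h1 h2
    by_cases hz : named z
    · have := hA z hz (by omega)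
      omega
    · rw [hu z (by omega) hz]
      by_cases h3 : a i ≤ z ∧ z + 1 < a j
      · have := S.inA z h3.1 h3.2
        omega
      · rw [S.out z (by omega) h3 (by omega)]
        obtain ⟨k, k1, k2, k3, k4⟩ := C.ga.locate (i := i') (j := j') (by omega) hjK h1 h2
        have e1 := mA k1 (by omega)
        have e2 := mA (show k + 1 ≤ j' by omega) hjK
        by_cases h5 : z + 1 < a (k + 1)
        · have := C.gapA k (by omega) z k3 h5
          omega
        · exfalso
          apply hz
          have h6 : k + 1 < j' := by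
            by_contra hc'
            have : k + 1 = j' := by omega
            rw [this] at h5
            omega
          have h7 := (hc (k + 1) (by omega) h6 (by
            rintro ⟨h8, h9⟩
            apply h3
            have e3 := C.ga.mono (i := i) (j := k + 1) h8 (by omega)
            have e4 := C.ga.mono (i := k + 1) (j := j) h9 (by omega)
            have e5 := mA (show i ≤ k by omega) (by omega)
            omega)).1
          have h8 : a (k + 1) - 1 = z := by omega
          rwa [h8] at h7
  · intro z h1 h2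
    by_cases hz : named z
    · have := hB z hz (by omega)
      omega
    · rw [hu z (by omega) hz]
      by_cases h3 : 2 * n < z + b j ∧ z + b i < 2 * n
      · have := S.inB z h3.1 h3.2
        omega
      · rw [S.out z (by omega) (by omega) h3]
        obtain ⟨k, k1, k2, k3, k4⟩ := C.gb.locate (i := i') (j := j') (z := 2 * n - z - 1)
          (by omega) hjK (by omega) (by omega)
        have e1 := mB k1 (by omega)
        have e2 := mB (show k + 1 ≤ j' by omega) hjK
        by_cases h5 : 2 * n < z + b (k + 1)
        · have := C.gapB k (by omega) z h5 (by omega)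
          omega
        · exfalso
          apply hz
          have h6 : k + 1 < j' := by
            by_contra hc'
            have : k + 1 = j' := by omega
            rw [this] at h5
            omega
          have h7 := (hc (k + 1) (by omega) h6 (by
            rintro ⟨h8, h9⟩
            apply h3
            have e3 := C.gb.mono (i := i) (j := k + 1) h8 (by omega)
            have e4 := C.gb.mono (i := k + 1) (j := j) h9 (by omega)
            have e5 := mB (show i ≤ k by omega) (by omega)
            omega)).2
          have h8 : 2 * n - b (k + 1) = z := by omega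
          rwa [h8] at h7
  · intro z hz h1 h2
    have hz' : ¬ named z := by
      intro hh
      rcases lt_or_ge z n with h3 | h3
      · have := hA z hh h3
        omega
      · have := hB z hh h3
        omega
    rw [hu z hz hz']
    exact S.out z hz (by omega) (by omega)

/-- basic facts about the end points of two chords `i < j` -/
lemma St.ends {M N : NCM n} {K : ℕ} {a b : ℕ → ℕ} (C : Chords M K a b) {i j : ℕ}
    (hi : 1 ≤ i) (hij : i < j) (hj : j ≤ K) (S : St M N a b i j) :
    N.p (a i - 1) = 2 * n - b i ∧ N.p (a j - 1) = 2 * n - b j := by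
  have ai := C.a_pos hi (by omega)
  have aj := C.ga.mono hij (by omega)
  have bi := C.b_pos hi (by omega)
  have bj := C.gb.mono hij (by omega)
  have ajn := C.a_le hj
  have bjn := C.b_le hj
  constructor
  · rw [S.out _ (by omega) (by omega) (by omega)]
    exact C.ch i hi (by omega)
  · rw [S.out _ (by omega) (by omega) (by omega)]
    exact C.ch j (by omega) hj

/-- move N3: annihilate the chords `i` and `j` -/
lemma move_N3 (hn : n % 2 = 1) {M N : NCM n} {K : ℕ} {a b : ℕ → ℕ} (C : Chords M K a b) {i j : ℕ}
    (hi : 1 ≤ i) (hij : i < j) (hj : j ≤ K) (hp : (i + j) % 2 = 1) (S : St M N a b i j)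
    (hl : a i + b i ≤ n + 1) (hu : n + 1 ≤ a j + b j) :
    ∃ N' : NCM n, St M N' a b (i - 1) (j + 1) ∧ DistLe N N' 1 ∧ U N' - U N ≤ 0 := by
  obtain ⟨e1, e2⟩ := St.ends C hi hij hj S
  have ai := C.a_pos hi (by omega)
  have aj := C.ga.mono hij (by omega)
  have bi := C.b_pos hi (by omega)
  have bj := C.gb.mono hij (by omega)
  have ajn := C.a_le hj
  have bjn := C.b_le hj
  have pai := C.ga.par i (by omega)
  have paj := C.ga.par j (by omega)
  have pbi := C.gb.par i (by omega)
  have pbj := C.gb.par j (by omega)
  have e1' := N.p_symm (by omega) e1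
  have e2' := N.p_symm (by omega) e2
  obtain ⟨p0, hp0⟩ : ∃ p0, p0 = a i - 1 := ⟨_, rfl⟩
  obtain ⟨p1, hp1⟩ : ∃ p1, p1 = a j - 1 := ⟨_, rfl⟩
  obtain ⟨p2, hp2⟩ : ∃ p2, p2 = 2 * n - b j := ⟨_, rfl⟩
  obtain ⟨p3, hp3⟩ : ∃ p3, p3 = 2 * n - b i := ⟨_, rfl⟩
  rw [← hp0, ← hp3] at e1 e1'
  rw [← hp1, ← hp2] at e2 e2'
  have B : Bg n 4 ![p0, p1, p2, p3] (allp 4) N.p := by
    apply Bg.mk'
    · simp [Fin.forall_fin_succ]
      omega
    · simp
      omega
    · exact N.nc
    · simp [Fin.forall_fin_succ, Fin.exists_fin_succ, e1, e1', e2, e2']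
    · simp [Fin.forall_fin_succ]
      refine ⟨?_, ?_, ?_⟩
      · intro x h1 h2
        have := S.inA x (by omega) (by omega)
        omega
      · intro x h1 h2
        have := N.nc.nc p1 x h1 (by omega) (by omega)
        omega
      · intro x h1 h2
        have := S.inB x (by omega) (by omega)
        omega
  have S0 : Sym 4 (allp 4) ![3, 2, 1, 0] := by constructor <;> decide
  have S1 : Sym 4 (allp 4) ![1, 0, 3, 2] := by constructor <;> decide
  have hN : N = ins B S0 := by
    apply eq_ins
    · simp [Fin.forall_fin_succ, e1, e1', e2, e2']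
    · intro x hx h; rfl
  have hadj : (H n).Adj (ins B S1) (ins B S0) := by
    apply ins_adj hn B S1 S0 (a := 0) (b := 1) (c := 2) (d := 3)
    · exact ⟨rfl, rfl, rfl, rfl, by decide, by decide, by decide, rfl, rfl, rfl, rfl, by decide⟩
    · simp; omega
    · simp; omega
    · simp; omega
    · simp; omega
  have f0 : (ins B S1).p p0 = p1 := ins_named B S1 (i := 0) rfl
  have f1 : (ins B S1).p p1 = p0 := ins_named B S1 (i := 1) rfl
  have f2 : (ins B S1).p p2 = p3 := ins_named B S1 (i := 2) rfl
  have f3 : (ins B S1).p p3 = p2 := ins_named B S1 (i := 3) rfl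
  have fu : ∀ z, z < 2 * n → ¬ (z = p0 ∨ z = p1 ∨ z = p2 ∨ z = p3) → (ins B S1).p z = N.p z := by
    intro z hz h0
    apply ins_unnamed B S1 hz
    simp [Fin.forall_fin_succ]
    omega
  have hU := U_ins_sub B S0 S1
  simp [Fin.sum_univ_four] at hU
  rw [← hN] at hU hadj
  generalize ins B S1 = N' at *
  refine ⟨N', ?_, DistLe.of_adj hadj.symm, ?_⟩
  · obtain ⟨i, rfl⟩ : ∃ i', i = i' + 1 := ⟨i - 1, by omega⟩
    rw [Nat.add_sub_cancel] at *
    have am := C.ga.mono (i := i) (j := i + 1) (by omega) (by omega)
    have bm := C.gb.mono (i := i) (j := i + 1) (by omega) (by omega)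
    have aM := C.ga.mono (i := j) (j := j + 1) (by omega) (by omega)
    have bM := C.gb.mono (i := j) (j := j + 1) (by omega) (by omega)
    apply St.glue C S (by omega) hij (by omega) (by omega)
      (fun z => z = p0 ∨ z = p1 ∨ z = p2 ∨ z = p3) fu
    · rintro z (rfl | rfl | rfl | rfl) hz <;> omega
    · rintro z (rfl | rfl | rfl | rfl) hz <;> omega
    · intro k h1 h2 h3
      have : k = i + 1 ∨ k = j := by omega
      rcases this with rfl | rfl
      · exact ⟨Or.inl hp0.symm, Or.inr (Or.inr (Or.inr hp3.symm))⟩
      · exact ⟨Or.inr (Or.inl hp1.symm), Or.inr (Or.inr (Or.inl hp2.symm))⟩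
  · rw [hU]
    rw [ws_comm n p3 p0, ws_comm n p3 p2, ws_comm n p2 p1, ws_comm n p1 p0]
    rw [ws_X (x := p0) (y := p3) (by omega) (by omega) (by omega),
      ws_X (x := p1) (y := p2) (by omega) (by omega) (by omega)]
    have w1 := ws_A_le (n := n) (x := p0) (y := p1) (by omega) (by omega)
    have w2 := ws_B_le (n := n) (x := p2) (y := p3) (by omega) (by omega)
    split_ifs at w1 w2 <;> omega

end Pool.Agent.Helper95.CF
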