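import Pool.Agent.Helper95.CFN1Bcore

/-!
MP_717b2e_co, upper bound: realization of the move N1, type B.
-/

namespace Pool.Agent.Helper95.CF

open Finset

variable {n : ℕ}

/-- move N1 of type B (`i` odd): the chord `i` hops over the last bad pocket and is annihilated
with the chord `i - 1`. -/
lemma move_N1B (hn : n % 2 = 1) {M N : NCM n} {K : ℕ} {a b : ℕ → ℕ} (C : Chords M K a b) {i j : ℕ}
    (hi : 2 ≤ i) (hij : i < j) (hj : j ≤ K) (hp : (i + j) % 2 = 1) (hiB : i % 2 = 1)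
    (S : St M N a b i j) (hne : b i + 1 < b j)
    (hl : a i + b i ≤ n + 1) (hu : n + 1 ≤ a j + b j) (hc : n + 1 < a i + b j) :
    ∃ N' : NCM n, St M N' a b (i - 2) j ∧ DistLe N N' 2 ∧ U N' - U N ≤ -4 := by
  clear hu
  obtain ⟨i, rfl⟩ : ∃ i', i = i' + 2 := ⟨i - 2, by omega⟩
  rw [Nat.add_sub_cancel]
  obtain ⟨e1, e2⟩ := St.ends C (by omega) hij hj S
  clear e2
  have ai := C.a_pos (i := i + 1) (by omega) (by omega)
  have ai2 := C.ga.mono (i := i + 1) (j := i + 2) (by omega) (by omega)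
  have ai0 := C.ga.mono (i := i) (j := i + 1) (by omega) (by omega)
  have aj := C.ga.mono hij (by omega)
  have bi := C.b_pos (i := i + 1) (by omega) (by omega)
  have bi2 := C.gb.mono (i := i + 1) (j := i + 2) (by omega) (by omega)
  have bi0 := C.gb.mono (i := i) (j := i + 1) (by omega) (by omega)
  have bj := C.gb.mono hij (by omega)
  have ajn := C.a_le hj
  have bjn := C.b_le hj
  have e3 : N.p (a (i + 1) - 1) = 2 * n - b (i + 1) := by
    rw [S.out _ (by omega) (by omega) (by omega)]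
    exact C.ch (i + 1) (by omega) (by omega)
  have pai : (a (i + 1) - 1) % 2 = 1 := by
    have := C.ga.par (i + 1) (by omega)
    omega
  have pbj : (2 * n - b j + 1 - n) % 2 = 0 := by
    have := C.gb.par j (by omega)
    omega
  clear hiB hp
  have gA : ∀ z, a (i + 1) ≤ z → z + 1 < a (i + 2) → a (i + 1) ≤ M.p z ∧ M.p z + 1 < a (i + 2) :=
    C.gapA (i + 1) (by omega)
  have gB : ∀ z, 2 * n < z + b (i + 2) → z + b (i + 1) < 2 * n →
    2 * n < M.p z + b (i + 2) ∧ M.p z + b (i + 1) < 2 * n := C.gapB (i + 1) (by omega)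
  obtain ⟨p0, hp0⟩ : ∃ p0, p0 = a (i + 1) - 1 := ⟨_, rfl⟩
  obtain ⟨p1, hp1⟩ : ∃ p1, p1 = a (i + 2) - 1 := ⟨_, rfl⟩
  obtain ⟨p2, hp2⟩ : ∃ p2, p2 = 2 * n - b j + 1 := ⟨_, rfl⟩
  obtain ⟨p3, hp3⟩ : ∃ p3, p3 = N.p p2 := ⟨_, rfl⟩
  obtain ⟨p4, hp4⟩ : ∃ p4, p4 = 2 * n - b (i + 2) := ⟨_, rfl⟩
  obtain ⟨p5, hp5⟩ : ∃ p5, p5 = 2 * n - b (i + 1) := ⟨_, rfl⟩
  rw [← hp1, ← hp4] at e1
  rw [← hp0, ← hp5] at e3
  rw [← hp0] at pai
  rw [← hp2] at pbj
  have e4 := hp3.symm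
  have q0 : ∀ x, p0 < x → x < p1 → p0 < N.p x ∧ N.p x < p1 := by
    intro x h1 h2
    rw [S.out x (by omega) (by omega) (by omega)]
    have := gA x (by omega) (by omega)
    omega
  have q2 : ∀ x, p2 ≤ x → x < p4 → p2 ≤ N.p x ∧ N.p x < p4 := by
    intro x h1 h2
    have h3 := S.inB x (by omega) (by omega)
    omega
  have q4 : ∀ x, p4 < x → x < p5 → p4 < N.p x ∧ N.p x < p5 := by
    intro x h1 h2
    rw [S.out x (by omega) (by omega) (by omega)]
    have := gB x (by omega) (by omega)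
    omega
  clear gA gB
  have hin := q2 p2 (by omega) (by omega)
  have hne2 := N.p_ne (x := p2) (by omega)
  rw [e4] at hin hne2
  have par2 := N.p_parity (x := p2) (by omega)
  rw [e4] at par2
  have m3 : (p3 - n) % 2 = 1 := by omega
  have l01 : p0 < p1 := by omega
  have l1n : p1 < n := by omega
  have ln2 : n < p2 := by omega
  have l23 : p2 < p3 := by omega
  have l34 : p3 < p4 := hin.2
  have l45 : p4 < p5 := by omega
  have l5 : p5 < 2 * n := by omega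
  have k1 : p1 + n ≤ p4 := by omega
  have k2 : p2 ≤ n + p1 := by omega
  obtain ⟨N', ⟨f0, f1, f2, f3, f4, f5, fu⟩, hd, hU⟩ := N1B_core hn (N := N) l01 l1n ln2 l23 l34
    l45 l5 k1 k2 pai pbj m3 e3 e1 e4 q0 q2 q4
  clear e1 e3 e4 q0 q2 q4 pai pbj par2 m3 k1 k2 hp3 hn hl hc
  refine ⟨N', ?_, hd, hU⟩
  apply St.glue C S (by omega) hij (by omega) (by omega)
    (fun z => z = p0 ∨ z = p1 ∨ z = p2 ∨ z = p3 ∨ z = p4 ∨ z = p5) fu
  · rintro z (rfl | rfl | rfl | rfl | rfl | rfl) hz <;> omega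
  · rintro z (rfl | rfl | rfl | rfl | rfl | rfl) hz <;> omega
  · intro k h1 h2 h3
    have : k = i + 1 ∨ k = i + 2 := by omega
    rcases this with rfl | rfl
    · exact ⟨by omega, by omega⟩
    · exact ⟨by omega, by omega⟩

end Pool.Agent.Helper95.CF
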