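import Pool.Agent.Helper95.CFMoves

/-!
MP_717b2e_co, upper bound: realization of the move N1, type B, the two flips.
-/

namespace Pool.Agent.Helper95.CF

open Finset

variable {n : ℕ}

/-- the background of the six points -/
theorem N1B_bg {N : NCM n} {p0 p1 p2 p3 p4 p5 : ℕ} (l01 : p0 < p1) (l1n : p1 < n) (ln2 : n < p2)
    (l23 : p2 < p3) (l34 : p3 < p4) (l45 : p4 < p5) (l5 : p5 < 2 * n)
    (e3 : N.p p0 = p5) (e1 : N.p p1 = p4) (e4 : N.p p2 = p3)
    (q0 : ∀ x, p0 < x → x < p1 → p0 < N.p x ∧ N.p x < p1)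
    (q2 : ∀ x, p2 ≤ x → x < p4 → p2 ≤ N.p x ∧ N.p x < p4)
    (q4 : ∀ x, p4 < x → x < p5 → p4 < N.p x ∧ N.p x < p5) :
    Bg n 6 ![p0, p1, p2, p3, p4, p5] (allp 6) N.p := by
  have e1' := N.p_symm (by omega) e1
  have e3' := N.p_symm (by omega) e3
  have e4' := N.p_symm (by omega) e4
  apply Bg.mk'
  · simp [Fin.forall_fin_succ]
    omega
  · simp
    omega
  · exact N.nc
  · simp [Fin.forall_fin_succ, Fin.exists_fin_succ, e1, e1', e3, e3', e4, e4']
  · simp [Fin.forall_fin_succ]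
    refine ⟨?_, ?_, ?_, ?_, ?_⟩
    · intro x h1 h2
      exact q0 x h1 h2
    · intro x h1 h2
      have h3 := N.nc.nc p1 x h1 (by omega) (by omega)
      refine ⟨h3.1, ?_⟩
      by_contra h4
      have h5 : N.p (N.p x) = x := N.p_p (by omega)
      have h6 := q2 (N.p x) (by omega) (by omega)
      rw [h5] at h6
      omega
    · intro x h1 h2
      have h3 := N.nc.nc p2 x h1 (by omega) (by omega)
      omega
    · intro x h1 h2
      have h3 := q2 x (by omega) (by omega)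
      refine ⟨?_, by omega⟩
      by_contra h4
      have h5 : N.p (N.p x) = x := N.p_p (by omega)
      have h6 : N.p x ≠ p2 := by
        intro h; rw [h] at h5; omega
      have h7 : N.p x ≠ p3 := by
        intro h; rw [h] at h5; omega
      have h8 := N.nc.nc p2 (N.p x) (by omega) (by omega) (by omega)
      rw [h5] at h8
      omega
    · intro x h1 h2
      exact q4 x h1 h2

theorem N1B_core (hn : n % 2 = 1) {N : NCM n} {p0 p1 p2 p3 p4 p5 : ℕ} (l01 : p0 < p1)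
    (l1n : p1 < n) (ln2 : n < p2)
    (l23 : p2 < p3) (l34 : p3 < p4) (l45 : p4 < p5) (l5 : p5 < 2 * n)
    (k1 : p1 + n ≤ p4) (k2 : p2 ≤ n + p1)
    (m0 : p0 % 2 = 1) (m2 : (p2 - n) % 2 = 0) (m3 : (p3 - n) % 2 = 1)
    (e3 : N.p p0 = p5) (e1 : N.p p1 = p4) (e4 : N.p p2 = p3)
    (q0 : ∀ x, p0 < x → x < p1 → p0 < N.p x ∧ N.p x < p1)
    (q2 : ∀ x, p2 ≤ x → x < p4 → p2 ≤ N.p x ∧ N.p x < p4)
    (q4 : ∀ x, p4 < x → x < p5 → p4 < N.p x ∧ N.p x < p5) :
    ∃ N' : NCM n, (N'.p p0 = p1 ∧ N'.p p1 = p0 ∧ N'.p p2 = p5 ∧ N'.p p3 = p4 ∧ N'.p p4 = p3 ∧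
      N'.p p5 = p2 ∧ (∀ z, z < 2 * n → ¬ (z = p0 ∨ z = p1 ∨ z = p2 ∨ z = p3 ∨ z = p4 ∨ z = p5) →
      N'.p z = N.p z)) ∧ DistLe N N' 2 ∧ U N' - U N ≤ -4 := by
  have B := N1B_bg l01 l1n ln2 l23 l34 l45 l5 e3 e1 e4 q0 q2 q4
  clear q0 q2 q4
  have e1' := N.p_symm (by omega) e1
  have e3' := N.p_symm (by omega) e3
  have e4' := N.p_symm (by omega) e4
  have S0 : Sym 6 (allp 6) ![5, 4, 3, 2, 1, 0] := by constructor <;> decide
  have S1 : Sym 6 (allp 6) ![5, 2, 1, 4, 3, 0] := by constructor <;> decide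
  have S2 : Sym 6 (allp 6) ![1, 0, 5, 4, 3, 2] := by constructor <;> decide
  have hN : N = ins B S0 := by
    apply eq_ins
    · simp [Fin.forall_fin_succ, e1, e1', e3, e3', e4, e4']
    · intro x hx h; rfl
  clear e1 e1' e3 e3' e4 e4'
  have hadj1 : (H n).Adj (ins B S1) (ins B S0) := by
    clear m0 m2 m3
    apply ins_adj hn B S1 S0 (a := 1) (b := 2) (c := 3) (d := 4)
    · exact ⟨rfl, rfl, rfl, rfl, by decide, by decide, by decide, rfl, rfl, rfl, rfl, by decide⟩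
    · simp; omega
    · simp; omega
    · simp; omega
    · simp; omega
  have hadj2 : (H n).Adj (ins B S2) (ins B S1) := by
    clear m0 m2 m3
    apply ins_adj hn B S2 S1 (a := 0) (b := 1) (c := 2) (d := 5)
    · exact ⟨rfl, rfl, rfl, rfl, by decide, by decide, by decide, rfl, rfl, rfl, rfl, by decide⟩
    · simp; omega
    · simp; omega
    · simp; omega
    · simp; omega
  have f0 : (ins B S2).p p0 = p1 := ins_named B S2 (i := 0) rfl
  have f1 : (ins B S2).p p1 = p0 := ins_named B S2 (i := 1) rfl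
  have f2 : (ins B S2).p p2 = p5 := ins_named B S2 (i := 2) rfl
  have f3 : (ins B S2).p p3 = p4 := ins_named B S2 (i := 3) rfl
  have f4 : (ins B S2).p p4 = p3 := ins_named B S2 (i := 4) rfl
  have f5 : (ins B S2).p p5 = p2 := ins_named B S2 (i := 5) rfl
  have fu : ∀ z, z < 2 * n → ¬ (z = p0 ∨ z = p1 ∨ z = p2 ∨ z = p3 ∨ z = p4 ∨ z = p5) →
      (ins B S2).p z = N.p z := by
    intro z hz h0
    apply ins_unnamed B S2 hz
    simp [Fin.forall_fin_succ]
    omega
  have hU := U_ins_sub B S0 S2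
  simp [Fin.sum_univ_six] at hU
  have hd : DistLe (ins B S0) (ins B S2) 2 :=
    (DistLe.of_adj hadj1.symm).trans (DistLe.of_adj hadj2.symm)
  rw [← hN] at hU hd
  refine ⟨ins B S2, ⟨f0, f1, f2, f3, f4, f5, fu⟩, hd, ?_⟩
  rw [hU]
  rw [ws_comm n p5 p0, ws_comm n p4 p1, ws_comm n p3 p2, ws_comm n p1 p0, ws_comm n p5 p2,
    ws_comm n p4 p3]
  rw [ws_X (x := p0) (y := p5) (by omega) (by omega) (by omega),
    ws_X (x := p1) (y := p4) (by omega) (by omega) (by omega)]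
  have w1 := ws_A_le (n := n) (x := p0) (y := p1) (by omega) (by omega)
  have w2 := ws_B_le (n := n) (x := p2) (y := p5) (by omega) (by omega)
  have w3 := ws_B_le (n := n) (x := p3) (y := p4) (by omega) (by omega)
  have w4 := ws_B (n := n) (x := p2) (y := p3) (by omega) (by omega)
  rw [if_neg (by omega)] at w1
  rw [if_pos (by omega)] at w2
  rw [if_neg (by omega)] at w3
  rw [if_pos (by omega)] at w4
  omega

end Pool.Agent.Helper95.CF
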