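import Pool.Agent.Helper95.CFN1B
import Pool.Agent.Helper95.CFGame
import Pool.Agent.Helper95.CFC1
import Pool.Agent.Helper65.CFTail
import Pool.Agent.Helper65.CFExCh
import Pool.Agent.Helper65.CFSymm
import Pool.Agent.Helper65.CFSymCh
import Pool.Agent.Helper65.CFN3aA
import Pool.Agent.Helper65.CFN3aB
import Pool.Agent.Helper64.CF.CFN1A
import Pool.Agent.Helper30.CF.CFB1

/-!
MP_717b2e_co, upper bound: the remaining moves by the symmetry `x ↦ x + n`, and the realization of
the abstract game.
-/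

namespace Pool.Agent.Helper95.CF

open Finset

variable {n : ℕ}

/-- boundary move b1 -/
theorem move_b1 (hn : n % 2 = 1) {M N : NCM n} {K : ℕ} {a b : ℕ → ℕ} (C : Chords M K a b)
    {j : ℕ} (hij : 1 < j) (hj : j ≤ K) (hp : j % 2 = 0)
    (S : St M N a b 1 j) (hne : b 1 + 1 < b j)
    (hl : a 1 + b 1 ≤ n + 1) (hu : n + 1 ≤ a j + b j) (hc : n + 1 < a 1 + b j) :
    Val N (-1) :=
  move_b1_of (tail_up hn) hn C hij hj hp S hne hl hu hc

lemma St.congr {M N : NCM n} {a b a' b' : ℕ → ℕ} {i j : ℕ} (S : St M N a b i j)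
    (h1 : a' i = a i) (h2 : a' j = a j) (h3 : b' i = b i) (h4 : b' j = b j) :
    St M N a' b' i j := by
  constructor
  · rw [h1, h2]; exact S.inA
  · rw [h3, h4]; exact S.inB
  · rw [h1, h2, h3, h4]; exact S.out

/-- the sequences of the rotated matching -/
def ha (n K : ℕ) (b : ℕ → ℕ) : ℕ → ℕ := fun i => n + 1 - b (K + 1 - i)

lemma ha_ha {n K : ℕ} {a : ℕ → ℕ} (ga : Good (n + 1) K a) {i : ℕ} (hi : i ≤ K + 1) :
    ha n K (ha n K a) i = a i := by
  unfold ha
  have h1 : K + 1 - (K + 1 - i) = i := by omega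
  rw [h1]
  have h2 := ga.mono' (i := i) (j := K + 1) hi le_rfl
  have h3 := ga.t
  omega

lemma ha_eq {n K : ℕ} {b : ℕ → ℕ} {i : ℕ} (hi : i ≤ K + 1) :
    ha n K b (K + 1 - i) = n + 1 - b i := by
  unfold ha
  have h1 : K + 1 - (K + 1 - i) = i := by omega
  rw [h1]

/-- transfer of a move along the rotation by `n` -/
lemma St.transfer (hn : n % 2 = 1) {M N : NCM n} {K : ℕ} {a b : ℕ → ℕ} (C : Chords M K a b)
    {i j d : ℕ} {u : ℤ} (hij : i < j) (hj : j ≤ K + 1)
    (h : ∃ N'' : NCM n, St (rot^[n] M) N'' (ha n K b) (ha n K a) (K + 1 - j) (K + 1 - i) ∧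
      DistLe (rot^[n] N) N'' d ∧ U N'' - U (rot^[n] N) ≤ u) :
    ∃ N' : NCM n, St M N' a b i j ∧ DistLe N N' d ∧ U N' - U N ≤ u := by
  obtain ⟨N'', S', hd, hU⟩ := h
  have C' : Chords (rot^[n] M) K (ha n K b) (ha n K a) := C.half hn
  have S2 := S'.half hn C' (by omega) (by omega)
  have e1 : K + 1 - (K + 1 - i) = i := by omega
  have e2 : K + 1 - (K + 1 - j) = j := by omega
  rw [e1, e2, half_half] at S2
  refine ⟨rot^[n] N'', S2.congr ?_ ?_ ?_ ?_, ?_, ?_⟩
  · exact (ha_ha C.ga (by omega)).symm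
  · exact (ha_ha C.ga hj).symm
  · exact (ha_ha C.gb (by omega)).symm
  · exact (ha_ha C.gb hj).symm
  · have := hd.rotk hn n
    rwa [half_half] at this
  · rw [U_half hn]
    rw [U_half hn] at hU
    exact hU

/-- arithmetic of the rotated sequences -/
lemma half_arith {M : NCM n} {K : ℕ} {a b : ℕ → ℕ} (C : Chords M K a b) {i : ℕ}
    (h1 : i ≤ K + 1) :
    a i ≤ n + 1 ∧ b i ≤ n + 1 ∧ ha n K b (K + 1 - i) = n + 1 - b i ∧
      ha n K a (K + 1 - i) = n + 1 - a i := by
  have e1 := C.ga.mono' (i := i) (j := K + 1) h1 le_rfl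
  have e2 := C.gb.mono' (i := i) (j := K + 1) h1 le_rfl
  have e3 := C.ga.t
  have e4 := C.gb.t
  exact ⟨by omega, by omega, ha_eq h1, ha_eq h1⟩

/-- move N2 of type B (`i` odd) -/
theorem move_N2B (hn : n % 2 = 1) {M N : NCM n} {K : ℕ} {a b : ℕ → ℕ} (C : Chords M K a b)
    {i j : ℕ} (hi : 1 ≤ i) (hij : i < j) (hj : j + 1 ≤ K) (hp : (i + j) % 2 = 1) (hiB : i % 2 = 1)
    (S : St M N a b i j) (hne : b i + 1 < b j)
    (hl : a i + b i ≤ n + 1) (hu : n + 1 ≤ a j + b j) (hc : a j + b i < n + 1) :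
    ∃ N' : NCM n, St M N' a b i (j + 2) ∧ DistLe N N' 2 ∧ U N' - U N ≤ -4 := by
  have hK := C.hK
  have C' : Chords (rot^[n] M) K (ha n K b) (ha n K a) := C.half hn
  have S' : St (rot^[n] M) (rot^[n] N) (ha n K b) (ha n K a) (K + 1 - j) (K + 1 - i) :=
    S.half hn C hij (by omega)
  obtain ⟨u1, u2, u3, u4⟩ := half_arith C (i := i) (by omega)
  obtain ⟨v1, v2, v3, v4⟩ := half_arith C (i := j) (by omega)
  apply St.transfer hn C (by omega) (by omega)
  have := move_N1A hn C' (i := K + 1 - j) (j := K + 1 - i) (by omega) (by omega) (by omega)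
    (by omega) (by omega) S' (by omega) (by omega) (by omega) (by omega)
  have e : K + 1 - j - 2 = K + 1 - (j + 2) := by omega
  rwa [e] at this

/-- move N2 of type A (`i` even) -/
theorem move_N2A (hn : n % 2 = 1) {M N : NCM n} {K : ℕ} {a b : ℕ → ℕ} (C : Chords M K a b)
    {i j : ℕ} (hi : 1 ≤ i) (hij : i < j) (hj : j + 1 ≤ K) (hp : (i + j) % 2 = 1) (hiA : i % 2 = 0)
    (S : St M N a b i j) (hne : a i + 1 < a j)
    (hl : a i + b i ≤ n + 1) (hu : n + 1 ≤ a j + b j) (hc : b j + a i < n + 1) :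
    ∃ N' : NCM n, St M N' a b i (j + 2) ∧ DistLe N N' 2 ∧ U N' - U N ≤ -4 := by
  have hK := C.hK
  have C' : Chords (rot^[n] M) K (ha n K b) (ha n K a) := C.half hn
  have S' : St (rot^[n] M) (rot^[n] N) (ha n K b) (ha n K a) (K + 1 - j) (K + 1 - i) :=
    S.half hn C hij (by omega)
  obtain ⟨u1, u2, u3, u4⟩ := half_arith C (i := i) (by omega)
  obtain ⟨v1, v2, v3, v4⟩ := half_arith C (i := j) (by omega)
  apply St.transfer hn C (by omega) (by omega)
  have := move_N1B hn C' (i := K + 1 - j) (j := K + 1 - i) (by omega) (by omega) (by omega)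
    (by omega) (by omega) S' (by omega) (by omega) (by omega) (by omega)
  have e : K + 1 - j - 2 = K + 1 - (j + 2) := by omega
  rwa [e] at this

/-- move N3b of type B (`i` odd) -/
theorem move_N3bB (hn : n % 2 = 1) {M N : NCM n} {K : ℕ} {a b : ℕ → ℕ} (C : Chords M K a b)
    {i j : ℕ} (hi : 1 ≤ i) (hij : i < j) (hj : j + 1 ≤ K) (hp : (i + j) % 2 = 1) (hiB : i % 2 = 1)
    (S : St M N a b i j) (hne : b i + 1 < b j)
    (hl : a i + b i ≤ n + 1) (hu : n + 1 ≤ a j + b j) (hc : a j + b i < n + 1)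
    (hc' : n + 1 < a (j + 1) + b i) :
    ∃ N' : NCM n, St M N' a b (i - 1) (j + 1) ∧ DistLe N N' 3 ∧ U N' - U N ≤ -8 := by
  have hK := C.hK
  have C' : Chords (rot^[n] M) K (ha n K b) (ha n K a) := C.half hn
  have S' : St (rot^[n] M) (rot^[n] N) (ha n K b) (ha n K a) (K + 1 - j) (K + 1 - i) :=
    S.half hn C hij (by omega)
  obtain ⟨u1, u2, u3, u4⟩ := half_arith C (i := i) (by omega)
  obtain ⟨v1, v2, v3, v4⟩ := half_arith C (i := j) (by omega)
  obtain ⟨w1, w2, w3, w4⟩ := half_arith C (i := j + 1) (by omega)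
  have e0 : K + 1 - j - 1 = K + 1 - (j + 1) := by omega
  have e1 : K + 1 - i + 1 = K + 1 - (i - 1) := by omega
  apply St.transfer hn C (by omega) (by omega)
  have := move_N3aA hn C' (i := K + 1 - j) (j := K + 1 - i) (by omega) (by omega) (by omega)
    (by omega) (by omega) S' (by omega) (by omega) (by omega) (by omega)
    (by rw [e0]; omega)
  rwa [e0, e1] at this

/-- move N3b of type A (`i` even) -/
theorem move_N3bA (hn : n % 2 = 1) {M N : NCM n} {K : ℕ} {a b : ℕ → ℕ} (C : Chords M K a b)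
    {i j : ℕ} (hi : 1 ≤ i) (hij : i < j) (hj : j + 1 ≤ K) (hp : (i + j) % 2 = 1) (hiA : i % 2 = 0)
    (S : St M N a b i j) (hne : a i + 1 < a j)
    (hl : a i + b i ≤ n + 1) (hu : n + 1 ≤ a j + b j) (hc : b j + a i < n + 1)
    (hc' : n + 1 < b (j + 1) + a i) :
    ∃ N' : NCM n, St M N' a b (i - 1) (j + 1) ∧ DistLe N N' 3 ∧ U N' - U N ≤ -8 := by
  have hK := C.hK
  have C' : Chords (rot^[n] M) K (ha n K b) (ha n K a) := C.half hn
  have S' : St (rot^[n] M) (rot^[n] N) (ha n K b) (ha n K a) (K + 1 - j) (K + 1 - i) :=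
    S.half hn C hij (by omega)
  obtain ⟨u1, u2, u3, u4⟩ := half_arith C (i := i) (by omega)
  obtain ⟨v1, v2, v3, v4⟩ := half_arith C (i := j) (by omega)
  obtain ⟨w1, w2, w3, w4⟩ := half_arith C (i := j + 1) (by omega)
  have e0 : K + 1 - j - 1 = K + 1 - (j + 1) := by omega
  have e1 : K + 1 - i + 1 = K + 1 - (i - 1) := by omega
  apply St.transfer hn C (by omega) (by omega)
  have := move_N3aB hn C' (i := K + 1 - j) (j := K + 1 - i) (by omega) (by omega) (by omega)
    (by omega) (by omega) S' (by omega) (by omega) (by omega) (by omega)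
    (by rw [e0]; omega)
  rwa [e0, e1] at this

/-- boundary move b4 (`j = K`, `i` even) -/
theorem move_b4 (hn : n % 2 = 1) {M N : NCM n} {K : ℕ} {a b : ℕ → ℕ} (C : Chords M K a b)
    {i : ℕ} (hi : 1 ≤ i) (hij : i < K) (hp : i % 2 = 0)
    (S : St M N a b i K) (hne : a i + 1 < a K)
    (hl : a i + b i ≤ n + 1) (hu : n + 1 ≤ a K + b K) (hc : b K + a i < n + 1) :
    Val N (-1) := by
  have hK := C.hK
  have C' : Chords (rot^[n] M) K (ha n K b) (ha n K a) := C.half hn
  have S' : St (rot^[n] M) (rot^[n] N) (ha n K b) (ha n K a) (K + 1 - K) (K + 1 - i) :=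
    S.half hn C hij (by omega)
  obtain ⟨u1, u2, u3, u4⟩ := half_arith C (i := i) (by omega)
  obtain ⟨v1, v2, v3, v4⟩ := half_arith C (i := K) (by omega)
  have e0 : K + 1 - K = 1 := by omega
  rw [e0] at S' v3 v4
  have := move_b1 hn C' (j := K + 1 - i) (by omega) (by omega)
    (by omega) S' (by omega) (by omega) (by omega) (by omega)
  have h2 := this.half hn
  rwa [half_half] at h2

/-- the state after all chords below have been annihilated -/
theorem real_base0 (hn : n % 2 = 1) {M N : NCM n} {K : ℕ} {a b : ℕ → ℕ} (C : Chords M K a b)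
    {j : ℕ} (h2 : 2 ≤ j) (hj : j ≤ K) (S : St M N a b 0 j) (hu : n + 1 ≤ a j + b j) :
    Val N 0 := by
  have a0 := C.ga.z
  have b0 := C.gb.z
  have ajp := C.a_pos (i := j) (by omega) (by omega)
  have ajn := C.a_le hj
  have bjn := C.b_le hj
  have a1 := C.ga.mono (i := 1) (j := j) (by omega) (by omega)
  have a1p := C.a_pos (i := 1) (by omega) (by omega)
  apply tail_up hn N
  · have := S.inA 0 (by omega) (by omega)
    omega
  · intro x hx0 hxn hN
    by_cases h : x + 1 < a j
    · have := S.inA x (by omega) h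
      omega
    · rw [S.out x (by omega) (by omega) (by omega)] at hN ⊢
      obtain ⟨i, i1, i2, i3, i4⟩ := C.cross hxn hN.le
      have hij : j ≤ i := by
        by_contra hc
        have := C.ga.mono (i := i) (j := j) (by omega) (by omega)
        omega
      have e1 := C.ga.mono' hij (by omega)
      have e2 := C.gb.mono' hij (by omega)
      rw [i4, i3]
      omega

/-- the state after all chords above have been annihilated -/
theorem real_baseK (hn : n % 2 = 1) {M N : NCM n} {K : ℕ} {a b : ℕ → ℕ} (C : Chords M K a b)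
    {i : ℕ} (h1 : 1 ≤ i) (hi : i + 1 ≤ K) (S : St M N a b i (K + 1)) (hl : a i + b i ≤ n + 1) :
    Val N 0 := by
  have aT := C.ga.t
  have bT := C.gb.t
  have aip := C.a_pos (i := i) (by omega) (by omega)
  have ain := C.a_le (i := i) (by omega)
  have bin := C.b_le (i := i) (by omega)
  have bip := C.b_pos (i := i) (by omega) (by omega)
  apply tail_down hn N
  · rw [S.out 0 (by omega) (by omega) (by omega)]
    intro he
    obtain ⟨k, k1, k2, k3, k4⟩ := C.cross (x := 0) (by omega) he.ge
    have e1 := C.gb.mono' (i := k) (j := K) k2 (by omega)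
    have e2 := C.b_le (i := K) le_rfl
    have e3 := C.a_pos (i := k) k1 (by omega)
    have e4 : k = 1 := by
      by_contra hk
      have := C.ga.mono (i := 1) (j := k) (by omega) (by omega)
      have := C.a_pos (i := 1) (by omega) (by omega)
      omega
    subst e4
    have := C.gb.mono (i := 1) (j := K) (by omega) (by omega)
    omega
  · intro x hx0 hxn hN
    by_cases h : a i ≤ x
    · have := S.inA x h (by omega)
      omega
    · rw [S.out x (by omega) (by omega) (by omega)] at hN ⊢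
      obtain ⟨k, k1, k2, k3, k4⟩ := C.cross hxn hN.le
      have hki : k ≤ i := by
        by_contra hc
        have := C.ga.mono (i := i) (j := k) (by omega) (by omega)
        omega
      have e1 := C.ga.mono' hki (by omega)
      have e2 := C.gb.mono' hki (by omega)
      rw [k4, k3]
      omega

/-- **realization of the game** -/
theorem realize (hn : n % 2 = 1) {M : NCM n} {K : ℕ} {a b : ℕ → ℕ} (C : Chords M K a b)
    {A B : ℕ → ℕ} {i j : ℕ} {v : ℤ} (hG : G (n + 1) K A B i j v) :
    (i % 2 = 1 → A = a ∧ B = b) → (i % 2 = 0 → A = b ∧ B = a) → i < j → j ≤ K + 1 →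
    (i + j) % 2 = 1 → A i + B i ≤ n + 1 → n + 1 ≤ A j + B j →
    ∀ N : NCM n, St M N a b i j → NeBad a b i j → Val N v := by
  induction hG with
  | base0 A B j h1 h2 =>
    intro hB hA hij hj hp hl hu N S hne
    obtain ⟨rfl, rfl⟩ := hA rfl
    exact real_base0 hn C h1 h2 S (by omega)
  | baseK A B i h1 h2 =>
    intro hB hA hij hj hp hl hu N S hne
    apply real_baseK hn C h1 h2 S
    rcases Nat.mod_two_eq_zero_or_one i with h | h
    · obtain ⟨rfl, rfl⟩ := hA h; omega
    · obtain ⟨rfl, rfl⟩ := hB h; exact hl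
  | c1 A B h1 h2 h3 =>
    intro hB hA hij hj hp hl hu N S hne
    obtain ⟨rfl, rfl⟩ := hB rfl
    exact move_c1 hn C h1 S (hne.1 rfl) hl hu h2 h3
  | b1 A B j h1 h2 =>
    intro hB hA hij hj hp hl hu N S hne
    obtain ⟨rfl, rfl⟩ := hB rfl
    exact move_b1 hn C hij h1 (by omega) S (hne.1 rfl) hl hu h2
  | b4 A B i h1 h2 =>
    intro hB hA hij hj hp hl hu N S hne
    have hK := C.hK
    obtain ⟨rfl, rfl⟩ := hA (by omega)
    exact move_b4 hn C h1 hij (by omega) S (hne.2 (by omega)) (by omega) (by omega) (by omega)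
  | N1 A B i j v h1 h2 h3 ih =>
    intro hB hA hij hj hp hl hu N S hne
    obtain ⟨N', S', hd, hU⟩ : ∃ N' : NCM n, St M N' a b (i + 2 - 2) j ∧ DistLe N N' 2 ∧
        U N' - U N ≤ -4 := by
      rcases Nat.mod_two_eq_zero_or_one i with h | h
      · obtain ⟨rfl, rfl⟩ := hA (by omega)
        exact move_N1A hn C (by omega) hij h1 hp (by omega) S (hne.2 (by omega)) (by omega)
          (by omega) h2
      · obtain ⟨rfl, rfl⟩ := hB (by omega)
        exact move_N1B hn C (by omega) hij h1 hp (by omega) S (hne.1 (by omega)) hl hu h2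
    rw [Nat.add_sub_cancel] at S'
    have hm1 := C.ga.mono (i := i) (j := i + 2) (by omega) (by omega)
    have hm2 := C.gb.mono (i := i) (j := i + 2) (by omega) (by omega)
    have hm3 := C.ga.mono hij hj
    have hm4 := C.gb.mono hij hj
    have hval := ih (fun h => hB (by omega)) (fun h => hA (by omega)) (by omega) hj (by omega)
      (by
        rcases Nat.mod_two_eq_zero_or_one i with h | h
        · obtain ⟨rfl, rfl⟩ := hA (by omega); omega
        · obtain ⟨rfl, rfl⟩ := hB (by omega); omega) hu N' S' ⟨fun _ => by omega, fun _ => by omega⟩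
    exact hval.step hd (by push_cast; omega)
  | N2 A B i j v h0 h1 h2 h3 ih =>
    intro hB hA hij hj hp hl hu N S hne
    obtain ⟨N', S', hd, hU⟩ : ∃ N' : NCM n, St M N' a b i (j + 2) ∧ DistLe N N' 2 ∧
        U N' - U N ≤ -4 := by
      rcases Nat.mod_two_eq_zero_or_one i with h | h
      · obtain ⟨rfl, rfl⟩ := hA (by omega)
        exact move_N2A hn C h0 hij h1 hp (by omega) S (hne.2 (by omega)) (by omega)
          (by omega) h2
      · obtain ⟨rfl, rfl⟩ := hB (by omega)
        exact move_N2B hn C h0 hij h1 hp (by omega) S (hne.1 (by omega)) hl hu h2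
    have hm1 := C.ga.mono (i := j) (j := j + 2) (by omega) (by omega)
    have hm2 := C.gb.mono (i := j) (j := j + 2) (by omega) (by omega)
    have hm3 := C.ga.mono hij hj
    have hm4 := C.gb.mono hij hj
    have hval := ih hB hA (by omega) (by omega) (by omega) hl
      (by
        rcases Nat.mod_two_eq_zero_or_one i with h | h
        · obtain ⟨rfl, rfl⟩ := hA (by omega); omega
        · obtain ⟨rfl, rfl⟩ := hB (by omega); omega) N' S' ⟨fun _ => by omega, fun _ => by omega⟩
    exact hval.step hd (by push_cast; omega)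
  | N3 A B i j v h1 h2 ih =>
    intro hB hA hij hj hp hl hu N S hne
    have hll : a (i + 1) + b (i + 1) ≤ n + 1 ∧ n + 1 ≤ a j + b j := by
      rcases Nat.mod_two_eq_zero_or_one i with h | h
      · obtain ⟨rfl, rfl⟩ := hB (by omega); exact ⟨hl, hu⟩
      · obtain ⟨rfl, rfl⟩ := hA (by omega); omega
    obtain ⟨N', S', hd, hU⟩ := move_N3 hn C (by omega) hij h1 hp S hll.1 hll.2
    rw [Nat.add_sub_cancel] at S'
    have hm1 := C.ga.mono (i := j) (j := j + 1) (by omega) (by omega)
    have hm2 := C.gb.mono (i := j) (j := j + 1) (by omega) (by omega)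
    have hm3 := C.ga.mono hij hj
    have hm4 := C.gb.mono hij hj
    have hm5 := C.ga.mono (i := i) (j := i + 1) (by omega) (by omega)
    have hm6 := C.gb.mono (i := i) (j := i + 1) (by omega) (by omega)
    have hval := ih (fun h => ⟨(hA (by omega)).2, (hA (by omega)).1⟩)
      (fun h => ⟨(hB (by omega)).2, (hB (by omega)).1⟩) (by omega) (by omega) (by omega)
      (by
        rcases Nat.mod_two_eq_zero_or_one i with h | h
        · obtain ⟨rfl, rfl⟩ := hB (by omega); omega
        · obtain ⟨rfl, rfl⟩ := hA (by omega); omega)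
      (by
        rcases Nat.mod_two_eq_zero_or_one i with h | h
        · obtain ⟨rfl, rfl⟩ := hB (by omega); omega
        · obtain ⟨rfl, rfl⟩ := hA (by omega); omega) N' S' ⟨fun _ => by omega, fun _ => by omega⟩
    exact hval.step hd (by push_cast; omega)
  | N3a A B i j v h0 h1 h2 h3 h4 ih =>
    intro hB hA hij hj hp hl hu N S hne
    obtain ⟨N', S', hd, hU⟩ : ∃ N' : NCM n, St M N' a b (i + 1 - 1) (j + 1) ∧ DistLe N N' 3 ∧
        U N' - U N ≤ -8 := by
      rcases Nat.mod_two_eq_zero_or_one i with h | h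
      · obtain ⟨rfl, rfl⟩ := hB (by omega)
        exact move_N3aB hn C (by omega) hij h1 hp (by omega) S (hne.1 (by omega)) hl hu h2
          (by rw [Nat.add_sub_cancel]; exact h3)
      · obtain ⟨rfl, rfl⟩ := hA (by omega)
        exact move_N3aA hn C (by omega) hij h1 hp (by omega) S (hne.2 (by omega)) (by omega)
          (by omega) h2 (by rw [Nat.add_sub_cancel]; exact h3)
    rw [Nat.add_sub_cancel] at S'
    have hm1 := C.ga.mono (i := j) (j := j + 1) (by omega) (by omega)
    have hm2 := C.gb.mono (i := j) (j := j + 1) (by omega) (by omega)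
    have hm3 := C.ga.mono hij hj
    have hm4 := C.gb.mono hij hj
    have hm5 := C.ga.mono (i := i) (j := i + 1) (by omega) (by omega)
    have hm6 := C.gb.mono (i := i) (j := i + 1) (by omega) (by omega)
    have hval := ih (fun h => ⟨(hA (by omega)).2, (hA (by omega)).1⟩)
      (fun h => ⟨(hB (by omega)).2, (hB (by omega)).1⟩) (by omega) (by omega) (by omega)
      (by
        rcases Nat.mod_two_eq_zero_or_one i with h | h
        · obtain ⟨rfl, rfl⟩ := hB (by omega); omega
        · obtain ⟨rfl, rfl⟩ := hA (by omega); omega)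
      (by
        rcases Nat.mod_two_eq_zero_or_one i with h | h
        · obtain ⟨rfl, rfl⟩ := hB (by omega); omega
        · obtain ⟨rfl, rfl⟩ := hA (by omega); omega) N' S' ⟨fun _ => by omega, fun _ => by omega⟩
    exact hval.step hd (by push_cast; omega)
  | N3b A B i j v h1 h2 h3 h4 ih =>
    intro hB hA hij hj hp hl hu N S hne
    obtain ⟨N', S', hd, hU⟩ : ∃ N' : NCM n, St M N' a b (i + 1 - 1) (j + 1) ∧ DistLe N N' 3 ∧
        U N' - U N ≤ -8 := by
      rcases Nat.mod_two_eq_zero_or_one i with h | h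
      · obtain ⟨rfl, rfl⟩ := hB (by omega)
        exact move_N3bB hn C (by omega) hij h1 hp (by omega) S (hne.1 (by omega)) hl hu h2 h3
      · obtain ⟨rfl, rfl⟩ := hA (by omega)
        exact move_N3bA hn C (by omega) hij h1 hp (by omega) S (hne.2 (by omega)) (by omega)
          (by omega) h2 h3
    rw [Nat.add_sub_cancel] at S'
    have hm1 := C.ga.mono (i := j) (j := j + 1) (by omega) (by omega)
    have hm2 := C.gb.mono (i := j) (j := j + 1) (by omega) (by omega)
    have hm3 := C.ga.mono hij hj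
    have hm4 := C.gb.mono hij hj
    have hm5 := C.ga.mono (i := i) (j := i + 1) (by omega) (by omega)
    have hm6 := C.gb.mono (i := i) (j := i + 1) (by omega) (by omega)
    have hval := ih (fun h => ⟨(hA (by omega)).2, (hA (by omega)).1⟩)
      (fun h => ⟨(hB (by omega)).2, (hB (by omega)).1⟩) (by omega) (by omega) (by omega)
      (by
        rcases Nat.mod_two_eq_zero_or_one i with h | h
        · obtain ⟨rfl, rfl⟩ := hB (by omega); omega
        · obtain ⟨rfl, rfl⟩ := hA (by omega); omega)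
      (by
        rcases Nat.mod_two_eq_zero_or_one i with h | h
        · obtain ⟨rfl, rfl⟩ := hB (by omega); omega
        · obtain ⟨rfl, rfl⟩ := hA (by omega); omega) N' S' ⟨fun _ => by omega, fun _ => by omega⟩
    exact hval.step hd (by push_cast; omega)

end Pool.Agent.Helper95.CF
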