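import Pool.Agent.Helper95.CFVal

/-!
MP_717b2e_co, upper bound: rotation and reversal of matchings.
-/

namespace Pool.Agent.Helper95.CF

open Finset

variable {n : ℕ}

/-- successor on the circle -/
def up (n y : ℕ) : ℕ := if y = 2 * n - 1 then 0 else y + 1

/-- predecessor on the circle -/
def dn (n x : ℕ) : ℕ := if x = 0 then 2 * n - 1 else x - 1

lemma up_lt {n y : ℕ} (h : y < 2 * n) : up n y < 2 * n := by unfold up; split_ifs <;> omega
lemma dn_lt {n y : ℕ} (h : y < 2 * n) : dn n y < 2 * n := by unfold dn; split_ifs <;> omega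
lemma dn_up {n y : ℕ} (h : y < 2 * n) : dn n (up n y) = y := by
  unfold dn up
  by_cases h1 : y = 2 * n - 1
  · rw [if_pos h1, if_pos rfl]; omega
  · rw [if_neg h1, if_neg (by omega)]; omega
lemma up_dn {n y : ℕ} (h : y < 2 * n) : up n (dn n y) = y := by
  unfold dn up
  by_cases h1 : y = 0
  · rw [if_pos h1, if_pos rfl]; omega
  · rw [if_neg h1, if_neg (by omega)]; omega

lemma rot_nc {f : ℕ → ℕ} (h : NC (2 * n) f) : NC (2 * n) (fun x => up n (f (dn n x))) where
  lt x hx := up_lt (h.lt _ (dn_lt hx))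
  inv x hx := by
    rw [dn_up (h.lt _ (dn_lt hx)), h.inv _ (dn_lt hx), up_dn hx]
  ne x hx he := by
    have h1 := h.ne _ (dn_lt hx)
    apply h1
    have := congrArg (dn n) he
    rwa [dn_up (h.lt _ (dn_lt hx))] at this
  nc x y hxy hy hx := by
    have hy2 : y < 2 * n := lt_of_lt_of_le hy (by have := up_lt (h.lt _ (dn_lt hx)); omega)
    have ey : dn n y = y - 1 := by unfold dn; rw [if_neg (by omega)]
    rw [ey]
    have e2 : f (y - 1) < 2 * n := h.lt _ (by omega)
    have e4 : f (y - 1) ≠ y - 1 := h.ne _ (by omega)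
    by_cases hx0 : x = 0
    · subst hx0
      have ex : dn n 0 = 2 * n - 1 := by unfold dn; rw [if_pos rfl]
      rw [ex] at hy ⊢
      have e1 : f (2 * n - 1) < 2 * n := h.lt _ (by omega)
      have e3 : f (2 * n - 1) ≠ 2 * n - 1 := h.ne _ (by omega)
      have e5 : f (f (2 * n - 1)) = 2 * n - 1 := h.inv _ (by omega)
      have e6 : f (f (y - 1)) = y - 1 := h.inv _ (by omega)
      have hup : up n (f (2 * n - 1)) = f (2 * n - 1) + 1 := by unfold up; rw [if_neg e3]
      rw [hup] at hy ⊢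
      have key : f (y - 1) < f (2 * n - 1) := by
        by_contra hc
        push Not at hc
        rcases Nat.lt_or_eq_of_le hc with h1 | h1
        · have := h.nc (y - 1) (f (2 * n - 1)) (by omega) h1 (by omega)
          rw [e5] at this
          omega
        · rw [← h1, e5] at e6
          omega
      unfold up
      split_ifs <;> omega
    · have ex : dn n x = x - 1 := by unfold dn; rw [if_neg hx0]
      rw [ex] at hy ⊢
      have e1 : f (x - 1) < 2 * n := h.lt _ (by omega)
      have hne : f (x - 1) ≠ 2 * n - 1 := by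
        intro he
        rw [he] at hy
        unfold up at hy
        rw [if_pos rfl] at hy
        omega
      have hup : up n (f (x - 1)) = f (x - 1) + 1 := by unfold up; rw [if_neg hne]
      rw [hup] at hy ⊢
      have := h.nc (x - 1) (y - 1) (by omega) (by omega) (by omega)
      unfold up
      split_ifs <;> omega

/-- rotation by one step -/
def rot (M : NCM n) : NCM n := ofNC n _ (rot_nc M.nc)

lemma rot_p (M : NCM n) {x : ℕ} (hx : x < 2 * n) : (rot M).p x = up n (M.p (dn n x)) := by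
  rw [rot, ofNC_p _ hx]

lemma rot_p_up (M : NCM n) {x : ℕ} (hx : x < 2 * n) : (rot M).p (up n x) = up n (M.p x) := by
  rw [rot_p M (up_lt hx), dn_up hx]

lemma rev_nc {f : ℕ → ℕ} (h : NC (2 * n) f) :
    NC (2 * n) (fun x => 2 * n - 1 - f (2 * n - 1 - x)) where
  lt x hx := by omega
  inv x hx := by
    have h1 := h.lt (2 * n - 1 - x) (by omega)
    have h2 := h.inv (2 * n - 1 - x) (by omega)
    have e : 2 * n - 1 - (2 * n - 1 - f (2 * n - 1 - x)) = f (2 * n - 1 - x) := by omega
    rw [e, h2]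
    omega
  ne x hx he := by
    have h1 := h.lt (2 * n - 1 - x) (by omega)
    have h2 := h.ne (2 * n - 1 - x) (by omega)
    omega
  nc x y hxy hy hx := by
    have h1 := h.lt (2 * n - 1 - x) (by omega)
    have h2 := h.inv (2 * n - 1 - x) (by omega)
    have h3 := h.lt (2 * n - 1 - y) (by omega)
    have h4 := h.inv (2 * n - 1 - y) (by omega)
    have h5 := h.nc (f (2 * n - 1 - x)) (2 * n - 1 - y) (by omega) (by rw [h2]; omega) h1
    rw [h2] at h5
    omega

/-- reversal -/
def rev (M : NCM n) : NCM n := ofNC n _ (rev_nc M.nc)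

lemma rev_p (M : NCM n) {x : ℕ} (hx : x < 2 * n) : (rev M).p x = 2 * n - 1 - M.p (2 * n - 1 - x) := by
  rw [rev, ofNC_p _ hx]

lemma rev_rev (M : NCM n) : rev (rev M) = M := by
  apply NCM.ext_p
  intro x hx
  rw [rev_p _ hx, rev_p _ (by omega)]
  have e : 2 * n - 1 - (2 * n - 1 - x) = x := by omega
  rw [e]
  have := M.p_lt hx
  omega

/-- data of an adjacency -/
lemma adj_elim {M N : NCM n} (h : (H n).Adj M N) : ∃ a b c d, a < b ∧ b < c ∧ c < d ∧ d < 2 * n ∧
    b ≤ a + n ∧ c ≤ b + n ∧ d ≤ c + n ∧ a + n ≤ d ∧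
    (∀ x, x < 2 * n → x ≠ a → x ≠ b → x ≠ c → x ≠ d → M.p x = N.p x) ∧
    ((M.p a = b ∧ M.p c = d ∧ N.p a = d ∧ N.p b = c) ∨
      (N.p a = b ∧ N.p c = d ∧ M.p a = d ∧ M.p b = c)) := by
  rw [H, SimpleGraph.fromRel_adj] at h
  obtain ⟨_, h | h⟩ := h
  · obtain ⟨p₀, p₁, p₂, p₃, D⟩ := h.data
    refine ⟨p₀.val, p₁.val, p₂.val, p₃.val, D.h01, D.h12, D.h23, p₃.isLt, ?_, ?_, ?_, ?_, ?_,
      Or.inl ⟨?_, ?_, ?_, ?_⟩⟩
    · have := D.g0; omega
    · have := D.g1; omega
    · have := D.g2; omega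
    · have := D.g3; have := D.h01; have := D.h12; have := D.h23; omega
    · intro x hx h0 h1 h2 h3
      have := D.eq ⟨x, hx⟩ (fun e => h0 (congrArg Fin.val e)) (fun e => h1 (congrArg Fin.val e))
        (fun e => h2 (congrArg Fin.val e)) (fun e => h3 (congrArg Fin.val e))
      rw [M.p_eq hx, N.p_eq hx, this]
    · rw [M.p_val, D.m0]
    · rw [M.p_val, D.m2]
    · rw [N.p_val, D.n0]
    · rw [N.p_val, D.n1]
  · obtain ⟨p₀, p₁, p₂, p₃, D⟩ := h.data
    refine ⟨p₀.val, p₁.val, p₂.val, p₃.val, D.h01, D.h12, D.h23, p₃.isLt, ?_, ?_, ?_, ?_, ?_,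
      Or.inr ⟨?_, ?_, ?_, ?_⟩⟩
    · have := D.g0; omega
    · have := D.g1; omega
    · have := D.g2; omega
    · have := D.g3; have := D.h01; have := D.h12; have := D.h23; omega
    · intro x hx h0 h1 h2 h3
      have := D.eq ⟨x, hx⟩ (fun e => h0 (congrArg Fin.val e)) (fun e => h1 (congrArg Fin.val e))
        (fun e => h2 (congrArg Fin.val e)) (fun e => h3 (congrArg Fin.val e))
      rw [M.p_eq hx, N.p_eq hx, this]
    · rw [N.p_val, D.m0]
    · rw [N.p_val, D.m2]
    · rw [M.p_val, D.n0]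
    · rw [M.p_val, D.n1]

/-- one half of the rotation invariance -/
lemma rot_adj_aux (hn : n % 2 = 1) {M N : NCM n} {a b c d : ℕ} (hab : a < b) (hbc : b < c)
    (hcd : c < d) (hd : d < 2 * n) (hMa : M.p a = b) (hMc : M.p c = d) (hNa : N.p a = d)
    (hNb : N.p b = c)
    (hag : ∀ x, x < 2 * n → x ≠ a → x ≠ b → x ≠ c → x ≠ d → M.p x = N.p x)
    (g1 : b ≤ a + n) (g2 : c ≤ b + n) (g3 : d ≤ c + n) (g4 : a + n ≤ d) :
    (H n).Adj (rot M) (rot N) := by
  have hMb := M.p_symm (by omega) hMa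
  have hMd := M.p_symm (by omega) hMc
  have hNc := N.p_symm (by omega) hNb
  have hNd := N.p_symm (by omega) hNa
  have ua : up n a = a + 1 := by unfold up; rw [if_neg (by omega)]
  have ub : up n b = b + 1 := by unfold up; rw [if_neg (by omega)]
  have uc : up n c = c + 1 := by unfold up; rw [if_neg (by omega)]
  have ag : ∀ x, x < 2 * n → x ≠ up n a → x ≠ up n b → x ≠ up n c → x ≠ up n d →
      (rot M).p x = (rot N).p x := by
    intro x hx h1 h2 h3 h4
    rw [rot_p M hx, rot_p N hx, hag _ (dn_lt hx)]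
    · intro he; apply h1; rw [← he, up_dn hx]
    · intro he; apply h2; rw [← he, up_dn hx]
    · intro he; apply h3; rw [← he, up_dn hx]
    · intro he; apply h4; rw [← he, up_dn hx]
  have ea := rot_p_up M (x := a) (by omega)
  have ec := rot_p_up M (x := c) (by omega)
  have ed := rot_p_up M (x := d) (by omega)
  have fa := rot_p_up N (x := a) (by omega)
  have fb := rot_p_up N (x := b) (by omega)
  have fd := rot_p_up N (x := d) (by omega)
  rw [hMa, ua, ub] at ea
  rw [hMc, uc] at ec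
  rw [hMd, uc] at ed
  rw [hNa, ua] at fa
  rw [hNb, ub, uc] at fb
  rw [hNd, ua] at fd
  by_cases hd' : d = 2 * n - 1
  · have ud : up n d = 0 := by unfold up; rw [if_pos hd']
    rw [ud] at ec ed fa fd ag
    rw [ua, ub, uc] at ag
    apply SimpleGraph.Adj.symm
    apply adj_of_four hn (a := 0) (b := a + 1) (c := b + 1) (d := c + 1) (by omega) (by omega)
      (by omega) (by omega) fd fb ed ea ?_ (by omega) (by omega) (by omega) (by omega)
    intro x hx h1 h2 h3 h4
    exact (ag x hx h2 h3 h4 h1).symm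
  · have ud : up n d = d + 1 := by unfold up; rw [if_neg hd']
    rw [ud] at ec ed fa fd ag
    rw [ua, ub, uc] at ag
    exact adj_of_four hn (a := a + 1) (b := b + 1) (c := c + 1) (d := d + 1) (by omega) (by omega)
      (by omega) (by omega) ea ec fa fb ag (by omega) (by omega) (by omega) (by omega)

lemma rot_adj (hn : n % 2 = 1) {M N : NCM n} (h : (H n).Adj M N) : (H n).Adj (rot M) (rot N) := by
  obtain ⟨a, b, c, d, h1, h2, h3, h4, g1, g2, g3, g4, hag, ⟨e1, e2, e3, e4⟩ | ⟨e1, e2, e3, e4⟩⟩ :=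
    adj_elim h
  · exact rot_adj_aux hn h1 h2 h3 h4 e1 e2 e3 e4 hag g1 g2 g3 g4
  · exact (rot_adj_aux hn h1 h2 h3 h4 e1 e2 e3 e4
      (fun x hx a b c d => (hag x hx a b c d).symm) g1 g2 g3 g4).symm

lemma rev_adj (hn : n % 2 = 1) {M N : NCM n} (h : (H n).Adj M N) : (H n).Adj (rev M) (rev N) := by
  have key : ∀ {M N : NCM n} {a b c d : ℕ}, a < b → b < c → c < d → d < 2 * n → M.p a = b →
      M.p c = d → N.p a = d → N.p b = c →
      (∀ x, x < 2 * n → x ≠ a → x ≠ b → x ≠ c → x ≠ d → M.p x = N.p x) →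
      b ≤ a + n → c ≤ b + n → d ≤ c + n → a + n ≤ d → (H n).Adj (rev M) (rev N) := by
    intro M N a b c d hab hbc hcd hd hMa hMc hNa hNb hag g1 g2 g3 g4
    have hMb := M.p_symm (by omega) hMa
    have hMd := M.p_symm (by omega) hMc
    have hNc := N.p_symm (by omega) hNb
    have hNd := N.p_symm (by omega) hNa
    have e : ∀ x, x < 2 * n → 2 * n - 1 - (2 * n - 1 - x) = x := by intro x hx; omega
    apply adj_of_four hn (a := 2 * n - 1 - d) (b := 2 * n - 1 - c) (c := 2 * n - 1 - b)
      (d := 2 * n - 1 - a) (by omega) (by omega) (by omega) (by omega)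
    · rw [rev_p _ (by omega), e d hd, hMd]
    · rw [rev_p _ (by omega), e b (by omega), hMb]
    · rw [rev_p _ (by omega), e d hd, hNd]
    · rw [rev_p _ (by omega), e c (by omega), hNc]
    · intro x hx h1 h2 h3 h4
      rw [rev_p _ hx, rev_p _ hx, hag _ (by omega)]
      all_goals omega
    · omega
    · omega
    · omega
    · omega
  obtain ⟨a, b, c, d, h1, h2, h3, h4, g1, g2, g3, g4, hag, ⟨e1, e2, e3, e4⟩ | ⟨e1, e2, e3, e4⟩⟩ :=
    adj_elim h
  · exact key h1 h2 h3 h4 e1 e2 e3 e4 hag g1 g2 g3 g4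
  · exact (key h1 h2 h3 h4 e1 e2 e3 e4
      (fun x hx a b c d => (hag x hx a b c d).symm) g1 g2 g3 g4).symm

/-- images of short walks under graph endomorphisms -/
lemma DistLe.map {M N : NCM n} {k : ℕ} (F : NCM n → NCM n)
    (hF : ∀ {A B : NCM n}, (H n).Adj A B → (H n).Adj (F A) (F B)) (h : DistLe M N k) :
    DistLe (F M) (F N) k := by
  obtain ⟨w, hw⟩ := h
  let F' : H n →g H n := ⟨F, fun h => hF h⟩
  exact ⟨w.map F', by rw [SimpleGraph.Walk.length_map]; exact hw⟩

lemma DistLe.rot (hn : n % 2 = 1) {M N : NCM n} {k : ℕ} (h : DistLe M N k) :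
    DistLe (rot M) (rot N) k := h.map _ (rot_adj hn)

lemma DistLe.rev (hn : n % 2 = 1) {M N : NCM n} {k : ℕ} (h : DistLe M N k) :
    DistLe (rev M) (rev N) k := h.map _ (rev_adj hn)

lemma DistLe.rotk (hn : n % 2 = 1) {M N : NCM n} {k : ℕ} (h : DistLe M N k) (t : ℕ) :
    DistLe (CF.rot^[t] M) (CF.rot^[t] N) k := by
  induction t with
  | zero => exact h
  | succ t ih =>
    rw [Function.iterate_succ_apply', Function.iterate_succ_apply']
    exact ih.rot hn

/-- iterated rotation, pointwise -/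
lemma rotk_p (M : NCM n) (t : ℕ) {x : ℕ} (hx : x < 2 * n) :
    (rot^[t] M).p ((x + t) % (2 * n)) = (M.p x + t) % (2 * n) := by
  induction t with
  | zero =>
    rw [Function.iterate_zero, id_eq, Nat.add_zero, Nat.add_zero, Nat.mod_eq_of_lt hx,
      Nat.mod_eq_of_lt (M.p_lt hx)]
  | succ t ih =>
    have e : ∀ y, up n ((y + t) % (2 * n)) = (y + (t + 1)) % (2 * n) := by
      intro y
      have hpos : 0 < 2 * n := by omega
      have h1 : (y + (t + 1)) % (2 * n) = ((y + t) % (2 * n) + 1) % (2 * n) := by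
        rw [← Nat.add_assoc, Nat.add_mod]
        conv_rhs => rw [Nat.add_mod, Nat.mod_mod]
      rw [h1]
      have h2 := Nat.mod_lt (y + t) hpos
      generalize (y + t) % (2 * n) = z at h2 ⊢
      unfold up
      split_ifs with h
      · rw [h]
        have : 2 * n - 1 + 1 = 2 * n := by omega
        rw [this, Nat.mod_self]
      · rw [Nat.mod_eq_of_lt]
        omega
    rw [Function.iterate_succ_apply', ← e, rot_p_up _ (Nat.mod_lt _ (by omega)), ih, e]

end Pool.Agent.Helper95.CF
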