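import Pool.Agent.Helper95.CFRot

/-!
MP_717b2e_co, upper bound: sheets. A matching aligned at the line through `0` and `n` consists of
the needle `0, n` and two sheets, non-crossing matchings of `n - 1` points.
-/

namespace Pool.Agent.Helper95.CF

/-- `f` is a non-crossing perfect matching of the interval `lo, ..., hi - 1` -/
structure NCI (lo hi : ℕ) (f : ℕ → ℕ) : Prop where
  mem : ∀ x, lo ≤ x → x < hi → lo ≤ f x ∧ f x < hi
  inv : ∀ x, lo ≤ x → x < hi → f (f x) = x
  ne : ∀ x, lo ≤ x → x < hi → f x ≠ x
  nc : ∀ x y, lo ≤ x → x < y → y < f x → x < hi → x < f y ∧ f y < f x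

/-- remove the first two points `lo`, `lo + 1` and join their partners -/
def front (lo : ℕ) (f : ℕ → ℕ) : ℕ → ℕ := fun x =>
  if x = f lo then f (lo + 1) else if x = f (lo + 1) then f lo else f x

/-- remove the last two points `hi - 1`, `hi - 2` and join their partners -/
def back (hi : ℕ) (f : ℕ → ℕ) : ℕ → ℕ := fun x =>
  if x = f (hi - 1) then f (hi - 2) else if x = f (hi - 2) then f (hi - 1) else f x

/-- `f` on `lo, ..., c` and `g` on `c - 1, ..., hi - 1` combined: the partner of `c` under `f` is
joined to the partner of `c - 1` under `g` -/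
def comb (c : ℕ) (f g : ℕ → ℕ) : ℕ → ℕ := fun x =>
  if x < c then (if f x = c then g (c - 1) else f x) else (if g x = c - 1 then f c else g x)

/-- number of opening points at even positions -/
def cost (lo hi : ℕ) (f : ℕ → ℕ) : ℕ := ((Finset.Ico lo hi).filter fun x => x % 2 = 0 ∧ x < f x).card

/-- translate a sheet down by 2 -/
def shift2 (f : ℕ → ℕ) : ℕ → ℕ := fun x => f (x + 2) - 2

/-- the needle `0, n` with the sheets `f` (points `1..n-1`) and `g` (points `n+1..2n-1`, given by
its translate to `1..n-1`) -/
def gl (n : ℕ) (f g : ℕ → ℕ) : ℕ → ℕ := fun x =>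
  if x = 0 then n else if x = n then 0 else if x < n then f x else g (x - n) + n

end Pool.Agent.Helper95.CF
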