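import Pool.Agent.Helper95.CFSheetDefs

/-!
MP_717b2e_co, upper bound: the data of one side of the step of the sweep.
-/

namespace Pool.Agent.Helper95.CF

/-- One side of a step. `r`: removal, `t`: attachment (not entangled), `e`: entangled. -/
structure Side (n : ℕ) (f f' : ℕ → ℕ) (r t e : Bool) (w' w y z : ℕ) : Prop where
  r1 : r = true → 2 < w' ∧ w' < w
  r0 : r = false → w' = 2 ∧ w = 2
  t1 : t = true → w < y ∧ y < z
  t0 : t = false → y = w ∧ z = w
  zn : z < n
  er : e = true → r = true ∧ t = false
  c1 : ∀ x, 2 < x → x < w' → 2 < f x ∧ f x < w'
  c2 : ∀ x, w' < x → x < w → w' < f x ∧ f x < w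
  c3 : ∀ x, w < x → x < y → w < f x ∧ f x < y
  c4 : ∀ x, y < x → x < z → y < f x ∧ f x < z
  c5 : ∀ x, z < x → x < n → z < f x ∧ f x < n
  ag : ∀ x, 3 ≤ x → x < n → x ≠ w' → x ≠ w → x ≠ y → x ≠ z → f x = f' x
  f1 : r = true → f 1 = w ∧ f 2 = w' ∧ f w = 1 ∧ f w' = 2
  f0 : r = false → f 1 = 2 ∧ f 2 = 1
  g1 : t = true → f y = z ∧ f z = y
  p1 : r = true → e = false → f' w' = w ∧ f' w = w'
  q1 : t = true → f' n = z ∧ f' (n + 1) = y ∧ f' z = n ∧ f' y = n + 1
  q0 : t = false → e = false → f' n = n + 1 ∧ f' (n + 1) = n
  e1 : e = true → f' w = n ∧ f' n = w ∧ f' w' = n + 1 ∧ f' (n + 1) = w'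

/-- existence of the side data -/
theorem side_exists {n : ℕ} {f f' : ℕ → ℕ} (h3 : 3 ≤ n) (hf : NCI 1 n f)
    (hf' : NCI 3 (n + 2) f')
    (hc : ∀ x, 3 ≤ x → x < n → front 1 f x = back (n + 2) f' x)
    (hcut : f 1 ≠ 2 → f' (n + 1) ≠ n → f 2 < f' n) :
    ∃ (r t e : Bool) (w' w y z : ℕ), Side n f f' r t e w' w y z ∧
      (if f 1 = 2 then 0 else 1) = (bif r then 1 else 0) ∧
      (if f' (n + 1) = n then 0 else 1) = (bif (t || e) then 1 else 0) := by
  have a1 := hf.mem 1 le_rfl (by omega)
  have a2 := hf.mem 2 (by omega) (by omega)
  have b1 := hf.inv 1 le_rfl (by omega)
  have b2 := hf.inv 2 (by omega) (by omega)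
  have d1 := hf.ne 1 le_rfl (by omega)
  have d2 := hf.ne 2 (by omega) (by omega)
  have a1' := hf'.mem n (by omega) (by omega)
  have a2' := hf'.mem (n + 1) (by omega) (by omega)
  have b1' := hf'.inv n (by omega) (by omega)
  have b2' := hf'.inv (n + 1) (by omega) (by omega)
  have d1' := hf'.ne n (by omega) (by omega)
  have d2' := hf'.ne (n + 1) (by omega) (by omega)
  -- the equation on the common points
  have hc' : ∀ x, 3 ≤ x → x < n →
      (if x = f 1 then f 2 else if x = f 2 then f 1 else f x) =
      (if x = f' (n + 1) then f' n else if x = f' n then f' (n + 1) else f' x) := hc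
  by_cases hr : f 1 = 2
  · have hf2 : f 2 = 1 := by rw [← hr, b1]
    by_cases ht : f' (n + 1) = n
    · -- no event
      have hfn : f' n = n + 1 := by have := b2'; rw [ht] at this; exact this
      have ag : ∀ x, 3 ≤ x → x < n → f x = f' x := by
        intro x h1 h2
        have := hc' x h1 h2
        rw [if_neg (by omega), if_neg (by omega), if_neg (by omega), if_neg (by omega)] at this
        exact this
      refine ⟨false, false, false, 2, 2, 2, 2, ⟨by simp, by simp, by simp, by simp, by omega,
        by simp, by omega, by omega, by omega, by omega, ?_, fun x h1 h2 _ _ _ _ => ag x h1 h2,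
        by simp, fun _ => ⟨hr, hf2⟩, by simp, by simp, by simp, fun _ _ => ⟨hfn, ht⟩, by simp⟩,
        by simp [hr], by simp [ht]⟩
      intro x h1 h2
      have h4 := hf.mem x (by omega) h2
      have h5 := hf.inv x (by omega) h2
      refine ⟨?_, h4.2⟩
      by_contra h6
      have h7 : f x = 1 ∨ f x = 2 := by omega
      rcases h7 with h7 | h7
      · rw [h7] at h5; omega
      · rw [h7] at h5; omega
    · -- attachment
      set y := f' (n + 1) with hy
      set z := f' n with hz
      have hyz : y < z := by
        by_contra h
        have hne : y ≠ z := by intro h'; rw [← h'] at b1'; omega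
        have := hf'.nc z y (by omega) (by omega) (by rw [b1']; omega) (by omega)
        omega
      have hzn : z < n := by
        by_contra h
        have : z = n + 1 := by omega
        rw [this] at b1'
        omega
      have ag : ∀ x, 3 ≤ x → x < n → x ≠ y → x ≠ z → f x = f' x := by
        intro x h1 h2 h4 h5
        have := hc' x h1 h2
        rw [if_neg (by omega), if_neg (by omega), if_neg h4, if_neg h5] at this
        exact this
      have fy : f y = z := by
        have := hc' y (by omega) (by omega)
        rw [if_neg (by omega), if_neg (by omega), if_pos rfl] at this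
        exact this
      have fz : f z = y := by
        have := hc' z (by omega) (by omega)
        rw [if_neg (by omega), if_neg (by omega), if_neg (by omega), if_pos rfl] at this
        exact this
      refine ⟨false, true, false, 2, 2, y, z, ⟨by simp, by simp, fun _ => ⟨by omega, hyz⟩, by simp,
        hzn, by simp, by omega, by omega, ?_, ?_, ?_, fun x h1 h2 _ _ h4 h5 => ag x h1 h2 h4 h5,
        by simp, fun _ => ⟨hr, hf2⟩, fun _ => ⟨fy, fz⟩, by simp, fun _ => ⟨rfl, rfl, b1', b2'⟩,
        by simp, by simp⟩, by simp [hr], by simp [ht]⟩
      · intro x h1 h2
        rw [ag x (by omega) (by omega) (by omega) (by omega)]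
        have h4 := hf'.mem x (by omega) (by omega)
        have h5 := hf'.inv x (by omega) (by omega)
        refine ⟨by omega, ?_⟩
        by_contra h6
        have h7 : f' x ≠ y := by intro h; rw [h] at h5; omega
        have h8 : f' x ≠ n + 1 := by intro h; rw [h] at h5; omega
        have := hf'.nc x y (by omega) h2 (by omega) (by omega)
        omega
      · intro x h1 h2
        have := hf.nc y x (by omega) h1 (by omega) (by omega)
        omega
      · intro x h1 h2
        rw [ag x (by omega) (by omega) (by omega) (by omega)]
        have := hf'.nc z x (by omega) h1 (by omega) (by omega)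
        omega
  · -- removal
    set w := f 1 with hw
    set w' := f 2 with hw'
    have hw2 : 2 < w := by omega
    have hww := hf.nc 1 2 le_rfl (by omega) (by omega) (by omega)
    have hw'2 : 2 < w' := by
      by_contra h
      omega
    by_cases ht : f' (n + 1) = n
    · -- no attachment
      have hfn : f' n = n + 1 := by have := b2'; rw [ht] at this; exact this
      have ag : ∀ x, 3 ≤ x → x < n → x ≠ w' → x ≠ w → f x = f' x := by
        intro x h1 h2 h4 h5
        have := hc' x h1 h2
        rw [if_neg h5, if_neg h4, if_neg (by omega), if_neg (by omega)] at this
        exact this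
      have fw : f' w = w' := by
        have := hc' w (by omega) (by omega)
        rw [if_pos rfl, if_neg (by omega), if_neg (by omega)] at this
        exact this.symm
      have fw' : f' w' = w := by
        have := hc' w' (by omega) (by omega)
        rw [if_neg (by omega), if_pos rfl, if_neg (by omega), if_neg (by omega)] at this
        exact this.symm
      refine ⟨true, false, false, w', w, w, w, ⟨fun _ => ⟨hw'2, by omega⟩, by simp, by simp,
        by simp, by omega, by simp, ?_, ?_, by omega, by omega, ?_,
        fun x h1 h2 h4 h5 _ _ => ag x h1 h2 h4 h5, fun _ => ⟨rfl, rfl, b1, b2⟩, by simp, by simp,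
        fun _ _ => ⟨fw', fw⟩, by simp, fun _ _ => ⟨hfn, ht⟩, by simp⟩, by simp [hr], by simp [ht]⟩
      · intro x h1 h2
        have := hf.nc 2 x (by omega) h1 (by omega) (by omega)
        omega
      · intro x h1 h2
        rw [ag x (by omega) (by omega) (by omega) (by omega)]
        have := hf'.nc w' x (by omega) h1 (by omega) (by omega)
        omega
      · intro x h1 h2
        have h4 := hf.mem x (by omega) (by omega)
        have h5 := hf.inv x (by omega) (by omega)
        refine ⟨?_, h4.2⟩
        by_contra h6
        have h7 : f x ≠ w := by intro h; rw [h] at h5; omega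
        have h8 : f x ≠ 1 := by intro h; rw [h] at h5; omega
        have := hf.nc 1 (f x) le_rfl (by omega) (by omega) (by omega)
        omega
    · -- both events
      have hcut' := hcut hr ht
      set y := f' (n + 1) with hy
      set z := f' n with hz
      have hyz : y < z := by
        by_contra h
        have hne : y ≠ z := by intro h'; rw [← h'] at b1'; omega
        have := hf'.nc z y (by omega) (by omega) (by rw [b1']; omega) (by omega)
        omega
      have hzn : z < n := by
        by_contra h
        have : z = n + 1 := by omega
        rw [this] at b1'
        omega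
      by_cases hwz : w = z
      · -- entangled
        have hw'y : w' = y := by
          have := hc' w (by omega) (by omega)
          rw [if_pos rfl, if_neg (by omega), if_pos hwz] at this
          exact this
        have ag : ∀ x, 3 ≤ x → x < n → x ≠ w' → x ≠ w → f x = f' x := by
          intro x h1 h2 h4 h5
          have := hc' x h1 h2
          rw [if_neg h5, if_neg h4, if_neg (by omega), if_neg (by omega)] at this
          exact this
        refine ⟨true, false, true, w', w, w, w, ⟨fun _ => ⟨hw'2, by omega⟩, by simp, by simp,
          by simp, by omega, by simp, ?_, ?_, by omega, by omega, ?_,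
          fun x h1 h2 h4 h5 _ _ => ag x h1 h2 h4 h5, fun _ => ⟨rfl, rfl, b1, b2⟩, by simp, by simp,
          by simp, by simp, by simp, fun _ => ⟨by rw [hwz, b1'], hwz.symm, by rw [hw'y, b2'],
            hw'y.symm⟩⟩, by simp [hr], by simp [ht]⟩
        · intro x h1 h2
          have := hf.nc 2 x (by omega) h1 (by omega) (by omega)
          omega
        · intro x h1 h2
          have h4 := hf.nc 1 x le_rfl (by omega) (by omega) (by omega)
          have h5 := hf.inv x (by omega) (by omega)
          refine ⟨?_, by omega⟩
          by_contra h6
          have h7 : f x ≠ w' := by intro h; rw [h] at h5; omega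
          have h8 : f x ≠ 2 := by intro h; rw [h] at h5; omega
          have := hf.nc 2 (f x) (by omega) (by omega) (by omega) (by omega)
          omega
        · intro x h1 h2
          have h4 := hf.mem x (by omega) (by omega)
          have h5 := hf.inv x (by omega) (by omega)
          refine ⟨?_, h4.2⟩
          by_contra h6
          have h7 : f x ≠ w := by intro h; rw [h] at h5; omega
          have h8 : f x ≠ 1 := by intro h; rw [h] at h5; omega
          have := hf.nc 1 (f x) le_rfl (by omega) (by omega) (by omega)
          omega
      · -- not entangled
        have hwy : w ≠ y := by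
          intro h
          have := hc' w (by omega) (by omega)
          rw [if_pos rfl, if_pos h] at this
          omega
        have hw'y : w' ≠ y := by
          intro h
          have := hc' w' (by omega) (by omega)
          rw [if_neg (by omega), if_pos rfl, if_pos h] at this
          omega
        have hw'z : w' ≠ z := by omega
        have ag : ∀ x, 3 ≤ x → x < n → x ≠ w' → x ≠ w → x ≠ y → x ≠ z → f x = f' x := by
          intro x h1 h2 h4 h5 h6 h7
          have := hc' x h1 h2
          rw [if_neg h5, if_neg h4, if_neg h6, if_neg h7] at this
          exact this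
        have fw : f' w = w' := by
          have := hc' w (by omega) (by omega)
          rw [if_pos rfl, if_neg hwy, if_neg hwz] at this
          exact this.symm
        have fw' : f' w' = w := by
          have := hc' w' (by omega) (by omega)
          rw [if_neg (by omega), if_pos rfl, if_neg hw'y, if_neg hw'z] at this
          exact this.symm
        have fy : f y = z := by
          have := hc' y (by omega) (by omega)
          rw [if_neg (Ne.symm hwy), if_neg (Ne.symm hw'y), if_pos rfl] at this
          exact this
        have fz : f z = y := by
          have := hc' z (by omega) (by omega)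
          rw [if_neg (Ne.symm hwz), if_neg (Ne.symm hw'z), if_neg (by omega), if_pos rfl] at this
          exact this
        -- `w < y`
        have hlt : w < y := by
          by_contra h
          -- `y < w`
          have h1 : y < w := by omega
          -- in `f` : chord `(1, w)` contains `y`, so contains `z`
          have h2 := hf.nc 1 y le_rfl (by omega) (by omega) (by omega)
          rw [fy] at h2
          -- in `f'` : chord `(y, n+1)` and `(z, n)`; `w' < z < w` contradicts `(w', w)` in `f'`
          have h4 := hf'.nc w' z (by omega) (by omega) (by omega) (by omega)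
          omega
        refine ⟨true, true, false, w', w, y, z, ⟨fun _ => ⟨hw'2, by omega⟩, by simp,
          fun _ => ⟨hlt, hyz⟩,
          by simp, by omega, by simp, ?_, ?_, ?_, ?_, ?_,
          ag, fun _ => ⟨rfl, rfl, b1, b2⟩, by simp, fun _ => ⟨fy, fz⟩,
          fun _ _ => ⟨fw', fw⟩, fun _ => ⟨rfl, rfl, b1', b2'⟩, by simp, by simp⟩,
          by simp [hr], by simp [ht]⟩
        · intro x h1 h2
          have := hf.nc 2 x (by omega) h1 (by omega) (by omega)
          omega
        · intro x h1 h2
          rw [ag x (by omega) (by omega) (by omega) (by omega) (by omega) (by omega)]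
          have := hf'.nc w' x (by omega) h1 (by omega) (by omega)
          omega
        · intro x h1 h2
          have e1 := ag x (by omega) (by omega) (by omega) (by omega) (by omega) (by omega)
          have h4 := hf.mem x (by omega) (by omega)
          have h5 := hf.inv x (by omega) (by omega)
          constructor
          · by_contra h6
            have h7 : f x ≠ w := by intro h; rw [h] at h5; omega
            have h8 : f x ≠ 1 := by intro h; rw [h] at h5; omega
            have := hf.nc 1 (f x) le_rfl (by omega) (by omega) (by omega)
            omega
          · rw [e1]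
            have h5' := hf'.inv x (by omega) (by omega)
            by_contra h6
            have h7 : f' x ≠ y := by intro h; rw [h] at h5'; omega
            have h8 : f' x ≠ n + 1 := by intro h; rw [h] at h5'; omega
            have := hf'.nc x y (by omega) h2 (by omega) (by omega)
            omega
        · intro x h1 h2
          have := hf.nc y x (by omega) h1 (by omega) (by omega)
          omega
        · intro x h1 h2
          rw [ag x (by omega) (by omega) (by omega) (by omega) (by omega) (by omega)]
          have := hf'.nc z x (by omega) h1 (by omega) (by omega)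
          omega

end Pool.Agent.Helper95.CF
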