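import Pool.Agent.Helper95.CFBasic

/-!
MP_717b2e_co, upper bound: the table of flips of the step lemma (generated).
Slots: 0, 1, 2, w', w, y, z, n, n+1, n+2, v', v, y', z'.
-/

namespace Pool.Agent.Helper95.CF

set_option maxRecDepth 20000

lemma cls_000000 {n : ℕ} (hn : n % 2 = 1) {P : Fin 14 → ℕ} {f : ℕ → ℕ}
    (B : Bg n 14 P ![true,true,true,false,false,false,false,true,true,true,false,false,false,false] f)
    (q0 : P 0 = 0) (q1 : P 1 = 1) (q2 : P 2 = 2) (q7 : P 7 = n) (q8 : P 8 = n + 1)
    (q9 : P 9 = n + 2)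
    (S0 : Sym 14 ![true,true,true,false,false,false,false,true,true,true,false,false,false,false] ![7,2,1,2,1,6,5,0,9,8,9,8,13,12])
    (S1 : Sym 14 ![true,true,true,false,false,false,false,true,true,true,false,false,false,false] ![1,0,9,4,3,8,7,8,7,2,11,10,1,0]) :
    DistLe (ins B S0) (ins B S1) 2 := by
  have m2 : P 2 < P 7 := B.mono 2 7 rfl rfl (by decide)
  have ml : P 9 < 2 * n := B.lt 9 rfl
  have T1 : Sym 14 ![true,true,true,false,false,false,false,true,true,true,false,false,false,false] ![1,0,7,3,4,5,6,2,9,8,10,11,12,13] := by constructor <;> decide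
  have j0 : (H n).Adj (ins B T1) (ins B S0) :=
    ins_adj hn B T1 S0 (a := 0) (b := 1) (c := 2) (d := 7)
      ⟨rfl, rfl, rfl, rfl, by decide, by decide, by decide, rfl, rfl, rfl, rfl, by decide⟩
      (by omega) (by omega) (by omega) (by omega)
  have j1 : (H n).Adj (ins B T1) (ins B S1) :=
    ins_adj hn B T1 S1 (a := 2) (b := 7) (c := 8) (d := 9)
      ⟨rfl, rfl, rfl, rfl, by decide, by decide, by decide, rfl, rfl, rfl, rfl, by decide⟩
      (by omega) (by omega) (by omega) (by omega)
  exact (DistLe.step j0.symm (DistLe.of_adj j1))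

lemma cls_000010 {n : ℕ} (hn : n % 2 = 1) {P : Fin 14 → ℕ} {f : ℕ → ℕ}
    (B : Bg n 14 P ![true,true,true,false,false,false,false,true,true,true,false,false,true,true] f)
    (q0 : P 0 = 0) (q1 : P 1 = 1) (q2 : P 2 = 2) (q7 : P 7 = n) (q8 : P 8 = n + 1)
    (q9 : P 9 = n + 2)
    (S0 : Sym 14 ![true,true,true,false,false,false,false,true,true,true,false,false,true,true] ![7,2,1,2,1,6,5,0,9,8,9,8,13,12])
    (S1 : Sym 14 ![true,true,true,false,false,false,false,true,true,true,false,false,true,true] ![13,12,9,4,3,8,7,8,7,2,11,10,1,0]) :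
    DistLe (ins B S0) (ins B S1) 3 := by
  have m2 : P 2 < P 7 := B.mono 2 7 rfl rfl (by decide)
  have m9 : P 9 < P 12 := B.mono 9 12 rfl rfl (by decide)
  have m12 : P 12 < P 13 := B.mono 12 13 rfl rfl (by decide)
  have ml : P 13 < 2 * n := B.lt 13 rfl
  have T1 : Sym 14 ![true,true,true,false,false,false,false,true,true,true,false,false,true,true] ![13,2,1,3,4,5,6,12,9,8,10,11,7,0] := by constructor <;> decide
  have T2 : Sym 14 ![true,true,true,false,false,false,false,true,true,true,false,false,true,true] ![13,12,7,3,4,5,6,2,9,8,10,11,1,0] := by constructor <;> decide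
  have j0 : (H n).Adj (ins B S0) (ins B T1) :=
    ins_adj hn B S0 T1 (a := 0) (b := 7) (c := 12) (d := 13)
      ⟨rfl, rfl, rfl, rfl, by decide, by decide, by decide, rfl, rfl, rfl, rfl, by decide⟩
      (by omega) (by omega) (by omega) (by omega)
  have j1 : (H n).Adj (ins B T1) (ins B T2) :=
    ins_adj hn B T1 T2 (a := 1) (b := 2) (c := 7) (d := 12)
      ⟨rfl, rfl, rfl, rfl, by decide, by decide, by decide, rfl, rfl, rfl, rfl, by decide⟩
      (by omega) (by omega) (by omega) (by omega)
  have j2 : (H n).Adj (ins B T2) (ins B S1) :=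
    ins_adj hn B T2 S1 (a := 2) (b := 7) (c := 8) (d := 9)
      ⟨rfl, rfl, rfl, rfl, by decide, by decide, by decide, rfl, rfl, rfl, rfl, by decide⟩
      (by omega) (by omega) (by omega) (by omega)
  exact (DistLe.step j0 (DistLe.step j1 (DistLe.of_adj j2)))

lemma cls_000100 {n : ℕ} (hn : n % 2 = 1) {P : Fin 14 → ℕ} {f : ℕ → ℕ}
    (B : Bg n 14 P ![true,true,true,false,false,false,false,true,true,true,true,true,false,false] f)
    (q0 : P 0 = 0) (q1 : P 1 = 1) (q2 : P 2 = 2) (q7 : P 7 = n) (q8 : P 8 = n + 1)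
    (q9 : P 9 = n + 2)
    (S0 : Sym 14 ![true,true,true,false,false,false,false,true,true,true,true,true,false,false] ![7,2,1,2,1,6,5,0,11,10,9,8,13,12])
    (S1 : Sym 14 ![true,true,true,false,false,false,false,true,true,true,true,true,false,false] ![1,0,9,4,3,8,7,8,7,2,11,10,1,0]) :
    DistLe (ins B S0) (ins B S1) 3 := by
  have m2 : P 2 < P 7 := B.mono 2 7 rfl rfl (by decide)
  have m9 : P 9 < P 10 := B.mono 9 10 rfl rfl (by decide)
  have m10 : P 10 < P 11 := B.mono 10 11 rfl rfl (by decide)
  have ml : P 11 < 2 * n := B.lt 11 rfl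
  have T1 : Sym 14 ![true,true,true,false,false,false,false,true,true,true,true,true,false,false] ![1,0,7,3,4,5,6,2,11,10,9,8,12,13] := by constructor <;> decide
  have T2 : Sym 14 ![true,true,true,false,false,false,false,true,true,true,true,true,false,false] ![1,0,11,3,4,5,6,8,7,10,9,2,12,13] := by constructor <;> decide
  have j0 : (H n).Adj (ins B T1) (ins B S0) :=
    ins_adj hn B T1 S0 (a := 0) (b := 1) (c := 2) (d := 7)
      ⟨rfl, rfl, rfl, rfl, by decide, by decide, by decide, rfl, rfl, rfl, rfl, by decide⟩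
      (by omega) (by omega) (by omega) (by omega)
  have j1 : (H n).Adj (ins B T1) (ins B T2) :=
    ins_adj hn B T1 T2 (a := 2) (b := 7) (c := 8) (d := 11)
      ⟨rfl, rfl, rfl, rfl, by decide, by decide, by decide, rfl, rfl, rfl, rfl, by decide⟩
      (by omega) (by omega) (by omega) (by omega)
  have j2 : (H n).Adj (ins B S1) (ins B T2) :=
    ins_adj hn B S1 T2 (a := 2) (b := 9) (c := 10) (d := 11)
      ⟨rfl, rfl, rfl, rfl, by decide, by decide, by decide, rfl, rfl, rfl, rfl, by decide⟩
      (by omega) (by omega) (by omega) (by omega)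
  exact (DistLe.step j0.symm (DistLe.step j1 (DistLe.of_adj j2.symm)))

lemma cls_000110 {n : ℕ} (hn : n % 2 = 1) {P : Fin 14 → ℕ} {f : ℕ → ℕ}
    (B : Bg n 14 P ![true,true,true,false,false,false,false,true,true,true,true,true,true,true] f)
    (q0 : P 0 = 0) (q1 : P 1 = 1) (q2 : P 2 = 2) (q7 : P 7 = n) (q8 : P 8 = n + 1)
    (q9 : P 9 = n + 2)
    (S0 : Sym 14 ![true,true,true,false,false,false,false,true,true,true,true,true,true,true] ![7,2,1,2,1,6,5,0,11,10,9,8,13,12])
    (S1 : Sym 14 ![true,true,true,false,false,false,false,true,true,true,true,true,true,true] ![13,12,9,4,3,8,7,8,7,2,11,10,1,0]) :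
    DistLe (ins B S0) (ins B S1) 4 := by
  have m2 : P 2 < P 7 := B.mono 2 7 rfl rfl (by decide)
  have m9 : P 9 < P 10 := B.mono 9 10 rfl rfl (by decide)
  have m10 : P 10 < P 11 := B.mono 10 11 rfl rfl (by decide)
  have m11 : P 11 < P 12 := B.mono 11 12 rfl rfl (by decide)
  have m12 : P 12 < P 13 := B.mono 12 13 rfl rfl (by decide)
  have ml : P 13 < 2 * n := B.lt 13 rfl
  have T1 : Sym 14 ![true,true,true,false,false,false,false,true,true,true,true,true,true,true] ![13,2,1,3,4,5,6,12,11,10,9,8,7,0] := by constructor <;> decide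
  have T2 : Sym 14 ![true,true,true,false,false,false,false,true,true,true,true,true,true,true] ![13,12,7,3,4,5,6,2,11,10,9,8,1,0] := by constructor <;> decide
  have T3 : Sym 14 ![true,true,true,false,false,false,false,true,true,true,true,true,true,true] ![13,12,11,3,4,5,6,8,7,10,9,2,1,0] := by constructor <;> decide
  have j0 : (H n).Adj (ins B S0) (ins B T1) :=
    ins_adj hn B S0 T1 (a := 0) (b := 7) (c := 12) (d := 13)
      ⟨rfl, rfl, rfl, rfl, by decide, by decide, by decide, rfl, rfl, rfl, rfl, by decide⟩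
      (by omega) (by omega) (by omega) (by omega)
  have j1 : (H n).Adj (ins B T1) (ins B T2) :=
    ins_adj hn B T1 T2 (a := 1) (b := 2) (c := 7) (d := 12)
      ⟨rfl, rfl, rfl, rfl, by decide, by decide, by decide, rfl, rfl, rfl, rfl, by decide⟩
      (by omega) (by omega) (by omega) (by omega)
  have j2 : (H n).Adj (ins B T2) (ins B T3) :=
    ins_adj hn B T2 T3 (a := 2) (b := 7) (c := 8) (d := 11)
      ⟨rfl, rfl, rfl, rfl, by decide, by decide, by decide, rfl, rfl, rfl, rfl, by decide⟩
      (by omega) (by omega) (by omega) (by omega)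
  have j3 : (H n).Adj (ins B S1) (ins B T3) :=
    ins_adj hn B S1 T3 (a := 2) (b := 9) (c := 10) (d := 11)
      ⟨rfl, rfl, rfl, rfl, by decide, by decide, by decide, rfl, rfl, rfl, rfl, by decide⟩
      (by omega) (by omega) (by omega) (by omega)
  exact (DistLe.step j0 (DistLe.step j1 (DistLe.step j2 (DistLe.of_adj j3.symm))))

lemma cls_010000 {n : ℕ} (hn : n % 2 = 1) {P : Fin 14 → ℕ} {f : ℕ → ℕ}
    (B : Bg n 14 P ![true,true,true,false,false,true,true,true,true,true,false,false,false,false] f)
    (q0 : P 0 = 0) (q1 : P 1 = 1) (q2 : P 2 = 2) (q7 : P 7 = n) (q8 : P 8 = n + 1)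
    (q9 : P 9 = n + 2)
    (S0 : Sym 14 ![true,true,true,false,false,true,true,true,true,true,false,false,false,false] ![7,2,1,2,1,6,5,0,9,8,9,8,13,12])
    (S1 : Sym 14 ![true,true,true,false,false,true,true,true,true,true,false,false,false,false] ![1,0,9,4,3,8,7,6,5,2,11,10,1,0]) :
    DistLe (ins B S0) (ins B S1) 3 := by
  have m2 : P 2 < P 5 := B.mono 2 5 rfl rfl (by decide)
  have m5 : P 5 < P 6 := B.mono 5 6 rfl rfl (by decide)
  have m6 : P 6 < P 7 := B.mono 6 7 rfl rfl (by decide)
  have ml : P 9 < 2 * n := B.lt 9 rfl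
  have T1 : Sym 14 ![true,true,true,false,false,true,true,true,true,true,false,false,false,false] ![5,2,1,3,4,0,7,6,9,8,10,11,12,13] := by constructor <;> decide
  have T2 : Sym 14 ![true,true,true,false,false,true,true,true,true,true,false,false,false,false] ![9,2,1,3,4,8,7,6,5,0,10,11,12,13] := by constructor <;> decide
  have j0 : (H n).Adj (ins B T1) (ins B S0) :=
    ins_adj hn B T1 S0 (a := 0) (b := 5) (c := 6) (d := 7)
      ⟨rfl, rfl, rfl, rfl, by decide, by decide, by decide, rfl, rfl, rfl, rfl, by decide⟩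
      (by omega) (by omega) (by omega) (by omega)
  have j1 : (H n).Adj (ins B T1) (ins B T2) :=
    ins_adj hn B T1 T2 (a := 0) (b := 5) (c := 8) (d := 9)
      ⟨rfl, rfl, rfl, rfl, by decide, by decide, by decide, rfl, rfl, rfl, rfl, by decide⟩
      (by omega) (by omega) (by omega) (by omega)
  have j2 : (H n).Adj (ins B S1) (ins B T2) :=
    ins_adj hn B S1 T2 (a := 0) (b := 1) (c := 2) (d := 9)
      ⟨rfl, rfl, rfl, rfl, by decide, by decide, by decide, rfl, rfl, rfl, rfl, by decide⟩
      (by omega) (by omega) (by omega) (by omega)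
  exact (DistLe.step j0.symm (DistLe.step j1 (DistLe.of_adj j2.symm)))

lemma cls_010010_lex {n : ℕ} (hn : n % 2 = 1) {P : Fin 14 → ℕ} {f : ℕ → ℕ}
    (B : Bg n 14 P ![true,true,true,false,false,true,true,true,true,true,false,false,true,true] f)
    (q0 : P 0 = 0) (q1 : P 1 = 1) (q2 : P 2 = 2) (q7 : P 7 = n) (q8 : P 8 = n + 1)
    (q9 : P 9 = n + 2)
    (hd : n + P 5 ≤ P 12)
    (S0 : Sym 14 ![true,true,true,false,false,true,true,true,true,true,false,false,true,true] ![7,2,1,2,1,6,5,0,9,8,9,8,13,12])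
    (S1 : Sym 14 ![true,true,true,false,false,true,true,true,true,true,false,false,true,true] ![13,12,9,4,3,8,7,6,5,2,11,10,1,0]) :
    DistLe (ins B S0) (ins B S1) 4 := by
  have m2 : P 2 < P 5 := B.mono 2 5 rfl rfl (by decide)
  have m5 : P 5 < P 6 := B.mono 5 6 rfl rfl (by decide)
  have m6 : P 6 < P 7 := B.mono 6 7 rfl rfl (by decide)
  have m9 : P 9 < P 12 := B.mono 9 12 rfl rfl (by decide)
  have m12 : P 12 < P 13 := B.mono 12 13 rfl rfl (by decide)
  have ml : P 13 < 2 * n := B.lt 13 rfl
  have T1 : Sym 14 ![true,true,true,false,false,true,true,true,true,true,false,false,true,true] ![13,2,1,3,4,6,5,12,9,8,10,11,7,0] := by constructor <;> decide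
  have T2 : Sym 14 ![true,true,true,false,false,true,true,true,true,true,false,false,true,true] ![13,2,1,3,4,12,7,6,9,8,10,11,5,0] := by constructor <;> decide
  have T3 : Sym 14 ![true,true,true,false,false,true,true,true,true,true,false,false,true,true] ![13,2,1,3,4,8,7,6,5,12,10,11,9,0] := by constructor <;> decide
  have j0 : (H n).Adj (ins B S0) (ins B T1) :=
    ins_adj hn B S0 T1 (a := 0) (b := 7) (c := 12) (d := 13)
      ⟨rfl, rfl, rfl, rfl, by decide, by decide, by decide, rfl, rfl, rfl, rfl, by decide⟩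
      (by omega) (by omega) (by omega) (by omega)
  have j1 : (H n).Adj (ins B T1) (ins B T2) :=
    ins_adj hn B T1 T2 (a := 5) (b := 6) (c := 7) (d := 12)
      ⟨rfl, rfl, rfl, rfl, by decide, by decide, by decide, rfl, rfl, rfl, rfl, by decide⟩
      (by omega) (by omega) (by omega) (by omega)
  have j2 : (H n).Adj (ins B T3) (ins B T2) :=
    ins_adj hn B T3 T2 (a := 5) (b := 8) (c := 9) (d := 12)
      ⟨rfl, rfl, rfl, rfl, by decide, by decide, by decide, rfl, rfl, rfl, rfl, by decide⟩
      (by omega) (by omega) (by omega) (by omega)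
  have j3 : (H n).Adj (ins B T3) (ins B S1) :=
    ins_adj hn B T3 S1 (a := 1) (b := 2) (c := 9) (d := 12)
      ⟨rfl, rfl, rfl, rfl, by decide, by decide, by decide, rfl, rfl, rfl, rfl, by decide⟩
      (by omega) (by omega) (by omega) (by omega)
  exact (DistLe.step j0 (DistLe.step j1 (DistLe.step j2.symm (DistLe.of_adj j3))))

lemma cls_010010_gex {n : ℕ} (hn : n % 2 = 1) {P : Fin 14 → ℕ} {f : ℕ → ℕ}
    (B : Bg n 14 P ![true,true,true,false,false,true,true,true,true,true,false,false,true,true] f)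
    (q0 : P 0 = 0) (q1 : P 1 = 1) (q2 : P 2 = 2) (q7 : P 7 = n) (q8 : P 8 = n + 1)
    (q9 : P 9 = n + 2)
    (hd : P 12 ≤ n + P 5)
    (S0 : Sym 14 ![true,true,true,false,false,true,true,true,true,true,false,false,true,true] ![7,2,1,2,1,6,5,0,9,8,9,8,13,12])
    (S1 : Sym 14 ![true,true,true,false,false,true,true,true,true,true,false,false,true,true] ![13,12,9,4,3,8,7,6,5,2,11,10,1,0]) :
    DistLe (ins B S0) (ins B S1) 4 := by
  have m2 : P 2 < P 5 := B.mono 2 5 rfl rfl (by decide)
  have m5 : P 5 < P 6 := B.mono 5 6 rfl rfl (by decide)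
  have m6 : P 6 < P 7 := B.mono 6 7 rfl rfl (by decide)
  have m9 : P 9 < P 12 := B.mono 9 12 rfl rfl (by decide)
  have m12 : P 12 < P 13 := B.mono 12 13 rfl rfl (by decide)
  have ml : P 13 < 2 * n := B.lt 13 rfl
  have T1 : Sym 14 ![true,true,true,false,false,true,true,true,true,true,false,false,true,true] ![5,2,1,3,4,0,7,6,9,8,10,11,13,12] := by constructor <;> decide
  have T2 : Sym 14 ![true,true,true,false,false,true,true,true,true,true,false,false,true,true] ![13,2,1,3,4,12,7,6,9,8,10,11,5,0] := by constructor <;> decide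
  have T3 : Sym 14 ![true,true,true,false,false,true,true,true,true,true,false,false,true,true] ![13,12,5,3,4,2,7,6,9,8,10,11,1,0] := by constructor <;> decide
  have j0 : (H n).Adj (ins B T1) (ins B S0) :=
    ins_adj hn B T1 S0 (a := 0) (b := 5) (c := 6) (d := 7)
      ⟨rfl, rfl, rfl, rfl, by decide, by decide, by decide, rfl, rfl, rfl, rfl, by decide⟩
      (by omega) (by omega) (by omega) (by omega)
  have j1 : (H n).Adj (ins B T1) (ins B T2) :=
    ins_adj hn B T1 T2 (a := 0) (b := 5) (c := 12) (d := 13)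
      ⟨rfl, rfl, rfl, rfl, by decide, by decide, by decide, rfl, rfl, rfl, rfl, by decide⟩
      (by omega) (by omega) (by omega) (by omega)
  have j2 : (H n).Adj (ins B T2) (ins B T3) :=
    ins_adj hn B T2 T3 (a := 1) (b := 2) (c := 5) (d := 12)
      ⟨rfl, rfl, rfl, rfl, by decide, by decide, by decide, rfl, rfl, rfl, rfl, by decide⟩
      (by omega) (by omega) (by omega) (by omega)
  have j3 : (H n).Adj (ins B T3) (ins B S1) :=
    ins_adj hn B T3 S1 (a := 2) (b := 5) (c := 8) (d := 9)
      ⟨rfl, rfl, rfl, rfl, by decide, by decide, by decide, rfl, rfl, rfl, rfl, by decide⟩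
      (by omega) (by omega) (by omega) (by omega)
  exact (DistLe.step j0.symm (DistLe.step j1 (DistLe.step j2 (DistLe.of_adj j3))))

lemma cls_010100 {n : ℕ} (hn : n % 2 = 1) {P : Fin 14 → ℕ} {f : ℕ → ℕ}
    (B : Bg n 14 P ![true,true,true,false,false,true,true,true,true,true,true,true,false,false] f)
    (q0 : P 0 = 0) (q1 : P 1 = 1) (q2 : P 2 = 2) (q7 : P 7 = n) (q8 : P 8 = n + 1)
    (q9 : P 9 = n + 2)
    (S0 : Sym 14 ![true,true,true,false,false,true,true,true,true,true,true,true,false,false] ![7,2,1,2,1,6,5,0,11,10,9,8,13,12])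
    (S1 : Sym 14 ![true,true,true,false,false,true,true,true,true,true,true,true,false,false] ![1,0,9,4,3,8,7,6,5,2,11,10,1,0]) :
    DistLe (ins B S0) (ins B S1) 6 := by
  have m2 : P 2 < P 5 := B.mono 2 5 rfl rfl (by decide)
  have m5 : P 5 < P 6 := B.mono 5 6 rfl rfl (by decide)
  have m6 : P 6 < P 7 := B.mono 6 7 rfl rfl (by decide)
  have m9 : P 9 < P 10 := B.mono 9 10 rfl rfl (by decide)
  have m10 : P 10 < P 11 := B.mono 10 11 rfl rfl (by decide)
  have ml : P 11 < 2 * n := B.lt 11 rfl
  have T1 : Sym 14 ![true,true,true,false,false,true,true,true,true,true,true,true,false,false] ![5,2,1,3,4,0,7,6,11,10,9,8,12,13] := by constructor <;> decide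
  have T2 : Sym 14 ![true,true,true,false,false,true,true,true,true,true,true,true,false,false] ![11,2,1,3,4,8,7,6,5,10,9,0,12,13] := by constructor <;> decide
  have T3 : Sym 14 ![true,true,true,false,false,true,true,true,true,true,true,true,false,false] ![11,8,5,3,4,2,7,6,1,10,9,0,12,13] := by constructor <;> decide
  have T4 : Sym 14 ![true,true,true,false,false,true,true,true,true,true,true,true,false,false] ![1,0,5,3,4,2,7,6,11,10,9,8,12,13] := by constructor <;> decide
  have T5 : Sym 14 ![true,true,true,false,false,true,true,true,true,true,true,true,false,false] ![1,0,11,3,4,8,7,6,5,10,9,2,12,13] := by constructor <;> decide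
  have j0 : (H n).Adj (ins B T1) (ins B S0) :=
    ins_adj hn B T1 S0 (a := 0) (b := 5) (c := 6) (d := 7)
      ⟨rfl, rfl, rfl, rfl, by decide, by decide, by decide, rfl, rfl, rfl, rfl, by decide⟩
      (by omega) (by omega) (by omega) (by omega)
  have j1 : (H n).Adj (ins B T1) (ins B T2) :=
    ins_adj hn B T1 T2 (a := 0) (b := 5) (c := 8) (d := 11)
      ⟨rfl, rfl, rfl, rfl, by decide, by decide, by decide, rfl, rfl, rfl, rfl, by decide⟩
      (by omega) (by omega) (by omega) (by omega)
  have j2 : (H n).Adj (ins B T2) (ins B T3) :=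
    ins_adj hn B T2 T3 (a := 1) (b := 2) (c := 5) (d := 8)
      ⟨rfl, rfl, rfl, rfl, by decide, by decide, by decide, rfl, rfl, rfl, rfl, by decide⟩
      (by omega) (by omega) (by omega) (by omega)
  have j3 : (H n).Adj (ins B T4) (ins B T3) :=
    ins_adj hn B T4 T3 (a := 0) (b := 1) (c := 8) (d := 11)
      ⟨rfl, rfl, rfl, rfl, by decide, by decide, by decide, rfl, rfl, rfl, rfl, by decide⟩
      (by omega) (by omega) (by omega) (by omega)
  have j4 : (H n).Adj (ins B T4) (ins B T5) :=
    ins_adj hn B T4 T5 (a := 2) (b := 5) (c := 8) (d := 11)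
      ⟨rfl, rfl, rfl, rfl, by decide, by decide, by decide, rfl, rfl, rfl, rfl, by decide⟩
      (by omega) (by omega) (by omega) (by omega)
  have j5 : (H n).Adj (ins B S1) (ins B T5) :=
    ins_adj hn B S1 T5 (a := 2) (b := 9) (c := 10) (d := 11)
      ⟨rfl, rfl, rfl, rfl, by decide, by decide, by decide, rfl, rfl, rfl, rfl, by decide⟩
      (by omega) (by omega) (by omega) (by omega)
  exact (DistLe.step j0.symm (DistLe.step j1 (DistLe.step j2 (DistLe.step j3.symm (DistLe.step j4 (DistLe.of_adj j5.symm))))))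

lemma cls_010110_lex {n : ℕ} (hn : n % 2 = 1) {P : Fin 14 → ℕ} {f : ℕ → ℕ}
    (B : Bg n 14 P ![true,true,true,false,false,true,true,true,true,true,true,true,true,true] f)
    (q0 : P 0 = 0) (q1 : P 1 = 1) (q2 : P 2 = 2) (q7 : P 7 = n) (q8 : P 8 = n + 1)
    (q9 : P 9 = n + 2)
    (hd : n + P 5 ≤ P 12)
    (S0 : Sym 14 ![true,true,true,false,false,true,true,true,true,true,true,true,true,true] ![7,2,1,2,1,6,5,0,11,10,9,8,13,12])
    (S1 : Sym 14 ![true,true,true,false,false,true,true,true,true,true,true,true,true,true] ![13,12,9,4,3,8,7,6,5,2,11,10,1,0]) :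
    DistLe (ins B S0) (ins B S1) 7 := by
  have m2 : P 2 < P 5 := B.mono 2 5 rfl rfl (by decide)
  have m5 : P 5 < P 6 := B.mono 5 6 rfl rfl (by decide)
  have m6 : P 6 < P 7 := B.mono 6 7 rfl rfl (by decide)
  have m9 : P 9 < P 10 := B.mono 9 10 rfl rfl (by decide)
  have m10 : P 10 < P 11 := B.mono 10 11 rfl rfl (by decide)
  have m11 : P 11 < P 12 := B.mono 11 12 rfl rfl (by decide)
  have m12 : P 12 < P 13 := B.mono 12 13 rfl rfl (by decide)
  have ml : P 13 < 2 * n := B.lt 13 rfl
  have T1 : Sym 14 ![true,true,true,false,false,true,true,true,true,true,true,true,true,true] ![13,2,1,3,4,6,5,12,11,10,9,8,7,0] := by constructor <;> decide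
  have T2 : Sym 14 ![true,true,true,false,false,true,true,true,true,true,true,true,true,true] ![13,2,1,3,4,12,7,6,11,10,9,8,5,0] := by constructor <;> decide
  have T3 : Sym 14 ![true,true,true,false,false,true,true,true,true,true,true,true,true,true] ![13,2,1,3,4,8,7,6,5,10,9,12,11,0] := by constructor <;> decide
  have T4 : Sym 14 ![true,true,true,false,false,true,true,true,true,true,true,true,true,true] ![13,8,5,3,4,2,7,6,1,10,9,12,11,0] := by constructor <;> decide
  have T5 : Sym 14 ![true,true,true,false,false,true,true,true,true,true,true,true,true,true] ![13,12,5,3,4,2,7,6,11,10,9,8,1,0] := by constructor <;> decide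
  have T6 : Sym 14 ![true,true,true,false,false,true,true,true,true,true,true,true,true,true] ![13,12,11,3,4,8,7,6,5,10,9,2,1,0] := by constructor <;> decide
  have j0 : (H n).Adj (ins B S0) (ins B T1) :=
    ins_adj hn B S0 T1 (a := 0) (b := 7) (c := 12) (d := 13)
      ⟨rfl, rfl, rfl, rfl, by decide, by decide, by decide, rfl, rfl, rfl, rfl, by decide⟩
      (by omega) (by omega) (by omega) (by omega)
  have j1 : (H n).Adj (ins B T1) (ins B T2) :=
    ins_adj hn B T1 T2 (a := 5) (b := 6) (c := 7) (d := 12)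
      ⟨rfl, rfl, rfl, rfl, by decide, by decide, by decide, rfl, rfl, rfl, rfl, by decide⟩
      (by omega) (by omega) (by omega) (by omega)
  have j2 : (H n).Adj (ins B T3) (ins B T2) :=
    ins_adj hn B T3 T2 (a := 5) (b := 8) (c := 11) (d := 12)
      ⟨rfl, rfl, rfl, rfl, by decide, by decide, by decide, rfl, rfl, rfl, rfl, by decide⟩
      (by omega) (by omega) (by omega) (by omega)
  have j3 : (H n).Adj (ins B T3) (ins B T4) :=
    ins_adj hn B T3 T4 (a := 1) (b := 2) (c := 5) (d := 8)
      ⟨rfl, rfl, rfl, rfl, by decide, by decide, by decide, rfl, rfl, rfl, rfl, by decide⟩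
      (by omega) (by omega) (by omega) (by omega)
  have j4 : (H n).Adj (ins B T4) (ins B T5) :=
    ins_adj hn B T4 T5 (a := 1) (b := 8) (c := 11) (d := 12)
      ⟨rfl, rfl, rfl, rfl, by decide, by decide, by decide, rfl, rfl, rfl, rfl, by decide⟩
      (by omega) (by omega) (by omega) (by omega)
  have j5 : (H n).Adj (ins B T5) (ins B T6) :=
    ins_adj hn B T5 T6 (a := 2) (b := 5) (c := 8) (d := 11)
      ⟨rfl, rfl, rfl, rfl, by decide, by decide, by decide, rfl, rfl, rfl, rfl, by decide⟩
      (by omega) (by omega) (by omega) (by omega)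
  have j6 : (H n).Adj (ins B S1) (ins B T6) :=
    ins_adj hn B S1 T6 (a := 2) (b := 9) (c := 10) (d := 11)
      ⟨rfl, rfl, rfl, rfl, by decide, by decide, by decide, rfl, rfl, rfl, rfl, by decide⟩
      (by omega) (by omega) (by omega) (by omega)
  exact (DistLe.step j0 (DistLe.step j1 (DistLe.step j2.symm (DistLe.step j3 (DistLe.step j4 (DistLe.step j5 (DistLe.of_adj j6.symm)))))))

end Pool.Agent.Helper95.CF
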