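import Pool.Agent.Helper95.CFSide
import Pool.Agent.Helper95.CFBg2
import Pool.Agent.Helper95.CFTable1
import Pool.Agent.Helper95.CFTable2
import Pool.Agent.Helper95.CFTable3
import Pool.Agent.Helper95.CFTable4

/-!
MP_717b2e_co, upper bound: the step lemma of the sweep.
-/

namespace Pool.Agent.Helper95.CF

variable {n : ℕ}

set_option maxRecDepth 20000

/-- the symbolic matching at the start of the step -/
def sg0 (r1 r2 : Bool) : Fin 14 → Fin 14 :=
  ![7, bif r1 then 4 else 2, bif r1 then 3 else 1, 2, 1, 6, 5, 0, bif r2 then 11 else 9,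
    bif r2 then 10 else 8, 9, 8, 13, 12]

/-- the symbolic matching at the end of the step -/
def sg1 (t1 e1 t2 e2 : Bool) : Fin 14 → Fin 14 :=
  ![bif t2 then 13 else (bif e2 then 11 else 1), bif t2 then 12 else (bif e2 then 10 else 0), 9,
    bif e1 then 8 else 4, bif e1 then 7 else 3, 8, 7,
    bif t1 then 6 else (bif e1 then 4 else 8), bif t1 then 5 else (bif e1 then 3 else 7), 2,
    bif e2 then 1 else 11, bif e2 then 0 else 10, 1, 0]

/-- present slots -/
def pr14 (r1 t1 r2 t2 : Bool) : Fin 14 → Bool :=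
  ![true, true, true, r1, r1, t1, t1, true, true, true, r2, r2, t2, t2]

lemma sym0 : ∀ r1 t1 r2 t2 : Bool, Sym 14 (pr14 r1 t1 r2 t2) (sg0 r1 r2) := by
  intro r1 t1 r2 t2
  cases r1 <;> cases t1 <;> cases r2 <;> cases t2 <;> constructor <;> decide

lemma sym1 : ∀ r1 t1 e1 r2 t2 e2 : Bool, (e1 = true → r1 = true ∧ t1 = false) →
    (e2 = true → r2 = true ∧ t2 = false) →
    Sym 14 (pr14 r1 t1 r2 t2) (sg1 t1 e1 t2 e2) := by
  intro r1 t1 e1 r2 t2 e2 h1 h2
  cases e1
  · cases e2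
    · cases r1 <;> cases t1 <;> cases r2 <;> cases t2 <;> constructor <;> decide
    · obtain ⟨rfl, rfl⟩ := h2 rfl
      cases r1 <;> cases t1 <;> constructor <;> decide
  · obtain ⟨rfl, rfl⟩ := h1 rfl
    cases e2
    · cases r2 <;> cases t2 <;> constructor <;> decide
    · obtain ⟨rfl, rfl⟩ := h2 rfl
      constructor <;> decide

/-- all the classes together -/
lemma table (hn : n % 2 = 1) {P : Fin 14 → ℕ} {f : ℕ → ℕ} {r1 t1 e1 r2 t2 e2 : Bool}
    (h1 : e1 = true → r1 = true ∧ t1 = false) (h2 : e2 = true → r2 = true ∧ t2 = false)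
    (B : Bg n 14 P (pr14 r1 t1 r2 t2) f)
    (q0 : P 0 = 0) (q1 : P 1 = 1) (q2 : P 2 = 2) (q7 : P 7 = n) (q8 : P 8 = n + 1)
    (q9 : P 9 = n + 2)
    (S0 : Sym 14 (pr14 r1 t1 r2 t2) (sg0 r1 r2))
    (S1 : Sym 14 (pr14 r1 t1 r2 t2) (sg1 t1 e1 t2 e2)) :
    DistLe (ins B S0) (ins B S1) (2 + 2 * ((bif r1 then 1 else 0) + (bif r2 then 1 else 0) +
      (bif (t1 || e1) then 1 else 0) + (bif (t2 || e2) then 1 else 0))) := by
  cases r1 <;> cases t1 <;> cases e1 <;> cases r2 <;> cases t2 <;> cases e2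
  · exact ((cls_000000 hn B q0 q1 q2 q7 q8 q9 S0 S1).mono (by decide))
  · exact absurd (h2 rfl) (by simp)
  · exact ((cls_000010 hn B q0 q1 q2 q7 q8 q9 S0 S1).mono (by decide))
  · exact absurd (h2 rfl) (by simp)
  · exact ((cls_000100 hn B q0 q1 q2 q7 q8 q9 S0 S1).mono (by decide))
  · exact ((cls_000101 hn B q0 q1 q2 q7 q8 q9 S0 S1).mono (by decide))
  · exact ((cls_000110 hn B q0 q1 q2 q7 q8 q9 S0 S1).mono (by decide))
  · exact absurd (h2 rfl) (by simp)
  · exact absurd (h1 rfl) (by simp)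
  · exact absurd (h1 rfl) (by simp)
  · exact absurd (h1 rfl) (by simp)
  · exact absurd (h1 rfl) (by simp)
  · exact absurd (h1 rfl) (by simp)
  · exact absurd (h1 rfl) (by simp)
  · exact absurd (h1 rfl) (by simp)
  · exact absurd (h1 rfl) (by simp)
  · exact ((cls_010000 hn B q0 q1 q2 q7 q8 q9 S0 S1).mono (by decide))
  · exact absurd (h2 rfl) (by simp)
  · rcases le_total (n + P 5) (P 12) with hd | hd
    · exact ((cls_010010_lex hn B q0 q1 q2 q7 q8 q9 hd S0 S1).mono (by decide))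
    · exact ((cls_010010_gex hn B q0 q1 q2 q7 q8 q9 hd S0 S1).mono (by decide))
  · exact absurd (h2 rfl) (by simp)
  · exact ((cls_010100 hn B q0 q1 q2 q7 q8 q9 S0 S1).mono (by decide))
  · exact ((cls_010101 hn B q0 q1 q2 q7 q8 q9 S0 S1).mono (by decide))
  · rcases le_total (n + P 5) (P 12) with hd | hd
    · exact ((cls_010110_lex hn B q0 q1 q2 q7 q8 q9 hd S0 S1).mono (by decide))
    · exact ((cls_010110_gex hn B q0 q1 q2 q7 q8 q9 hd S0 S1).mono (by decide))
  · exact absurd (h2 rfl) (by simp)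
  · exact absurd (h1 rfl) (by simp)
  · exact absurd (h1 rfl) (by simp)
  · exact absurd (h1 rfl) (by simp)
  · exact absurd (h1 rfl) (by simp)
  · exact absurd (h1 rfl) (by simp)
  · exact absurd (h1 rfl) (by simp)
  · exact absurd (h1 rfl) (by simp)
  · exact absurd (h1 rfl) (by simp)
  · exact ((cls_100000 hn B q0 q1 q2 q7 q8 q9 S0 S1).mono (by decide))
  · exact absurd (h2 rfl) (by simp)
  · exact ((cls_100010 hn B q0 q1 q2 q7 q8 q9 S0 S1).mono (by decide))
  · exact absurd (h2 rfl) (by simp)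
  · rcases le_total (P 4 + n) (P 11) with hr | hr
    · exact ((cls_100100_xle hn B q0 q1 q2 q7 q8 q9 hr S0 S1).mono (by decide))
    · exact ((cls_100100_xge hn B q0 q1 q2 q7 q8 q9 hr S0 S1).mono (by decide))
  · exact ((cls_100101 hn B q0 q1 q2 q7 q8 q9 S0 S1).mono (by decide))
  · rcases le_total (P 4 + n) (P 11) with hr | hr
    · exact ((cls_100110_xle hn B q0 q1 q2 q7 q8 q9 hr S0 S1).mono (by decide))
    · exact ((cls_100110_xge hn B q0 q1 q2 q7 q8 q9 hr S0 S1).mono (by decide))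
  · exact absurd (h2 rfl) (by simp)
  · exact ((cls_101000 hn B q0 q1 q2 q7 q8 q9 S0 S1).mono (by decide))
  · exact absurd (h2 rfl) (by simp)
  · exact ((cls_101010 hn B q0 q1 q2 q7 q8 q9 S0 S1).mono (by decide))
  · exact absurd (h2 rfl) (by simp)
  · exact ((cls_101100 hn B q0 q1 q2 q7 q8 q9 S0 S1).mono (by decide))
  · exact ((cls_101101 hn B q0 q1 q2 q7 q8 q9 S0 S1).mono (by decide))
  · exact ((cls_101110 hn B q0 q1 q2 q7 q8 q9 S0 S1).mono (by decide))
  · exact absurd (h2 rfl) (by simp)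
  · exact ((cls_110000 hn B q0 q1 q2 q7 q8 q9 S0 S1).mono (by decide))
  · exact absurd (h2 rfl) (by simp)
  · rcases le_total (n + P 5) (P 12) with hd | hd
    · exact ((cls_110010_lex hn B q0 q1 q2 q7 q8 q9 hd S0 S1).mono (by decide))
    · exact ((cls_110010_gex hn B q0 q1 q2 q7 q8 q9 hd S0 S1).mono (by decide))
  · exact absurd (h2 rfl) (by simp)
  · rcases le_total (P 4 + n) (P 11) with hr | hr
    · exact ((cls_110100_xle hn B q0 q1 q2 q7 q8 q9 hr S0 S1).mono (by decide))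
    · exact ((cls_110100_xge hn B q0 q1 q2 q7 q8 q9 hr S0 S1).mono (by decide))
  · exact ((cls_110101 hn B q0 q1 q2 q7 q8 q9 S0 S1).mono (by decide))
  · rcases le_total (n + P 5) (P 12) with hd | hd
    · rcases le_total (P 4 + n) (P 11) with hr | hr
      · exact ((cls_110110_lele hn B q0 q1 q2 q7 q8 q9 hd hr S0 S1).mono (by decide))
      · exact ((cls_110110_lege hn B q0 q1 q2 q7 q8 q9 hd hr S0 S1).mono (by decide))
    · rcases le_total (P 4 + n) (P 11) with hr | hr
      · exact ((cls_110110_gele hn B q0 q1 q2 q7 q8 q9 hd hr S0 S1).mono (by decide))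
      · exact ((cls_110110_gege hn B q0 q1 q2 q7 q8 q9 hd hr S0 S1).mono (by decide))
  · exact absurd (h2 rfl) (by simp)
  · exact absurd (h1 rfl) (by simp)
  · exact absurd (h1 rfl) (by simp)
  · exact absurd (h1 rfl) (by simp)
  · exact absurd (h1 rfl) (by simp)
  · exact absurd (h1 rfl) (by simp)
  · exact absurd (h1 rfl) (by simp)
  · exact absurd (h1 rfl) (by simp)
  · exact absurd (h1 rfl) (by simp)

lemma forall14 {Q : Fin 14 → Prop} (h0 : Q 0) (h1 : Q 1) (h2 : Q 2) (h3 : Q 3) (h4 : Q 4)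
    (h5 : Q 5) (h6 : Q 6) (h7 : Q 7) (h8 : Q 8) (h9 : Q 9) (h10 : Q 10) (h11 : Q 11)
    (h12 : Q 12) (h13 : Q 13) : ∀ i, Q i := by
  intro i
  fin_cases i <;> assumption

lemma forall13 {Q : Fin 13 → Prop} (h0 : Q 0) (h1 : Q 1) (h2 : Q 2) (h3 : Q 3) (h4 : Q 4)
    (h5 : Q 5) (h6 : Q 6) (h7 : Q 7) (h8 : Q 8) (h9 : Q 9) (h10 : Q 10) (h11 : Q 11)
    (h12 : Q 12) : ∀ i, Q i := by
  intro i
  fin_cases i <;> assumption

/-- order of the named points of a side -/
lemma Side.order {f f' : ℕ → ℕ} {r t e : Bool} {w' w y z : ℕ} (A : Side n f f' r t e w' w y z) :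
    2 ≤ w' ∧ w' ≤ w ∧ w ≤ y ∧ y ≤ z ∧ z < n := by
  have := A.zn
  have h1 : 2 ≤ w' ∧ w' ≤ w := by
    cases r
    · have := A.r0 rfl; omega
    · have := A.r1 rfl; omega
  have h2 : w ≤ y ∧ y ≤ z := by
    cases t
    · have := A.t0 rfl; omega
    · have := A.t1 rfl; omega
  omega

/-- reduction modulo `2n` of numbers below `4n` -/
def wr (n v : ℕ) : ℕ := if v < 2 * n then v else v - 2 * n

/-- the step lemma for matchings given by their partner functions -/
theorem step_core (hn : n % 2 = 1) (h3 : 3 ≤ n) {f g f' g' : ℕ → ℕ} {M M' : NCM n}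
    {r1 t1 e1 r2 t2 e2 : Bool} {w1' w1 y1 z1 w2' w2 y2 z2 : ℕ}
    (A : Side n f f' r1 t1 e1 w1' w1 y1 z1) (B : Side n g g' r2 t2 e2 w2' w2 y2 z2)
    (m0 : M.p 0 = n) (mn : M.p n = 0) (mA : ∀ x, 0 < x → x < n → M.p x = f x)
    (mB : ∀ x, 0 < x → x < n → M.p (n + x) = n + g x)
    (m2' : M'.p 2 = n + 2) (mn2' : M'.p (n + 2) = 2)
    (mA' : ∀ x, 2 < x → x < n + 2 → M'.p x = f' x)
    (mB' : ∀ x, 2 < x → x < n → M'.p (n + x) = wr n (n + g' x))
    (m0' : M'.p 0 = wr n (n + g' n)) (m1' : M'.p 1 = wr n (n + g' (n + 1))) :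
    DistLe M M' (2 + 2 * ((bif r1 then 1 else 0) + (bif r2 then 1 else 0) +
      (bif (t1 || e1) then 1 else 0) + (bif (t2 || e2) then 1 else 0))) := by
  have hP : ∃ P : Fin 14 → ℕ, P = ![0, 1, 2, w1', w1, y1, z1, n, n + 1, n + 2, n + w2', n + w2,
      n + y2, n + z2] := ⟨_, rfl⟩
  obtain ⟨P, hP⟩ := hP
  have P0 : P 0 = 0 := by rw [hP]; rfl
  have P1 : P 1 = 1 := by rw [hP]; rfl
  have P2 : P 2 = 2 := by rw [hP]; rfl
  have P3 : P 3 = w1' := by rw [hP]; rfl
  have P4 : P 4 = w1 := by rw [hP]; rfl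
  have P5 : P 5 = y1 := by rw [hP]; rfl
  have P6 : P 6 = z1 := by rw [hP]; rfl
  have P7 : P 7 = n := by rw [hP]; rfl
  have P8 : P 8 = n + 1 := by rw [hP]; rfl
  have P9 : P 9 = n + 2 := by rw [hP]; rfl
  have P10 : P 10 = n + w2' := by rw [hP]; rfl
  have P11 : P 11 = n + w2 := by rw [hP]; rfl
  have P12 : P 12 = n + y2 := by rw [hP]; rfl
  have P13 : P 13 = n + z2 := by rw [hP]; rfl
  clear hP
  obtain ⟨oA1, oA2, oA3, oA4, oA5⟩ := A.order
  obtain ⟨oB1, oB2, oB3, oB4, oB5⟩ := B.order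
  -- values of `M.p` at the named points
  have a0 : M.p (P 0) = P (sg0 r1 r2 0) := by rw [P0, m0]; exact P7.symm
  have a1 : M.p (P 1) = P (sg0 r1 r2 1) := by
    rw [P1, mA 1 (by omega) (by omega)]
    cases r1
    · exact ((A.f0 rfl).1).trans P2.symm
    · exact ((A.f1 rfl).1).trans P4.symm
  have a2 : M.p (P 2) = P (sg0 r1 r2 2) := by
    rw [P2, mA 2 (by omega) (by omega)]
    cases r1
    · exact ((A.f0 rfl).2).trans P1.symm
    · exact ((A.f1 rfl).2.1).trans P3.symm
  have a3 : r1 = true → M.p (P 3) = P (sg0 r1 r2 3) := by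
    intro h
    rw [P3, mA w1' (by omega) (by omega)]
    exact ((A.f1 h).2.2.2).trans P2.symm
  have a4 : r1 = true → M.p (P 4) = P (sg0 r1 r2 4) := by
    intro h
    rw [P4, mA w1 (by omega) (by omega)]
    exact ((A.f1 h).2.2.1).trans P1.symm
  have a5 : t1 = true → M.p (P 5) = P (sg0 r1 r2 5) := by
    intro h
    rw [P5, mA y1 (by omega) (by omega)]
    exact ((A.g1 h).1).trans P6.symm
  have a6 : t1 = true → M.p (P 6) = P (sg0 r1 r2 6) := by
    intro h
    rw [P6, mA z1 (by omega) (by omega)]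
    exact ((A.g1 h).2).trans P5.symm
  have a7 : M.p (P 7) = P (sg0 r1 r2 7) := by rw [P7, mn]; exact P0.symm
  have a8 : M.p (P 8) = P (sg0 r1 r2 8) := by
    rw [P8, mB 1 (by omega) (by omega)]
    cases r2
    · rw [(B.f0 rfl).1]; exact P9.symm
    · rw [(B.f1 rfl).1]; exact P11.symm
  have a9 : M.p (P 9) = P (sg0 r1 r2 9) := by
    rw [P9, mB 2 (by omega) (by omega)]
    cases r2
    · rw [(B.f0 rfl).2]; exact P8.symm
    · rw [(B.f1 rfl).2.1]; exact P10.symm
  have a10 : r2 = true → M.p (P 10) = P (sg0 r1 r2 10) := by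
    intro h
    rw [P10, mB w2' (by omega) (by omega), (B.f1 h).2.2.2]
    exact P9.symm
  have a11 : r2 = true → M.p (P 11) = P (sg0 r1 r2 11) := by
    intro h
    rw [P11, mB w2 (by omega) (by omega), (B.f1 h).2.2.1]
    exact P8.symm
  have a12 : t2 = true → M.p (P 12) = P (sg0 r1 r2 12) := by
    intro h
    rw [P12, mB y2 (by omega) (by omega), (B.g1 h).1]
    exact P13.symm
  have a13 : t2 = true → M.p (P 13) = P (sg0 r1 r2 13) := by
    intro h
    rw [P13, mB z2 (by omega) (by omega), (B.g1 h).2]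
    exact P12.symm
  have hσ0 : ∀ i, pr14 r1 t1 r2 t2 i = true → M.p (P i) = P (sg0 r1 r2 i) :=
    forall14 (fun _ => a0) (fun _ => a1) (fun _ => a2) a3 a4 a5 a6 (fun _ => a7) (fun _ => a8)
      (fun _ => a9) a10 a11 a12 a13
  clear a0 a1 a2 a3 a4 a5 a6 a7 a8 a9 a10 a11 a12 a13
  -- values of `M'.p` at the named points
  have w1n : wr n (2 * n) = 0 := by unfold wr; rw [if_neg (by omega)]; omega
  have w2n : wr n (2 * n + 1) = 1 := by unfold wr; rw [if_neg (by omega)]; omega
  have wlt : ∀ v, v < 2 * n → wr n v = v := by intro v hv; unfold wr; rw [if_pos hv]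
  have b0 : M'.p (P 0) = P (sg1 t1 e1 t2 e2 0) := by
    rw [P0, m0']
    cases t2
    · cases e2
      · rw [(B.q0 rfl rfl).1]
        have : n + (n + 1) = 2 * n + 1 := by omega
        rw [this, w2n]; exact P1.symm
      · rw [(B.e1 rfl).2.1, wlt _ (by omega)]; exact P11.symm
    · rw [(B.q1 rfl).1, wlt _ (by omega)]; exact P13.symm
  have b1 : M'.p (P 1) = P (sg1 t1 e1 t2 e2 1) := by
    rw [P1, m1']
    cases t2
    · cases e2
      · rw [(B.q0 rfl rfl).2]
        have : n + n = 2 * n := by omega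
        rw [this, w1n]; exact P0.symm
      · rw [(B.e1 rfl).2.2.2, wlt _ (by omega)]; exact P10.symm
    · rw [(B.q1 rfl).2.1, wlt _ (by omega)]; exact P12.symm
  have b2 : M'.p (P 2) = P (sg1 t1 e1 t2 e2 2) := by rw [P2, m2']; exact P9.symm
  have b3 : r1 = true → M'.p (P 3) = P (sg1 t1 e1 t2 e2 3) := by
    intro h
    have h' := A.r1 h
    rw [P3, mA' w1' (by omega) (by omega)]
    cases e1
    · exact ((A.p1 h rfl).1).trans P4.symm
    · exact ((A.e1 rfl).2.2.1).trans P8.symm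
  have b4 : r1 = true → M'.p (P 4) = P (sg1 t1 e1 t2 e2 4) := by
    intro h
    have h' := A.r1 h
    rw [P4, mA' w1 (by omega) (by omega)]
    cases e1
    · exact ((A.p1 h rfl).2).trans P3.symm
    · exact ((A.e1 rfl).1).trans P7.symm
  have b5 : t1 = true → M'.p (P 5) = P (sg1 t1 e1 t2 e2 5) := by
    intro h
    have h' := A.t1 h
    rw [P5, mA' y1 (by omega) (by omega)]
    exact ((A.q1 h).2.2.2).trans P8.symm
  have b6 : t1 = true → M'.p (P 6) = P (sg1 t1 e1 t2 e2 6) := by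
    intro h
    have h' := A.t1 h
    rw [P6, mA' z1 (by omega) (by omega)]
    exact ((A.q1 h).2.2.1).trans P7.symm
  have b7 : M'.p (P 7) = P (sg1 t1 e1 t2 e2 7) := by
    rw [P7, mA' n (by omega) (by omega)]
    cases t1
    · cases e1
      · exact ((A.q0 rfl rfl).1).trans P8.symm
      · exact ((A.e1 rfl).2.1).trans P4.symm
    · exact ((A.q1 rfl).1).trans P6.symm
  have b8 : M'.p (P 8) = P (sg1 t1 e1 t2 e2 8) := by
    rw [P8, mA' (n + 1) (by omega) (by omega)]
    cases t1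
    · cases e1
      · exact ((A.q0 rfl rfl).2).trans P7.symm
      · exact ((A.e1 rfl).2.2.2).trans P3.symm
    · exact ((A.q1 rfl).2.1).trans P5.symm
  have b9 : M'.p (P 9) = P (sg1 t1 e1 t2 e2 9) := by rw [P9, mn2']; exact P2.symm
  have b10 : r2 = true → M'.p (P 10) = P (sg1 t1 e1 t2 e2 10) := by
    intro h
    have h' := B.r1 h
    rw [P10, mB' w2' (by omega) (by omega)]
    cases e2
    · rw [(B.p1 h rfl).1, wlt _ (by omega)]; exact P11.symm
    · rw [(B.e1 rfl).2.2.1]
      have : n + (n + 1) = 2 * n + 1 := by omega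
      rw [this, w2n]; exact P1.symm
  have b11 : r2 = true → M'.p (P 11) = P (sg1 t1 e1 t2 e2 11) := by
    intro h
    have h' := B.r1 h
    rw [P11, mB' w2 (by omega) (by omega)]
    cases e2
    · rw [(B.p1 h rfl).2, wlt _ (by omega)]; exact P10.symm
    · rw [(B.e1 rfl).1]
      have : n + n = 2 * n := by omega
      rw [this, w1n]; exact P0.symm
  have b12 : t2 = true → M'.p (P 12) = P (sg1 t1 e1 t2 e2 12) := by
    intro h
    have h' := B.t1 h
    rw [P12, mB' y2 (by omega) (by omega), (B.q1 h).2.2.2]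
    have : n + (n + 1) = 2 * n + 1 := by omega
    rw [this, w2n]; exact P1.symm
  have b13 : t2 = true → M'.p (P 13) = P (sg1 t1 e1 t2 e2 13) := by
    intro h
    have h' := B.t1 h
    rw [P13, mB' z2 (by omega) (by omega), (B.q1 h).2.2.1]
    have : n + n = 2 * n := by omega
    rw [this, w1n]; exact P0.symm
  have hσ1 : ∀ i, pr14 r1 t1 r2 t2 i = true → M'.p (P i) = P (sg1 t1 e1 t2 e2 i) :=
    forall14 (fun _ => b0) (fun _ => b1) (fun _ => b2) b3 b4 b5 b6 (fun _ => b7) (fun _ => b8)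
      (fun _ => b9) b10 b11 b12 b13
  clear b0 b1 b2 b3 b4 b5 b6 b7 b8 b9 b10 b11 b12 b13
  have S0 := sym0 r1 t1 r2 t2
  have S1 := sym1 r1 t1 e1 r2 t2 e2 A.er B.er
  -- translation of the closedness on side B
  have hB : ∀ (u v : ℕ), u < n → v ≤ n → (∀ x, u < x → x < v → u < g x ∧ g x < v) →
      ∀ x, n + u < x → x < n + v → n + u < M.p x ∧ M.p x < n + v := by
    intro u v hu hv h x h1 h2
    obtain ⟨x, rfl⟩ : ∃ x', x = n + x' := ⟨x - n, by omega⟩
    rw [mB x (by omega) (by omega)]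
    have := h x (by omega) (by omega)
    omega
  have hAt : ∀ (u v : ℕ), v ≤ n → (∀ x, u < x → x < v → u < f x ∧ f x < v) →
      ∀ x, u < x → x < v → u < M.p x ∧ M.p x < v := by
    intro u v hv h x h1 h2
    rw [mA x (by omega) (by omega)]
    exact h x h1 h2
  have BG : Bg n 14 P (pr14 r1 t1 r2 t2) M.p := by
    apply Bg.mk2 rfl
    · apply forall13
      · left; exact ⟨rfl, by show P 0 < P 1; omega⟩
      · left; exact ⟨rfl, by show P 1 < P 2; omega⟩
      · cases r1
        · right; exact ⟨rfl, by show P 2 = P 3; have := A.r0 rfl; omega⟩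
        · left; exact ⟨rfl, by show P 2 < P 3; have := A.r1 rfl; omega⟩
      · cases r1
        · right; exact ⟨rfl, by show P 3 = P 4; have := A.r0 rfl; omega⟩
        · left; exact ⟨rfl, by show P 3 < P 4; have := A.r1 rfl; omega⟩
      · cases t1
        · right; exact ⟨rfl, by show P 4 = P 5; have := A.t0 rfl; omega⟩
        · left; exact ⟨rfl, by show P 4 < P 5; have := A.t1 rfl; omega⟩
      · cases t1
        · right; exact ⟨rfl, by show P 5 = P 6; have := A.t0 rfl; omega⟩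
        · left; exact ⟨rfl, by show P 5 < P 6; have := A.t1 rfl; omega⟩
      · left; exact ⟨rfl, by show P 6 < P 7; omega⟩
      · left; exact ⟨rfl, by show P 7 < P 8; omega⟩
      · left; exact ⟨rfl, by show P 8 < P 9; omega⟩
      · cases r2
        · right; exact ⟨rfl, by show P 9 = P 10; have := B.r0 rfl; omega⟩
        · left; exact ⟨rfl, by show P 9 < P 10; have := B.r1 rfl; omega⟩
      · cases r2
        · right; exact ⟨rfl, by show P 10 = P 11; have := B.r0 rfl; omega⟩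
        · left; exact ⟨rfl, by show P 10 < P 11; have := B.r1 rfl; omega⟩
      · cases t2
        · right; exact ⟨rfl, by show P 11 = P 12; have := B.t0 rfl; omega⟩
        · left; exact ⟨rfl, by show P 11 < P 12; have := B.t1 rfl; omega⟩
      · cases t2
        · right; exact ⟨rfl, by show P 12 = P 13; have := B.t0 rfl; omega⟩
        · left; exact ⟨rfl, by show P 12 < P 13; have := B.t1 rfl; omega⟩
    · show P 13 < 2 * n
      omega
    · exact M.nc
    · intro i hi
      exact ⟨sg0 r1 r2 i, S0.pr' i hi, hσ0 i hi⟩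
    · apply forall13
      · show ∀ x, P 0 < x → x < P 1 → P 0 < M.p x ∧ M.p x < P 1
        intro x h1 h2; omega
      · show ∀ x, P 1 < x → x < P 2 → P 1 < M.p x ∧ M.p x < P 2
        intro x h1 h2; omega
      · show ∀ x, P 2 < x → x < P 3 → P 2 < M.p x ∧ M.p x < P 3
        rw [P2, P3]; exact hAt 2 w1' (by omega) A.c1
      · show ∀ x, P 3 < x → x < P 4 → P 3 < M.p x ∧ M.p x < P 4
        rw [P3, P4]; exact hAt _ _ (by omega) A.c2
      · show ∀ x, P 4 < x → x < P 5 → P 4 < M.p x ∧ M.p x < P 5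
        rw [P4, P5]; exact hAt _ _ (by omega) A.c3
      · show ∀ x, P 5 < x → x < P 6 → P 5 < M.p x ∧ M.p x < P 6
        rw [P5, P6]; exact hAt _ _ (by omega) A.c4
      · show ∀ x, P 6 < x → x < P 7 → P 6 < M.p x ∧ M.p x < P 7
        rw [P6, P7]; exact hAt _ _ (by omega) A.c5
      · show ∀ x, P 7 < x → x < P 8 → P 7 < M.p x ∧ M.p x < P 8
        intro x h1 h2; omega
      · show ∀ x, P 8 < x → x < P 9 → P 8 < M.p x ∧ M.p x < P 9
        intro x h1 h2; omega
      · show ∀ x, P 9 < x → x < P 10 → P 9 < M.p x ∧ M.p x < P 10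
        rw [P9, P10]; exact hB 2 w2' (by omega) (by omega) B.c1
      · show ∀ x, P 10 < x → x < P 11 → P 10 < M.p x ∧ M.p x < P 11
        rw [P10, P11]; exact hB _ _ (by omega) (by omega) B.c2
      · show ∀ x, P 11 < x → x < P 12 → P 11 < M.p x ∧ M.p x < P 12
        rw [P11, P12]; exact hB _ _ (by omega) (by omega) B.c3
      · show ∀ x, P 12 < x → x < P 13 → P 12 < M.p x ∧ M.p x < P 13
        rw [P12, P13]; exact hB _ _ (by omega) (by omega) B.c4
  have hM : M = ins BG S0 := eq_ins BG S0 hσ0 fun x hx h => rfl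
  have hM' : M' = ins BG S1 := by
    apply eq_ins BG S1 hσ1
    intro x hx h
    have h0 : P 0 ≠ x := h 0 rfl
    have h1 : P 1 ≠ x := h 1 rfl
    have h2 : P 2 ≠ x := h 2 rfl
    have h3' : r1 = true → P 3 ≠ x := h 3
    have h4 : r1 = true → P 4 ≠ x := h 4
    have h5 : t1 = true → P 5 ≠ x := h 5
    have h6 : t1 = true → P 6 ≠ x := h 6
    have h7 : P 7 ≠ x := h 7 rfl
    have h8 : P 8 ≠ x := h 8 rfl
    have h9 : P 9 ≠ x := h 9 rfl
    have h10 : r2 = true → P 10 ≠ x := h 10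
    have h11 : r2 = true → P 11 ≠ x := h 11
    have h12 : t2 = true → P 12 ≠ x := h 12
    have h13 : t2 = true → P 13 ≠ x := h 13
    clear h
    rcases lt_or_ge x n with hxn | hxn
    · rw [mA x (by omega) hxn, mA' x (by omega) (by omega)]
      have k1 : x ≠ w1' ∧ x ≠ w1 := by
        cases r1
        · have := A.r0 rfl; omega
        · have := h3' rfl; have := h4 rfl; omega
      have k2 : x ≠ y1 ∧ x ≠ z1 := by
        cases t1
        · have := A.t0 rfl; omega
        · have := h5 rfl; have := h6 rfl; omega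
      exact (A.ag x (by omega) hxn k1.1 k1.2 k2.1 k2.2).symm
    · obtain ⟨x, rfl⟩ : ∃ x', x = n + x' := ⟨x - n, by omega⟩
      rw [mB x (by omega) (by omega), mB' x (by omega) (by omega)]
      have k1 : x ≠ w2' ∧ x ≠ w2 := by
        cases r2
        · have := B.r0 rfl; omega
        · have := h10 rfl; have := h11 rfl; omega
      have k2 : x ≠ y2 ∧ x ≠ z2 := by
        cases t2
        · have := B.t0 rfl; omega
        · have := h12 rfl; have := h13 rfl; omega
      have k3 := B.ag x (by omega) (by omega) k1.1 k1.2 k2.1 k2.2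
      have k4 : M.p (n + x) < 2 * n := M.p_lt hx
      rw [mB x (by omega) (by omega)] at k4
      rw [← k3, wlt _ k4]
  rw [hM, hM']
  exact table hn A.er B.er BG P0 P1 P2 P7 P8 P9 S0 S1

end Pool.Agent.Helper95.CF
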