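import Pool.Agent.Helper95.CFStep
import Pool.Agent.Helper12.CFSweep

/-!
MP_717b2e_co, upper bound: the step lemma for glued sheets.
-/

namespace Pool.Agent.Helper95.CF

variable {n : ℕ}

lemma mod_wr {v : ℕ} (hv : v < 4 * n) : v % (2 * n) = wr n v := by
  unfold wr
  split_ifs with h
  · exact Nat.mod_eq_of_lt h
  · rw [Nat.mod_eq_sub_mod (by omega), Nat.mod_eq_of_lt (by omega)]

/-- **step lemma** -/
theorem step_lemma (hn : n % 2 = 1) (h3 : 3 ≤ n) (f g f' g' : ℕ → ℕ) (hf : NCI 1 n f)
    (hg : NCI 1 n g) (hf' : NCI 3 (n + 2) f') (hg' : NCI 3 (n + 2) g')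
    (hc : ∀ x, 3 ≤ x → x < n → front 1 f x = back (n + 2) f' x)
    (hc' : ∀ x, 3 ≤ x → x < n → front 1 g x = back (n + 2) g' x)
    (hcut : f 1 ≠ 2 → f' (n + 1) ≠ n → f 2 < f' n)
    (hcut' : g 1 ≠ 2 → g' (n + 1) ≠ n → g 2 < g' n) :
    DistLe (ofNC n _ (gl_nc (by omega) hf hg))
      (rot^[2] (ofNC n _ (gl_nc (by omega) (shift2_nci hf') (shift2_nci hg'))))
      (2 + 2 * ((if f 1 = 2 then 0 else 1) + (if g 1 = 2 then 0 else 1) +
        (if f' (n + 1) = n then 0 else 1) + (if g' (n + 1) = n then 0 else 1))) := by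
  obtain ⟨r1, t1, e1, w1', w1, y1, z1, A, hA1, hA2⟩ := side_exists h3 hf hf' hc hcut
  obtain ⟨r2, t2, e2, w2', w2, y2, z2, B, hB1, hB2⟩ := side_exists h3 hg hg' hc' hcut'
  rw [hA1, hA2, hB1, hB2]
  have hN : NC (2 * n) (gl n (shift2 f') (shift2 g')) :=
    gl_nc (by omega) (shift2_nci hf') (shift2_nci hg')
  have hr := fun (x : ℕ) (hx : x < 2 * n) => rotk_p (ofNC n _ hN) 2 hx
  have hr' : ∀ x, x < 2 * n → ((rot^[2] (ofNC n _ hN)).p (wr n (x + 2))) =
      wr n (gl n (shift2 f') (shift2 g') x + 2) := by
    intro x hx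
    have h1 := hr x hx
    rw [ofNC_p _ hx, mod_wr (by omega), mod_wr (by have := hN.lt x hx; omega)] at h1
    exact h1
  clear hr
  have wlt : ∀ v, v < 2 * n → wr n v = v := by intro v hv; unfold wr; rw [if_pos hv]
  apply step_core hn h3 A B
  · rw [ofNC_p _ (by omega)]; unfold gl; rw [if_pos rfl]
  · rw [ofNC_p _ (by omega)]; unfold gl; rw [if_neg (by omega), if_pos rfl]
  · intro x h1 h2
    rw [ofNC_p _ (by omega)]; unfold gl
    rw [if_neg (by omega), if_neg (by omega), if_pos h2]
  · intro x h1 h2
    rw [ofNC_p _ (by omega)]; unfold gl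
    rw [if_neg (by omega), if_neg (by omega), if_neg (by omega), Nat.add_sub_cancel_left,
      Nat.add_comm]
  · have := hr' 0 (by omega)
    rw [wlt _ (by omega)] at this
    unfold gl at this
    rw [if_pos rfl, wlt _ (by omega)] at this
    exact this
  · have := hr' n (by omega)
    rw [wlt _ (by omega)] at this
    unfold gl at this
    rw [if_neg (by omega), if_pos rfl, wlt _ (by omega)] at this
    exact this
  · intro x h1 h2
    obtain ⟨x, rfl⟩ : ∃ x', x = x' + 2 := ⟨x - 2, by omega⟩
    have h4 := hf'.mem (x + 2) (by omega) (by omega)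
    have := hr' x (by omega)
    rw [wlt _ (by omega)] at this
    unfold gl at this
    rw [if_neg (by omega), if_neg (by omega), if_pos (by omega)] at this
    unfold shift2 at this
    have e : f' (x + 2) - 2 + 2 = f' (x + 2) := by omega
    rw [e, wlt _ (by omega)] at this
    exact this
  · intro x h1 h2
    obtain ⟨x, rfl⟩ : ∃ x', x = x' + 2 := ⟨x - 2, by omega⟩
    have h4 := hg'.mem (x + 2) (by omega) (by omega)
    have := hr' (n + x) (by omega)
    rw [wlt _ (by omega)] at this
    unfold gl at this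
    rw [if_neg (by omega), if_neg (by omega), if_neg (by omega)] at this
    unfold shift2 at this
    rw [Nat.add_sub_cancel_left] at this
    have e : g' (x + 2) - 2 + n + 2 = n + g' (x + 2) := by omega
    rw [e] at this
    exact this
  · have h4 := hg'.mem n (by omega) (by omega)
    have := hr' (2 * n - 2) (by omega)
    have e0 : wr n (2 * n - 2 + 2) = 0 := by unfold wr; rw [if_neg (by omega)]; omega
    rw [e0] at this
    unfold gl at this
    rw [if_neg (by omega), if_neg (by omega), if_neg (by omega)] at this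
    unfold shift2 at this
    have e1 : 2 * n - 2 - n + 2 = n := by omega
    rw [e1] at this
    have e : g' n - 2 + n + 2 = n + g' n := by omega
    rw [e] at this
    exact this
  · have h4 := hg'.mem (n + 1) (by omega) (by omega)
    have := hr' (2 * n - 1) (by omega)
    have e0 : wr n (2 * n - 1 + 2) = 1 := by unfold wr; rw [if_neg (by omega)]; omega
    rw [e0] at this
    unfold gl at this
    rw [if_neg (by omega), if_neg (by omega), if_neg (by omega)] at this
    unfold shift2 at this
    have e1 : 2 * n - 1 - n + 2 = n + 1 := by omega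
    rw [e1] at this
    have e : g' (n + 1) - 2 + n + 2 = n + g' (n + 1) := by omega
    rw [e] at this
    exact this

end Pool.Agent.Helper95.CF
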