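import Pool.Agent.Helper95.CFStep2
import Pool.Agent.Helper95.CFLocal
import Pool.Agent.Helper30.CF.CFFinal
import Pool.Agent.Helper64.CF.CFSum

/-!
MP_717b2e_co: the upper bound, and the diameter.
-/

namespace Pool.Agent.Helper95.CF

variable {n : ℕ}

/-- **upper bound**: any two matchings are joined by at most `3n - 7` centered flips. -/
theorem upper (hn : n % 2 = 1) (h3 : 3 ≤ n) (M N : NCM n) : DistLe M N (3 * n - 7) := by
  refine final_of hn h3 (sum_U_rot hn) ?_ ?_ (sweep_of hn h3 (step_lemma hn h3)) M N
  · intro M
    obtain ⟨v, v', h1, h2, h⟩ := local_lemma hn h3 M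
    exact ⟨v, v', h1, Val.rot_of_rev hn h2, h⟩
  · intro M v
    constructor
    · intro h
      have := Val.half hn h
      rwa [half_half] at this
    · exact fun h => Val.half hn h

end Pool.Agent.Helper95.CF
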