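import Mathlib

/-!
# A three generator group of order 72: the element `(A B A B z)` has order dividing three

The proof of `goal_mem` was found by a coset enumeration with proof extraction: the points `p0, p1, ..` are
cosets of a subgroup which contains `C` and `e`; every line is one application of one relation.
-/

set_option autoImplicit false

namespace Pool.Agent.Helper95.GT3

section

variable {G : Type*} [Group G] {H : Subgroup G}

/-- The action of `g` from the right. -/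
def ac (g : G) (p : G ⧸ H) : G ⧸ H := g⁻¹ • p

theorem ac_mul (g h : G) (p : G ⧸ H) : ac (g * h) p = ac h (ac g p) := by
  simp only [ac, mul_inv_rev, mul_smul]

theorem ac_rel {g : G} (h : g = 1) (p : G ⧸ H) : ac g p = p := by
  simp only [ac, h, inv_one, one_smul]

theorem ac_i {g : G} {p q : G ⧸ H} (h : ac g p = q) : ac g⁻¹ q = p := by
  simp only [ac] at h ⊢
  rw [← h, inv_inv, smul_inv_smul]

theorem ac_j {g : G} {p q : G ⧸ H} (h : ac g⁻¹ p = q) : ac g q = p := by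
  have := ac_i h
  rwa [inv_inv] at this

theorem step {g h : G} {p q r : G ⧸ H} (a : ac (g * h) p = r) (b : ac g p = q) : ac h q = r := by
  rw [ac_mul, b] at a
  exact a

theorem trn {g : G} {p p' q q' : G ⧸ H} (a : ac g p = q) (b : p = p') (c : q = q') :
    ac g p' = q' := by
  rw [← b, ← c]
  exact a

theorem ac_one_of_mem {g : G} (h : g ∈ H) : ac g ((1 : G) : G ⧸ H) = ((1 : G) : G ⧸ H) := by
  have : g⁻¹ • ((1 : G) : G ⧸ H) = ((g⁻¹ * 1 : G) : G ⧸ H) := rfl
  rw [ac, this, mul_one, QuotientGroup.eq]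
  simpa using h

theorem mem_of_ac_one {g : G} (h : ac g ((1 : G) : G ⧸ H) = ((1 : G) : G ⧸ H)) : g ∈ H := by
  have : g⁻¹ • ((1 : G) : G ⧸ H) = ((g⁻¹ * 1 : G) : G ⧸ H) := rfl
  rw [ac, this, mul_one, QuotientGroup.eq] at h
  simpa using h

theorem rot {u v : G} (h : u * v = 1) : v * u = 1 := by
  rw [mul_eq_one_iff_eq_inv] at h
  rw [h, mul_inv_cancel]

set_option maxHeartbeats 1000000 in
/-- Coset enumeration with proof extraction. -/
theorem goal_mem (A B z C D e f : G)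
    (h0 : A⁻¹ * (z⁻¹ * (A * (z * (A * (A * z))))) = 1)
    (h1 : B⁻¹ * (z⁻¹ * (B * (z * (B * (B * z))))) = 1)
    (h2 : C⁻¹ * (z⁻¹ * (C * (z * (C * (C * z))))) = 1)
    (h3 : B * (A * (C * (C * (C * (z * (C * (C * z))))))) = 1)
    (h4 : C⁻¹ * (A * B) = 1)
    (h5 : e⁻¹ * (C * (C * z)) = 1)
    (h6 : D⁻¹ * (A * (e * e)) = 1)
    (h7 : f⁻¹ * (D⁻¹ * (e * D)) = 1)
    (h8 : C⁻¹ * (e * (C * (e⁻¹ * e⁻¹))) = 1)
    (h9 : C * (f * (C⁻¹ * (f⁻¹ * f⁻¹))) = 1)
    (h10 : D⁻¹ * (C * (D * C)) = 1)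
    (hC : C ∈ H) (he : e ∈ H) : f ∈ H := by
  have k0_0 := fun p : G ⧸ H => ac_rel h0 p
  have k0_3 : ∀ p : G ⧸ H, ac (z * (A * (A * (z * (A⁻¹ * (z⁻¹ * A)))))) p = p := by
    have t : (A⁻¹ * (z⁻¹ * A)) * (z * (A * (A * z))) = 1 := by
      simpa only [mul_assoc] using h0
    exact ac_rel (by simpa only [mul_assoc] using rot t)
  have k0_4 : ∀ p : G ⧸ H, ac (A * (A * (z * (A⁻¹ * (z⁻¹ * (A * z)))))) p = p := by
    have t : (A⁻¹ * (z⁻¹ * (A * z))) * (A * (A * z)) = 1 := by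
      simpa only [mul_assoc] using h0
    exact ac_rel (by simpa only [mul_assoc] using rot t)
  have k0_6 : ∀ p : G ⧸ H, ac (z * (A⁻¹ * (z⁻¹ * (A * (z * (A * A)))))) p = p := by
    have t : (A⁻¹ * (z⁻¹ * (A * (z * (A * A))))) * z = 1 := by
      simpa only [mul_assoc] using h0
    exact ac_rel (by simpa only [mul_assoc] using rot t)
  have k1_0 := fun p : G ⧸ H => ac_rel h1 p
  have k1_2 : ∀ p : G ⧸ H, ac (B * (z * (B * (B * (z * (B⁻¹ * z⁻¹)))))) p = p := by
    have t : (B⁻¹ * z⁻¹) * (B * (z * (B * (B * z)))) = 1 := by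
      simpa only [mul_assoc] using h1
    exact ac_rel (by simpa only [mul_assoc] using rot t)
  have k1_4 : ∀ p : G ⧸ H, ac (B * (B * (z * (B⁻¹ * (z⁻¹ * (B * z)))))) p = p := by
    have t : (B⁻¹ * (z⁻¹ * (B * z))) * (B * (B * z)) = 1 := by
      simpa only [mul_assoc] using h1
    exact ac_rel (by simpa only [mul_assoc] using rot t)
  have k1_5 : ∀ p : G ⧸ H, ac (B * (z * (B⁻¹ * (z⁻¹ * (B * (z * B)))))) p = p := by
    have t : (B⁻¹ * (z⁻¹ * (B * (z * B)))) * (B * z) = 1 := by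
      simpa only [mul_assoc] using h1
    exact ac_rel (by simpa only [mul_assoc] using rot t)
  have k1_6 : ∀ p : G ⧸ H, ac (z * (B⁻¹ * (z⁻¹ * (B * (z * (B * B)))))) p = p := by
    have t : (B⁻¹ * (z⁻¹ * (B * (z * (B * B))))) * z = 1 := by
      simpa only [mul_assoc] using h1
    exact ac_rel (by simpa only [mul_assoc] using rot t)
  have k2_0 := fun p : G ⧸ H => ac_rel h2 p
  have k2_1 : ∀ p : G ⧸ H, ac (z⁻¹ * (C * (z * (C * (C * (z * C⁻¹)))))) p = p := by
    have t : C⁻¹ * (z⁻¹ * (C * (z * (C * (C * z))))) = 1 := by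
      simpa only [mul_assoc] using h2
    exact ac_rel (by simpa only [mul_assoc] using rot t)
  have k2_2 : ∀ p : G ⧸ H, ac (C * (z * (C * (C * (z * (C⁻¹ * z⁻¹)))))) p = p := by
    have t : (C⁻¹ * z⁻¹) * (C * (z * (C * (C * z)))) = 1 := by
      simpa only [mul_assoc] using h2
    exact ac_rel (by simpa only [mul_assoc] using rot t)
  have k2_3 : ∀ p : G ⧸ H, ac (z * (C * (C * (z * (C⁻¹ * (z⁻¹ * C)))))) p = p := by
    have t : (C⁻¹ * (z⁻¹ * C)) * (z * (C * (C * z))) = 1 := by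
      simpa only [mul_assoc] using h2
    exact ac_rel (by simpa only [mul_assoc] using rot t)
  have k2_4 : ∀ p : G ⧸ H, ac (C * (C * (z * (C⁻¹ * (z⁻¹ * (C * z)))))) p = p := by
    have t : (C⁻¹ * (z⁻¹ * (C * z))) * (C * (C * z)) = 1 := by
      simpa only [mul_assoc] using h2
    exact ac_rel (by simpa only [mul_assoc] using rot t)
  have k3_2 : ∀ p : G ⧸ H, ac (C * (C * (C * (z * (C * (C * (z * (B * A)))))))) p = p := by
    have t : (B * A) * (C * (C * (C * (z * (C * (C * z)))))) = 1 := by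
      simpa only [mul_assoc] using h3
    exact ac_rel (by simpa only [mul_assoc] using rot t)
  have k3_7 : ∀ p : G ⧸ H, ac (C * (z * (B * (A * (C * (C * (C * (z * C)))))))) p = p := by
    have t : (B * (A * (C * (C * (C * (z * C)))))) * (C * z) = 1 := by
      simpa only [mul_assoc] using h3
    exact ac_rel (by simpa only [mul_assoc] using rot t)
  have k4_0 := fun p : G ⧸ H => ac_rel h4 p
  have k4_1 : ∀ p : G ⧸ H, ac (A * (B * C⁻¹)) p = p := by
    have t : C⁻¹ * (A * B) = 1 := by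
      simpa only [mul_assoc] using h4
    exact ac_rel (by simpa only [mul_assoc] using rot t)
  have k4_2 : ∀ p : G ⧸ H, ac (B * (C⁻¹ * A)) p = p := by
    have t : (C⁻¹ * A) * B = 1 := by
      simpa only [mul_assoc] using h4
    exact ac_rel (by simpa only [mul_assoc] using rot t)
  have k5_0 := fun p : G ⧸ H => ac_rel h5 p
  have k5_1 : ∀ p : G ⧸ H, ac (C * (C * (z * e⁻¹))) p = p := by
    have t : e⁻¹ * (C * (C * z)) = 1 := by
      simpa only [mul_assoc] using h5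
    exact ac_rel (by simpa only [mul_assoc] using rot t)
  have k5_2 : ∀ p : G ⧸ H, ac (C * (z * (e⁻¹ * C))) p = p := by
    have t : (e⁻¹ * C) * (C * z) = 1 := by
      simpa only [mul_assoc] using h5
    exact ac_rel (by simpa only [mul_assoc] using rot t)
  have k5_3 : ∀ p : G ⧸ H, ac (z * (e⁻¹ * (C * C))) p = p := by
    have t : (e⁻¹ * (C * C)) * z = 1 := by
      simpa only [mul_assoc] using h5
    exact ac_rel (by simpa only [mul_assoc] using rot t)
  have k6_0 := fun p : G ⧸ H => ac_rel h6 p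
  have k6_1 : ∀ p : G ⧸ H, ac (A * (e * (e * D⁻¹))) p = p := by
    have t : D⁻¹ * (A * (e * e)) = 1 := by
      simpa only [mul_assoc] using h6
    exact ac_rel (by simpa only [mul_assoc] using rot t)
  have k6_2 : ∀ p : G ⧸ H, ac (e * (e * (D⁻¹ * A))) p = p := by
    have t : (D⁻¹ * A) * (e * e) = 1 := by
      simpa only [mul_assoc] using h6
    exact ac_rel (by simpa only [mul_assoc] using rot t)
  have k6_3 : ∀ p : G ⧸ H, ac (e * (D⁻¹ * (A * e))) p = p := by
    have t : (D⁻¹ * (A * e)) * e = 1 := by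
      simpa only [mul_assoc] using h6
    exact ac_rel (by simpa only [mul_assoc] using rot t)
  have k7_0 := fun p : G ⧸ H => ac_rel h7 p
  have k7_1 : ∀ p : G ⧸ H, ac (D⁻¹ * (e * (D * f⁻¹))) p = p := by
    have t : f⁻¹ * (D⁻¹ * (e * D)) = 1 := by
      simpa only [mul_assoc] using h7
    exact ac_rel (by simpa only [mul_assoc] using rot t)
  have k7_2 : ∀ p : G ⧸ H, ac (e * (D * (f⁻¹ * D⁻¹))) p = p := by
    have t : (f⁻¹ * D⁻¹) * (e * D) = 1 := by
      simpa only [mul_assoc] using h7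
    exact ac_rel (by simpa only [mul_assoc] using rot t)
  have k7_3 : ∀ p : G ⧸ H, ac (D * (f⁻¹ * (D⁻¹ * e))) p = p := by
    have t : (f⁻¹ * (D⁻¹ * e)) * D = 1 := by
      simpa only [mul_assoc] using h7
    exact ac_rel (by simpa only [mul_assoc] using rot t)
  have k8_0 := fun p : G ⧸ H => ac_rel h8 p
  have k8_1 : ∀ p : G ⧸ H, ac (e * (C * (e⁻¹ * (e⁻¹ * C⁻¹)))) p = p := by
    have t : C⁻¹ * (e * (C * (e⁻¹ * e⁻¹))) = 1 := by
      simpa only [mul_assoc] using h8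
    exact ac_rel (by simpa only [mul_assoc] using rot t)
  have k8_2 : ∀ p : G ⧸ H, ac (C * (e⁻¹ * (e⁻¹ * (C⁻¹ * e)))) p = p := by
    have t : (C⁻¹ * e) * (C * (e⁻¹ * e⁻¹)) = 1 := by
      simpa only [mul_assoc] using h8
    exact ac_rel (by simpa only [mul_assoc] using rot t)
  have k8_3 : ∀ p : G ⧸ H, ac (e⁻¹ * (e⁻¹ * (C⁻¹ * (e * C)))) p = p := by
    have t : (C⁻¹ * (e * C)) * (e⁻¹ * e⁻¹) = 1 := by
      simpa only [mul_assoc] using h8
    exact ac_rel (by simpa only [mul_assoc] using rot t)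
  have k8_4 : ∀ p : G ⧸ H, ac (e⁻¹ * (C⁻¹ * (e * (C * e⁻¹)))) p = p := by
    have t : (C⁻¹ * (e * (C * e⁻¹))) * e⁻¹ = 1 := by
      simpa only [mul_assoc] using h8
    exact ac_rel (by simpa only [mul_assoc] using rot t)
  have k9_0 := fun p : G ⧸ H => ac_rel h9 p
  have k9_1 : ∀ p : G ⧸ H, ac (f * (C⁻¹ * (f⁻¹ * (f⁻¹ * C)))) p = p := by
    have t : C * (f * (C⁻¹ * (f⁻¹ * f⁻¹))) = 1 := by
      simpa only [mul_assoc] using h9
    exact ac_rel (by simpa only [mul_assoc] using rot t)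
  have k9_3 : ∀ p : G ⧸ H, ac (f⁻¹ * (f⁻¹ * (C * (f * C⁻¹)))) p = p := by
    have t : (C * (f * C⁻¹)) * (f⁻¹ * f⁻¹) = 1 := by
      simpa only [mul_assoc] using h9
    exact ac_rel (by simpa only [mul_assoc] using rot t)
  have k9_4 : ∀ p : G ⧸ H, ac (f⁻¹ * (C * (f * (C⁻¹ * f⁻¹)))) p = p := by
    have t : (C * (f * (C⁻¹ * f⁻¹))) * f⁻¹ = 1 := by
      simpa only [mul_assoc] using h9
    exact ac_rel (by simpa only [mul_assoc] using rot t)
  have k10_0 := fun p : G ⧸ H => ac_rel h10 p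
  have k10_1 : ∀ p : G ⧸ H, ac (C * (D * (C * D⁻¹))) p = p := by
    have t : D⁻¹ * (C * (D * C)) = 1 := by
      simpa only [mul_assoc] using h10
    exact ac_rel (by simpa only [mul_assoc] using rot t)
  have k10_2 : ∀ p : G ⧸ H, ac (D * (C * (D⁻¹ * C))) p = p := by
    have t : (D⁻¹ * C) * (D * C) = 1 := by
      simpa only [mul_assoc] using h10
    exact ac_rel (by simpa only [mul_assoc] using rot t)
  have k10_3 : ∀ p : G ⧸ H, ac (C * (D⁻¹ * (C * D))) p = p := by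
    have t : (D⁻¹ * (C * D)) * C = 1 := by
      simpa only [mul_assoc] using h10
    exact ac_rel (by simpa only [mul_assoc] using rot t)
  obtain ⟨p0, hp0⟩ : ∃ p : G ⧸ H, ((1 : G) : G ⧸ H) = p := ⟨_, rfl⟩
  have sub_6 : ac C p0 = p0 := by
    rw [← hp0]
    exact ac_one_of_mem hC
  have sub_10 : ac e p0 = p0 := by
    rw [← hp0]
    exact ac_one_of_mem he
  have f0 : ac C p0 = p0 := sub_6
  have g0 := ac_i f0
  have f1 : ac e p0 = p0 := sub_10
  have g1 := ac_i f1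
  have f2 : ac z p0 = p0 := (step (step (step (k5_0 p0) g1) f0) f0)
  have g2 := ac_i f2
  obtain ⟨p1, f3⟩ : ∃ r, ac B p0 = r := ⟨_, rfl⟩
  have g3 := ac_i f3
  have f4 : ac A p1 = p0 := (step (step (step (step (step (step (step (step (k3_2 p0) f0) f0) f0) f2) f0) f0) f2) f3)
  have g4 := ac_i f4
  have f5 : ac C⁻¹ p1 = p1 := (step (step (k4_1 p1) f4) f3)
  have g5 := ac_j f5
  have f6 : ac D⁻¹ p0 = p1 := (step (step (step (k6_1 p1) f4) f1) f1)
  have g6 := ac_j f6
  obtain ⟨p2, f7⟩ : ∃ r, ac z p1 = r := ⟨_, rfl⟩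
  have g7 := ac_i f7
  have f8 : ac e⁻¹ p2 = p1 := (step (step (step (k5_1 p1) g5) g5) f7)
  have g8 := ac_j f8
  obtain ⟨p3, f9⟩ : ∃ r, ac D p2 = r := ⟨_, rfl⟩
  have g9 := ac_i f9
  have f10 : ac f⁻¹ p3 = p0 := (step (step (step (k7_1 p0) f6) g8) f9)
  have g10 := ac_j f10
  obtain ⟨p4, f11⟩ : ∃ r, ac C⁻¹ p3 = r := ⟨_, rfl⟩
  have g11 := ac_j f11
  have f12 : ac f⁻¹ p4 = p3 := (step (step (step (step (k9_4 p3) f10) f0) g10) f11)
  have g12 := ac_j f12
  obtain ⟨p5, f13⟩ : ∃ r, ac C p2 = r := ⟨_, rfl⟩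
  have g13 := ac_i f13
  have f14 : ac D p5 = p4 := (step (step (step (k10_3 p4) g11) g9) f13)
  have g14 := ac_i f14
  have f15 : ac e⁻¹ p5 = p2 := (step (step (step (step (k8_4 p2) f8) f5) g8) f13)
  have g15 := ac_j f15
  obtain ⟨p7, f18⟩ : ∃ r, ac A p0 = r := ⟨_, rfl⟩
  have g18 := ac_i f18
  have f19 : ac B p7 = p0 := (step (step (k4_0 p0) g0) f18)
  have g19 := ac_i f19
  obtain ⟨p8, f20⟩ : ∃ r, ac C p5 = r := ⟨_, rfl⟩
  have g20 := ac_i f20
  have f21 : ac z p8 = p5 := (step (step (step (step (step (step (k2_0 p5) g13) g7) g5) f7) f13) f20)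
  have g21 := ac_i f21
  obtain ⟨p9, f22⟩ : ∃ r, ac f⁻¹ p0 = r := ⟨_, rfl⟩
  have g22 := ac_j f22
  obtain ⟨p10, f23⟩ : ∃ r, ac D⁻¹ p5 = r := ⟨_, rfl⟩
  have g23 := ac_j f23
  have f24 : ac A p10 = p1 := (step (step (step (k6_2 p1) g8) g15) f23)
  have g24 := ac_i f24
  obtain ⟨p11, f26⟩ : ∃ r, ac A p2 = r := ⟨_, rfl⟩
  have g26 := ac_i f26
  have f27 : ac B p11 = p5 := (step (step (k4_0 p5) g13) f26)
  have g27 := ac_i f27
  obtain ⟨p12, f28⟩ : ∃ r, ac D⁻¹ p9 = r := ⟨_, rfl⟩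
  have g28 := ac_j f28
  have f29 : ac e p12 = p1 := (step (step (step (k7_3 p1) g6) f22) f28)
  have g29 := ac_i f29
  obtain ⟨p13, f30⟩ : ∃ r, ac e p11 = r := ⟨_, rfl⟩
  have g30 := ac_i f30
  have f31 : ac e p13 = p3 := (step (step (step (k6_0 p3) g9) f26) f30)
  have g31 := ac_i f31
  obtain ⟨p14, f32⟩ : ∃ r, ac e⁻¹ p8 = r := ⟨_, rfl⟩
  have g32 := ac_j f32
  have f33 : ac e⁻¹ p14 = p5 := (step (step (step (step (k8_0 p5) g13) g15) f20) f32)
  have g33 := ac_j f33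
  obtain ⟨p15, f34⟩ : ∃ r, ac B p1 = r := ⟨_, rfl⟩
  have g34 := ac_i f34
  have f35 : ac C⁻¹ p15 = p10 := (step (step (k4_1 p10) f24) f34)
  have g35 := ac_j f35
  have f36 : ac D p15 = p2 := (step (step (step (k10_3 p2) f13) f23) g35)
  have g36 := ac_i f36
  obtain ⟨p16, f38⟩ : ∃ r, ac A p7 = r := ⟨_, rfl⟩
  have g38 := ac_i f38
  have f39 : ac z p16 = p11 := (step (step (step (step (step (step (k0_0 p11) g26) g7) f4) f2) f18) f38)
  have g39 := ac_i f39
  obtain ⟨p17, f40⟩ : ∃ r, ac e⁻¹ p12 = r := ⟨_, rfl⟩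
  have g40 := ac_j f40
  have f41 : ac C⁻¹ p17 = p12 := (step (step (step (step (k8_1 p12) f29) g5) g29) f40)
  have g41 := ac_j f41
  obtain ⟨p19, f44⟩ : ∃ r, ac f⁻¹ p9 = r := ⟨_, rfl⟩
  have g44 := ac_j f44
  have f45 : ac C p19 = p9 := (step (step (step (step (k9_1 p9) g22) g0) f22) f44)
  have g45 := ac_i f45
  have f46 : ac D⁻¹ p19 = p17 := (step (step (step (k7_2 p17) g40) g28) f44)
  have g46 := ac_j f46
  obtain ⟨p20, f47⟩ : ∃ r, ac D⁻¹ p14 = r := ⟨_, rfl⟩
  have g47 := ac_j f47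
  have f48 : ac A p20 = p2 := (step (step (step (k6_2 p2) g15) g33) f47)
  have g48 := ac_i f48
  obtain ⟨p21, f49⟩ : ∃ r, ac D p0 = r := ⟨_, rfl⟩
  have g49 := ac_i f49
  have f50 : ac C p21 = p21 := (step (step (step (k10_0 p21) g49) f0) f49)
  have g50 := ac_i f50
  obtain ⟨p22, f52⟩ : ∃ r, ac C p17 = r := ⟨_, rfl⟩
  have g52 := ac_i f52
  have f53 : ac z p22 = p1 := (step (step (step (k5_0 p1) g29) g41) f52)
  have g53 := ac_i f53
  obtain ⟨p23, f54⟩ : ∃ r, ac B p2 = r := ⟨_, rfl⟩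
  have g54 := ac_i f54
  have f55 : ac B p23 = p22 := (step (step (step (step (step (step (k1_6 p22) f53) g3) g2) f3) f7) f54)
  have g55 := ac_i f55
  have f56 : ac C⁻¹ p23 = p20 := (step (step (k4_1 p20) f48) f54)
  have g56 := ac_j f56
  have f57 : ac A p17 = p23 := (step (step (k4_2 p23) f55) g52)
  have g57 := ac_i f57
  obtain ⟨p26, f62⟩ : ∃ r, ac D p14 = r := ⟨_, rfl⟩
  have g62 := ac_i f62
  have f63 : ac f⁻¹ p26 = p4 := (step (step (step (k7_1 p4) g14) g33) f62)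
  have g63 := ac_j f63
  obtain ⟨p27, f64⟩ : ∃ r, ac C⁻¹ p2 = r := ⟨_, rfl⟩
  have g64 := ac_j f64
  have f65 : ac z⁻¹ p27 = p17 := (step (step (step (step (step (step (k2_2 p17) f52) f53) g5) g5) f7) f64)
  have g65 := ac_j f65
  obtain ⟨p28, f67⟩ : ∃ r, ac A p22 = r := ⟨_, rfl⟩
  have g67 := ac_i f67
  have f68 : ac z p28 = p10 := (step (step (step (step (step (step (k0_4 p10) f24) f4) f2) g4) g53) f67)
  have g68 := ac_i f68
  obtain ⟨p32, f79⟩ : ∃ r, ac C p11 = r := ⟨_, rfl⟩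
  have g79 := ac_i f79
  obtain ⟨p34, f83⟩ : ∃ r, ac z p15 = r := ⟨_, rfl⟩
  have g83 := ac_i f83
  obtain ⟨p35, f84⟩ : ∃ r, ac B⁻¹ p34 = r := ⟨_, rfl⟩
  have g84 := ac_j f84
  have f85 : ac z⁻¹ p35 = p7 := (step (step (step (step (step (step (k1_2 p7) f19) f2) f3) f34) f83) f84)
  have g85 := ac_j f85
  obtain ⟨p36, f86⟩ : ∃ r, ac C p3 = r := ⟨_, rfl⟩
  have g86 := ac_i f86
  have f87 : ac D⁻¹ p36 = p27 := (step (step (step (k10_1 p27) g64) f9) f86)
  have g87 := ac_j f87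
  obtain ⟨p41, f96⟩ : ∃ r, ac f p36 = r := ⟨_, rfl⟩
  have g96 := ac_i f96
  have f97 : ac C⁻¹ p41 = p26 := (step (step (step (step (k9_3 p26) f63) f12) f86) f96)
  have g97 := ac_j f97
  obtain ⟨p45, f104⟩ : ∃ r, ac B p34 = r := ⟨_, rfl⟩
  have g104 := ac_i f104
  obtain ⟨p47, f108⟩ : ∃ r, ac e⁻¹ p36 = r := ⟨_, rfl⟩
  have g108 := ac_j f108
  obtain ⟨p49, f111⟩ : ∃ r, ac A p5 = r := ⟨_, rfl⟩
  have g111 := ac_i f111
  have f112 : ac B p49 = p8 := (step (step (k4_0 p8) g20) f111)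
  have g112 := ac_i f112
  obtain ⟨p50, f114⟩ : ∃ r, ac B p45 = r := ⟨_, rfl⟩
  have g114 := ac_i f114
  have f115 : ac z p50 = p23 := (step (step (step (step (step (step (k1_0 p23) g54) g7) f34) f83) f104) f114)
  have g115 := ac_i f115
  obtain ⟨p52, f118⟩ : ∃ r, ac e⁻¹ p47 = r := ⟨_, rfl⟩
  have g118 := ac_j f118
  have f119 : ac C⁻¹ p52 = p13 := (step (step (step (step (k8_1 p13) f31) f86) f108) f118)
  have g119 := ac_j f119
  have f120 : ac A p27 = p52 := (step (step (step (k6_2 p52) g118) g108) f87)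
  have g120 := ac_i f120
  have f121 : ac B p52 = p2 := (step (step (k4_0 p2) f64) f120)
  have g121 := ac_i f121
  obtain ⟨p53, f122⟩ : ∃ r, ac z⁻¹ p52 = r := ⟨_, rfl⟩
  have g122 := ac_j f122
  obtain ⟨p54, f123⟩ : ∃ r, ac B p53 = r := ⟨_, rfl⟩
  have g123 := ac_i f123
  have f124 : ac z p54 = p7 := (step (step (step (step (step (step (k1_4 p7) f19) f3) f7) g121) f122) f123)
  have g124 := ac_i f124
  obtain ⟨p55, f125⟩ : ∃ r, ac A⁻¹ p35 = r := ⟨_, rfl⟩
  have g125 := ac_j f125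
  have f126 : ac C⁻¹ p34 = p55 := (step (step (k4_1 p55) g125) g84)
  have g126 := ac_j f126
  obtain ⟨p58, f132⟩ : ∃ r, ac C p32 = r := ⟨_, rfl⟩
  have g132 := ac_i f132
  obtain ⟨p62, f141⟩ : ∃ r, ac z p5 = r := ⟨_, rfl⟩
  have g141 := ac_i f141
  have f142 : ac e⁻¹ p62 = p27 := (step (step (step (k5_1 p27) g64) f13) f141)
  have g142 := ac_j f142
  have f144 : ac C p62 = p14 := (step (step (step (step (k8_3 p14) f33) f15) f64) g142)
  have g144 := ac_i f144
  have f145 : ac D p62 = p41 := (step (step (step (k7_0 p41) g96) f87) g142)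
  have g145 := ac_i f145
  obtain ⟨p63, f146⟩ : ∃ r, ac z⁻¹ p55 = r := ⟨_, rfl⟩
  have g146 := ac_j f146
  have f147 : ac A p63 = p22 := (step (step (step (step (step (step (k0_3 p22) f53) f4) f18) g85) f125) f146)
  have g147 := ac_i f147
  obtain ⟨p67, f154⟩ : ∃ r, ac C⁻¹ p62 = r := ⟨_, rfl⟩
  have g154 := ac_j f154
  obtain ⟨p79, f179⟩ : ∃ r, ac C p8 = r := ⟨_, rfl⟩
  have g179 := ac_i f179
  have f180 : ac z p79 = p14 := (step (step (step (step (step (step (k2_0 p14) g144) g141) f20) f21) f20) f179)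
  have g180 := ac_i f180
  obtain ⟨p87, f193⟩ : ∃ r, ac D⁻¹ p8 = r := ⟨_, rfl⟩
  have g193 := ac_j f193
  have f195 : ac C p87 = p10 := (step (step (step (k10_2 p10) g23) f20) f193)
  have g195 := ac_i f195
  obtain ⟨p92, f205⟩ : ∃ r, ac B p16 = r := ⟨_, rfl⟩
  have g205 := ac_i f205
  have f206 : ac C⁻¹ p92 = p7 := (step (step (k4_1 p7) f38) f205)
  have g206 := ac_j f206
  obtain ⟨p94, f208⟩ : ∃ r, ac z p92 = r := ⟨_, rfl⟩
  have g208 := ac_i f208
  have f209 : ac B p94 = p49 := (step (step (step (step (step (step (k1_5 p49) f112) f21) g27) g39) f205) f208)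
  have g209 := ac_i f209
  obtain ⟨p95, f211⟩ : ∃ r, ac f⁻¹ p5 = r := ⟨_, rfl⟩
  have g211 := ac_j f211
  obtain ⟨p102, f222⟩ : ∃ r, ac A p35 = r := ⟨_, rfl⟩
  have g222 := ac_i f222
  have f223 : ac A p102 = p54 := (step (step (step (step (step (step (k0_6 p54) f124) g18) g2) f18) g85) f222)
  have g223 := ac_i f223
  obtain ⟨p103, f224⟩ : ∃ r, ac C p14 = r := ⟨_, rfl⟩
  have g224 := ac_i f224
  obtain ⟨p104, f226⟩ : ∃ r, ac C p103 = r := ⟨_, rfl⟩
  have g226 := ac_i f226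
  have f227 : ac z p104 = p8 := (step (step (step (step (step (step (k2_0 p8) g20) g21) f179) f180) f224) f226)
  have g227 := ac_i f227
  obtain ⟨p105, f229⟩ : ∃ r, ac e⁻¹ p94 = r := ⟨_, rfl⟩
  have g229 := ac_j f229
  have f230 : ac C p105 = p7 := (step (step (step (k5_2 p7) g206) f208) f229)
  have g230 := ac_i f230
  obtain ⟨p106, f231⟩ : ∃ r, ac e⁻¹ p35 = r := ⟨_, rfl⟩
  have g231 := ac_j f231
  have f232 : ac C p106 = p105 := (step (step (step (k5_2 p105) f230) g85) f231)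
  have g232 := ac_i f232
  obtain ⟨p107, f233⟩ : ∃ r, ac e p7 = r := ⟨_, rfl⟩
  have g233 := ac_i f233
  have f234 : ac e p107 = p21 := (step (step (step (k6_0 p21) g49) f18) f233)
  have g234 := ac_i f234
  have q235 : p94 = p21 := g229.symm.trans (step (step (step (step (k8_2 p21) f50) g234) g233) g230)
  have q236 : p21 = p94 := q235.symm
  have f238 : ac B p21 = p49 := trn f209 (q236.symm) (rfl)
  have g238 := ac_i f238
  have f239 : ac z⁻¹ p21 = p92 := trn g208 (q236.symm) (rfl)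
  have g239 := ac_j f239
  obtain ⟨p109, f246⟩ : ∃ r, ac C p92 = r := ⟨_, rfl⟩
  have g246 := ac_i f246
  have f247 : ac z p109 = p105 := (step (step (step (step (step (step (k2_4 p105) f230) g206) g239) g50) f239) f246)
  have g247 := ac_i f247
  have f248 : ac A p49 = p105 := (step (step (step (step (step (step (step (step (k3_2 p105) f230) g206) f246) f247) f230) g206) g239) f238)
  have g248 := ac_i f248
  obtain ⟨p110, f249⟩ : ∃ r, ac e⁻¹ p103 = r := ⟨_, rfl⟩
  have g249 := ac_j f249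
  have f250 : ac e⁻¹ p110 = p8 := (step (step (step (step (k8_0 p8) g20) g33) f224) f249)
  have g250 := ac_j f250
  obtain ⟨p111, f252⟩ : ∃ r, ac z p103 = r := ⟨_, rfl⟩
  have g252 := ac_i f252
  have f254 : ac e⁻¹ p111 = p62 := (step (step (step (k5_1 p62) f144) f224) f252)
  have g254 := ac_j f254
  have f256 : ac C p111 = p110 := (step (step (step (step (k8_3 p110) f250) f32) g144) g254)
  have g256 := ac_i f256
  obtain ⟨p115, f262⟩ : ∃ r, ac A p105 = r := ⟨_, rfl⟩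
  have g262 := ac_i f262
  have f263 : ac B p115 = p7 := (step (step (k4_0 p7) g230) f262)
  have g263 := ac_i f263
  obtain ⟨p116, f264⟩ : ∃ r, ac D⁻¹ p95 = r := ⟨_, rfl⟩
  have g264 := ac_j f264
  have f265 : ac e p116 = p10 := (step (step (step (k7_3 p10) g23) f211) f264)
  have g265 := ac_i f265
  obtain ⟨p117, f266⟩ : ∃ r, ac z⁻¹ p106 = r := ⟨_, rfl⟩
  have g266 := ac_j f266
  have f267 : ac C p117 = p54 := (step (step (step (step (step (step (k2_3 p54) f124) g206) f246) f247) g232) f266)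
  have g267 := ac_i f267
  have f268 : ac A p117 = p53 := (step (step (k4_2 p53) f123) g267)
  have g268 := ac_i f268
  obtain ⟨p121, f274⟩ : ∃ r, ac e⁻¹ p7 = r := ⟨_, rfl⟩
  have g274 := ac_j f274
  have f275 : ac C p121 = p117 := (step (step (step (k5_2 p117) f267) f124) f274)
  have g275 := ac_i f275
  obtain ⟨p123, f279⟩ : ∃ r, ac B p54 = r := ⟨_, rfl⟩
  have g279 := ac_i f279
  have f280 : ac C⁻¹ p123 = p102 := (step (step (k4_1 p102) f223) f279)
  have g280 := ac_j f280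
  have f281 : ac z p123 = p115 := (step (step (step (step (step (step (k1_4 p115) f263) f19) f2) g19) g124) f279)
  have g281 := ac_i f281
  obtain ⟨p126, f287⟩ : ∃ r, ac f⁻¹ p2 = r := ⟨_, rfl⟩
  have g287 := ac_j f287
  obtain ⟨p129, f292⟩ : ∃ r, ac e⁻¹ p92 = r := ⟨_, rfl⟩
  have g292 := ac_j f292
  have f293 : ac e⁻¹ p129 = p117 := (step (step (step (step (k8_0 p117) g275) g274) g206) f292)
  have g293 := ac_j f293
  obtain ⟨p130, f294⟩ : ∃ r, ac D⁻¹ p126 = r := ⟨_, rfl⟩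
  have g294 := ac_j f294
  have f295 : ac e p130 = p15 := (step (step (step (k7_3 p15) f36) f287) f294)
  have g295 := ac_i f295
  obtain ⟨p136, f305⟩ : ∃ r, ac C p79 = r := ⟨_, rfl⟩
  have g305 := ac_i f305
  have f306 : ac z p136 = p110 := (step (step (step (step (step (step (k2_0 p110) g256) g252) f226) f227) f179) f305)
  have g306 := ac_i f306
  obtain ⟨p141, f318⟩ : ∃ r, ac B p110 = r := ⟨_, rfl⟩
  have g318 := ac_i f318
  have f319 : ac A p141 = p62 := (step (step (step (step (step (step (step (step (k3_2 p62) f144) f224) f226) f227) f179) f305) f306) f318)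
  have g319 := ac_i f319
  obtain ⟨p155, f352⟩ : ∃ r, ac D⁻¹ p92 = r := ⟨_, rfl⟩
  have g352 := ac_j f352
  have f353 : ac A p155 = p117 := (step (step (step (k6_2 p117) g293) g292) f352)
  have g353 := ac_i f353
  have f355 : ac z p23 = p155 := (step (step (step (step (step (step (k0_4 p155) f353) f268) g122) g120) f65) f57)
  have g355 := ac_i f355
  obtain ⟨p156, f357⟩ : ∃ r, ac A p12 = r := ⟨_, rfl⟩
  have g357 := ac_i f357
  obtain ⟨p157, f359⟩ : ∃ r, ac D⁻¹ p103 = r := ⟨_, rfl⟩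
  have g359 := ac_j f359
  have f361 : ac C p157 = p20 := (step (step (step (k10_2 p20) g47) f224) f359)
  have g361 := ac_i f361
  have f362 : ac e⁻¹ p155 = p157 := (step (step (step (k5_1 p157) f361) g56) f355)
  have g362 := ac_j f362
  have f363 : ac f⁻¹ p92 = p103 := (step (step (step (k7_1 p103) f359) g362) g352)
  have g363 := ac_j f363
  obtain ⟨p163, f377⟩ : ∃ r, ac f⁻¹ p7 = r := ⟨_, rfl⟩
  have g377 := ac_j f377
  have f378 : ac f⁻¹ p163 = p14 := (step (step (step (step (k9_0 p14) f224) g363) f206) f377)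
  have g378 := ac_j f378
  obtain ⟨p165, f383⟩ : ∃ r, ac e p156 = r := ⟨_, rfl⟩
  have g383 := ac_i f383
  have f384 : ac e p165 = p9 := (step (step (step (k6_0 p9) f28) f357) f383)
  have g384 := ac_i f384
  obtain ⟨p167, f388⟩ : ∃ r, ac D⁻¹ p79 = r := ⟨_, rfl⟩
  have g388 := ac_j f388
  have f389 : ac C p167 = p87 := (step (step (step (k10_2 p87) g193) f179) f388)
  have g389 := ac_i f389
  obtain ⟨p168, f390⟩ : ∃ r, ac e⁻¹ p79 = r := ⟨_, rfl⟩
  have g390 := ac_j f390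
  have f391 : ac e⁻¹ p168 = p103 := (step (step (step (step (k8_0 p103) g224) g32) f179) f390)
  have g391 := ac_j f391
  have f392 : ac A p167 = p103 := (step (step (step (k6_2 p103) g391) g390) f388)
  have g392 := ac_i f392
  have f393 : ac B p103 = p87 := (step (step (k4_0 p87) g389) f392)
  have g393 := ac_i f393
  obtain ⟨p169, f394⟩ : ∃ r, ac C⁻¹ p156 = r := ⟨_, rfl⟩
  have g394 := ac_j f394
  have f395 : ac e p169 = p19 := (step (step (step (step (k8_2 p19) f45) g384) g383) f394)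
  have g395 := ac_i f395
  have f396 : ac e p23 = p169 := (step (step (step (k6_3 p169) f395) f46) f57)
  have g396 := ac_i f396
  obtain ⟨p176, f409⟩ : ∃ r, ac D⁻¹ p163 = r := ⟨_, rfl⟩
  have g409 := ac_j f409
  have f411 : ac e p20 = p176 := (step (step (step (k7_3 p176) g409) f378) f47)
  have g411 := ac_i f411
  have f412 : ac C p176 = p19 := (step (step (step (step (k8_3 p19) g395) g396) f56) f411)
  have g412 := ac_i f412
  have f414 : ac D p22 = p176 := (step (step (step (k10_3 p176) f412) f46) f52)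
  have g414 := ac_i f414
  have f416 : ac e p28 = p20 := (step (step (step (k6_3 p20) f411) g414) f67)
  have g416 := ac_i f416
  obtain ⟨p177, f417⟩ : ∃ r, ac e p16 = r := ⟨_, rfl⟩
  have g417 := ac_i f417
  obtain ⟨p181, f427⟩ : ∃ r, ac e p177 = r := ⟨_, rfl⟩
  have g427 := ac_i f427
  have f428 : ac D⁻¹ p181 = p7 := (step (step (step (k6_1 p7) f38) f417) f427)
  have g428 := ac_j f428
  obtain ⟨p183, f431⟩ : ∃ r, ac D p92 = r := ⟨_, rfl⟩
  have g431 := ac_i f431
  have f432 : ac C p183 = p181 := (step (step (step (k10_0 p181) f428) g206) f431)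
  have g432 := ac_i f432
  obtain ⟨p196, f459⟩ : ∃ r, ac C p63 = r := ⟨_, rfl⟩
  have g459 := ac_i f459
  have f460 : ac z p196 = p87 := (step (step (step (step (step (step (k2_4 p87) f195) g35) f83) f126) f146) f459)
  have g460 := ac_i f460
  have f461 : ac B p22 = p196 := (step (step (k4_0 p196) g459) f147)
  have g461 := ac_i f461
  have f462 : ac z⁻¹ p103 = p45 := (step (step (step (step (step (step (k1_2 p45) f114) f115) f55) f461) f460) g393)
  have g462 := ac_j f462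
  obtain ⟨p200, f471⟩ : ∃ r, ac B⁻¹ p103 = r := ⟨_, rfl⟩
  have g471 := ac_j f471
  have f472 : ac z⁻¹ p200 = p115 := (step (step (step (step (step (step (k1_2 p115) f263) g85) g84) f104) g462) f471)
  have g472 := ac_j f472
  have f473 : ac A p14 = p200 := (step (step (k4_2 p200) g471) g224)
  have g473 := ac_i f473
  obtain ⟨p207, f487⟩ : ∃ r, ac e⁻¹ p130 = r := ⟨_, rfl⟩
  have g487 := ac_j f487
  have f488 : ac C⁻¹ p207 = p116 := (step (step (step (step (k8_1 p116) f265) g35) g295) f487)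
  have g488 := ac_j f488
  have f490 : ac C p207 = p28 := (step (step (step (k5_3 p28) f68) g265) g488)
  have g490 := ac_i f490
  have f492 : ac C p130 = p176 := (step (step (step (step (k8_3 p176) g411) g416) g490) g487)
  have g492 := ac_i f492
  have f493 : ac z p19 = p15 := (step (step (step (k5_0 p15) g295) f492) f412)
  have g493 := ac_i f493
  obtain ⟨p217, f530⟩ : ∃ r, ac e⁻¹ p11 = r := ⟨_, rfl⟩
  have g530 := ac_j f530
  obtain ⟨p221, f542⟩ : ∃ r, ac e⁻¹ p52 = r := ⟨_, rfl⟩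
  have g542 := ac_j f542
  have f543 : ac e⁻¹ p221 = p32 := (step (step (step (step (k8_0 p32) g79) f30) g119) f542)
  have g543 := ac_j f543
  obtain ⟨p233, f573⟩ : ∃ r, ac C p217 = r := ⟨_, rfl⟩
  have g573 := ac_i f573
  have f574 : ac C p233 = p16 := (step (step (step (k5_3 p16) f39) f530) f573)
  have g574 := ac_i f574
  have f575 : ac e p233 = p183 := (step (step (step (step (k8_2 p183) f432) g427) g417) g574)
  have g575 := ac_i f575
  have f576 : ac e⁻¹ p32 = p183 := (step (step (step (step (k8_4 p183) g575) g573) g530) f79)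
  have g576 := ac_j f576
  obtain ⟨p243, f596⟩ : ∃ r, ac C p16 = r := ⟨_, rfl⟩
  have g596 := ac_i f596
  obtain ⟨p278, f689⟩ : ∃ r, ac A p67 = r := ⟨_, rfl⟩
  have g689 := ac_i f689
  have f690 : ac B p278 = p62 := (step (step (k4_0 p62) f154) f689)
  have g690 := ac_i f690
  obtain ⟨p315, f769⟩ : ∃ r, ac A p62 = r := ⟨_, rfl⟩
  have g769 := ac_i f769
  obtain ⟨p326, f795⟩ : ∃ r, ac A p79 = r := ⟨_, rfl⟩
  have g795 := ac_i f795
  have f796 : ac z p326 = p49 := (step (step (step (step (step (step (k0_4 p49) f248) f262) g472) g473) g180) f795)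
  have g796 := ac_i f796
  have f797 : ac B p326 = p136 := (step (step (k4_0 p136) g305) f795)
  have g797 := ac_i f797
  have f798 : ac B p141 = p104 := (step (step (step (step (step (step (k1_6 p104) f227) g112) g796) f797) f306) f318)
  have g798 := ac_i f798
  have f799 : ac A p103 = p141 := (step (step (k4_2 p141) f798) g226)
  have g799 := ac_i f799
  obtain ⟨p334, f813⟩ : ∃ r, ac B p87 = r := ⟨_, rfl⟩
  have g813 := ac_i f813
  have f814 : ac B p334 = p19 := (step (step (step (step (step (step (k1_6 p19) f493) g34) g53) f461) f460) f813)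
  have g814 := ac_i f814
  obtain ⟨p363, f877⟩ : ∃ r, ac C p243 = r := ⟨_, rfl⟩
  have g877 := ac_i f877
  have f878 : ac z p363 = p177 := (step (step (step (k5_0 p177) g417) f596) f877)
  have g878 := ac_i f878
  obtain ⟨p434, f1066⟩ : ∃ r, ac C⁻¹ p177 = r := ⟨_, rfl⟩
  have g1066 := ac_j f1066
  obtain ⟨p477, f1165⟩ : ∃ r, ac C p363 = r := ⟨_, rfl⟩
  have g1165 := ac_i f1165
  obtain ⟨p484, f1179⟩ : ∃ r, ac z p477 = r := ⟨_, rfl⟩
  have g1179 := ac_i f1179
  have f1180 : ac C p484 = p102 := (step (step (step (step (step (step (step (step (k3_7 p102) g280) f281) f263) f38) f596) f877) f1165) f1179)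
  have g1180 := ac_i f1180
  have f1181 : ac C⁻¹ p115 = p177 := (step (step (step (step (step (step (k2_1 p177) g878) f1165) f1179) f1180) g280) f281)
  have g1181 := ac_j f1181
  have f1189 : ac e⁻¹ p200 = p434 := (step (step (step (k5_1 p434) g1066) g1181) g472)
  have g1189 := ac_j f1189
  obtain ⟨p490, f1208⟩ : ∃ r, ac e p200 = r := ⟨_, rfl⟩
  have g1208 := ac_i f1208
  have f1209 : ac e p490 = p26 := (step (step (step (k6_0 p26) g62) f473) f1208)
  have g1209 := ac_i f1209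
  obtain ⟨p522, f1283⟩ : ∃ r, ac C p490 = r := ⟨_, rfl⟩
  have g1283 := ac_i f1283
  obtain ⟨p523, f1284⟩ : ∃ r, ac e⁻¹ p41 = r := ⟨_, rfl⟩
  have g1284 := ac_j f1284
  have f1285 : ac e⁻¹ p523 = p522 := (step (step (step (step (k8_0 p522) g1283) f1209) g97) f1284)
  have g1285 := ac_j f1285
  have q1286 : p315 = p522 := f769.symm.trans (step (step (step (k6_2 p522) g1285) g1284) g145)
  have q1287 : p315 = p522 := q1286
  have f1288 : ac C⁻¹ p315 = p490 := trn g1283 (q1287.symm) (rfl)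
  have g1288 := ac_j f1288
  have f1289 : ac e p315 = p523 := trn g1285 (q1287.symm) (rfl)
  have g1289 := ac_i f1289
  obtain ⟨p536, f1313⟩ : ∃ r, ac C p41 = r := ⟨_, rfl⟩
  have g1313 := ac_i f1313
  have f1314 : ac D⁻¹ p536 = p67 := (step (step (step (k10_1 p67) g154) f145) f1313)
  have g1314 := ac_j f1314
  obtain ⟨p630, f1532⟩ : ∃ r, ac e⁻¹ p58 = r := ⟨_, rfl⟩
  have g1532 := ac_j f1532
  have f1533 : ac e⁻¹ p630 = p181 := (step (step (step (step (k8_0 p181) g432) g576) f132) f1532)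
  have g1533 := ac_j f1533
  have f1535 : ac C p200 = p630 := (step (step (step (step (k8_3 p630) f1533) g427) f1066) g1189)
  have g1535 := ac_i f1535
  have f1538 : ac e⁻¹ p315 = p58 := (step (step (step (step (k8_4 p58) f1532) g1535) f1208) g1288)
  have g1538 := ac_j f1538
  have f1539 : ac C p221 = p523 := (step (step (step (step (k8_3 p523) g1289) f1538) g132) g543)
  have g1539 := ac_i f1539
  have f1540 : ac C p523 = p53 := (step (step (step (k5_3 p53) g122) f542) f1539)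
  have g1540 := ac_i f1540
  obtain ⟨p810, f1968⟩ : ∃ r, ac e⁻¹ p536 = r := ⟨_, rfl⟩
  have g1968 := ac_j f1968
  have f1969 : ac e⁻¹ p810 = p53 := (step (step (step (step (k8_0 p53) g1540) g1284) f1313) f1968)
  have g1969 := ac_j f1969
  have q1970 : p278 = p53 := f689.symm.trans (step (step (step (k6_2 p53) g1969) g1968) f1314)
  have q1971 : p53 = p278 := q1970.symm
  have q1975 : p54 = p62 := f123.symm.trans (trn f690 (q1971.symm) (rfl))
  have q1976 : p54 = p62 := q1975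
  have q1991 : p102 = p141 := g223.symm.trans (trn g319 (q1976.symm) (rfl))
  have q1992 : p102 = p141 := q1991
  have q2026 : p35 = p103 := g222.symm.trans (trn g799 (q1992.symm) (rfl))
  have q2027 : p35 = p103 := q2026
  have q2068 : p34 = p87 := g84.symm.trans (trn f393 (q2027.symm) (rfl))
  have q2069 : p34 = p87 := q2068
  have q2074 : p7 = p45 := f85.symm.trans (trn f462 (q2027.symm) (rfl))
  have q2075 : p7 = p45 := q2074
  have q2131 : p45 = p334 := f104.symm.trans (trn f813 (q2069.symm) (rfl))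
  have q2132 : p7 = p334 := (q2075).trans q2131
  have q2293 : p0 = p19 := f19.symm.trans (trn f814 (q2132.symm) (rfl))
  have q2294 : p0 = p19 := q2293
  have q2715 : p0 = p9 := f0.symm.trans (trn f45 (q2294.symm) (rfl))
  have q2716 : p0 = p9 := q2715
  have q2724 : p3 = p0 := g10.symm.trans (trn g44 (q2294.symm) (q2716.symm))
  have q2725 : p0 = p3 := q2724.symm
  have f3710 : ac f⁻¹ p0 = p0 := trn f10 (q2725.symm) (rfl)
  have g3710 := ac_j f3710
  rw [← hp0] at f3710 g3710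
  exact mem_of_ac_one g3710

/-- The subgroup of the elements `C ^ k e ^ m C ^ (-k)`. -/
def nn (C e : G) (h : e * C = C * e ^ 2) : Subgroup G where
  carrier := {x | ∃ k : ℕ, ∃ m : ℤ, x = C ^ k * e ^ m * (C ^ k)⁻¹}
  one_mem' := ⟨0, 0, by simp⟩
  mul_mem' := by
    have h1 : ∀ m : ℤ, e ^ m * C = C * e ^ (2 * m) := by
      intro m
      have h2 : C⁻¹ * e * C⁻¹⁻¹ = e ^ 2 := by
        rw [inv_inv, mul_assoc, h, inv_mul_cancel_left]
      have h3 : C⁻¹ * e ^ m * C⁻¹⁻¹ = e ^ (2 * m) := by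
        rw [← conj_zpow, h2, ← zpow_natCast, ← zpow_mul]
        rfl
      rw [← h3]
      group
    have h4 : ∀ (j k : ℕ) (m : ℤ), C ^ k * e ^ m * (C ^ k)⁻¹
        = C ^ (k + j) * e ^ (m * 2 ^ j) * (C ^ (k + j))⁻¹ := by
      intro j
      induction j with
      | zero => intro k m; simp
      | succ j ih =>
        intro k m
        rw [ih k m]
        have h5 := h1 (m * 2 ^ j)
        have h6 : e ^ (m * 2 ^ j) = C * e ^ (2 * (m * 2 ^ j)) * C⁻¹ := by
          rw [← h5]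
          group
        rw [h6, ← add_assoc, pow_succ C (k + j), show m * 2 ^ (j + 1) = 2 * (m * 2 ^ j) by ring]
        simp only [mul_assoc, mul_inv_rev]
    rintro x y ⟨k, m, rfl⟩ ⟨l, n, rfl⟩
    refine ⟨k + l, m * 2 ^ l + n * 2 ^ k, ?_⟩
    rw [h4 l k m, h4 k l n, add_comm l k, zpow_add]
    group
  inv_mem' := by
    rintro x ⟨k, m, rfl⟩
    exact ⟨k, -m, by group⟩

theorem nn_down (C e : G) (h : e * C = C * e ^ 2) (x : G) (hx : x ∈ nn C e h) :
    C⁻¹ * x * C = x ^ 2 := by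
  obtain ⟨k, m, rfl⟩ := hx
  have h2 : C⁻¹ * e * C⁻¹⁻¹ = e ^ 2 := by
    rw [inv_inv, mul_assoc, h, inv_mul_cancel_left]
  have h3 : C⁻¹ * e ^ m * C⁻¹⁻¹ = e ^ (2 * m) := by
    rw [← conj_zpow, h2, ← zpow_natCast, ← zpow_mul]
    rfl
  have h4 : C⁻¹ * (C ^ k * e ^ m * (C ^ k)⁻¹) * C = C ^ k * (C⁻¹ * e ^ m * C⁻¹⁻¹) * (C ^ k)⁻¹ := by
    group
  rw [h4, h3, conj_pow, ← zpow_natCast (e ^ m), ← zpow_mul, mul_comm m]
  rfl

theorem nn_up (C e : G) (h : e * C = C * e ^ 2) (x : G) (hx : x ∈ nn C e h) :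
    C * x * C⁻¹ ∈ nn C e h := by
  obtain ⟨k, m, rfl⟩ := hx
  refine ⟨k + 1, m, ?_⟩
  rw [pow_succ']
  simp only [mul_assoc, mul_inv_rev]

theorem nn_conj (C e : G) (h : e * C = C * e ^ 2) (j : ℤ) :
    ∀ x ∈ nn C e h, C ^ j * x * (C ^ j)⁻¹ ∈ nn C e h := by
  induction j using Int.induction_on with
  | zero => intro x hx; simpa using hx
  | succ i ih =>
    intro x hx
    have h1 := nn_up C e h _ (ih x hx)
    have h2 : C ^ ((i : ℤ) + 1) * x * (C ^ ((i : ℤ) + 1))⁻¹
        = C * (C ^ (i : ℤ) * x * (C ^ (i : ℤ))⁻¹) * C⁻¹ := by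
      group
    rw [h2]
    exact h1
  | pred i ih =>
    intro x hx
    have h2 : C ^ (-(i : ℤ) - 1) * x * (C ^ (-(i : ℤ) - 1))⁻¹
        = C⁻¹ * (C ^ (-(i : ℤ)) * x * (C ^ (-(i : ℤ)))⁻¹) * C := by
      group
    rw [h2, nn_down C e h _ (ih x hx)]
    exact pow_mem (ih x hx) 2

theorem bs_mem (C e : G) (h : e * C = C * e ^ 2) (x : G) (hx : x ∈ Subgroup.closure {C, e}) :
    ∃ n ∈ nn C e h, ∃ j : ℤ, x = n * C ^ j := by
  induction hx using Subgroup.closure_induction with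
  | mem x hx =>
    rcases hx with rfl | hx
    · exact ⟨1, one_mem _, 1, by simp⟩
    · have : x = e := hx
      subst this
      exact ⟨x, ⟨0, 1, by simp⟩, 0, by simp⟩
  | one => exact ⟨1, one_mem _, 0, by simp⟩
  | mul x y _ _ h1 h2 =>
    obtain ⟨n, hn, i, rfl⟩ := h1
    obtain ⟨m, hm, j, rfl⟩ := h2
    refine ⟨n * (C ^ i * m * (C ^ i)⁻¹), mul_mem hn (nn_conj C e h i m hm), i + j, ?_⟩
    group
  | inv x _ h1 =>
    obtain ⟨n, hn, i, rfl⟩ := h1
    refine ⟨C ^ (-i) * n⁻¹ * (C ^ (-i))⁻¹, nn_conj C e h (-i) _ (inv_mem hn), -i, ?_⟩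
    group

theorem bs_three (C e f : G) (h : e * C = C * e ^ 2) (h' : C * f * C⁻¹ = f ^ 2)
    (hf : f ∈ Subgroup.closure {C, e}) : f ^ 3 = 1 := by
  obtain ⟨n, hn, j, hj⟩ := bs_mem C e h f hf
  have h1 : C ^ j = n⁻¹ * (C * n * C⁻¹) * n⁻¹ := by
    rw [hj] at h'
    have h2 : C * n * C⁻¹ * C ^ j = n * C ^ j * (n * C ^ j) := by
      rw [← sq, ← h']
      group
    have h3 : C * n * C⁻¹ = n * C ^ j * n := by
      calc C * n * C⁻¹ = C * n * C⁻¹ * C ^ j * (C ^ j)⁻¹ := by group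
        _ = n * C ^ j * n := by rw [h2]; group
    rw [h3]
    group
  have h4 : f ∈ nn C e h := by
    rw [hj, h1]
    exact mul_mem hn (mul_mem (mul_mem (inv_mem hn) (nn_up C e h n hn)) (inv_mem hn))
  have h5 := nn_down C e h f h4
  have h6 : f = f ^ 4 := by
    calc f = C⁻¹ * (C * f * C⁻¹) * C := by group
      _ = (C⁻¹ * f * C) ^ 2 := by rw [h', sq f, sq (C⁻¹ * f * C)]; group
      _ = f ^ 4 := by rw [h5]; group
  calc f ^ 3 = f⁻¹ * f ^ 4 := by group
    _ = 1 := by rw [← h6]; group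

/-- The conclusion: `e` has order dividing three. -/
theorem e3 (A B z : G) (hA : z * A = A * z * A ^ 2 * z) (hB : z * B = B * z * B ^ 2 * z)
    (hC : z * (A * B) = A * B * z * (A * B) ^ 2 * z)
    (hR : B * A * (A * B) * ((A * B) ^ 2 * z) ^ 2 = 1) : ((A * B) ^ 2 * z) ^ 3 = 1 := by
  obtain ⟨C, rC⟩ : ∃ C, A * B = C := ⟨_, rfl⟩
  rw [rC] at hC hR ⊢
  obtain ⟨e, re⟩ : ∃ e, C ^ 2 * z = e := ⟨_, rfl⟩
  rw [re] at hR ⊢
  obtain ⟨D, rD⟩ : ∃ D, A * e ^ 2 = D := ⟨_, rfl⟩
  obtain ⟨f, rf⟩ : ∃ f, D⁻¹ * e * D = f := ⟨_, rfl⟩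
  -- `C⁻¹ e C = e ^ 2`
  have c8 : e * C = C * e ^ 2 := by
    rw [← re, sq (C ^ 2 * z)]
    calc C ^ 2 * z * C = C ^ 2 * (z * C) := by group
      _ = C ^ 2 * (C * z * C ^ 2 * z) := by rw [hC]
      _ = C * (C ^ 2 * z * (C ^ 2 * z)) := by group
  have c8' : e ^ 2 * C = C * e ^ 4 := by
    calc e ^ 2 * C = e * (e * C) := by rw [sq, mul_assoc]
      _ = e * (C * e ^ 2) := by rw [c8]
      _ = e * C * e ^ 2 := by rw [mul_assoc]
      _ = C * e ^ 2 * e ^ 2 := by rw [c8]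
      _ = C * e ^ 4 := by rw [mul_assoc, ← pow_add]
  have cBA : B * A = e⁻¹ ^ 2 * C⁻¹ := by
    have : B * A * (C * e ^ 2) = 1 := by
      rw [← hR]
      group
    rw [mul_eq_one_iff_eq_inv] at this
    rw [this]
    group
  -- `D⁻¹ C D = C⁻¹`
  have c10 : C * D = D * C⁻¹ := by
    rw [← rD]
    have e1 : A⁻¹ * C * A = e⁻¹ ^ 2 * C⁻¹ := by
      rw [← cBA, ← rC]
      group
    have e2 : e ^ 4 * C⁻¹ = C⁻¹ * e ^ 2 := by
      calc e ^ 4 * C⁻¹ = C⁻¹ * (C * e ^ 4) * C⁻¹ := by group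
        _ = C⁻¹ * e ^ 2 := by rw [← c8']; group
    calc C * (A * e ^ 2) = A * (A⁻¹ * C * A) * e ^ 2 := by group
      _ = A * e⁻¹ ^ 2 * (C⁻¹ * e ^ 2) := by rw [e1]; group
      _ = A * e ^ 2 * C⁻¹ := by rw [← e2]; group
  have c10' : C⁻¹ * D = D * C := by
    have : D = C⁻¹ * D * C⁻¹ := by
      calc D = C⁻¹ * (C * D) := by group
        _ = C⁻¹ * D * C⁻¹ := by rw [c10]; group
    calc C⁻¹ * D = C⁻¹ * D * C⁻¹ * C := by group
      _ = D * C := by rw [← this]
  -- `C f C⁻¹ = f ^ 2`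
  have c9 : C * f * C⁻¹ = f ^ 2 := by
    rw [← rf]
    have e3 : C * D⁻¹ = D⁻¹ * C⁻¹ := by
      calc C * D⁻¹ = D⁻¹ * (D * C) * D⁻¹ := by group
        _ = D⁻¹ * C⁻¹ := by rw [← c10']; group
    have e4 : D * C⁻¹ = C * D := c10.symm
    calc C * (D⁻¹ * e * D) * C⁻¹ = C * D⁻¹ * e * (D * C⁻¹) := by group
      _ = D⁻¹ * C⁻¹ * (e * C) * D := by rw [e3, e4]; group
      _ = D⁻¹ * e ^ 2 * D := by rw [c8]; group
      _ = (D⁻¹ * e * D) ^ 2 := by
        rw [sq (D⁻¹ * e * D), sq e]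
        simp only [mul_assoc, mul_inv_cancel_left]
  have hf : f ∈ Subgroup.closure {C, e} := by
    refine goal_mem A B z C D e f ?_ ?_ ?_ ?_ ?_ ?_ ?_ ?_ ?_ ?_ ?_
      (Subgroup.subset_closure (by simp)) (Subgroup.subset_closure (by simp))
    · have := inv_mul_eq_one.2 hA
      simpa only [pow_two, mul_assoc, mul_inv_rev] using this
    · have := inv_mul_eq_one.2 hB
      simpa only [pow_two, mul_assoc, mul_inv_rev] using this
    · have := inv_mul_eq_one.2 hC
      simpa only [pow_two, mul_assoc, mul_inv_rev] using this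
    · rw [← re] at hR
      simpa only [pow_two, mul_assoc, mul_inv_rev] using hR
    · rw [← rC]
      group
    · rw [← re]
      group
    · rw [← rD]
      group
    · rw [← rf]
      group
    · calc C⁻¹ * (e * (C * (e⁻¹ * e⁻¹))) = C⁻¹ * (e * C) * (e⁻¹ * e⁻¹) := by
            simp only [mul_assoc]
        _ = 1 := by
            rw [c8, sq]
            simp only [mul_assoc, inv_mul_cancel_left, mul_inv_cancel_left, mul_inv_cancel]
    · calc C * (f * (C⁻¹ * (f⁻¹ * f⁻¹))) = C * f * C⁻¹ * (f⁻¹ * f⁻¹) := by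
            simp only [mul_assoc]
        _ = 1 := by
            rw [c9, sq]
            simp only [mul_assoc, mul_inv_cancel_left, mul_inv_cancel]
    · calc D⁻¹ * (C * (D * C)) = D⁻¹ * (C * D) * C := by group
        _ = 1 := by rw [c10]; group
  have h3 := bs_three C e f c8 c9 hf
  have h4 : (D⁻¹ * e * D) ^ 3 = D⁻¹ * e ^ 3 * D := by
    simp only [pow_succ, pow_zero, one_mul, mul_assoc, mul_inv_cancel_left]
  rw [rf, h3] at h4
  calc e ^ 3 = D * (D⁻¹ * e ^ 3 * D) * D⁻¹ := by group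
    _ = 1 := by rw [← h4]; group

end

end Pool.Agent.Helper95.GT3
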